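import Pool.Agent.Lib_helper15.VM.DefsE

/-! helper95: MP_5582d1_ag, block B0 -/

set_option autoImplicit false

namespace Pool.Agent.VM.B0p

open Pool.Agent.VM
open scoped Classical
open Polynomial

attribute [-instance] Subtype.instDecidableEq

noncomputable section

private lemma xc_inc {Λ : Type} [Field Λ] (Kb : Subfield Λ) (a : Pt E2 Kb) :
    xc (inc Kb a) = ((xc a : Kb) : Λ) := by
  rcases a with _ | ⟨x, y, h⟩
  · rfl
  · rfl

private lemma yc_inc {Λ : Type} [Field Λ] (Kb : Subfield Λ) (a : Pt E2 Kb) :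
    yc (inc Kb a) = ((yc a : Kb) : Λ) := by
  rcases a with _ | ⟨x, y, h⟩
  · rfl
  · rfl

private lemma le_fe {Λ : Type} [Field Λ] (Kb : Subfield Λ) (e : Pt E2 Λ) : Kb ≤ fe Kb e := by
  intro x hx
  exact Subfield.subset_closure (Or.inl hx)

/-- B0: `F = fe Kb e` as an abstract extension of `Kb` -/
theorem bridge {Λ : Type} [Field Λ] [CharZero Λ] (Kb : Subfield Λ) (e : Pt E2 Λ)
    (he : Transcendental Kb (xc e)) :
    ∃ (F : Type) (_ : Field F) (_ : Algebra Kb F) (φ : F →+* Λ) (e' : Pt E2 F),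
      (∀ c : Kb, φ (algebraMap Kb F c) = c) ∧ (∀ x : Λ, x ∈ fe Kb e ↔ ∃ y, φ y = x) ∧
      φ (xc e') = xc e ∧ φ (yc e') = yc e ∧ IntermediateField.adjoin Kb (cs e') = ⊤ ∧
      Transcendental Kb (xc e') ∧
      ∀ (a : Pt E2 Kb) (u : QV Λ), AtPt Kb e a u ↔ At e' a (u.comap φ) := by
  have hle := le_fe Kb e
  have hex : xc e ∈ fe Kb e := Subfield.subset_closure (Or.inr (Or.inl rfl))
  have hey : yc e ∈ fe Kb e := Subfield.subset_closure (Or.inr (Or.inr rfl))
  let alg : Algebra Kb ↥(fe Kb e) := (Subfield.inclusion hle).toAlgebra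
  -- the point
  have hpt : ∃ e' : Pt E2 ↥(fe Kb e), ((xc e' : ↥(fe Kb e)) : Λ) = xc e ∧ ((yc e' : ↥(fe Kb e)) : Λ) = yc e := by
    rcases e with _ | ⟨x, y, h⟩
    · exfalso
      apply he
      exact isAlgebraic_zero
    · have hn : (E2.baseChange ↥(fe Kb (.some x y h))).toAffine.Nonsingular
          (⟨x, hex⟩ : ↥(fe Kb (.some x y h))) ⟨y, hey⟩ := by
        have := (WeierstrassCurve.Affine.baseChange_nonsingular (W := E2)
          (f := (fe Kb (.some x y h)).subtype.toIntAlgHom)
          Subtype.val_injective (⟨x, hex⟩ : ↥(fe Kb (.some x y h))) ⟨y, hey⟩)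
        exact this.mp h
      exact ⟨.some _ _ hn, rfl, rfl⟩
  obtain ⟨e', hx, hy⟩ := hpt
  have hφ : ∀ c : Kb, (fe Kb e).subtype (algebraMap Kb ↥(fe Kb e) c) = c := fun c => rfl
  refine ⟨↥(fe Kb e), inferInstance, alg, (fe Kb e).subtype, e', hφ, ?_, hx, hy, ?_, ?_, ?_⟩
  · intro x
    constructor
    · intro h; exact ⟨⟨x, h⟩, rfl⟩
    · rintro ⟨y, rfl⟩; exact y.2
  · rw [eq_top_iff]
    intro y _
    have h1 : fe Kb e ≤ ((IntermediateField.adjoin Kb (cs e')).toSubfield.map (fe Kb e).subtype) := by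
      apply Subfield.closure_le.mpr
      rintro z (hz | hz | hz)
      · exact ⟨algebraMap Kb ↥(fe Kb e) ⟨z, hz⟩, IntermediateField.algebraMap_mem _ _, rfl⟩
      · exact ⟨xc e', IntermediateField.subset_adjoin _ _ (Or.inl rfl), by rw [hz]; exact hx⟩
      · exact ⟨yc e', IntermediateField.subset_adjoin _ _ (Or.inr rfl), by rw [hz]; exact hy⟩
    obtain ⟨z, hz, hzy⟩ := h1 y.2
    have : z = y := Subtype.val_injective hzy
    rw [← this]
    exact hz
  · let f : ↥(fe Kb e) →ₐ[Kb] Λ := { (fe Kb e).subtype with commutes' := fun c => rfl }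
    intro h
    apply he
    have := (isAlgebraic_algHom_iff f Subtype.val_injective (a := xc e')).mpr h
    rwa [show f (xc e') = xc e from hx] at this
  · intro a u
    have c1 : ∀ H : ↥(fe Kb e), (u.comap (fe Kb e).subtype).v H = u.v (H : Λ) := fun H => rfl
    constructor
    · intro h
      refine ⟨⟨?_, ?_, ?_⟩, ?_, ?_⟩
      · intro d hd
        exact h.triv d d.2 (by simpa using hd)
      · intro ha
        have := h.ctr ha
        rw [xc_inc, yc_inc] at this
        rw [c1, c1]
        push_cast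
        rw [hx, hy]
        exact this
      · intro ha
        rw [c1, hx]
        exact h.ctr0 ha
      · intro H hH
        exact h.int H H.2 (by simpa using hH)
      · obtain ⟨H, hH, h0, h1⟩ := h.unif
        exact ⟨⟨H, hH⟩, fun h => h0 (congrArg Subtype.val h), h1⟩
    · intro h
      refine ⟨?_, ?_, ?_, ?_, ?_⟩
      · intro c hc h0
        exact h.triv ⟨c, hc⟩ (fun h => h0 (congrArg Subtype.val h))
      · intro ha
        have := h.ctr ha
        rw [c1, c1] at this
        push_cast at this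
        rw [hx, hy] at this
        rw [xc_inc, yc_inc]
        exact this
      · intro ha
        have := h.ctr0 ha
        rwa [c1, hx] at this
      · intro H hH h0
        exact h.int ⟨H, hH⟩ (fun h => h0 (congrArg Subtype.val h))
      · obtain ⟨H, h0, h1⟩ := h.unif
        exact ⟨H, H.2, by simpa using h0, h1⟩

end

end Pool.Agent.VM.B0p

namespace Pool.Agent.VM

export B0p (bridge)

end Pool.Agent.VM
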