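import Pool.Agent.Lib_helper85.VM.Defs

/-!
# MP_5582d1_ag, part III-A: the line, definitions
-/

set_option autoImplicit false

namespace Pool.Agent.VM

open scoped Classical
open Polynomial

noncomputable section

/-- `u` is a place of the line with coordinate `S` over `k`, normalised: `S = c` for `some c`,
`S = ∞` for `none`. -/
structure Pl {k F : Type} [Field k] [Field F] [Algebra k F] (S : F) (x : Option k) (u : QV F) :
    Prop where
  triv : ∀ d : k, d ≠ 0 → u.v (algebraMap k F d) = 0
  fin : ∀ c : k, x = some c → u.v (S - algebraMap k F c) = 1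
  inf : x = none → u.v S = -1

/-- `g` is the Gauss norm of `f` -/
def IsGN {F : Type} [Field F] (u : QV F) (f : F[X]) (g : ℚ) : Prop :=
  (∀ j, f.coeff j ≠ 0 → g ≤ u.v (f.coeff j)) ∧ ∃ j, f.coeff j ≠ 0 ∧ u.v (f.coeff j) = g

end

end Pool.Agent.VM
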