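import Pool.Agent.Lib_helper85.VM.Defs2
import Pool.Agent.Lib_helper15.VM.DefsL

/-!
# MP_5582d1_ag, part III-B: the curve `E₂ : y² = x³ + 1` over an algebraically closed field `k`,
`F = k(e)`: definitions.
-/

set_option autoImplicit false

namespace Pool.Agent.VM

open scoped Classical
open Polynomial

attribute [-instance] Subtype.instDecidableEq

noncomputable section

/-- scaling a valuation -/
def QV.scale {K : Type*} [Field K] (r : ℚ) (hr : 0 < r) (u : QV K) : QV K where
  v a := r * u.v a
  mul ha hb := by rw [u.mul ha hb]; ring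
  add ha hb hab := by
    rw [← mul_min_of_nonneg _ _ hr.le]
    exact mul_le_mul_of_nonneg_left (u.add ha hb hab) hr.le

/-- `u` is trivial on `k` and has centre `a` -/
structure Ctr {k F : Type} [Field k] [Field F] [Algebra k F] (e : Pt E2 F) (a : Pt E2 k)
    (u : QV F) : Prop where
  triv : ∀ d : k, d ≠ 0 → u.v (algebraMap k F d) = 0
  ctr : a ≠ 0 → 0 < u.v (xc e - algebraMap k F (xc a)) ∧ 0 < u.v (yc e - algebraMap k F (yc a))
  ctr0 : a = 0 → u.v (xc e) < 0

/-- `u` is the normalised valuation of `F = k(e)` with centre `a` -/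
structure At {k F : Type} [Field k] [Field F] [Algebra k F] (e : Pt E2 F) (a : Pt E2 k)
    (u : QV F) : Prop extends Ctr e a u where
  int : ∀ H : F, H ≠ 0 → ∃ n : ℤ, u.v H = n
  unif : ∃ H : F, H ≠ 0 ∧ u.v H = 1

/-- the point of the line below `a` -/
def pr {k : Type} [Field k] (a : Pt E2 k) : Option k := if a = 0 then none else some (xc a)

/-- the ramification index -/
def ri {k : Type} [Field k] (a : Pt E2 k) : ℚ := if a = 0 ∨ yc a = 0 then 2 else 1

end

end Pool.Agent.VM
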