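import Pool.Agent.Lib_helper67.VM.PtF
import Pool.Agent.Lib_helper15.VM.DefsE

/-!
# MP_5582d1_ag, part III-B, block F1: normal form and conjugation
-/

set_option autoImplicit false

namespace Pool.Agent.VM.F1p

open scoped Classical
open Polynomial

attribute [-instance] Subtype.instDecidableEq

noncomputable section

section
variable {k F : Type} [Field k] [CharZero k] [Field F] [Algebra k F] {e : Pt E2 F}

/-- the equation of the curve -/
theorem f1_sq {K : Type*} [Field K] {p : Pt E2 K} (hp : p ≠ 0) : yc p ^ 2 = xc p ^ 3 + 1 := by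
  have h := ptf_sq hp
  simpa using h

omit [CharZero k] in
theorem f1_ne (he : Transcendental k (xc e)) : e ≠ 0 := by
  rintro rfl
  exact he isAlgebraic_zero

omit [CharZero k] in
theorem f1_mem : xc e ∈ IntermediateField.adjoin k {xc e} :=
  IntermediateField.mem_adjoin_simple_self k (xc e)

omit [CharZero k] in
theorem f1_cube_mem : xc e ^ 3 + 1 ∈ IntermediateField.adjoin k {xc e} :=
  add_mem (pow_mem f1_mem 3) (one_mem _)

/-- F1b: `Y` is not in `k(S)` (`S³ + 1` is not a square), more generally in any field -/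
theorem yc_notMem (he : Transcendental k (xc e)) :
    yc e ∉ IntermediateField.adjoin k {xc e} := by
  intro h
  rw [IntermediateField.mem_adjoin_simple_iff] at h
  obtain ⟨p, q, hpq⟩ := h
  have hsq := f1_sq (f1_ne he)
  have hcube : xc e ^ 3 + 1 ≠ 0 := by
    intro h0
    refine he ⟨X ^ 3 + 1, ?_, ?_⟩
    · intro h1
      have := congrArg natDegree h1
      rw [show (X ^ 3 + 1 : k[X]) = X ^ 3 + C 1 by simp, natDegree_X_pow_add_C] at this
      simp at this
    · simpa using h0
  have hy : yc e ≠ 0 := by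
    intro h0
    rw [h0, zero_pow two_ne_zero] at hsq
    exact hcube hsq.symm
  have hq : aeval (xc e) q ≠ 0 := by
    intro h0
    rw [h0, div_zero] at hpq
    exact hy hpq
  have hp : aeval (xc e) p ≠ 0 := by
    intro h0
    rw [h0, zero_div] at hpq
    exact hy hpq
  have h1 : aeval (xc e) (p ^ 2 - q ^ 2 * (X ^ 3 + C 1)) = 0 := by
    have h2 : aeval (xc e) p ^ 2 = (xc e ^ 3 + 1) * aeval (xc e) q ^ 2 := by
      rw [← hsq, hpq]
      field_simp
    simp only [map_sub, map_pow, map_mul, map_add, aeval_X, map_one]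
    rw [h2]
    ring
  have h3 : p ^ 2 - q ^ 2 * (X ^ 3 + C 1) = 0 := by
    by_contra hne
    exact he ⟨_, hne, h1⟩
  have h4 : p ^ 2 = q ^ 2 * (X ^ 3 + C 1) := sub_eq_zero.1 h3
  have hp0 : p ≠ 0 := by rintro rfl; simp at hp
  have hq0 : q ≠ 0 := by rintro rfl; simp at hq
  have h5 := congrArg natDegree h4
  rw [natDegree_pow, natDegree_mul (pow_ne_zero 2 hq0) (X_pow_add_C_ne_zero (by norm_num) 1),
    natDegree_pow, natDegree_X_pow_add_C] at h5
  omega

/-- the norm of `A + B Y` is not zero -/
theorem f1_norm (he : Transcendental k (xc e)) {A B : F}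
    (hA : A ∈ IntermediateField.adjoin k {xc e}) (hB : B ∈ IntermediateField.adjoin k {xc e})
    (h0 : A + B * yc e ≠ 0) : A ^ 2 - B ^ 2 * (xc e ^ 3 + 1) ≠ 0 := by
  intro h
  have hsq := f1_sq (f1_ne he)
  have h1 : (A + B * yc e) * (A - B * yc e) = 0 := by
    rw [← hsq] at h
    linear_combination h
  rcases mul_eq_zero.1 h1 with h2 | h2
  · exact h0 h2
  · have hB0 : B = 0 := by
      by_contra hB0
      apply yc_notMem he
      have h3 : yc e = A / B := by
        rw [eq_div_iff hB0]
        linear_combination -h2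
      rw [h3]
      exact div_mem hA hB
    rw [hB0, zero_mul, sub_zero] at h2
    rw [hB0, h2] at h0
    simp at h0

/-- F1a: `F = k(S) + k(S) Y` (no algebraic closedness needed) -/
theorem nf_exists (he : Transcendental k (xc e)) (hg : IntermediateField.adjoin k (cs e) = ⊤)
    (H : F) : ∃ A ∈ IntermediateField.adjoin k {xc e}, ∃ B ∈ IntermediateField.adjoin k {xc e},
      H = A + B * yc e := by
  have hsq := f1_sq (f1_ne he)
  let N : IntermediateField k F :=
    { carrier := {H | ∃ A ∈ IntermediateField.adjoin k {xc e},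
        ∃ B ∈ IntermediateField.adjoin k {xc e}, H = A + B * yc e}
      mul_mem' := by
        rintro _ _ ⟨A, hA, B, hB, rfl⟩ ⟨C, hC, D, hD, rfl⟩
        refine ⟨A * C + B * D * (xc e ^ 3 + 1), ?_, A * D + B * C, ?_, ?_⟩
        · exact add_mem (mul_mem hA hC) (mul_mem (mul_mem hB hD) f1_cube_mem)
        · exact add_mem (mul_mem hA hD) (mul_mem hB hC)
        · rw [← hsq]
          ring
      add_mem' := by
        rintro _ _ ⟨A, hA, B, hB, rfl⟩ ⟨C, hC, D, hD, rfl⟩
        exact ⟨A + C, add_mem hA hC, B + D, add_mem hB hD, by ring⟩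
      algebraMap_mem' := fun r =>
        ⟨algebraMap k F r, IntermediateField.algebraMap_mem _ r, 0, zero_mem _, by simp⟩
      inv_mem' := by
        rintro _ ⟨A, hA, B, hB, rfl⟩
        by_cases h0 : A + B * yc e = 0
        · exact ⟨0, zero_mem _, 0, zero_mem _, by rw [h0]; simp⟩
        · have hN := f1_norm he hA hB h0
          have hNm : A ^ 2 - B ^ 2 * (xc e ^ 3 + 1) ∈ IntermediateField.adjoin k {xc e} :=
            sub_mem (pow_mem hA 2) (mul_mem (pow_mem hB 2) f1_cube_mem)
          refine ⟨A / (A ^ 2 - B ^ 2 * (xc e ^ 3 + 1)), div_mem hA hNm,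
            -B / (A ^ 2 - B ^ 2 * (xc e ^ 3 + 1)), div_mem (neg_mem hB) hNm, ?_⟩
          rw [inv_eq_iff_eq_inv, ← sub_eq_zero]
          have h1 : A / (A ^ 2 - B ^ 2 * (xc e ^ 3 + 1)) +
              -B / (A ^ 2 - B ^ 2 * (xc e ^ 3 + 1)) * yc e =
              (A - B * yc e) / (A ^ 2 - B ^ 2 * (xc e ^ 3 + 1)) := by ring
          have h2 : A ^ 2 - B ^ 2 * (xc e ^ 3 + 1) = (A + B * yc e) * (A - B * yc e) := by
            rw [← hsq]; ring
          have h3 : A - B * yc e ≠ 0 := fun h => hN (by rw [h2, h, mul_zero])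
          rw [h1, h2]
          field_simp
          ring }
  have h1 : IntermediateField.adjoin k (cs e) ≤ N := by
    rw [IntermediateField.adjoin_le_iff]
    rintro x (rfl | rfl)
    · exact ⟨xc e, f1_mem, 0, zero_mem _, by simp⟩
    · exact ⟨0, zero_mem _, 1, one_mem _, by simp⟩
  rw [hg] at h1
  exact h1 (IntermediateField.mem_top (x := H))

/-- uniqueness of the normal form -/
theorem f1_unique (he : Transcendental k (xc e)) {A B C D : F}
    (hA : A ∈ IntermediateField.adjoin k {xc e}) (hB : B ∈ IntermediateField.adjoin k {xc e})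
    (hC : C ∈ IntermediateField.adjoin k {xc e}) (hD : D ∈ IntermediateField.adjoin k {xc e})
    (h : A + B * yc e = C + D * yc e) : A = C ∧ B = D := by
  have hBD : B = D := by
    by_contra hne
    apply yc_notMem he
    have h1 : B - D ≠ 0 := sub_ne_zero.2 hne
    have h3 : yc e = (C - A) / (B - D) := by
      rw [eq_div_iff h1]
      linear_combination h
    rw [h3]
    exact div_mem (sub_mem hC hA) (sub_mem hB hD)
  refine ⟨?_, hBD⟩
  rw [hBD] at h
  exact add_right_cancel h

/-- F1c: the conjugation `e ↦ -e` -/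
theorem conj_exists (he : Transcendental k (xc e)) (hg : IntermediateField.adjoin k (cs e) = ⊤) :
    ∃ ι : F ≃ₐ[k] F, ι (xc e) = xc e ∧ ι (yc e) = - yc e ∧ (∀ H, ι (ι H) = H) ∧
      (∀ A ∈ IntermediateField.adjoin k {xc e}, ι A = A) ∧
      ∀ H, H * ι H ∈ IntermediateField.adjoin k {xc e} := by
  have hsq := f1_sq (f1_ne he)
  choose a ha b hb hab using nf_exists he hg
  have hι : ∀ A ∈ IntermediateField.adjoin k {xc e}, ∀ B ∈ IntermediateField.adjoin k {xc e},
      a (A + B * yc e) = A ∧ b (A + B * yc e) = B := by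
    intro A hA B hB
    have h := f1_unique he hA hB (ha (A + B * yc e)) (hb (A + B * yc e)) (hab _)
    exact ⟨h.1.symm, h.2.symm⟩
  have hval : ∀ A ∈ IntermediateField.adjoin k {xc e}, ∀ B ∈ IntermediateField.adjoin k {xc e},
      ∀ H, H = A + B * yc e → a H - b H * yc e = A - B * yc e := by
    rintro A hA B hB _ rfl
    rw [(hι A hA B hB).1, (hι A hA B hB).2]
  have hfix : ∀ A ∈ IntermediateField.adjoin k {xc e}, a A - b A * yc e = A := by
    intro A hA
    rw [hval A hA 0 (zero_mem _) A (by simp)]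
    simp
  let f : F →ₐ[k] F :=
    { toFun := fun H => a H - b H * yc e
      map_one' := hfix 1 (one_mem _)
      map_mul' := by
        intro H G
        rw [hval (a H * a G + b H * b G * (xc e ^ 3 + 1)) (add_mem (mul_mem (ha H) (ha G))
          (mul_mem (mul_mem (hb H) (hb G)) f1_cube_mem)) (a H * b G + b H * a G)
          (add_mem (mul_mem (ha H) (hb G)) (mul_mem (hb H) (ha G))) (H * G) ?_]
        · rw [← hsq]
          ring
        · nth_rewrite 1 [hab H, hab G]
          rw [← hsq]
          ring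
      map_zero' := hfix 0 (zero_mem _)
      map_add' := by
        intro H G
        rw [hval (a H + a G) (add_mem (ha H) (ha G)) (b H + b G) (add_mem (hb H) (hb G)) (H + G) ?_]
        · ring
        · nth_rewrite 1 [hab H, hab G]
          ring
      commutes' := fun r => hfix _ (IntermediateField.algebraMap_mem _ r) }
  have hf : ∀ H, f H = a H - b H * yc e := fun _ => rfl
  have hff : ∀ H, f (f H) = H := by
    intro H
    rw [hf (f H), hval (a H) (ha H) (-b H) (neg_mem (hb H)) (f H) (by rw [hf]; ring)]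
    nth_rewrite 3 [hab H]
    ring
  refine ⟨AlgEquiv.ofAlgHom f f (AlgHom.ext hff) (AlgHom.ext hff), ?_, ?_, hff, ?_, ?_⟩
  · exact hfix _ f1_mem
  · show f (yc e) = _
    rw [hf, hval 0 (zero_mem _) 1 (one_mem _) (yc e) (by simp)]
    simp
  · exact fun A hA => hfix A hA
  · intro H
    show H * f H ∈ _
    have h1 : H * f H = a H ^ 2 - b H ^ 2 * (xc e ^ 3 + 1) := by
      rw [hf]
      nth_rewrite 1 [hab H]
      rw [← hsq]
      ring
    rw [h1]
    exact sub_mem (pow_mem (ha H) 2) (mul_mem (pow_mem (hb H) 2) f1_cube_mem)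

end

end

end Pool.Agent.VM.F1p

namespace Pool.Agent.VM

export F1p (nf_exists yc_notMem conj_exists)

end Pool.Agent.VM
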