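import Pool.Agent.Lib_helper15.VM.DefsL

/-! MP_5582d1_ag, part III, block L2: the value of `p(S)` at a place of the line. -/

set_option autoImplicit false

namespace Pool.Agent.VM.L2p

open scoped Classical
open Polynomial

noncomputable section

section
variable {k F : Type} [Field k] [Field F] [Algebra k F] {S : F}

private theorem l2_const {u : QV F} (triv : ∀ d : k, d ≠ 0 → u.v (algebraMap k F d) = 0) (d : k) :
    algebraMap k F d ∈ u.ring := by
  rw [QV.mem_ring]
  by_cases h : d = 0
  · left; rw [h, map_zero]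
  · right; rw [triv d h]

private theorem l2_ring {u : QV F} (triv : ∀ d : k, d ≠ 0 → u.v (algebraMap k F d) = 0) {T : F}
    (hT : T ∈ u.ring) (p : k[X]) : aeval T p ∈ u.ring := by
  induction p using Polynomial.induction_on' with
  | add p q hp hq =>
    rw [map_add]
    exact u.ring.add_mem _ _ hp hq
  | monomial n a =>
    rw [aeval_monomial]
    exact u.ring.mul_mem _ _ (l2_const triv a) (pow_mem hT n)

private theorem l2_unit {u : QV F} (triv : ∀ d : k, d ≠ 0 → u.v (algebraMap k F d) = 0) (c : k)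
    {T : F} (hT : T ≠ 0) (hv : 0 < u.v T) (q : k[X]) (hq : q.eval c ≠ 0) :
    aeval (T + algebraMap k F c) q ≠ 0 ∧ u.v (aeval (T + algebraMap k F c) q) = 0 := by
  obtain ⟨r, hr⟩ := Polynomial.X_sub_C_dvd_sub_C_eval (a := c) (p := q)
  have e : aeval (T + algebraMap k F c) q =
      algebraMap k F (q.eval c) + T * aeval (T + algebraMap k F c) r := by
    have h1 := congrArg (aeval (T + algebraMap k F c)) hr
    rw [map_sub, map_mul, map_sub, aeval_C, aeval_X, aeval_C, add_sub_cancel_right] at h1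
    rw [← h1]
    ring
  have hc : algebraMap k F (q.eval c) ≠ 0 := by
    rw [Ne, map_eq_zero]
    exact hq
  have hTr : T + algebraMap k F c ∈ u.ring :=
    u.ring.add_mem _ _ ((u.mem_ring_of hT).2 hv.le) (l2_const triv c)
  rw [e]
  by_cases h0 : aeval (T + algebraMap k F c) r = 0
  · rw [h0, mul_zero, add_zero]
    exact ⟨hc, triv _ hq⟩
  · have h1 : 0 ≤ u.v (aeval (T + algebraMap k F c) r) :=
      (u.mem_ring_of h0).1 (l2_ring triv hTr r)
    have h2 : u.v (algebraMap k F (q.eval c)) < u.v (T * aeval (T + algebraMap k F c) r) := by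
      rw [triv _ hq, u.mul hT h0]
      linarith
    obtain ⟨h3, h4⟩ := u.add_eq_of_lt hc (mul_ne_zero hT h0) h2
    exact ⟨h3, h4.trans (triv _ hq)⟩

/-- L2: `p = (X - c)^m q`, `q(c) ≠ 0`, `q - q(c)` is divisible by `X - c`; polynomials in `S` have
value `≥ 0` -/
theorem pl_poly_fin (hS : Transcendental k S) {c : k} {u : QV F} (h : Pl S (some c) u) (p : k[X])
    (hp : p ≠ 0) : u.v (aeval S p) = (p.rootMultiplicity c : ℚ) := by
  obtain ⟨q, hq, hq'⟩ := Polynomial.exists_eq_pow_rootMultiplicity_mul_and_not_dvd p hp c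
  have hT : S - algebraMap k F c ≠ 0 := by
    intro h0
    refine hS ⟨X - C c, X_sub_C_ne_zero c, ?_⟩
    rw [map_sub, aeval_X, aeval_C]
    exact h0
  have hv : u.v (S - algebraMap k F c) = 1 := h.fin c rfl
  have hqc : q.eval c ≠ 0 := fun h0 => hq' (dvd_iff_isRoot.2 h0)
  obtain ⟨h1, h2⟩ := l2_unit h.triv c hT (by rw [hv]; exact one_pos) q hqc
  rw [sub_add_cancel] at h1 h2
  have e : aeval S p = (S - algebraMap k F c) ^ p.rootMultiplicity c * aeval S q := by
    conv_lhs => rw [hq]
    rw [map_mul, map_pow, map_sub, aeval_X, aeval_C]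
  rw [e, u.mul (pow_ne_zero _ hT) h1, h2, u.pow hT, hv]
  ring

/-- L2: the leading term dominates -/
theorem pl_poly_inf (hS : Transcendental k S) {u : QV F} (h : Pl S (none : Option k) u) (p : k[X])
    (hp : p ≠ 0) : u.v (aeval S p) = -(p.natDegree : ℚ) := by
  have hS0 : S ≠ 0 := by
    rintro rfl
    exact hS ⟨X, X_ne_zero, by rw [aeval_X]⟩
  have hv : u.v S⁻¹ = 1 := by
    rw [u.inv hS0, h.inf rfl]
    norm_num
  have hq : p.reverse.eval 0 ≠ 0 := by
    rw [← coeff_zero_eq_eval_zero, coeff_zero_reverse]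
    exact leadingCoeff_ne_zero.2 hp
  obtain ⟨h1, h2⟩ := l2_unit h.triv (0 : k) (inv_ne_zero hS0) (by rw [hv]; exact one_pos)
    p.reverse hq
  rw [map_zero, add_zero] at h1 h2
  have e : aeval S p = aeval S⁻¹ p.reverse * S ^ p.natDegree := by
    have := invertibleOfNonzero hS0
    have h3 := eval₂_reverse_mul_pow (algebraMap k F) S p
    rw [invOf_eq_inv] at h3
    rw [aeval_def, aeval_def, h3]
  rw [e, u.mul h1 (pow_ne_zero _ hS0), h2, u.pow hS0, h.inf rfl]
  ring

end

end

end Pool.Agent.VM.L2p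

namespace Pool.Agent.VM

export L2p (pl_poly_fin pl_poly_inf)

end Pool.Agent.VM
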