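import Pool.Agent.Lib_helper15.VM.DefsE
import Pool.Agent.Lib_helper15.VM.F1
import Pool.Agent.Lib_helper15.VM.L2

/-!
# MP_5582d1_ag, block F2: the values of a valuation of `k(e)` with centre `a`
-/

set_option autoImplicit false

namespace Pool.Agent.VM.F2p

open scoped Classical
open Polynomial Pool.Agent.VM

attribute [-instance] Subtype.instDecidableEq

noncomputable section

variable {k F : Type} [Field k] [CharZero k] [Field F] [Algebra k F] {e : Pt E2 F}

/-- the equation of a point with transcendental `x`-coordinate -/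
private theorem eqn {R : Type} [Field R] (P : Pt E2 R) (hP : P ≠ 0) : yc P ^ 2 = xc P ^ 3 + 1 := by
  rcases P with _ | ⟨x, y, h⟩
  · exact absurd rfl hP
  · have h1 := (WeierstrassCurve.Affine.equation_iff _ _).1 h.1
    show y ^ 2 = x ^ 3 + 1
    simp [E2, SW, WeierstrassCurve.baseChange] at h1
    linear_combination h1

private theorem ne0 (he : Transcendental k (xc e)) : e ≠ 0 := by
  rintro rfl
  exact he isAlgebraic_zero

private theorem S_sub_ne (he : Transcendental k (xc e)) (c : k) : xc e - algebraMap k F c ≠ 0 := by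
  intro h
  exact he ((sub_eq_zero.1 h) ▸ isAlgebraic_algebraMap c)

private theorem S_ne (he : Transcendental k (xc e)) : xc e ≠ 0 := by
  intro h
  exact he (h ▸ isAlgebraic_zero)

private theorem Y_ne (he : Transcendental k (xc e)) : yc e ≠ 0 := by
  intro h
  have h1 := eqn e (ne0 he)
  rw [h] at h1
  refine he ⟨X ^ 3 + 1, ?_, ?_⟩
  · exact (monic_X_pow_add_C (1 : k) (by norm_num : (3 : ℕ) ≠ 0)).ne_zero
  · rw [map_add, map_pow, aeval_X, map_one]
    linear_combination -h1

theorem ctr_pl (he : Transcendental k (xc e)) (a : Pt E2 k) (u : QV F) (hu : Ctr e a u) :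
    ∃ (s : ℚ) (hs : 0 < s), Pl (xc e) (pr a) (u.scale (1 / s) (by positivity)) := by
  by_cases ha : a = 0
  · have h1 := hu.ctr0 ha
    refine ⟨-u.v (xc e), by linarith, ?_, ?_, ?_⟩
    · intro d hd
      show 1 / _ * u.v _ = 0
      rw [hu.triv d hd, mul_zero]
    · intro c hc
      rw [pr, if_pos ha] at hc
      exact absurd hc (by simp)
    · intro _
      show 1 / (-u.v (xc e)) * u.v (xc e) = -1
      have h2 : u.v (xc e) ≠ 0 := h1.ne
      field_simp
  · have h1 := (hu.ctr ha).1
    refine ⟨u.v (xc e - algebraMap k F (xc a)), h1, ?_, ?_, ?_⟩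
    · intro d hd
      show 1 / _ * u.v _ = 0
      rw [hu.triv d hd, mul_zero]
    · intro c hc
      rw [pr, if_neg ha] at hc
      obtain rfl := Option.some.inj hc
      show 1 / (u.v (xc e - algebraMap k F (xc a))) * u.v (xc e - algebraMap k F (xc a)) = 1
      field_simp
    · intro hc
      rw [pr, if_neg ha] at hc
      exact absurd hc (by simp)

/-- values on `k(S)` -/
private theorem vals_line (he : Transcendental k (xc e)) (a : Pt E2 k) (u : QV F) (s : ℚ)
    (hs : 0 < s) (hp : Pl (xc e) (pr a) (u.scale (1 / s) (by positivity))) (A : F)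
    (hA : A ∈ IntermediateField.adjoin k {xc e}) (h0 : A ≠ 0) : ∃ n : ℤ, u.v A = n * s := by
  have hpoly : ∀ p : k[X], p ≠ 0 → aeval (xc e) p ≠ 0 ∧ ∃ n : ℤ, u.v (aeval (xc e) p) = n * s := by
    intro p hp0
    refine ⟨fun h => hp0 ((transcendental_iff.1 he) p h), ?_⟩
    rcases hx : pr a with _ | c
    · rw [hx] at hp
      have h1 := pl_poly_inf he hp p hp0
      refine ⟨-(p.natDegree : ℤ), ?_⟩
      have h2 : 1 / s * u.v (aeval (xc e) p) = -(p.natDegree : ℚ) := h1
      field_simp at h2
      push_cast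
      linarith
    · rw [hx] at hp
      have h1 := pl_poly_fin he hp p hp0
      refine ⟨(p.rootMultiplicity c : ℤ), ?_⟩
      have h2 : 1 / s * u.v (aeval (xc e) p) = (p.rootMultiplicity c : ℚ) := h1
      field_simp at h2
      push_cast
      linarith
  obtain ⟨p, q, rfl⟩ := (IntermediateField.mem_adjoin_simple_iff k A).1 hA
  have hp0 : p ≠ 0 := by
    rintro rfl
    simp at h0
  have hq0 : q ≠ 0 := by
    rintro rfl
    simp at h0
  obtain ⟨h1, n, hn⟩ := hpoly p hp0
  obtain ⟨h2, m, hm⟩ := hpoly q hq0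
  refine ⟨n - m, ?_⟩
  rw [u.div h1 h2, hn, hm]
  push_cast
  ring

/-- the value of `Y` in the ramified cases -/
private theorem val_Y (he : Transcendental k (xc e)) (a : Pt E2 k) (u : QV F) (s : ℚ)
    (hs : 0 < s) (hp : Pl (xc e) (pr a) (u.scale (1 / s) (by positivity))) :
    (a = 0 → u.v (yc e) = -(3 * s / 2)) ∧ (a ≠ 0 → yc a = 0 → u.v (yc e) = s / 2) := by
  have hY := Y_ne he
  have hpol : (X ^ 3 + C (1 : k)) ≠ 0 :=
    (monic_X_pow_add_C (1 : k) (by norm_num : (3 : ℕ) ≠ 0)).ne_zero
  have hev : aeval (xc e) (X ^ 3 + C (1 : k)) = yc e ^ 2 := by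
    rw [map_add, map_pow, aeval_X, aeval_C, map_one, eqn e (ne0 he)]
  have hpow : u.v (yc e ^ 2) = 2 * u.v (yc e) := by
    rw [u.pow hY]
    norm_num
  constructor
  · intro ha
    rw [pr, if_pos ha] at hp
    have h1 := pl_poly_inf he hp _ hpol
    rw [hev, natDegree_X_pow_add_C] at h1
    have h2 : 1 / s * u.v (yc e ^ 2) = -((3 : ℕ) : ℚ) := h1
    rw [hpow] at h2
    field_simp at h2
    push_cast at h2
    linarith
  · intro ha hya
    rw [pr, if_neg ha] at hp
    have h1 := pl_poly_fin he hp _ hpol
    have hx := eqn a ha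
    rw [hya] at hx
    have hx0 : xc a ≠ 0 := by
      intro h
      rw [h] at hx
      norm_num at hx
    have hroot : (X ^ 3 + C (1 : k)).IsRoot (xc a) := by
      rw [IsRoot.def, eval_add, eval_pow, eval_X, eval_C]
      linear_combination -hx
    have hm : (X ^ 3 + C (1 : k)).rootMultiplicity (xc a) = 1 := by
      have h3 : 0 < (X ^ 3 + C (1 : k)).rootMultiplicity (xc a) :=
        (rootMultiplicity_pos hpol).2 hroot
      have h4 : ¬ 1 < (X ^ 3 + C (1 : k)).rootMultiplicity (xc a) := by
        rw [one_lt_rootMultiplicity_iff_isRoot hpol]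
        rintro ⟨_, h5⟩
        rw [IsRoot.def] at h5
        simp at h5
        rcases h5 with h5 | h5
        · norm_num at h5
        · exact hx0 h5
      omega
    rw [hev, hm] at h1
    have h2 : 1 / s * u.v (yc e ^ 2) = ((1 : ℕ) : ℚ) := h1
    rw [hpow] at h2
    field_simp at h2
    push_cast at h2
    linarith

/-- the unit case -/
private theorem val_Y0 (he : Transcendental k (xc e)) (a : Pt E2 k) (u : QV F) (hu : Ctr e a u)
    (ha : a ≠ 0) (hya : yc a ≠ 0) : u.v (yc e) = 0 := by
  have h1 := (hu.ctr ha).2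
  have h2 : u.v (algebraMap k F (yc a)) = 0 := hu.triv _ hya
  have h3 : algebraMap k F (yc a) ≠ 0 := (_root_.map_ne_zero _).2 hya
  by_cases h4 : yc e - algebraMap k F (yc a) = 0
  · rw [sub_eq_zero.1 h4, h2]
  · have h5 := u.add_eq_of_lt h3 h4 (by rw [h2]; exact h1)
    rw [add_sub_cancel] at h5
    rw [h5.2, h2]

theorem ctr_vals (he : Transcendental k (xc e)) (hg : IntermediateField.adjoin k (cs e) = ⊤)
    (a : Pt E2 k) (u : QV F) (hu : Ctr e a u) (s : ℚ) (hs : 0 < s)
    (hp : Pl (xc e) (pr a) (u.scale (1 / s) (by positivity))) :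
    (∀ H : F, H ≠ 0 → ∃ n : ℤ, u.v H = n * (s / ri a)) ∧ ∃ H : F, H ≠ 0 ∧ u.v H = s / ri a := by
  have hl := vals_line he a u s hs hp
  have hY := Y_ne he
  have hSm : xc e ∈ IntermediateField.adjoin k {xc e} := IntermediateField.mem_adjoin_simple_self k _
  by_cases hr : a = 0 ∨ yc a = 0
  · have hri : ri a = 2 := by rw [ri, if_pos hr]
    obtain ⟨m, hm⟩ : ∃ m : ℤ, u.v (yc e) = m * s + s / 2 := by
      by_cases ha : a = 0
      · refine ⟨-2, ?_⟩
        rw [(val_Y he a u s hs hp).1 ha]
        push_cast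
        ring
      · refine ⟨0, ?_⟩
        rw [(val_Y he a u s hs hp).2 ha (hr.resolve_left ha)]
        push_cast
        ring
    rw [hri]
    constructor
    · intro H h0
      obtain ⟨A, hA, B, hB, rfl⟩ := nf_exists he hg H
      by_cases hA0 : A = 0
      · subst hA0
        rw [zero_add] at h0 ⊢
        have hB0 : B ≠ 0 := left_ne_zero_of_mul h0
        obtain ⟨n, hn⟩ := hl B hB hB0
        refine ⟨2 * (n + m) + 1, ?_⟩
        rw [u.mul hB0 hY, hn, hm]
        push_cast
        ring
      · obtain ⟨n, hn⟩ := hl A hA hA0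
        by_cases hB0 : B = 0
        · subst hB0
          rw [zero_mul, add_zero]
          refine ⟨2 * n, ?_⟩
          rw [hn]
          push_cast
          ring
        · obtain ⟨n', hn'⟩ := hl B hB hB0
          have hBY : B * yc e ≠ 0 := mul_ne_zero hB0 hY
          have hv : u.v (B * yc e) = (2 * (n' + m) + 1 : ℤ) * (s / 2) := by
            rw [u.mul hB0 hY, hn', hm]
            push_cast
            ring
          have hv' : u.v A = (2 * n : ℤ) * (s / 2) := by
            rw [hn]
            push_cast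
            ring
          rcases lt_trichotomy (u.v A) (u.v (B * yc e)) with h1 | h1 | h1
          · exact ⟨_, (u.add_eq_of_lt hA0 hBY h1).2.trans hv'⟩
          · exfalso
            rw [hv, hv'] at h1
            have h2 : ((2 * n : ℤ) : ℚ) = ((2 * (n' + m) + 1 : ℤ) : ℚ) :=
              mul_right_cancel₀ (by positivity) h1
            have h3 : 2 * n = 2 * (n' + m) + 1 := by exact_mod_cast h2
            omega
          · have h2 := (u.add_eq_of_lt hBY hA0 h1).2
            rw [add_comm] at h2
            exact ⟨_, h2.trans hv⟩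
    · by_cases ha : a = 0
      · have hS := S_ne he
        refine ⟨xc e / yc e, div_ne_zero hS hY, ?_⟩
        rw [u.div hS hY, (val_Y he a u s hs hp).1 ha]
        rw [pr, if_pos ha] at hp
        have h2 : 1 / s * u.v (xc e) = -1 := hp.inf rfl
        field_simp at h2
        linarith
      · exact ⟨yc e, hY, (val_Y he a u s hs hp).2 ha (hr.resolve_left ha)⟩
  · push Not at hr
    obtain ⟨ha, hya⟩ := hr
    have hri : ri a = 1 := by
      rw [ri, if_neg]
      rintro (h | h)
      · exact ha h
      · exact hya h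
    rw [hri, div_one]
    have hY0 := val_Y0 he a u hu ha hya
    have h2k : (2 : k) ≠ 0 := two_ne_zero
    have h2F : (2 : F) ≠ 0 := by
      have h := (_root_.map_ne_zero (algebraMap k F)).2 h2k
      rwa [map_ofNat] at h
    have h2v : u.v (2 : F) = 0 := by
      have h := hu.triv 2 h2k
      rwa [map_ofNat] at h
    have h2Y : u.v (2 * yc e) = 0 := by rw [u.mul h2F hY, h2v, hY0, add_zero]
    have key : ∀ D ∈ IntermediateField.adjoin k {xc e}, D + yc e ≠ 0 →
        ∃ n : ℤ, u.v (D + yc e) = n * s := by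
      intro D hD hDY
      by_cases hD0 : D = 0
      · refine ⟨0, ?_⟩
        rw [hD0, zero_add, hY0]
        simp
      · rcases lt_or_ge (u.v D) 0 with h1 | h1
        · obtain ⟨n, hn⟩ := hl D hD hD0
          refine ⟨n, ?_⟩
          rw [(u.add_eq_of_lt hD0 hY (by rw [hY0]; exact h1)).2, hn]
        · by_cases hD2 : D - yc e = 0
          · refine ⟨0, ?_⟩
            rw [sub_eq_zero.1 hD2, ← two_mul, h2Y]
            simp
          · have h3 := u.add hD0 hY hDY
            have h4 := u.sub hD0 hY hD2
            rw [hY0, min_eq_right h1] at h3 h4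
            rcases h3.eq_or_lt with h5 | h5
            · refine ⟨0, ?_⟩
              rw [← h5]
              simp
            · have h6 : D + yc e - (D - yc e) = 2 * yc e := by ring
              have h7 := u.sub hDY hD2 (by rw [h6]; exact mul_ne_zero h2F hY)
              rw [h6, h2Y] at h7
              have h8 : u.v (D - yc e) = 0 := by
                rcases h4.eq_or_lt with h9 | h9
                · exact h9.symm
                · exact absurd h7 (not_le.2 (lt_min h5 h9))
              have h9 : (D + yc e) * (D - yc e) ∈ IntermediateField.adjoin k {xc e} := by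
                have h10 : (D + yc e) * (D - yc e) = D ^ 2 - (xc e ^ 3 + 1) := by
                  rw [← eqn e (ne0 he)]
                  ring
                rw [h10]
                exact sub_mem (pow_mem hD 2) (add_mem (pow_mem hSm 3) (one_mem _))
              obtain ⟨n, hn⟩ := hl _ h9 (mul_ne_zero hDY hD2)
              refine ⟨n, ?_⟩
              rw [u.mul hDY hD2, h8, add_zero] at hn
              exact hn
    constructor
    · intro H h0
      obtain ⟨A, hA, B, hB, rfl⟩ := nf_exists he hg H
      by_cases hB0 : B = 0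
      · subst hB0
        rw [zero_mul, add_zero] at h0 ⊢
        exact hl A hA h0
      · have e1 : A + B * yc e = B * (A / B + yc e) := by
          field_simp
        rw [e1] at h0 ⊢
        have h1 := right_ne_zero_of_mul h0
        obtain ⟨n, hn⟩ := key (A / B) (div_mem hA hB) h1
        obtain ⟨m, hm⟩ := hl B hB hB0
        refine ⟨m + n, ?_⟩
        rw [u.mul hB0 h1, hm, hn]
        push_cast
        ring
    · refine ⟨xc e - algebraMap k F (xc a), S_sub_ne he _, ?_⟩
      rw [pr, if_neg ha] at hp
      have h2 : 1 / s * u.v (xc e - algebraMap k F (xc a)) = 1 := hp.fin _ rfl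
      field_simp at h2
      linarith

theorem ctr_norm (he : Transcendental k (xc e)) (hg : IntermediateField.adjoin k (cs e) = ⊤)
    (a : Pt E2 k) (u : QV F) (hu : Ctr e a u) :
    ∃ (r : ℚ) (hr : 0 < r), At e a (u.scale r hr) := by
  obtain ⟨s, hs, hp⟩ := ctr_pl he a u hu
  obtain ⟨h1, H, hH, h2⟩ := ctr_vals he hg a u hu s hs hp
  have hri : 0 < ri a := by
    unfold ri
    split_ifs <;> norm_num
  refine ⟨ri a / s, by positivity, ⟨⟨?_, ?_, ?_⟩, ?_, ?_⟩⟩
  · intro d hd
    show ri a / s * u.v _ = 0
    rw [hu.triv d hd, mul_zero]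
  · intro ha
    exact ⟨mul_pos (by positivity) (hu.ctr ha).1, mul_pos (by positivity) (hu.ctr ha).2⟩
  · intro ha
    exact mul_neg_of_pos_of_neg (by positivity) (hu.ctr0 ha)
  · intro H h0
    obtain ⟨n, hn⟩ := h1 H h0
    refine ⟨n, ?_⟩
    show ri a / s * u.v H = n
    rw [hn]
    field_simp
  · refine ⟨H, hH, ?_⟩
    show ri a / s * u.v H = 1
    rw [h2]
    field_simp

theorem at_pl (he : Transcendental k (xc e)) (hg : IntermediateField.adjoin k (cs e) = ⊤)
    (a : Pt E2 k) (u : QV F) (hu : At e a u) :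
    ∃ u' : QV F, Pl (xc e) (pr a) u' ∧ ∀ H, u.v H = ri a * u'.v H := by
  obtain ⟨s, hs, hp⟩ := ctr_pl he a u hu.toCtr
  obtain ⟨h1, H, hH, h2⟩ := ctr_vals he hg a u hu.toCtr s hs hp
  have hri : 0 < ri a := by
    unfold ri
    split_ifs <;> norm_num
  obtain ⟨H', hH', h3⟩ := hu.unif
  obtain ⟨n, hn⟩ := h1 H' hH'
  obtain ⟨m, hm⟩ := hu.int H hH
  rw [h3] at hn
  rw [h2] at hm
  rw [hm] at hn
  have h4 : (1 : ℤ) = n * m := by exact_mod_cast hn
  have hm0 : 0 < m := by
    have : (0 : ℚ) < (m : ℚ) := by
      rw [← hm]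
      positivity
    exact_mod_cast this
  have h5 : m = 1 := by
    have h6 : m ∣ 1 := ⟨n, by rw [mul_comm]; exact h4⟩
    exact Int.eq_one_of_dvd_one hm0.le h6
  have h7 : s = ri a := by
    rw [h5] at hm
    field_simp at hm
    push_cast at hm
    linarith
  refine ⟨_, hp, fun H => ?_⟩
  show u.v H = ri a * (1 / s * u.v H)
  rw [h7]
  field_simp

end

end Pool.Agent.VM.F2p

namespace Pool.Agent.VM

export F2p (ctr_pl ctr_vals ctr_norm at_pl)

end Pool.Agent.VM
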