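import Pool.Agent.Lib_helper67.VM.PtF
import Pool.Agent.Lib_helper15.VM.DefsE
import Pool.Agent.Lib_helper15.VM.F1
import Pool.Agent.Lib_helper15.VM.F2
import Pool.Agent.Lib_helper15.VM.L2

set_option autoImplicit false

namespace Pool.Agent.VM

open scoped Classical
open Polynomial

attribute [-instance] Subtype.instDecidableEq

noncomputable section

namespace F3p

section
variable {F : Type} [Field F] (u : QV F)

/-- small -/
def Sm (x : F) : Prop := x = 0 ∨ 0 < u.v x
/-- integral -/
def It (x : F) : Prop := x = 0 ∨ 0 ≤ u.v x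

theorem sm_add {x y : F} (hx : Sm u x) (hy : Sm u y) : Sm u (x + y) := by
  rcases eq_or_ne x 0 with rfl | h1
  · rwa [zero_add]
  rcases eq_or_ne y 0 with rfl | h2
  · rwa [add_zero]
  by_cases h : x + y = 0
  · exact Or.inl h
  · exact Or.inr (lt_of_lt_of_le (lt_min (hx.resolve_left h1) (hy.resolve_left h2))
      (u.add h1 h2 h))

theorem sm_mul {x y : F} (hx : Sm u x) (hy : It u y) : Sm u (x * y) := by
  rcases eq_or_ne x 0 with rfl | h1
  · rw [zero_mul]; exact Or.inl rfl
  rcases eq_or_ne y 0 with rfl | h2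
  · rw [mul_zero]; exact Or.inl rfl
  · right
    rw [u.mul h1 h2]
    have := hx.resolve_left h1
    have := hy.resolve_left h2
    linarith

theorem val_of_sm {x y : F} (h : Sm u (x - y)) (hy : y ≠ 0) (h0 : u.v y = 0) :
    x ≠ 0 ∧ u.v x = 0 := by
  have hxy : x = y + (x - y) := by ring
  rcases eq_or_ne (x - y) 0 with h1 | h1
  · rw [sub_eq_zero.1 h1]; exact ⟨hy, h0⟩
  · have := u.add_eq_of_lt hy h1 (by rw [h0]; exact h.resolve_left h1)
    rw [← hxy] at this
    exact ⟨this.1, this.2.trans h0⟩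

end

variable {k F : Type} [Field k] [CharZero k] [Field F] [Algebra k F] {e : Pt E2 F}

theorem hx0 (he : Transcendental k (xc e)) (p : k[X]) (hp : p ≠ 0) : aeval (xc e) p ≠ 0 :=
  (transcendental_iff.1 he p).mt hp

/-- values of polynomials in `S` -/
theorem poly_val (he : Transcendental k (xc e)) (hg : IntermediateField.adjoin k (cs e) = ⊤)
    (a : Pt E2 k) (u : QV F) (hu : At e a u) (p : k[X]) (hp : p ≠ 0) :
    u.v (aeval (xc e) p) =
      if a = 0 then -(2 * p.natDegree : ℚ) else ri a * (p.rootMultiplicity (xc a) : ℚ) := by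
  obtain ⟨w, hw, h⟩ := at_pl he hg a u hu
  rw [h]
  by_cases ha : a = 0
  · rw [if_pos ha]
    rw [pr, if_pos ha] at hw
    rw [pl_poly_inf he hw p hp, ri, if_pos (Or.inl ha)]; ring
  · rw [if_neg ha]
    rw [pr, if_neg ha] at hw
    rw [pl_poly_fin he hw p hp]

theorem e_ne (he : Transcendental k (xc e)) : e ≠ 0 := by
  rintro rfl
  apply he
  exact isAlgebraic_zero

theorem sq (he : Transcendental k (xc e)) : yc e ^ 2 = aeval (xc e) (X ^ 3 + 1 : k[X]) := by
  have h := ptf_sq (e_ne he)
  rw [h]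
  simp

theorem X31 : (X ^ 3 + 1 : k[X]) ≠ 0 := by
  intro h
  have := congrArg (fun p => p.coeff 3) h
  simp [coeff_one] at this

theorem y_ne (he : Transcendental k (xc e)) : yc e ≠ 0 := by
  intro h
  have h1 := sq he
  rw [h] at h1
  exact hx0 he _ X31 (by rw [← h1]; simp)

theorem y_val (he : Transcendental k (xc e)) (u : QV F) :
    2 * u.v (yc e) = u.v (aeval (xc e) (X ^ 3 + 1 : k[X])) := by
  rw [← sq he, u.pow (y_ne he)]; norm_num

theorem y_not (he : Transcendental k (xc e)) (d : k) : yc e ≠ algebraMap k F d := by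
  intro h
  exact yc_notMem he (by rw [h]; exact (IntermediateField.adjoin k {xc e}).algebraMap_mem d)

/-- normal form -/
theorem nform (he : Transcendental k (xc e)) (hg : IntermediateField.adjoin k (cs e) = ⊤)
    (H : F) (h0 : H ≠ 0) : ∃ G R P Q : k[X], G ≠ 0 ∧ R ≠ 0 ∧ IsCoprime P Q ∧
      H * aeval (xc e) R = aeval (xc e) G * (aeval (xc e) P + aeval (xc e) Q * yc e) := by
  obtain ⟨A, hA, B, hB, hH⟩ := nf_exists he hg H
  obtain ⟨p, q, hA'⟩ := (IntermediateField.mem_adjoin_simple_iff k A).1 hA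
  obtain ⟨r, t, hB'⟩ := (IntermediateField.mem_adjoin_simple_iff k B).1 hB
  -- make the denominators nonzero
  obtain ⟨p, q, hq, hA'⟩ : ∃ p q : k[X], q ≠ 0 ∧ A = aeval (xc e) p / aeval (xc e) q := by
    rcases eq_or_ne q 0 with h | h
    · exact ⟨0, 1, one_ne_zero, by rw [hA', h]; simp⟩
    · exact ⟨p, q, h, hA'⟩
  obtain ⟨r, t, ht, hB'⟩ : ∃ r t : k[X], t ≠ 0 ∧ B = aeval (xc e) r / aeval (xc e) t := by
    rcases eq_or_ne t 0 with h | h
    · exact ⟨0, 1, one_ne_zero, by rw [hB', h]; simp⟩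
    · exact ⟨r, t, h, hB'⟩
  have hq' := hx0 he q hq
  have ht' := hx0 he t ht
  have key : H * aeval (xc e) (q * t) = aeval (xc e) (p * t) + aeval (xc e) (r * q) * yc e := by
    rw [hH, hA', hB']
    simp only [map_mul]
    field_simp
  have hne : ¬ (p * t = 0 ∧ r * q = 0) := by
    rintro ⟨h1, h2⟩
    rw [h1, h2, map_zero, zero_mul, add_zero] at key
    exact mul_ne_zero h0 (hx0 he _ (mul_ne_zero hq ht)) key
  obtain ⟨P, Q, hP, hQ, hcop⟩ : ∃ P Q : k[X], p * t = gcd (p * t) (r * q) * P ∧
      r * q = gcd (p * t) (r * q) * Q ∧ IsCoprime P Q := by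
    have hg0 : gcd (p * t) (r * q) ≠ 0 := by
      intro h
      exact hne ((gcd_eq_zero_iff _ _).1 h)
    obtain ⟨P, hP⟩ := gcd_dvd_left (p * t) (r * q)
    obtain ⟨Q, hQ⟩ := gcd_dvd_right (p * t) (r * q)
    refine ⟨P, Q, hP, hQ, ?_⟩
    rw [← gcd_isUnit_iff]
    have h3 : gcd (p * t) (r * q) = gcd (p * t) (r * q) * gcd P Q * 1 ∨ True := Or.inr trivial
    have h4 : Associated (gcd (p * t) (r * q)) (gcd (p * t) (r * q) * gcd P Q) := by
      have := (gcd_mul_left' (gcd (p * t) (r * q)) P Q)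
      rwa [← hP, ← hQ] at this
    have h5 : gcd (p * t) (r * q) * gcd P Q ∣ gcd (p * t) (r * q) * 1 := by
      rw [mul_one]; exact h4.symm.dvd
    exact isUnit_of_dvd_one ((mul_dvd_mul_iff_left hg0).1 h5)
  refine ⟨gcd (p * t) (r * q), q * t, P, Q, ?_, mul_ne_zero hq ht, hcop, ?_⟩
  · intro h
    exact hne ((gcd_eq_zero_iff _ _).1 h)
  · have e1 := congrArg (aeval (xc e)) hP
    have e2 := congrArg (aeval (xc e)) hQ
    rw [key, e1, e2]
    generalize gcd (p * t) (r * q) = g0
    simp only [map_mul]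
    ring

theorem rm_one {c : k} (hc : c ^ 3 + 1 = 0) : (X ^ 3 + 1 : k[X]).rootMultiplicity c = 1 := by
  have hf : (X ^ 3 + 1 : k[X]) = (X - C c) * (X ^ 2 + C c * X + C (c ^ 2)) := by
    have h1 : (C (c ^ 3 + 1) : k[X]) = 0 := by rw [hc, map_zero]
    rw [map_add, map_pow, map_one] at h1
    rw [map_pow]
    linear_combination h1
  have hc0 : c ≠ 0 := by rintro rfl; simp at hc
  have h2 : (X ^ 2 + C c * X + C (c ^ 2) : k[X]).rootMultiplicity c = 0 := by
    apply rootMultiplicity_eq_zero
    intro h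
    simp only [IsRoot.def, eval_add, eval_pow, eval_mul, eval_C, eval_X] at h
    have h3 : 3 * c ^ 2 = 0 := by linear_combination h
    exact mul_ne_zero three_ne_zero (pow_ne_zero 2 hc0) h3
  rw [hf, rootMultiplicity_mul (by rw [← hf]; exact X31), rootMultiplicity_X_sub_C_self, h2]

theorem rm_zero {c : k} (hc : c ^ 3 + 1 ≠ 0) : (X ^ 3 + 1 : k[X]).rootMultiplicity c = 0 := by
  apply rootMultiplicity_eq_zero
  intro h
  simp only [IsRoot.def, eval_add, eval_pow, eval_one, eval_X] at h
  exact hc h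

/-- `p(S) - p(c)` is small -/
theorem p_small (he : Transcendental k (xc e)) (hg : IntermediateField.adjoin k (cs e) = ⊤)
    (a : Pt E2 k) (ha : a ≠ 0) (u : QV F) (hu : At e a u) (p : k[X]) :
    Sm u (aeval (xc e) p - algebraMap k F (p.eval (xc a))) := by
  obtain ⟨q, hq⟩ := X_sub_C_dvd_sub_C_eval (a := xc a) (p := p)
  have h1 : aeval (xc e) p - algebraMap k F (p.eval (xc a)) =
      (xc e - algebraMap k F (xc a)) * aeval (xc e) q := by
    have := congrArg (aeval (xc e)) hq
    simpa using this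
  rw [h1]
  apply sm_mul
  · right; exact (hu.ctr ha).1
  · rcases eq_or_ne q 0 with rfl | h0
    · left; simp
    · right
      rw [poly_val he hg a u hu q h0, if_neg ha]
      have : (0 : ℚ) ≤ ri a := by rw [ri]; split_ifs <;> norm_num
      positivity

theorem core_res (he : Transcendental k (xc e)) (hg : IntermediateField.adjoin k (cs e) = ⊤)
    (a : Pt E2 k) (ha : a ≠ 0) (hy : yc a ≠ 0) (u : QV F) (hu : At e a u) (P Q : k[X])
    (h : P.eval (xc a) + Q.eval (xc a) * yc a ≠ 0) :
    aeval (xc e) P + aeval (xc e) Q * yc e ≠ 0 ∧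
      u.v (aeval (xc e) P + aeval (xc e) Q * yc e) = 0 := by
  have h0 : algebraMap k F (P.eval (xc a) + Q.eval (xc a) * yc a) ≠ 0 := (_root_.map_ne_zero _).2 h
  apply val_of_sm u (y := algebraMap k F (P.eval (xc a) + Q.eval (xc a) * yc a)) _ h0
    (hu.triv _ h)
  have hd : aeval (xc e) P + aeval (xc e) Q * yc e -
      algebraMap k F (P.eval (xc a) + Q.eval (xc a) * yc a) =
      (aeval (xc e) P - algebraMap k F (P.eval (xc a))) +
      ((aeval (xc e) Q - algebraMap k F (Q.eval (xc a))) * yc e +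
      (yc e - algebraMap k F (yc a)) * algebraMap k F (Q.eval (xc a))) := by
    rw [map_add, map_mul]; ring
  rw [hd]
  apply sm_add _ (p_small he hg a ha u hu P)
  apply sm_add
  · apply sm_mul _ (p_small he hg a ha u hu Q)
    right
    have h1 := y_val he u
    rw [poly_val he hg a u hu _ X31, if_neg ha] at h1
    have : (0 : ℚ) ≤ ri a := by rw [ri]; split_ifs <;> norm_num
    have : (0 : ℚ) ≤ ri a * ((X ^ 3 + 1 : k[X]).rootMultiplicity (xc a) : ℚ) := by positivity
    linarith
  · apply sm_mul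
    · right; exact (hu.ctr ha).2
    · rcases eq_or_ne (Q.eval (xc a)) 0 with h2 | h2
      · left; rw [h2, map_zero]
      · right; rw [hu.triv _ h2]

theorem main (he : Transcendental k (xc e)) (hg : IntermediateField.adjoin k (cs e) = ⊤)
    (a : Pt E2 k) (u u' : QV F) (hu : At e a u) (hu' : At e a u') (P Q : k[X])
    (hPQ : IsCoprime P Q) (h0 : aeval (xc e) P + aeval (xc e) Q * yc e ≠ 0) :
    u.v (aeval (xc e) P + aeval (xc e) Q * yc e) =
      u'.v (aeval (xc e) P + aeval (xc e) Q * yc e) := by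
  have pe : ∀ p : k[X], p ≠ 0 → u.v (aeval (xc e) p) = u'.v (aeval (xc e) p) := fun p hp => by
    rw [poly_val he hg a u hu p hp, poly_val he hg a u' hu' p hp]
  have ye : u.v (yc e) = u'.v (yc e) := by
    have h1 := y_val he u
    have h2 := y_val he u'
    rw [pe _ X31] at h1
    linarith
  have hyne := y_ne he
  rcases eq_or_ne Q 0 with rfl | hQ
  · have hP : P ≠ 0 := by rintro rfl; simp at h0
    simp only [map_zero, zero_mul, add_zero]
    exact pe P hP
  rcases eq_or_ne P 0 with rfl | hP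
  · simp only [map_zero, zero_add]
    rw [u.mul (hx0 he Q hQ) hyne, u'.mul (hx0 he Q hQ) hyne, pe Q hQ, ye]
  have hPn := hx0 he P hP
  have hQn := hx0 he Q hQ
  have hQY : aeval (xc e) Q * yc e ≠ 0 := mul_ne_zero hQn hyne
  have hQYe : u.v (aeval (xc e) Q * yc e) = u'.v (aeval (xc e) Q * yc e) := by
    rw [u.mul hQn hyne, u'.mul hQn hyne, pe Q hQ, ye]
  rcases lt_trichotomy (u.v (aeval (xc e) P)) (u.v (aeval (xc e) Q * yc e)) with h | h | h
  · have h' := h
    rw [pe P hP, hQYe] at h'
    rw [(u.add_eq_of_lt hPn hQY h).2, (u'.add_eq_of_lt hPn hQY h').2, pe P hP]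
  · -- equal values
    have hval := h
    rw [u.mul hQn hyne] at hval
    have hyv := y_val he u
    rw [poly_val he hg a u hu _ X31] at hyv
    rw [poly_val he hg a u hu _ hP, poly_val he hg a u hu _ hQ] at hval
    by_cases ha : a = 0
    · rw [if_pos ha] at hyv
      rw [if_pos ha, if_pos ha] at hval
      have hd : (X ^ 3 + 1 : k[X]).natDegree = 3 := by
        compute_degree!
      rw [hd] at hyv
      exfalso
      have h1 : (2 * (Q.natDegree : ℚ) + 3) = 2 * P.natDegree := by push_cast at hyv; linarith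
      have h2 : 2 * Q.natDegree + 3 = 2 * P.natDegree := by exact_mod_cast h1
      omega
    rw [if_neg ha] at hyv
    rw [if_neg ha, if_neg ha] at hval
    have hcurve := ptf_sq ha
    have hcurve' : yc a ^ 2 = xc a ^ 3 + 1 := by rw [hcurve]; simp
    by_cases hy : yc a = 0
    · have hc : xc a ^ 3 + 1 = 0 := by rw [← hcurve', hy]; simp
      rw [rm_one hc] at hyv
      have hri : ri a = 2 := by rw [ri, if_pos (Or.inr hy)]
      rw [hri] at hyv hval
      exfalso
      have h1 : (2 * (Q.rootMultiplicity (xc a) : ℚ) + 1) = 2 * (P.rootMultiplicity (xc a)) := by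
        push_cast at hyv; linarith
      have h2 : 2 * (Q.rootMultiplicity (xc a)) + 1 = 2 * (P.rootMultiplicity (xc a)) := by
        exact_mod_cast h1
      omega
    have hc : xc a ^ 3 + 1 ≠ 0 := by rw [← hcurve']; exact pow_ne_zero 2 hy
    have hri : ri a = 1 := by rw [ri, if_neg (by tauto)]
    rw [rm_zero hc] at hyv
    rw [hri] at hval hyv
    have h1 : P.rootMultiplicity (xc a) = Q.rootMultiplicity (xc a) := by
      have : (P.rootMultiplicity (xc a) : ℚ) = Q.rootMultiplicity (xc a) := by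
        push_cast at hyv; linarith
      exact_mod_cast this
    have hcop : ¬ (P.eval (xc a) = 0 ∧ Q.eval (xc a) = 0) := by
      rintro ⟨h2, h3⟩
      obtain ⟨r, s, hrs⟩ := hPQ
      have := congrArg (eval (xc a)) hrs
      simp [h2, h3] at this
    have hPe : P.eval (xc a) ≠ 0 := by
      intro h2
      have h3 : 0 < P.rootMultiplicity (xc a) := (rootMultiplicity_pos hP).2 h2
      rw [h1] at h3
      exact hcop ⟨h2, (rootMultiplicity_pos hQ).1 h3⟩
    by_cases hs : P.eval (xc a) + Q.eval (xc a) * yc a = 0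
    · have hs2 : P.eval (xc a) + (-Q).eval (xc a) * yc a ≠ 0 := by
        intro h2
        rw [eval_neg] at h2
        have : 2 * P.eval (xc a) = 0 := by linear_combination hs + h2
        exact mul_ne_zero two_ne_zero hPe this
      have r1 := core_res he hg a ha hy u hu P (-Q) hs2
      have r2 := core_res he hg a ha hy u' hu' P (-Q) hs2
      have hN : (aeval (xc e) P + aeval (xc e) Q * yc e) *
          (aeval (xc e) P + aeval (xc e) (-Q) * yc e) =
          aeval (xc e) (P ^ 2 - Q ^ 2 * (X ^ 3 + 1)) := by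
        have := sq he
        simp only [map_sub, map_mul, map_pow, map_neg] at this ⊢
        rw [← this]; ring
      have hNn : (P ^ 2 - Q ^ 2 * (X ^ 3 + 1)) ≠ 0 := by
        intro h2
        rw [h2, map_zero] at hN
        exact mul_ne_zero h0 r1.1 hN
      have e1 := u.mul h0 r1.1
      have e2 := u'.mul h0 r2.1
      rw [hN, r1.2, add_zero] at e1
      rw [hN, r2.2, add_zero] at e2
      rw [← e1, ← e2, pe _ hNn]
    · rw [(core_res he hg a ha hy u hu P Q hs).2, (core_res he hg a ha hy u' hu' P Q hs).2]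
  · have h' := h
    rw [pe P hP, hQYe] at h'
    rw [add_comm, (u.add_eq_of_lt hQY hPn h).2, (u'.add_eq_of_lt hQY hPn h').2, hQYe]

/-- F3 -/
theorem at_unique (he : Transcendental k (xc e)) (hg : IntermediateField.adjoin k (cs e) = ⊤)
    (a : Pt E2 k) (u u' : QV F) (hu : At e a u) (hu' : At e a u') (H : F) (h0 : H ≠ 0) :
    u.v H = u'.v H := by
  obtain ⟨G, R, P, Q, hG, hR, hPQ, hH⟩ := nform he hg H h0
  have hRn := hx0 he R hR
  have hGn := hx0 he G hG
  have hM : aeval (xc e) P + aeval (xc e) Q * yc e ≠ 0 := by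
    intro h
    rw [h, mul_zero] at hH
    exact mul_ne_zero h0 hRn hH
  have e1 := u.mul h0 hRn
  have e2 := u'.mul h0 hRn
  rw [hH, u.mul hGn hM] at e1
  rw [hH, u'.mul hGn hM] at e2
  have m := main he hg a u u' hu hu' P Q hPQ hM
  have pe : ∀ p : k[X], p ≠ 0 → u.v (aeval (xc e) p) = u'.v (aeval (xc e) p) := fun p hp => by
    rw [poly_val he hg a u hu p hp, poly_val he hg a u' hu' p hp]
  have g1 := pe G hG
  have g2 := pe R hR
  linarith

end F3p

end

end Pool.Agent.VM

namespace Pool.Agent.VM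

export F3p (at_unique)

end Pool.Agent.VM
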