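import Pool.Agent.Lib_helper4.VM.EXT
import Pool.Agent.Lib_helper15.VM.DefsL

/-! MP_5582d1_ag, part III-A, block L1. -/

set_option autoImplicit false

namespace Pool.Agent.VM.L1p

open scoped Classical
open Polynomial IntermediateField

noncomputable section

/-- the place at infinity of the rational function field -/
private def uInf (k : Type) [Field k] : QV (RatFunc k) where
  v f := -(f.intDegree : ℚ)
  mul ha hb := by
    rw [RatFunc.intDegree_mul ha hb]
    push_cast
    ring
  add {a b} _ hb hab := by
    have h := RatFunc.intDegree_add_le hb hab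
    have h' : ((a + b).intDegree : ℚ) ≤ max (a.intDegree : ℚ) (b.intDegree : ℚ) := by
      exact_mod_cast h
    rcases le_max_iff.1 h' with h1 | h1
    · exact (min_le_left _ _).trans (by linarith)
    · exact (min_le_right _ _).trans (by linarith)

private lemma exists_inf {k F : Type} [Field k] [Field F] [Algebra k F] (S : F)
    (hS : Transcendental k S) (halg : Algebra.IsAlgebraic (IntermediateField.adjoin k {S}) F) :
    ∃ u : QV F, (∀ d : k, d ≠ 0 → u.v (algebraMap k F d) = 0) ∧ u.v S = -1 := by
  set e := RatFunc.algEquivOfTranscendental S hS with he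
  set u0 : QV (IntermediateField.adjoin k {S}) := (uInf k).comap (e.symm : _ →+* RatFunc k) with hu0
  obtain ⟨u, hu⟩ := EXT (L := F) u0
  refine ⟨u, fun d hd => ?_, ?_⟩
  · have h := hu (algebraMap k (IntermediateField.adjoin k {S}) d)
    rw [← IsScalarTower.algebraMap_apply] at h
    rw [h, hu0]
    show (uInf k).v (e.symm (algebraMap k _ d)) = 0
    rw [AlgEquiv.commutes]
    show -((algebraMap k (RatFunc k) d).intDegree : ℚ) = 0
    rw [RatFunc.algebraMap_eq_C, RatFunc.intDegree_C]
    simp
  · have h := hu (AdjoinSimple.gen k S)
    rw [AdjoinSimple.algebraMap_gen] at h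
    rw [h, hu0]
    show (uInf k).v (e.symm (AdjoinSimple.gen k S)) = -1
    rw [he, RatFunc.algEquivOfTranscendental_symm_gen]
    show -((RatFunc.X : RatFunc k).intDegree : ℚ) = -1
    simp

theorem pl_exists {k F : Type} [Field k] [Field F] [Algebra k F] (S : F)
    (hS : Transcendental k S) (halg : Algebra.IsAlgebraic (IntermediateField.adjoin k {S}) F)
    (x : Option k) : ∃ u : QV F, Pl S x u := by
  rcases x with _ | c
  · obtain ⟨u, h1, h2⟩ := exists_inf S hS halg
    exact ⟨u, ⟨h1, fun c hc => by simp at hc, fun _ => h2⟩⟩
  · set T : F := (S - algebraMap k F c)⁻¹ with hT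
    have hc0 : S - algebraMap k F c ≠ 0 := by
      intro h
      apply hS
      rw [sub_eq_zero] at h
      rw [h]
      exact isAlgebraic_algebraMap c
    have hST : S = T⁻¹ + algebraMap k F c := by rw [hT, inv_inv]; ring
    have hTt : Transcendental k T := by
      intro h
      apply hS
      rw [hST]
      exact h.inv.add (isAlgebraic_algebraMap c)
    have hTmem : T ∈ IntermediateField.adjoin k {S} := by
      rw [hT]
      refine inv_mem (sub_mem (IntermediateField.mem_adjoin_simple_self k S) ?_)
      exact IntermediateField.algebraMap_mem _ c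
    have hSmem : S ∈ IntermediateField.adjoin k {T} := by
      rw [hST]
      exact add_mem (inv_mem (IntermediateField.mem_adjoin_simple_self k T))
        (IntermediateField.algebraMap_mem _ c)
    have hadj : IntermediateField.adjoin k {S} = IntermediateField.adjoin k {T} := by
      apply le_antisymm
      · rw [IntermediateField.adjoin_le_iff, Set.singleton_subset_iff]; exact hSmem
      · rw [IntermediateField.adjoin_le_iff, Set.singleton_subset_iff]; exact hTmem
    obtain ⟨u, h1, h2⟩ := exists_inf T hTt (hadj ▸ halg)
    refine ⟨u, ⟨h1, fun c' hc' => ?_, fun h => by simp at h⟩⟩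
    obtain rfl : c = c' := by simpa using hc'
    have h3 := u.inv hc0
    rw [← hT, h2] at h3
    linarith

end

end Pool.Agent.VM.L1p

namespace Pool.Agent.VM

export L1p (pl_exists)

end Pool.Agent.VM
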