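import Pool.Agent.Lib_helper67.VM.PtF
import Pool.Agent.Lib_helper15.VM.DefsE
import Pool.Agent.Lib_helper15.VM.F1
import Pool.Agent.Lib_helper15.VM.F2
import Pool.Agent.Lib_helper15.VM.L1

/-!
# MP_5582d1_ag, part III-B: block F4 (existence of the valuation at a point)
-/

set_option autoImplicit false

namespace Pool.Agent.VM.F4p

open scoped Classical
open Polynomial Pool.Agent.VM

attribute [-instance] Subtype.instDecidableEq

noncomputable section

section
variable {k F : Type} [Field k] [CharZero k] [Field F] [Algebra k F] {e : Pt E2 F}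

private theorem f4_sq {k : Type} [Field k] {p : Pt E2 k} (hp : p ≠ 0) :
    yc p ^ 2 = xc p ^ 3 + 1 := by
  have h := ptf_sq (R := ℤ) (a := 0) (b := 1) (F := k) (p := p) hp
  simpa using h

omit [CharZero k] in
private theorem f4_ne (he : Transcendental k (xc e)) : e ≠ 0 := by
  rintro rfl
  exact he (isAlgebraic_zero)

private theorem f4_algE {k F : Type} [Field k] [Field F] [Algebra k F]
    (E : IntermediateField k F) {A B Y : F} (hA : A ∈ E) (hB : B ∈ E) (hY : Y ^ 2 ∈ E) :
    IsAlgebraic E (A + B * Y) := by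
  have hY' : IsAlgebraic E Y := by
    refine IsAlgebraic.of_pow (n := 2) (by norm_num) ?_
    exact isAlgebraic_algebraMap (A := F) (⟨_, hY⟩ : E)
  have hA' : IsAlgebraic E A := isAlgebraic_algebraMap (A := F) (⟨A, hA⟩ : E)
  have hB' : IsAlgebraic E B := isAlgebraic_algebraMap (A := F) (⟨B, hB⟩ : E)
  exact IsAlgebraic.add hA' (IsAlgebraic.mul hB' hY')

private theorem f4_alg0 {k F : Type} [Field k] [Field F] [Algebra k F]
    (E : IntermediateField k F) {Y : F} (hY : Y ^ 2 ∈ E)
    (h : ∀ H : F, ∃ A ∈ E, ∃ B ∈ E, H = A + B * Y) : Algebra.IsAlgebraic E F := by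
  constructor
  intro H
  obtain ⟨A, hA, B, hB, rfl⟩ := h H
  exact f4_algE E hA hB hY

private theorem f4_alg (he : Transcendental k (xc e))
    (hg : IntermediateField.adjoin k (cs e) = ⊤) :
    Algebra.IsAlgebraic (IntermediateField.adjoin k {xc e}) F := by
  have h0 : yc e ^ 2 = xc e ^ 3 + 1 := f4_sq (f4_ne he)
  have h2 := nf_exists he hg
  generalize xc e = x at *
  generalize yc e = y at *
  have h1 : y ^ 2 ∈ IntermediateField.adjoin k {x} := by
    rw [h0]
    exact add_mem (pow_mem (IntermediateField.mem_adjoin_simple_self k x) 3) (one_mem _)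
  exact f4_alg0 (IntermediateField.adjoin k {x}) h1 h2

omit [CharZero k] in
/-- the centre of a place of the line above `xc a` is `a` or `-a` -/
private theorem f4_or (he : Transcendental k (xc e)) {a : Pt E2 k} (ha : a ≠ 0) {u : QV F}
    (hu : Pl (xc e) (some (xc a)) u) :
    0 < u.v (yc e - algebraMap k F (yc a)) ∨ 0 < u.v (-yc e - algebraMap k F (yc a)) := by
  have hS : xc e ∈ u.ring := by
    have h1 : xc e - algebraMap k F (xc a) ∈ u.ring := Or.inr (by
      rw [hu.fin _ rfl]; norm_num)
    have h2 : algebraMap k F (xc a) ∈ u.ring := by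
      by_cases h : xc a = 0
      · rw [h, map_zero]; exact zero_mem _
      · exact Or.inr (hu.triv _ h).ge
    have := add_mem h1 h2
    rwa [sub_add_cancel] at this
  have hc : algebraMap k F (xc a) ∈ u.ring := by
    by_cases h : xc a = 0
    · rw [h, map_zero]; exact zero_mem _
    · exact Or.inr (hu.triv _ h).ge
  have hS0 : xc e - algebraMap k F (xc a) ≠ 0 := by
    intro h
    apply he
    rw [sub_eq_zero.1 h]
    exact isAlgebraic_algebraMap _
  have hY : ∀ y : k, yc e ≠ algebraMap k F y := by
    intro y h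
    have h1 := f4_sq (f4_ne he)
    have h2 : IsAlgebraic k (xc e ^ 3) := by
      have h3 : xc e ^ 3 = algebraMap k F (y ^ 2 - 1) := by
        rw [map_sub, map_pow, map_one, ← h, h1]; ring
      rw [h3]
      exact isAlgebraic_algebraMap _
    exact he (IsAlgebraic.of_pow (by norm_num) h2)
  have hY1 : yc e - algebraMap k F (yc a) ≠ 0 := sub_ne_zero.2 (hY _)
  have hY2 : yc e + algebraMap k F (yc a) ≠ 0 := by
    intro h
    apply hY (-yc a)
    rw [map_neg]
    exact eq_neg_of_add_eq_zero_left h
  have hq : xc e ^ 2 + xc e * algebraMap k F (xc a) + algebraMap k F (xc a) ^ 2 ∈ u.ring :=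
    add_mem (add_mem (pow_mem hS 2) (mul_mem hS hc)) (pow_mem hc 2)
  have hfac : (yc e - algebraMap k F (yc a)) * (yc e + algebraMap k F (yc a)) =
      (xc e - algebraMap k F (xc a)) *
        (xc e ^ 2 + xc e * algebraMap k F (xc a) + algebraMap k F (xc a) ^ 2) := by
    have h1 := f4_sq (f4_ne he)
    have h2 := congrArg (algebraMap k F) (f4_sq ha)
    rw [map_pow, map_add, map_pow, map_one] at h2
    linear_combination h1 - h2
  have hq0 : xc e ^ 2 + xc e * algebraMap k F (xc a) + algebraMap k F (xc a) ^ 2 ≠ 0 := by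
    intro h
    rw [h, mul_zero] at hfac
    exact mul_ne_zero hY1 hY2 hfac
  have hv := congrArg u.v hfac
  rw [u.mul hY1 hY2, u.mul hS0 hq0, hu.fin _ rfl] at hv
  have hq' := (u.mem_ring_of hq0).1 hq
  have hneg : u.v (-yc e - algebraMap k F (yc a)) = u.v (yc e + algebraMap k F (yc a)) := by
    rw [← u.neg (yc e + algebraMap k F (yc a))]
    congr 1
    ring
  rw [hneg]
  by_contra hcon
  push Not at hcon
  linarith [hcon.1, hcon.2]

theorem at_exists (he : Transcendental k (xc e)) (hg : IntermediateField.adjoin k (cs e) = ⊤)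
    (a : Pt E2 k) : ∃ u : QV F, At e a u := by
  have halg := f4_alg he hg
  obtain ⟨u, hu⟩ := pl_exists (xc e) he halg (pr a)
  suffices h : ∃ u : QV F, Ctr e a u by
    obtain ⟨u, hu⟩ := h
    obtain ⟨r, hr, h⟩ := ctr_norm he hg a u hu
    exact ⟨_, h⟩
  by_cases ha : a = 0
  · refine ⟨u, hu.triv, fun h => absurd ha h, fun _ => ?_⟩
    have h1 := hu.inf (by rw [pr, if_pos ha])
    rw [h1]
    norm_num
  · have hpr : pr a = some (xc a) := by rw [pr, if_neg ha]
    rw [hpr] at hu
    have h1 : 0 < u.v (xc e - algebraMap k F (xc a)) := by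
      rw [hu.fin _ rfl]
      norm_num
    rcases f4_or he ha hu with h | h
    · exact ⟨u, hu.triv, fun _ => ⟨h1, h⟩, fun h0 => absurd h0 ha⟩
    · obtain ⟨ι, hι1, hι2, -⟩ := conj_exists he hg
      refine ⟨u.comap ι.toRingEquiv.toRingHom, fun d hd => ?_, fun _ => ⟨?_, ?_⟩,
        fun h0 => absurd h0 ha⟩
      · change u.v (ι (algebraMap k F d)) = 0
        rw [ι.commutes]
        exact hu.triv d hd
      · change 0 < u.v (ι (xc e - algebraMap k F (xc a)))
        rw [map_sub, hι1, ι.commutes]
        exact h1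
      · change 0 < u.v (ι (yc e - algebraMap k F (yc a)))
        rw [map_sub, hι2, ι.commutes]
        exact h

end

end

end Pool.Agent.VM.F4p

namespace Pool.Agent.VM

export F4p (at_exists)

end Pool.Agent.VM
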