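import Pool.Agent.Lib_helper15.VM.DefsL
import Pool.Agent.Lib_helper15.VM.L2

set_option autoImplicit false

namespace Pool.Agent.VM.L3p

open scoped Classical
open Polynomial

noncomputable section

section
variable {k F : Type} [Field k] [Field F] [Algebra k F] {S : F}

private lemma aeval_ne (hS : Transcendental k S) {p : k[X]} (hp : p ≠ 0) : aeval S p ≠ 0 := by
  intro h
  exact hp ((transcendental_iff.mp hS) p h)

private lemma pl_pf_poly [IsAlgClosed k] (hS : Transcendental k S) (U : Option k → QV F)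
    (hU : ∀ x, Pl S x (U x)) (p : k[X]) (hp : p ≠ 0) :
    {x | (U x).v (aeval S p) ≠ 0}.Finite ∧ ∑ᶠ x, (U x).v (aeval S p) = 0 := by
  have hsome : ∀ c : k, (U (some c)).v (aeval S p) = (p.rootMultiplicity c : ℚ) := fun c =>
    pl_poly_fin hS (hU (some c)) p hp
  have hnone : (U none).v (aeval S p) = -(p.natDegree : ℚ) := pl_poly_inf hS (hU none) p hp
  have hsub : {x | (U x).v (aeval S p) ≠ 0} ⊆ ((Finset.insertNone p.roots.toFinset : Finset (Option k)) : Set (Option k)) := by
    intro x hx
    rcases x with _ | c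
    · simp
    · simp only [Set.mem_setOf_eq, hsome c] at hx
      have h1 : p.rootMultiplicity c ≠ 0 := by exact_mod_cast hx
      have h2 : c ∈ p.roots := by
        rw [← Multiset.count_pos, count_roots]; exact Nat.pos_of_ne_zero h1
      rw [Finset.mem_coe, Finset.some_mem_insertNone]
      exact Multiset.mem_toFinset.mpr h2
  refine ⟨Set.Finite.subset (Finset.finite_toSet _) hsub, ?_⟩
  rw [finsum_eq_sum_of_support_subset _ hsub]
  have hins : ∑ x ∈ Finset.insertNone p.roots.toFinset, (U x).v (aeval S p)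
      = (U none).v (aeval S p) + ∑ c ∈ p.roots.toFinset, (U (some c)).v (aeval S p) := by
    rw [Finset.sum_insertNone]
  rw [hins, hnone, Finset.sum_congr rfl (fun c _ => hsome c)]
  have hcard : ∑ c ∈ p.roots.toFinset, (p.rootMultiplicity c : ℚ) = (p.natDegree : ℚ) := by
    have h1 : ∑ c ∈ p.roots.toFinset, p.roots.count c = Multiset.card p.roots :=
      Multiset.toFinset_sum_count_eq _
    have h2 : Multiset.card p.roots = p.natDegree :=
      (splits_iff_card_roots.mp (IsAlgClosed.splits p))
    rw [← h2, ← h1]; push_cast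
    exact Finset.sum_congr rfl (fun c _ => by rw [count_roots])
  rw [hcard]; ring

/-- L3: finite support and product formula on `k(S)`. Proof: `H = p(S)/q(S)`, L2,
`∑ rootMultiplicity = natDegree` (`k` algebraically closed). -/
theorem pl_pf [IsAlgClosed k] (hS : Transcendental k S) (U : Option k → QV F)
    (hU : ∀ x, Pl S x (U x)) (H : F) (hH : H ∈ IntermediateField.adjoin k {S}) (h0 : H ≠ 0) :
    {x | (U x).v H ≠ 0}.Finite ∧ ∑ᶠ x, (U x).v H = 0 := by
  obtain ⟨p, q, hpq⟩ := (IntermediateField.mem_adjoin_simple_iff k H).mp hH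
  have hp : p ≠ 0 := by
    rintro rfl; apply h0; rw [hpq]; simp
  have hq : q ≠ 0 := by
    rintro rfl; apply h0; rw [hpq]; simp
  obtain ⟨hp1, hp2⟩ := pl_pf_poly hS U hU p hp
  obtain ⟨hq1, hq2⟩ := pl_pf_poly hS U hU q hq
  have hval : ∀ x, (U x).v H = (U x).v (aeval S p) - (U x).v (aeval S q) := fun x => by
    rw [hpq, (U x).div (aeval_ne hS hp) (aeval_ne hS hq)]
  refine ⟨Set.Finite.subset (hp1.union hq1) ?_, ?_⟩
  · intro x hx
    simp only [Set.mem_setOf_eq, Set.mem_union] at hx ⊢
    by_contra hcon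
    push Not at hcon
    apply hx
    rw [hval x, hcon.1, hcon.2, sub_zero]
  · rw [finsum_congr hval, finsum_sub_distrib (by exact hp1) (by exact hq1), hp2, hq2, sub_zero]

end

end

end Pool.Agent.VM.L3p

namespace Pool.Agent.VM

export L3p (pl_pf)

end Pool.Agent.VM
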