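import Pool.Agent.Lib_helper67.VM.PtF
import Pool.Agent.Lib_helper15.VM.DefsE
import Pool.Agent.Lib_helper15.VM.F1
import Pool.Agent.Lib_helper15.VM.F2
import Pool.Agent.Lib_helper15.VM.F3
import Pool.Agent.Lib_helper15.VM.L2
import Pool.Agent.Lib_helper15.VM.L3

/-!
# MP_5582d1_ag, block F5: finiteness and sum formula on the curve `E₂`
-/

set_option autoImplicit false

namespace Pool.Agent.VM.F5p

open scoped Classical
open Polynomial

attribute [-instance] Subtype.instDecidableEq

noncomputable section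

section pts
variable {k : Type} [Field k]

private lemma pr_zero : pr (0 : Pt E2 k) = none := by simp [pr]

private lemma pr_of_ne {a : Pt E2 k} (ha : a ≠ 0) : pr a = some (xc a) := by simp [pr, ha]

private lemma pr_neg (a : Pt E2 k) : pr (-a) = pr a := by
  by_cases ha : a = 0
  · rw [ha, neg_zero]
  · rw [pr_of_ne ha, pr_of_ne (neg_ne_zero.mpr ha), ptf_xc_neg]

private lemma pr_eq {a b : Pt E2 k} (h : pr a = pr b) : a = b ∨ a = -b := by
  by_cases ha : a = 0
  · by_cases hb : b = 0
    · left; rw [ha, hb]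
    · rw [ha, pr_zero, pr_of_ne hb] at h; cases h
  · by_cases hb : b = 0
    · rw [hb, pr_zero, pr_of_ne ha] at h; cases h
    · rw [pr_of_ne ha, pr_of_ne hb] at h
      exact (ptf_xc_eq_iff ha hb).1 (Option.some.inj h)

private lemma eq_neg_iff [CharZero k] (a : Pt E2 k) : a = -a ↔ a = 0 ∨ yc a = 0 := by
  constructor
  · intro h
    right
    have h1 : yc a = - yc a := by
      conv_lhs => rw [h]
      exact ptf_yc_neg a
    have h2 : (2 : k) * yc a = 0 := by linear_combination h1
    exact (mul_eq_zero.mp h2).resolve_left two_ne_zero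
  · rintro (h | h)
    · rw [h, neg_zero]
    · rcases ptf_cases a with rfl | ⟨x, y, hh, rfl⟩
      · rw [neg_zero]
      · have hy : y = 0 := h
        subst hy
        rw [WeierstrassCurve.Affine.Point.neg_some]
        congr 1
        rw [ptf_negY, neg_zero]

private lemma pr_surj [CharZero k] [IsAlgClosed k] (x : Option k) : ∃ a : Pt E2 k, pr a = x := by
  rcases x with _ | c
  · exact ⟨0, pr_zero⟩
  · obtain ⟨y, hy⟩ := IsAlgClosed.exists_pow_nat_eq (c ^ 3 + 1) (n := 2) (by norm_num)
    have heq : ((E2).baseChange k).toAffine.Equation c y := by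
      rw [WeierstrassCurve.Affine.equation_iff, ptf_a₁, ptf_a₂, ptf_a₃, ptf_a₄, ptf_a₆]
      simp only [map_zero, map_one]
      linear_combination hy
    have hns : ((E2).baseChange k).toAffine.Nonsingular c y := by
      rw [WeierstrassCurve.Affine.nonsingular_iff, ptf_a₁, ptf_a₂, ptf_a₃, ptf_a₄]
      refine ⟨heq, ?_⟩
      by_contra hcon
      push Not at hcon
      obtain ⟨h1, h2⟩ := hcon
      have hy0 : y = 0 := by
        have h3 : (2 : k) * y = 0 := by linear_combination h2
        exact (mul_eq_zero.mp h3).resolve_left two_ne_zero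
      have hc0 : c = 0 := by
        have h3 : (3 : k) * c ^ 2 = 0 := by
          simp only [map_zero] at h1
          linear_combination -h1
        have h4 := (mul_eq_zero.mp h3).resolve_left (by norm_num)
        exact pow_eq_zero_iff (two_ne_zero) |>.mp h4
      rw [hy0, hc0] at hy
      norm_num at hy
    refine ⟨.some c y hns, ?_⟩
    rw [pr_of_ne (by exact WeierstrassCurve.Affine.Point.some_ne_zero _)]
    rfl

end pts

section
variable {k F : Type} [Field k] [CharZero k] [Field F] [Algebra k F] {e : Pt E2 F}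

/-- the conjugate valuation -/
private lemma at_conj (ι : F ≃ₐ[k] F) (hx : ι (xc e) = xc e) (hy : ι (yc e) = - yc e)
    (hinv : ∀ H, ι (ι H) = H) {a : Pt E2 k} {u : QV F} (hu : At e a u) :
    At e (-a) (u.comap (ι : F →+* F)) where
  triv := fun d hd => by
    show u.v (ι (algebraMap k F d)) = 0
    rw [ι.commutes]; exact hu.triv d hd
  ctr := fun ha => by
    have ha' : a ≠ 0 := neg_ne_zero.mp ha
    obtain ⟨h1, h2⟩ := hu.ctr ha'
    constructor
    · show 0 < u.v (ι (xc e - algebraMap k F (xc (-a))))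
      rw [map_sub, ι.commutes, hx, ptf_xc_neg]; exact h1
    · show 0 < u.v (ι (yc e - algebraMap k F (yc (-a))))
      rw [map_sub, ι.commutes, hy, ptf_yc_neg, map_neg, sub_neg_eq_add, ← u.neg]
      have : -(- yc e + algebraMap k F (yc a)) = yc e - algebraMap k F (yc a) := by ring
      rw [this]; exact h2
  ctr0 := fun ha => by
    show u.v (ι (xc e)) < 0
    rw [hx]; exact hu.ctr0 (neg_eq_zero.mp ha)
  int := fun H hH => hu.int (ι H) (by simpa using hH)
  unif := by
    obtain ⟨H, hH, h1⟩ := hu.unif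
    refine ⟨ι H, by simpa using hH, ?_⟩
    show u.v (ι (ι H)) = 1
    rw [hinv]; exact h1

/-- two places of the line at the same point agree on `k(S)` -/
private lemma pl_agree {S : F} (hS : Transcendental k S) {x : Option k} {u u' : QV F}
    (hu : Pl S x u) (hu' : Pl S x u') (N : F) (hN : N ∈ IntermediateField.adjoin k {S})
    (h0 : N ≠ 0) : u.v N = u'.v N := by
  obtain ⟨p, q, hpq⟩ := (IntermediateField.mem_adjoin_simple_iff k N).mp hN
  have hp : p ≠ 0 := by
    rintro rfl; apply h0; rw [hpq]; simp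
  have hq : q ≠ 0 := by
    rintro rfl; apply h0; rw [hpq]; simp
  have hp' : aeval S p ≠ 0 := fun h => hp ((transcendental_iff.mp hS) p h)
  have hq' : aeval S q ≠ 0 := fun h => hq ((transcendental_iff.mp hS) q h)
  rw [hpq, u.div hp' hq', u'.div hp' hq']
  rcases x with _ | c
  · rw [pl_poly_inf hS hu p hp, pl_poly_inf hS hu' p hp, pl_poly_inf hS hu q hq,
      pl_poly_inf hS hu' q hq]
  · rw [pl_poly_fin hS hu p hp, pl_poly_fin hS hu' p hp, pl_poly_fin hS hu q hq,
      pl_poly_fin hS hu' q hq]

/-- the sum formula on `k(S)`, for the valuations of the curve -/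
private lemma at_pf_line [IsAlgClosed k] (he : Transcendental k (xc e))
    (hg : IntermediateField.adjoin k (cs e) = ⊤)
    (U : Pt E2 k → QV F) (hU : ∀ a, At e a (U a)) (N : F)
    (hN : N ∈ IntermediateField.adjoin k {xc e}) (h0 : N ≠ 0) :
    {a | (U a).v N ≠ 0}.Finite ∧ ∑ᶠ a, (U a).v N = 0 := by
  choose s hs using (pr_surj : ∀ x : Option k, ∃ a : Pt E2 k, pr a = x)
  choose u' hpl hval using fun a => at_pl he hg a (U a) (hU a)
  -- the places of the line
  have hV : ∀ x, Pl (xc e) x (u' (s x)) := fun x => by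
    have := hpl (s x); rwa [hs x] at this
  obtain ⟨hfin, hsum⟩ := pl_pf he (fun x => u' (s x)) hV N hN h0
  set h : Option k → ℚ := fun x => (u' (s x)).v N with hh
  have hval' : ∀ a, (U a).v N = ri a * h (pr a) := fun a => by
    rw [hval a N]
    have h1 : Pl (xc e) (pr a) (u' (s (pr a))) := hV (pr a)
    rw [hh]
    simp only
    rw [pl_agree he (hpl a) h1 N hN h0]
  -- fibres
  let fib : Option k → Finset (Pt E2 k) := fun x => {s x, -(s x)}
  have hfib : ∀ a, a ∈ fib (pr a) := fun a => by
    have : pr a = pr (s (pr a)) := (hs (pr a)).symm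
    rcases pr_eq this with h | h
    · simp only [fib, Finset.mem_insert, Finset.mem_singleton]; exact Or.inl h
    · simp only [fib, Finset.mem_insert, Finset.mem_singleton]; exact Or.inr h
  have hfib' : ∀ x, ∀ a ∈ fib x, pr a = x := fun x a ha => by
    simp only [fib, Finset.mem_insert, Finset.mem_singleton] at ha
    rcases ha with rfl | rfl
    · exact hs x
    · rw [pr_neg]; exact hs x
  have hfsum : ∀ x, ∑ a ∈ fib x, ri a = 2 := fun x => by
    by_cases hc : s x = -(s x)
    · have h1 : fib x = {s x} := by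
        simp only [fib]; rw [← hc]; simp
      rw [h1, Finset.sum_singleton]
      have := (eq_neg_iff (s x)).1 hc
      simp [ri, this]
    · have h1 : ∑ a ∈ fib x, ri a = ri (s x) + ri (-(s x)) := Finset.sum_pair hc
      have h2 : ¬ (s x = 0 ∨ yc (s x) = 0) := fun h => hc ((eq_neg_iff (s x)).2 h)
      have h3 : ¬ (-(s x) = 0 ∨ yc (-(s x)) = 0) := fun h => h2 (by
        rcases h with h | h
        · exact Or.inl (neg_eq_zero.mp h)
        · rw [ptf_yc_neg] at h; exact Or.inr (neg_eq_zero.mp h))
      rw [h1]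
      simp only [ri, if_neg h2, if_neg h3]
      norm_num
  let T : Finset (Option k) := hfin.toFinset
  have hT : ∀ x, x ∉ T → h x = 0 := fun x hx => by
    by_contra hcon
    exact hx (hfin.mem_toFinset.2 hcon)
  have hsub : {a | (U a).v N ≠ 0} ⊆ ((T.biUnion fib : Finset (Pt E2 k)) : Set (Pt E2 k)) := by
    intro a ha
    rw [Finset.mem_coe, Finset.mem_biUnion]
    refine ⟨pr a, ?_, hfib a⟩
    by_contra hcon
    apply ha
    rw [hval' a, hT _ hcon, mul_zero]
  refine ⟨Set.Finite.subset (Finset.finite_toSet _) hsub, ?_⟩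
  rw [finsum_eq_sum_of_support_subset _ hsub, Finset.sum_biUnion]
  · have h1 : ∀ x ∈ T, ∑ a ∈ fib x, (U a).v N = 2 * h x := fun x _ => by
      rw [← hfsum x, Finset.sum_mul]
      exact Finset.sum_congr rfl (fun a ha => by rw [hval' a, hfib' x a ha])
    rw [Finset.sum_congr rfl h1, ← Finset.mul_sum]
    have h2 : ∑ x ∈ T, h x = ∑ᶠ x, h x := by
      rw [finsum_eq_sum_of_support_subset h (s := T)]
      intro x hx
      exact Finset.mem_coe.2 (hfin.mem_toFinset.2 hx)
    rw [h2, hsum, mul_zero]
  · intro x _ x' _ hne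
    rw [Function.onFun, Finset.disjoint_left]
    intro a ha ha'
    exact hne ((hfib' x a ha).symm.trans (hfib' x' a ha'))

/-- F5: finiteness and sum formula: `(U (-a)).v H = (U a).v (ι H)` by F3; `N = H * ι H ∈ k(S)`; with
`V x` a place of the line for `x : Option k`: `(U a).v N = ri a * (V (pr a)).v N`, the fibre of `pr` over `x` has
`2 / ri a` elements: `2 ∑ (U a).v H = ∑ (U a).v N = 2 ∑ x, (V x).v N = 0` (L3). -/
theorem at_pf [IsAlgClosed k] (he : Transcendental k (xc e))
    (hg : IntermediateField.adjoin k (cs e) = ⊤)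
    (U : Pt E2 k → QV F) (hU : ∀ a, At e a (U a)) (H : F) (h0 : H ≠ 0) :
    {a | (U a).v H ≠ 0}.Finite ∧ ∑ᶠ a, (U a).v H = 0 := by
  obtain ⟨ι, hx, hy, hinv, hfix, hnorm⟩ := conj_exists he hg
  have hι0 : ι H ≠ 0 := by simpa using h0
  have hN0 : H * ι H ≠ 0 := mul_ne_zero h0 hι0
  obtain ⟨hNfin, hNsum⟩ := at_pf_line he hg U hU (H * ι H) (hnorm H) hN0
  have hconj : ∀ a, (U (-a)).v H = (U a).v (ι H) := fun a =>
    (at_unique he hg (-a) _ _ (hU (-a)) (at_conj ι hx hy hinv (hU a)) H h0)
  have hadd : ∀ a, (U a).v (H * ι H) = (U a).v H + (U a).v (ι H) := fun a =>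
    (U a).mul h0 hι0
  -- finiteness
  have hfin : {a | (U a).v H ≠ 0}.Finite := by
    obtain ⟨A, hA, B, hB, hAB⟩ := nf_exists he hg H
    have hAfin : {a | A ≠ 0 ∧ (U a).v A ≠ 0}.Finite := by
      by_cases hA0 : A = 0
      · simp [hA0]
      · exact (at_pf_line he hg U hU A hA hA0).1.subset (fun a ha => ha.2)
    have hBfin : {a | B ≠ 0 ∧ (U a).v B ≠ 0}.Finite := by
      by_cases hB0 : B = 0
      · simp [hB0]
      · exact (at_pf_line he hg U hU B hB hB0).1.subset (fun a ha => ha.2)
    refine ((hNfin.union (hAfin.union hBfin)).union (Set.finite_singleton (0 : Pt E2 k))).subset ?_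
    intro a ha
    by_contra hcon
    simp only [Set.mem_union, Set.mem_setOf_eq, Set.mem_singleton_iff, not_or, not_and, not_not]
      at hcon
    obtain ⟨⟨hN, hA', hB'⟩, ha0⟩ := hcon
    have hu := hU a
    have hmem : ∀ C : F, (C ≠ 0 → (U a).v C = 0) → C ∈ (U a).ring := fun C hC => by
      rw [QV.mem_ring]
      by_cases h : C = 0
      · exact Or.inl h
      · exact Or.inr (hC h).ge
    have hAm := hmem A hA'
    have hBm := hmem B hB'
    have hym : yc e ∈ (U a).ring := by
      have h1 : yc e - algebraMap k F (yc a) ∈ (U a).ring := by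
        rw [QV.mem_ring]; exact Or.inr (hu.ctr ha0).2.le
      have h2 : algebraMap k F (yc a) ∈ (U a).ring := by
        refine hmem _ (fun h => hu.triv _ ?_)
        rintro h'; apply h; rw [h', map_zero]
      have h3 := (U a).ring.add_mem _ _ h1 h2
      rwa [sub_add_cancel] at h3
    have hH1 : H ∈ (U a).ring := by
      rw [hAB]; exact (U a).ring.add_mem _ _ hAm ((U a).ring.mul_mem _ _ hBm hym)
    have hH2 : ι H ∈ (U a).ring := by
      rw [hAB, map_add, map_mul, hfix A hA, hfix B hB, hy, mul_neg]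
      exact (U a).ring.add_mem _ _ hAm ((U a).ring.neg_mem _ ((U a).ring.mul_mem _ _ hBm hym))
    rw [QV.mem_ring_of _ h0] at hH1
    rw [QV.mem_ring_of _ hι0] at hH2
    have := hadd a
    rw [hN] at this
    exact ha (by linarith)
  refine ⟨hfin, ?_⟩
  have hfin' : {a | (U a).v (ι H) ≠ 0}.Finite := by
    have h1 : {a | (U a).v (ι H) ≠ 0} = Neg.neg ⁻¹' {a | (U a).v H ≠ 0} := by
      ext a
      simp only [Set.mem_setOf_eq, Set.mem_preimage, hconj a]
    rw [h1]
    exact hfin.preimage neg_injective.injOn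
  have h1 : ∑ᶠ a, (U a).v (ι H) = ∑ᶠ a, (U a).v H := by
    rw [← finsum_comp_equiv (Equiv.neg (Pt E2 k)) (f := fun a => (U a).v H)]
    exact finsum_congr (fun a => by rw [← hconj a]; rfl)
  have h2 : ∑ᶠ a, (U a).v (H * ι H) = ∑ᶠ a, (U a).v H + ∑ᶠ a, (U a).v (ι H) := by
    rw [← finsum_add_distrib hfin hfin']
    exact finsum_congr hadd
  rw [hNsum, h1] at h2
  linarith

end

end

end Pool.Agent.VM.F5p

namespace Pool.Agent.VM

export F5p (at_pf)

end Pool.Agent.VM
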