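import Pool.Agent.Lib_helper67.VM.PtF
import Pool.Agent.Lib_helper15.VM.DefsE
import Pool.Agent.Lib_helper15.VM.F1
import Pool.Agent.Lib_helper15.VM.F2

/-!
# MP_5582d1_ag, part III-B, block F6: every nontrivial valuation of the curve has a centre
-/

set_option autoImplicit false

namespace Pool.Agent.VM.F6p

open scoped Classical
open Polynomial

attribute [-instance] Subtype.instDecidableEq

noncomputable section

section
variable {k F : Type} [Field k] [CharZero k] [Field F] [Algebra k F] {e : Pt E2 F}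

/-- a point of the curve with given coordinates -/
theorem f6_point {K : Type} [Field K] [CharZero K] {x y : K} (h : y ^ 2 = x ^ 3 + 1) :
    ∃ a : Pt E2 K, a ≠ 0 ∧ xc a = x ∧ yc a = y := by
  have hΔ : (E2.baseChange K).toAffine.Δ ≠ 0 := by
    simp [E2, SW, WeierstrassCurve.baseChange, WeierstrassCurve.Δ, WeierstrassCurve.b₂,
      WeierstrassCurve.b₄, WeierstrassCurve.b₆, WeierstrassCurve.b₈]
  have h1 : (E2.baseChange K).toAffine.Nonsingular x y := by
    rw [← WeierstrassCurve.Affine.equation_iff_nonsingular_of_Δ_ne_zero hΔ,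
      WeierstrassCurve.Affine.equation_iff, ptf_a₁, ptf_a₂, ptf_a₃, ptf_a₄, ptf_a₆]
    simp only [map_zero, map_one]
    linear_combination h
  refine ⟨.some x y h1, ?_, rfl, rfl⟩
  exact WeierstrassCurve.Affine.Point.some_ne_zero h1

theorem f6_tr_sub (he : Transcendental k (xc e)) (c : k) : xc e - algebraMap k F c ≠ 0 := by
  intro h
  apply he
  rw [sub_eq_zero.1 h]
  exact isAlgebraic_algebraMap c

/-- nonnegative values on polynomials -/
theorem f6_nonneg {u : QV F} {S : F} (ht : ∀ d : k, d ≠ 0 → u.v (algebraMap k F d) = 0)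
    (hS : S = 0 ∨ 0 ≤ u.v S) (p : k[X]) : aeval S p ∈ u.ring := by
  have h1 : ∀ d : k, algebraMap k F d ∈ u.ring := by
    intro d
    by_cases hd : d = 0
    · left; rw [hd, map_zero]
    · right; rw [ht d hd]
  induction p using Polynomial.induction_on' with
  | add p q hp hq => rw [map_add]; exact u.ring.add_mem _ _ hp hq
  | monomial n d =>
    rw [aeval_monomial]
    exact u.ring.mul_mem _ _ (h1 d) (pow_mem (show S ∈ u.ring from hS) n)

/-- every nontrivial valuation has a centre -/
theorem f6_ctr [IsAlgClosed k] (he : Transcendental k (xc e))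
    (hg : IntermediateField.adjoin k (cs e) = ⊤)
    (u : QV F) (ht : ∀ d : k, d ≠ 0 → u.v (algebraMap k F d) = 0) (hn : ∃ H : F, H ≠ 0 ∧ u.v H ≠ 0) :
    ∃ a : Pt E2 k, Ctr e a u := by
  have hS0 : xc e ≠ 0 := fun h => he (by rw [h]; exact isAlgebraic_zero)
  by_cases hneg : u.v (xc e) < 0
  · exact ⟨0, ht, fun h => absurd rfl h, fun _ => hneg⟩
  have hS : 0 ≤ u.v (xc e) := not_lt.1 hneg
  have hpos : ∃ c : k, 0 < u.v (xc e - algebraMap k F c) := by
    by_contra hcon
    have hlin : ∀ c : k, u.v (xc e - algebraMap k F c) = 0 := by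
      intro c
      apply le_antisymm
      · by_contra h
        exact hcon ⟨c, not_le.1 h⟩
      · by_cases hc : c = 0
        · rw [hc, map_zero, sub_zero]; exact hS
        · have h1 := u.sub hS0 ((map_ne_zero (algebraMap k F)).2 hc) (f6_tr_sub he c)
          rw [ht c hc, min_eq_right hS] at h1
          exact h1
    -- polynomials have value `0`
    have hpoly : ∀ p : k[X], p ≠ 0 → u.v (aeval (xc e) p) = 0 := by
      intro p hp
      have hsp := IsAlgClosed.splits p
      rw [Polynomial.Splits.eq_prod_roots hsp, map_mul, aeval_C, map_multiset_prod, Multiset.map_map]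
      have h1 : ∀ s : Multiset k, (s.map (⇑(aeval (xc e)) ∘ fun a => X - C a)).prod ≠ 0 ∧
          u.v (s.map (⇑(aeval (xc e)) ∘ fun a => X - C a)).prod = 0 := by
        intro s
        induction s using Multiset.induction_on with
        | empty => simp [u.one]
        | cons a s ih =>
          rw [Multiset.map_cons, Multiset.prod_cons]
          have h2 : (⇑(aeval (xc e)) ∘ fun a => X - C a) a = xc e - algebraMap k F a := by simp
          rw [h2]
          refine ⟨mul_ne_zero (f6_tr_sub he a) ih.1, ?_⟩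
          rw [u.mul (f6_tr_sub he a) ih.1, hlin, ih.2, add_zero]
      rw [u.mul ((map_ne_zero (algebraMap k F)).2 (leadingCoeff_ne_zero.2 hp)) (h1 _).1,
        ht _ (leadingCoeff_ne_zero.2 hp), (h1 _).2, add_zero]
    have hL : ∀ A ∈ IntermediateField.adjoin k {xc e}, A ≠ 0 → u.v A = 0 := by
      intro A hA hA0
      rw [IntermediateField.mem_adjoin_simple_iff] at hA
      obtain ⟨p, q, rfl⟩ := hA
      have hp : aeval (xc e) p ≠ 0 := fun h => hA0 (by rw [h, zero_div])
      have hq : aeval (xc e) q ≠ 0 := fun h => hA0 (by rw [h, div_zero])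
      have hp0 : p ≠ 0 := by rintro rfl; simp at hp
      have hq0 : q ≠ 0 := by rintro rfl; simp at hq
      rw [u.div hp hq, hpoly p hp0, hpoly q hq0, sub_zero]
    have hH : ∀ H : F, H ≠ 0 → ¬ 0 < u.v H := by
      intro H h0 hpos
      obtain ⟨A, hA, B, hB, hAB⟩ := F1p.nf_exists he hg H
      have hsq := F1p.f1_sq (F1p.f1_ne he)
      have hN := F1p.f1_norm he hA hB (by rw [← hAB]; exact h0)
      have hNm : A ^ 2 - B ^ 2 * (xc e ^ 3 + 1) ∈ IntermediateField.adjoin k {xc e} :=
        sub_mem (pow_mem hA 2) (mul_mem (pow_mem hB 2) F1p.f1_cube_mem)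
      have e1 : A ^ 2 - B ^ 2 * (xc e ^ 3 + 1) = H * (2 * A - H) := by
        rw [hAB, ← hsq]; ring
      have h2 : 2 * A - H ≠ 0 := fun h => hN (by rw [e1, h, mul_zero])
      have h3 : 2 * A - H ∈ u.ring := by
        refine u.ring.sub_mem ?_ (Or.inr hpos.le)
        by_cases hA0 : A = 0
        · left; rw [hA0, mul_zero]
        · right
          have h4 : (2 : F) * A ∈ IntermediateField.adjoin k {xc e} :=
            mul_mem (by
              have := (IntermediateField.adjoin k {xc e}).algebraMap_mem (2 : k)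
              rwa [map_ofNat] at this) hA
          have : CharZero F := charZero_of_injective_algebraMap (algebraMap k F).injective
          rw [hL _ h4 (mul_ne_zero two_ne_zero hA0)]
      have h4 := (u.mem_ring_of h2).1 h3
      have h5 := hL _ hNm hN
      rw [e1, u.mul h0 h2] at h5
      linarith
    obtain ⟨H, h0, h1⟩ := hn
    rcases lt_or_gt_of_ne h1 with h | h
    · refine hH H⁻¹ (inv_ne_zero h0) ?_
      rw [u.inv h0]
      linarith
    · exact hH H h0 h
  obtain ⟨c, hc⟩ := hpos
  obtain ⟨d, hd⟩ := IsAlgClosed.exists_pow_nat_eq (c ^ 3 + 1) (n := 2) two_pos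
  have hY : ∀ d : k, yc e - algebraMap k F d ≠ 0 := by
    intro d h
    apply F1p.yc_notMem he
    rw [sub_eq_zero.1 h]
    exact IntermediateField.algebraMap_mem _ d
  have hsq := F1p.f1_sq (F1p.f1_ne he)
  have hprod : (yc e - algebraMap k F d) * (yc e + algebraMap k F d) =
      (xc e - algebraMap k F c) * (aeval (xc e) (X ^ 2 + C c * X + C (c ^ 2))) := by
    have h1 : algebraMap k F d ^ 2 = algebraMap k F c ^ 3 + 1 := by
      rw [← map_pow, hd, map_add, map_pow, map_one]
    simp only [map_add, map_mul, aeval_X, aeval_C, map_pow]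
    linear_combination hsq - h1
  have hY' : yc e + algebraMap k F d ≠ 0 := by
    have := hY (-d)
    rwa [map_neg, sub_neg_eq_add] at this
  have hq0 : aeval (xc e) (X ^ 2 + C c * X + C (c ^ 2) : k[X]) ≠ 0 := by
    intro h
    rw [h, mul_zero] at hprod
    exact mul_ne_zero (hY d) hY' hprod
  have hsum : 0 < u.v (yc e - algebraMap k F d) + u.v (yc e + algebraMap k F d) := by
    rw [← u.mul (hY d) hY', hprod, u.mul (f6_tr_sub he c) hq0]
    have := (u.mem_ring_of hq0).1 (f6_nonneg ht (Or.inr hS) _)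
    linarith
  rcases lt_or_ge 0 (u.v (yc e - algebraMap k F d)) with h | h
  · obtain ⟨a, ha0, hax, hay⟩ := f6_point hd
    refine ⟨a, ht, fun _ => ?_, fun h => absurd h ha0⟩
    rw [hax, hay]
    exact ⟨hc, h⟩
  · obtain ⟨a, ha0, hax, hay⟩ := f6_point (x := c) (y := -d) (by rw [neg_sq, hd])
    refine ⟨a, ht, fun _ => ?_, fun h => absurd h ha0⟩
    rw [hax, hay, map_neg, sub_neg_eq_add]
    exact ⟨hc, by linarith⟩

/-- F6: every nontrivial valuation has a centre. -/
theorem at_class [IsAlgClosed k] (he : Transcendental k (xc e))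
    (hg : IntermediateField.adjoin k (cs e) = ⊤)
    (u : QV F) (ht : ∀ d : k, d ≠ 0 → u.v (algebraMap k F d) = 0) (hn : ∃ H : F, H ≠ 0 ∧ u.v H ≠ 0) :
    ∃ (a : Pt E2 k) (r : ℚ) (hr : 0 < r), At e a (u.scale r hr) := by
  obtain ⟨a, ha⟩ := f6_ctr he hg u ht hn
  obtain ⟨r, hr, h⟩ := ctr_norm he hg a u ha
  exact ⟨a, r, hr, h⟩

end

end

end Pool.Agent.VM.F6p

namespace Pool.Agent.VM

export F6p (at_class)

end Pool.Agent.VM
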