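import Pool.Agent.Lib_helper4.VM.EXT
import Pool.Agent.Lib_helper15.VM.DefsE
import Pool.Agent.Lib_helper15.VM.B0
import Pool.Agent.Lib_helper15.VM.F3
import Pool.Agent.Lib_helper15.VM.F4
import Pool.Agent.Lib_helper15.VM.F5
import Pool.Agent.Lib_helper15.VM.F6

/-! helper95: MP_5582d1_ag, block C1 -/

set_option autoImplicit false
set_option linter.unusedSectionVars false

namespace Pool.Agent.VM.C1p

open Pool.Agent.VM
open scoped Classical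
open Polynomial

attribute [-instance] Subtype.instDecidableEq

noncomputable section

section III1

variable {Λ : Type} [Field Λ] [CharZero Λ] [IsAlgClosed Λ] (Kb : Subfield Λ) [IsAlgClosed Kb]
  (e : Pt E2 Λ)

/-- C1E': B0, F4, EXT -/
theorem C1E' (he : Transcendental Kb (xc e)) (hal : ∀ x : Λ, IsAlgebraic (fe Kb e) x)
    (a : Pt E2 Kb) : ∃ u : QV Λ, AtPt Kb e a u := by
  obtain ⟨F, _, _, φ, e', h1, h2, h3, h4, h5, h6, h7⟩ := bridge Kb e he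
  obtain ⟨u₀, hu₀⟩ := at_exists h6 h5 a
  letI : Algebra F Λ := φ.toAlgebra
  have hcd : ∀ y : F, φ y ∈ fe Kb e := fun y => (h2 _).mpr ⟨y, rfl⟩
  have halg : Algebra.IsAlgebraic F Λ := by
    refine ⟨fun x => ?_⟩
    have hx : IsAlgebraic ↥(fe Kb e) (RingHom.id Λ x) := hal x
    refine IsAlgebraic.of_ringHom_of_comp_eq (φ.codRestrict (fe Kb e) hcd) (RingHom.id Λ) hx ?_
      Function.injective_id ?_
    · rintro ⟨x, hx⟩
      obtain ⟨y, hy⟩ := (h2 x).mp hx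
      exact ⟨y, Subtype.ext hy⟩
    · rfl
  obtain ⟨u, hu⟩ := EXT u₀ (L := Λ)
  refine ⟨u, (h7 a u).mpr ?_⟩
  have hv : ∀ x, (u.comap φ).v x = u₀.v x := hu
  refine ⟨⟨?_, ?_, ?_⟩, ?_, ?_⟩
  · intro d hd; rw [hv]; exact hu₀.triv d hd
  · intro ha; rw [hv, hv]; exact hu₀.ctr ha
  · intro ha; rw [hv]; exact hu₀.ctr0 ha
  · intro H hH; rw [hv]; exact hu₀.int H hH
  · obtain ⟨H, hH, h⟩ := hu₀.unif
    exact ⟨H, hH, by rw [hv]; exact h⟩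

/-- C1U': B0, F3 -/
theorem C1U' (he : Transcendental Kb (xc e)) (a : Pt E2 Kb) (u u' : QV Λ) (hu : AtPt Kb e a u)
    (hu' : AtPt Kb e a u') (H : Λ) (hH : H ∈ fe Kb e) (h0 : H ≠ 0) : u.v H = u'.v H := by
  obtain ⟨F, _, _, φ, e', h1, h2, h3, h4, h5, h6, h7⟩ := bridge Kb e he
  obtain ⟨y, rfl⟩ := (h2 H).mp hH
  exact at_unique h6 h5 a _ _ ((h7 a u).mp hu) ((h7 a u').mp hu') y
    (fun h => h0 (by rw [h, map_zero]))

/-- C1F': B0, F5 -/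
theorem C1F' (he : Transcendental Kb (xc e)) (U : Pt E2 Kb → QV Λ) (hU : ∀ a, AtPt Kb e a (U a))
    (H : Λ) (hH : H ∈ fe Kb e) (h0 : H ≠ 0) : {a | (U a).v H ≠ 0}.Finite := by
  obtain ⟨F, _, _, φ, e', h1, h2, h3, h4, h5, h6, h7⟩ := bridge Kb e he
  obtain ⟨y, rfl⟩ := (h2 H).mp hH
  exact (at_pf h6 h5 (fun a => (U a).comap φ) (fun a => (h7 a _).mp (hU a)) y
    (fun h => h0 (by rw [h, map_zero]))).1

/-- C1S': B0, F5 -/
theorem C1S' (he : Transcendental Kb (xc e)) (U : Pt E2 Kb → QV Λ) (hU : ∀ a, AtPt Kb e a (U a))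
    (H : Λ) (hH : H ∈ fe Kb e) (h0 : H ≠ 0) : ∑ᶠ a, (U a).v H = 0 := by
  obtain ⟨F, _, _, φ, e', h1, h2, h3, h4, h5, h6, h7⟩ := bridge Kb e he
  obtain ⟨y, rfl⟩ := (h2 H).mp hH
  exact (at_pf h6 h5 (fun a => (U a).comap φ) (fun a => (h7 a _).mp (hU a)) y
    (fun h => h0 (by rw [h, map_zero]))).2

/-- C1P': B0, F6, F3 -/
theorem C1P' (he : Transcendental Kb (xc e)) (U : Pt E2 Kb → QV Λ) (hU : ∀ a, AtPt Kb e a (U a))
    (u : QV Λ) (hu : ∀ c ∈ Kb, c ≠ 0 → u.v c = 0) (hne : ∃ H ∈ fe Kb e, H ≠ 0 ∧ u.v H ≠ 0) :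
    ∃ a, ∃ r : ℚ, 0 < r ∧ ∀ H ∈ fe Kb e, H ≠ 0 → u.v H = r * (U a).v H := by
  obtain ⟨F, _, _, φ, e', h1, h2, h3, h4, h5, h6, h7⟩ := bridge Kb e he
  have ht : ∀ d : Kb, d ≠ 0 → (u.comap φ).v (algebraMap Kb F d) = 0 := by
    intro d hd
    show u.v (φ (algebraMap Kb F d)) = 0
    rw [h1 d]
    exact hu d d.2 (fun h => hd (Subtype.ext h))
  have hn : ∃ H : F, H ≠ 0 ∧ (u.comap φ).v H ≠ 0 := by
    obtain ⟨H, hH, h0, h⟩ := hne
    obtain ⟨y, rfl⟩ := (h2 H).mp hH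
    exact ⟨y, fun h' => h0 (by rw [h', map_zero]), h⟩
  obtain ⟨a, r, hr, hAt⟩ := at_class h6 h5 (u.comap φ) ht hn
  refine ⟨a, 1 / r, by positivity, ?_⟩
  intro H hH h0
  obtain ⟨y, rfl⟩ := (h2 H).mp hH
  have h := at_unique h6 h5 a _ _ hAt ((h7 a _).mp (hU a)) y (fun h => h0 (by rw [h, map_zero]))
  have h' : r * u.v (φ y) = (U a).v (φ y) := h
  rw [← h']
  field_simp

end III1

end

end Pool.Agent.VM.C1p

namespace Pool.Agent.VM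

export C1p (C1E' C1U' C1F' C1S' C1P')

end Pool.Agent.VM
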