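import Pool.Agent.Lib_helper15.VM.DefsE

/-!
# MP_5582d1_ag, part III-C: definitions
-/

set_option autoImplicit false

namespace Pool.Agent.VM

noncomputable section

/-- `Kb(S)` -/
def fs {Λ : Type} [Field Λ] (Kb : Subfield Λ) (S : Λ) : Subfield Λ :=
  Subfield.closure ((Kb : Set Λ) ∪ {S})

end

end Pool.Agent.VM
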