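import Pool.Agent.Lib_helper85.VM.Defs2
import Pool.Agent.Lib_helper15.VM.DefsK
import Pool.Agent.Lib_helper15.VM.C1

/-! MP_5582d1_ag, block H3. -/

set_option autoImplicit false

namespace Pool.Agent.VM

open scoped Classical
open Polynomial

attribute [-instance] Subtype.instDecidableEq

noncomputable section

namespace H3p

private theorem xc_mp {K M Λ : Type} [Field Λ] [Field K] [Field M] [Algebra K M]
    [Algebra K Λ] (τ : M →ₐ[K] Λ) (P : Pt E2 M) : xc (mp τ P) = τ (xc P) := by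
  rcases P with _ | ⟨x, y, h⟩
  · exact (map_zero τ).symm
  · rfl

private theorem yc_mp {K M Λ : Type} [Field Λ] [Field K] [Field M] [Algebra K M]
    [Algebra K Λ] (τ : M →ₐ[K] Λ) (P : Pt E2 M) : yc (mp τ P) = τ (yc P) := by
  rcases P with _ | ⟨x, y, h⟩
  · exact (map_zero τ).symm
  · rfl

private theorem kb_eq {Λ : Type} [Field Λ] {K : Type} [Field K] [Algebra K Λ] {Kb : Subfield Λ}
    (hKb : ∀ x : Λ, x ∈ Kb ↔ IsAlgebraic K x) : Kb = (algebraicClosure K Λ).toSubfield := by
  ext x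
  rw [hKb]
  exact (mem_algebraicClosure_iff).symm

private theorem kb_closed {Λ : Type} [Field Λ] [IsAlgClosed Λ] {K : Type} [Field K] [Algebra K Λ]
    {Kb : Subfield Λ} (hKb : ∀ x : Λ, x ∈ Kb ↔ IsAlgebraic K x) : IsAlgClosed Kb := by
  rw [kb_eq hKb]
  exact (IsAlgClosure.isAlgClosed K : IsAlgClosed (algebraicClosure K Λ))

private theorem kb_tr {Λ : Type} [Field Λ] {K : Type} [Field K] [Algebra K Λ]
    {Kb : Subfield Λ} (hKb : ∀ x : Λ, x ∈ Kb ↔ IsAlgebraic K x) {x : Λ} (hx : Transcendental K x) :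
    Transcendental Kb x := by
  intro h
  rw [kb_eq hKb] at h
  have h' : IsAlgebraic (algebraicClosure K Λ) x := h
  exact hx (h'.restrictScalars K)

/-- a root of a monic polynomial with integral coefficients -/
private theorem int_root {F : Type} [Field F] (u : QV F) (p : F[X]) (hp : p.Monic)
    (hc : ∀ j, p.coeff j ≠ 0 → 0 ≤ u.v (p.coeff j)) {x : F} (hx0 : x ≠ 0) (hx : p.eval x = 0) :
    0 ≤ u.v x := by
  have h1 : p ∈ lifts (algebraMap u.ring F) := by
    rw [lifts_iff_coeff_lifts]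
    intro n
    refine ⟨⟨p.coeff n, ?_⟩, rfl⟩
    by_cases h : p.coeff n = 0
    · exact Or.inl h
    · exact Or.inr (hc n h)
  obtain ⟨q, hq, -, hqm⟩ := lifts_and_degree_eq_and_monic h1 hp
  have h2 : IsIntegral u.ring x := by
    refine ⟨q, hqm, ?_⟩
    rw [← eval_map, hq, hx]
  obtain ⟨y, hy⟩ := IsIntegrallyClosed.isIntegral_iff.1 h2
  have h3 : x ∈ u.ring := by
    rw [← hy]
    exact y.2
  exact (u.mem_ring_of hx0).1 h3

section HT

variable {Λ : Type} [Field Λ] [CharZero Λ] [IsAlgClosed Λ] {K M : Type} [Field K] [Field M] [Algebra K M]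
  [Algebra K Λ] (Kb : Subfield Λ) (hKb : ∀ x : Λ, x ∈ Kb ↔ IsAlgebraic K x) (e : Pt E2 Λ)
  (he : Transcendental K (xc e)) (U : Pt E2 Kb → QV Λ) (hU : ∀ a, AtPt Kb e a (U a))
  (eM : Pt E2 M) (hfin : FiniteDimensional (IntermediateField.adjoin K (cs eM)) M)
  (T : Finset (M →ₐ[K] Λ)) (hT : ∀ τ, τ ∈ T ↔ mp τ eM = e) (hT0 : T.Nonempty)

include hKb he hU hfin hT hT0

/-- H3 = HTF (StubsB): poles of the coefficients of the minimal polynomial over `K(eM)` mapped by
`τ₀ ∈ T`: elements of `fe Kb e`, C1F; the same for `θ⁻¹` -/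
theorem HTF' (θ : M) (h0 : θ ≠ 0) : {a | ∃ τ ∈ T, (U a).v (τ θ) ≠ 0}.Finite := by
  obtain ⟨τ₀, hτ₀⟩ := hT0
  have hac : IsAlgClosed Kb := kb_closed hKb
  have htr : Transcendental Kb (xc e) := kb_tr hKb he
  have hx : ∀ τ ∈ T, τ (xc eM) = xc e := fun τ hτ => by rw [← xc_mp, (hT τ).1 hτ]
  have hy : ∀ τ ∈ T, τ (yc eM) = yc e := fun τ hτ => by rw [← yc_mp, (hT τ).1 hτ]
  have himg : ∀ τ ∈ T, ∀ x ∈ IntermediateField.adjoin K (cs eM), τ x = τ₀ x := by
    intro τ hτ x hx'
    induction hx' using IntermediateField.adjoin_induction with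
    | mem x hx' =>
      rcases hx' with rfl | rfl
      · rw [hx τ hτ, hx τ₀ hτ₀]
      · rw [hy τ hτ, hy τ₀ hτ₀]
    | algebraMap x => rw [τ.commutes, τ₀.commutes]
    | add x y _ _ h1 h2 => rw [map_add, map_add, h1, h2]
    | inv x _ h1 => rw [map_inv₀, map_inv₀, h1]
    | mul x y _ _ h1 h2 => rw [map_mul, map_mul, h1, h2]
  have hfe : ∀ x ∈ IntermediateField.adjoin K (cs eM), τ₀ x ∈ fe Kb e := by
    intro x hx'
    induction hx' using IntermediateField.adjoin_induction with
    | mem x hx' =>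
      rcases hx' with rfl | rfl
      · rw [hx τ₀ hτ₀]
        exact Subfield.subset_closure (Or.inr (Or.inl rfl))
      · rw [hy τ₀ hτ₀]
        exact Subfield.subset_closure (Or.inr (Or.inr rfl))
    | algebraMap x =>
      rw [τ₀.commutes]
      exact Subfield.subset_closure (Or.inl ((hKb _).2 (isAlgebraic_algebraMap x)))
    | add x y _ _ h1 h2 =>
      rw [map_add]
      exact add_mem h1 h2
    | inv x _ h1 =>
      rw [map_inv₀]
      exact inv_mem h1
    | mul x y _ _ h1 h2 =>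
      rw [map_mul]
      exact mul_mem h1 h2
  have key : ∀ θ' : M, θ' ≠ 0 → ∃ A : Set (Pt E2 Kb), A.Finite ∧
      ∀ a, a ∉ A → ∀ τ ∈ T, 0 ≤ (U a).v (τ θ') := by
    intro θ' hθ'
    let p := minpoly (IntermediateField.adjoin K (cs eM)) θ'
    have hint : IsIntegral (IntermediateField.adjoin K (cs eM)) θ' :=
      Algebra.IsIntegral.isIntegral θ'
    refine ⟨⋃ j ∈ p.support, {a | (U a).v (τ₀ (p.coeff j : M)) ≠ 0}, ?_, ?_⟩
    · refine Set.Finite.biUnion p.support.finite_toSet fun j hj => ?_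
      refine C1F' Kb e htr U hU _ (hfe _ (p.coeff j).2) ?_
      rw [_root_.map_ne_zero]
      intro h
      exact mem_support_iff.1 hj (Subtype.ext h)
    · intro a ha τ hτ
      have hmap := hint
      let g : (IntermediateField.adjoin K (cs eM)) →+* Λ :=
        (τ : M →+* Λ).comp (algebraMap (IntermediateField.adjoin K (cs eM)) M)
      refine int_root (U a) (p.map g) ((minpoly.monic hint).map g) ?_ ?_ ?_
      · intro j hj
        rw [coeff_map] at hj ⊢
        have h1 : g (p.coeff j) = τ₀ (p.coeff j : M) := himg τ hτ _ (p.coeff j).2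
        rw [h1] at hj ⊢
        have h2 : j ∈ p.support := by
          rw [mem_support_iff]
          intro h
          apply hj
          rw [h]
          exact map_zero τ₀
        by_contra h3
        refine ha (Set.mem_biUnion h2 ?_)
        exact fun h4 => h3 (le_of_eq h4.symm)
      · rwa [_root_.map_ne_zero]
      · rw [eval_map]
        have h1 : (τ : M →+* Λ) (aeval θ' p) = 0 := by
          rw [minpoly.aeval, map_zero]
        rw [aeval_def, hom_eval₂] at h1
        exact h1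
  obtain ⟨A, hA, hA'⟩ := key θ h0
  obtain ⟨B, hB, hB'⟩ := key θ⁻¹ (inv_ne_zero h0)
  refine (hA.union hB).subset ?_
  rintro a ⟨τ, hτ, hne⟩
  by_contra hcon
  rw [Set.mem_union, not_or] at hcon
  have h1 := hA' a hcon.1 τ hτ
  have h2 := hB' a hcon.2 τ hτ
  rw [map_inv₀, QV.inv _ ((_root_.map_ne_zero τ).2 h0)] at h2
  exact hne (le_antisymm (by linarith) h1)

end HT

end H3p

end

end Pool.Agent.VM

namespace Pool.Agent.VM

export H3p (HTF')

end Pool.Agent.VM
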