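import Pool.Agent.Lib_helper15.VM.DefsK
import Pool.Agent.Lib_helper15.VM.B0
import Pool.Agent.Lib_helper15.VM.F2

set_option autoImplicit false

namespace Pool.Agent.VM.H0p

open scoped Classical
open Polynomial

attribute [-instance] Subtype.instDecidableEq

noncomputable section

/-- H0: the place of the line below a place of the curve (B0, F2d) -/
theorem atpt_pl {Λ : Type} [Field Λ] [CharZero Λ] (Kb : Subfield Λ) (e : Pt E2 Λ)
    (he : Transcendental Kb (xc e)) (a : Pt E2 Kb) (u : QV Λ) (hu : AtPt Kb e a u)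
    (hr : 0 < 1 / ri a) : Pl (k := Kb) (xc e) (pr a) (u.scale (1 / ri a) hr) := by
  obtain ⟨F, iF, iA, φ, e', h1, h2, h3, h4, h5, h6, h7⟩ := bridge Kb e he
  have hat : At e' a (u.comap φ) := (h7 a u).mp hu
  have hz : CharZero Kb := inferInstance
  obtain ⟨u', hp, hv⟩ := at_pl (k := Kb) (F := F) h6 h5 a (u.comap φ) hat
  have hri : ri a ≠ 0 := by
    intro h0
    rw [h0, div_zero] at hr
    exact lt_irrefl _ hr
  have key : ∀ H : F, (u.scale (1 / ri a) hr).v (φ H) = u'.v H := by
    intro H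
    have h8 : u.v (φ H) = ri a * u'.v H := hv H
    change (1 / ri a) * u.v (φ H) = u'.v H
    rw [h8, ← mul_assoc, one_div, inv_mul_cancel₀ hri, one_mul]
  refine ⟨?_, ?_, ?_⟩
  · intro d hd
    have h9 : u.v (d : Λ) = 0 := hu.triv d d.2 (fun h0 => hd (Subtype.ext h0))
    change (1 / ri a) * u.v (d : Λ) = 0
    rw [h9, mul_zero]
  · intro c hc
    have h9 : xc e - algebraMap Kb Λ c = φ (xc e' - algebraMap Kb F c) := by
      rw [map_sub, h3, h1]
      rfl
    rw [h9, key]
    exact hp.fin c hc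
  · intro hc
    rw [← h3, key]
    exact hp.inf hc

end

end Pool.Agent.VM.H0p

namespace Pool.Agent.VM

export H0p (atpt_pl)

end Pool.Agent.VM
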