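import Pool.Agent.Lib_helper15.VM.DefsL

/-! MP_5582d1_ag, part III-A, block L4: the Gauss norm of a product of linear factors. -/

set_option autoImplicit false

namespace Pool.Agent.VM.L4p

open scoped Classical
open Polynomial

noncomputable section

/-- `g` is a lower bound for the value of `a` -/
private def L4_LB {F : Type} [Field F] (u : QV F) (g : ℚ) (a : F) : Prop := a ≠ 0 → g ≤ u.v a

private theorem L4_sub {F : Type} [Field F] {u : QV F} {g : ℚ} {a b : F} (ha : L4_LB u g a)
    (hb : L4_LB u g b) : L4_LB u g (a - b) := by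
  intro h
  by_cases h1 : a = 0
  · have h2 : a - b = -b := by rw [h1, zero_sub]
    rw [h2, u.neg]
    exact hb fun h3 => h (by rw [h1, h3, sub_zero])
  · by_cases h2 : b = 0
    · rw [h2, sub_zero]
      exact ha h1
    · exact (le_min (ha h1) (hb h2)).trans (u.sub h1 h2 h)

private theorem L4_mul {F : Type} [Field F] {u : QV F} {g k : ℚ} {a b : F} (ha : L4_LB u g a)
    (hb : L4_LB u k b) : L4_LB u (g + k) (a * b) := by
  intro h
  have h1 : a ≠ 0 := left_ne_zero_of_mul h
  have h2 : b ≠ 0 := right_ne_zero_of_mul h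
  rw [u.mul h1 h2]
  exact add_le_add (ha h1) (hb h2)

private theorem L4_mono {F : Type} [Field F] {u : QV F} {g k : ℚ} {a : F} (h : g ≤ k)
    (ha : L4_LB u k a) : L4_LB u g a := fun h1 => h.trans (ha h1)

/-- a difference with one dominating term -/
private theorem L4_dom {F : Type} [Field F] {u : QV F} {a b : F} (hb : b ≠ 0)
    (ha : a ≠ 0 → u.v b < u.v a) : a - b ≠ 0 ∧ u.v (a - b) = u.v b := by
  by_cases h : a = 0
  · rw [h, zero_sub, u.neg]
    exact ⟨neg_ne_zero.2 hb, rfl⟩
  · have h1 : u.v (-b) < u.v a := by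
      rw [u.neg]
      exact ha h
    have h2 := u.add_eq_of_lt (neg_ne_zero.2 hb) h h1
    have h3 : a - b = -b + a := by ring
    rw [h3]
    exact ⟨h2.1, h2.2.trans (u.neg b)⟩

private theorem L4_dom' {F : Type} [Field F] {u : QV F} {a b : F} (ha : a ≠ 0)
    (hb : b ≠ 0 → u.v a < u.v b) : a - b ≠ 0 ∧ u.v (a - b) = u.v a := by
  have h := L4_dom (u := u) ha hb
  have h1 : a - b = -(b - a) := by ring
  rw [h1, u.neg]
  exact ⟨neg_ne_zero.2 h.1, h.2⟩

private theorem L4_step {F : Type} [Field F] (u : QV F) (f : F[X]) (g : ℚ) (r : F)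
    (h : IsGN u f g) :
    IsGN u (f * (X - C r)) (g + if r = 0 then 0 else min 0 (u.v r)) := by
  have hLB : ∀ j, L4_LB u g (f.coeff j) := h.1
  have hm0 : (if r = 0 then 0 else min 0 (u.v r)) ≤ (0 : ℚ) := by
    split_ifs
    · exact le_refl _
    · exact min_le_left _ _
  have hmr : L4_LB u (if r = 0 then 0 else min 0 (u.v r)) r := by
    intro hr
    rw [if_neg hr]
    exact min_le_right _ _
  have hc0 : (f * (X - C r)).coeff 0 = 0 - f.coeff 0 * r := by
    rw [mul_coeff_zero, coeff_sub, coeff_X_zero, coeff_C_zero]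
    ring
  have hc1 : ∀ j, (f * (X - C r)).coeff (j + 1) = f.coeff j - f.coeff (j + 1) * r := fun j =>
    coeff_mul_X_sub_C
  constructor
  · intro j
    rcases j with _ | j
    · rw [hc0]
      refine L4_sub (fun h0 => absurd rfl h0) (L4_mul (hLB 0) hmr)
    · rw [hc1]
      exact L4_sub (L4_mono (by linarith) (hLB j)) (L4_mul (hLB (j + 1)) hmr)
  · by_cases hr : r = 0 ∨ 0 ≤ u.v r
    · have hm : (if r = 0 then 0 else min 0 (u.v r)) = (0 : ℚ) := by
        split_ifs with h0
        · rfl
        · exact min_eq_left (hr.resolve_left h0)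
      rw [hm, add_zero]
      obtain ⟨j0, hj0, hv0⟩ := h.2
      have hne : (f.support.filter fun j => u.v (f.coeff j) = g).Nonempty :=
        ⟨j0, Finset.mem_filter.2 ⟨mem_support_iff.2 hj0, hv0⟩⟩
      obtain ⟨j, hj⟩ : ∃ j, j = (f.support.filter fun j => u.v (f.coeff j) = g).max' hne := ⟨_, rfl⟩
      have hj1 : j ∈ f.support.filter fun j => u.v (f.coeff j) = g := by
        rw [hj]
        exact Finset.max'_mem _ hne
      have hj2 : ∀ i ∈ f.support.filter fun j => u.v (f.coeff j) = g, i ≤ j := by
        intro i hi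
        rw [hj]
        exact Finset.le_max' _ i hi
      obtain ⟨hj3, hj4⟩ := Finset.mem_filter.1 hj1
      have hj5 : f.coeff j ≠ 0 := mem_support_iff.1 hj3
      refine ⟨j + 1, ?_⟩
      rw [hc1]
      have key := L4_dom' (u := u) (b := f.coeff (j + 1) * r) hj5 (by
        intro hb
        have h1 : f.coeff (j + 1) ≠ 0 := left_ne_zero_of_mul hb
        have h2 : r ≠ 0 := right_ne_zero_of_mul hb
        have h3 : 0 ≤ u.v r := hr.resolve_left h2
        have h4 : g ≤ u.v (f.coeff (j + 1)) := h.1 _ h1
        have h5 : u.v (f.coeff (j + 1)) ≠ g := by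
          intro h6
          have h7 := hj2 (j + 1) (Finset.mem_filter.2 ⟨mem_support_iff.2 h1, h6⟩)
          omega
        have h6 : g < u.v (f.coeff (j + 1)) := lt_of_le_of_ne h4 (Ne.symm h5)
        rw [hj4, u.mul h1 h2]
        linarith)
      exact ⟨key.1, key.2.trans hj4⟩
    · have hr0 : r ≠ 0 := fun h0 => hr (Or.inl h0)
      have hr1 : u.v r < 0 := not_le.1 fun h0 => hr (Or.inr h0)
      rw [if_neg hr0, min_eq_right hr1.le]
      obtain ⟨j, hj0, hv0⟩ := h.2
      have hb : f.coeff j * r ≠ 0 := mul_ne_zero hj0 hr0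
      have hvb : u.v (f.coeff j * r) = g + u.v r := by rw [u.mul hj0 hr0, hv0]
      refine ⟨j, ?_⟩
      rcases j with _ | j
      · rw [hc0]
        have key := L4_dom (u := u) (a := 0) hb fun h0 => absurd rfl h0
        exact ⟨key.1, key.2.trans hvb⟩
      · rw [hc1]
        have key := L4_dom (u := u) (a := f.coeff j) hb (by
          intro h0
          have h1 : g ≤ u.v (f.coeff j) := h.1 _ h0
          rw [hvb]
          linarith)
        exact ⟨key.1, key.2.trans hvb⟩

theorem gauss_prod {F : Type} [Field F] (u : QV F) (b : F) (hb : b ≠ 0) (s : Multiset F) :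
    IsGN u (C b * (s.map (fun r => X - C r)).prod)
      (u.v b + (s.map (fun r => if r = 0 then 0 else min 0 (u.v r))).sum) := by
  induction s using Multiset.induction_on with
  | empty =>
    rw [Multiset.map_zero, Multiset.prod_zero, Multiset.map_zero, Multiset.sum_zero, mul_one,
      add_zero]
    constructor
    · intro j hj
      rw [coeff_C] at hj ⊢
      split_ifs at hj ⊢ with h
      · exact le_refl _
      · exact absurd rfl hj
    · exact ⟨0, by rw [coeff_C_zero]; exact hb, by rw [coeff_C_zero]⟩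
  | cons r s ih =>
    have h := L4_step u _ _ r ih
    rw [Multiset.map_cons, Multiset.prod_cons, Multiset.map_cons, Multiset.sum_cons]
    have e1 : C b * ((X - C r) * (s.map (fun r => X - C r)).prod) =
        C b * (s.map (fun r => X - C r)).prod * (X - C r) := by ring
    have e2 : u.v b + ((if r = 0 then 0 else min 0 (u.v r)) +
        (s.map (fun r => if r = 0 then 0 else min 0 (u.v r))).sum) =
        u.v b + (s.map (fun r => if r = 0 then 0 else min 0 (u.v r))).sum +
          if r = 0 then 0 else min 0 (u.v r) := by ring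
    rw [e1, e2]
    exact h

end

end Pool.Agent.VM.L4p

namespace Pool.Agent.VM

export L4p (gauss_prod)

end Pool.Agent.VM
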