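import Pool.Agent.Lib_helper15.VM.DefsL

set_option autoImplicit false

namespace Pool.Agent.VM.L6p

open scoped Classical
open Polynomial Pool.Agent.VM

noncomputable section

/-- L6: sum over embeddings = degree × sum over the conjugates -/
theorem sum_emb {L M Λ : Type} [Field L] [CharZero L] [Field M] [Algebra L M]
    [FiniteDimensional L M] [Field Λ] [IsAlgClosed Λ] [Algebra L Λ] (θ : M) (F : Λ → ℚ) :
    ∑ σ : M →ₐ[L] Λ, F (σ θ) = (Module.finrank (IntermediateField.adjoin L {θ}) M : ℚ) *
      (((minpoly L θ).aroots Λ).map F).sum := by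
  have hint : IsIntegral L θ := Algebra.IsIntegral.isIntegral θ
  let pb := IntermediateField.adjoin.powerBasis hint
  have hgen : algebraMap (IntermediateField.adjoin L {θ}) M pb.gen = θ := by
    rw [IntermediateField.adjoin.powerBasis_gen]
    exact IntermediateField.AdjoinSimple.algebraMap_gen L θ
  have hmin : minpoly L pb.gen = minpoly L θ := by
    rw [IntermediateField.adjoin.powerBasis_gen, IntermediateField.minpoly_gen]
  let : Fintype (IntermediateField.adjoin L {θ} →ₐ[L] Λ) := PowerBasis.AlgHom.fintype pb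
  have h1 : ∑ σ : M →ₐ[L] Λ, F (σ θ) =
      (Module.finrank (IntermediateField.adjoin L {θ}) M : ℚ) *
        ∑ σ : IntermediateField.adjoin L {θ} →ₐ[L] Λ, F (σ pb.gen) := by
    rw [Fintype.sum_equiv (algHomEquivSigma (B := IntermediateField.adjoin L {θ}))
      (fun σ : M →ₐ[L] Λ => F (σ θ)) (fun σ => F (σ.1 pb.gen)), ← Finset.univ_sigma_univ,
      Finset.sum_sigma, Finset.mul_sum]
    · refine Finset.sum_congr rfl fun σ _ => ?_
      let : Algebra (IntermediateField.adjoin L {θ}) Λ := σ.toRingHom.toAlgebra
      simp_rw [Finset.sum_const, Finset.card_univ, nsmul_eq_mul]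
      congr 2
      exact AlgHom.card (IntermediateField.adjoin L {θ}) M Λ
    · intro σ
      simp only [algHomEquivSigma, Equiv.coe_fn_mk, AlgHom.domRestrict, AlgHom.comp_apply,
        IsScalarTower.coe_toAlgHom']
      rw [hgen]
  have h2 : ∑ σ : IntermediateField.adjoin L {θ} →ₐ[L] Λ, F (σ pb.gen) =
      (((minpoly L θ).aroots Λ).map F).sum := by
    have hnd : ((minpoly L pb.gen).aroots Λ).Nodup := by
      rw [hmin]
      exact nodup_roots ((minpoly.irreducible hint).separable.map)
    rw [← hmin, Fintype.sum_equiv pb.liftEquiv' (fun σ => F (σ pb.gen)) (fun x => F x.1) ?_,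
      Finset.sum_mem_multiset, Finset.sum_eq_multiset_sum, Multiset.toFinset_val,
      Multiset.dedup_eq_self.mpr hnd]
    · intro x
      rfl
    · intro σ
      simp only [PowerBasis.liftEquiv'_apply_coe]
  rw [h1, h2]

end

end Pool.Agent.VM.L6p

namespace Pool.Agent.VM

export L6p (sum_emb)

end Pool.Agent.VM
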