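import Pool.Agent.Lib_helper15.VM.DefsK
import Pool.Agent.Lib_helper15.VM.L4
import Pool.Agent.Lib_helper15.VM.L6

set_option autoImplicit false

namespace Pool.Agent.VM.H1p

open scoped Classical
open Polynomial

attribute [-instance] Subtype.instDecidableEq

noncomputable section

private lemma gn_unique {F F' : Type} [Field F] [Field F'] (u : QV F) (u' : QV F') (p : F[X]) (p' : F'[X])
    (h0 : ∀ j, p.coeff j ≠ 0 ↔ p'.coeff j ≠ 0)
    (h : ∀ j, p.coeff j ≠ 0 → u.v (p.coeff j) = u'.v (p'.coeff j)) (g g' : ℚ)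
    (hg : IsGN u p g) (hg' : IsGN u' p' g') : g = g' := by
  obtain ⟨h1, j, hj, hjg⟩ := hg
  obtain ⟨h1', j', hj', hjg'⟩ := hg'
  apply le_antisymm
  · have hp : p.coeff j' ≠ 0 := (h0 j').mpr hj'
    have := h1 j' hp
    rw [h j' hp, hjg'] at this
    exact this
  · have := h1' j ((h0 j).mp hj)
    rw [← h j hj, hjg] at this
    exact this

private lemma key {K M Λ : Type} [Field K] [CharZero K] [Field M] [Algebra K M] [Field Λ]
    [IsAlgClosed Λ] [Algebra K Λ] (L : IntermediateField K M) [FiniteDimensional L M]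
    (f : L →ₐ[K] Λ) (T : Finset (M →ₐ[K] Λ)) (hT : ∀ τ, τ ∈ T ↔ ∀ x : L, τ x = f x)
    (u : QV Λ) (θ : M) (hθ : θ ≠ 0) :
    ∃ g, IsGN u ((minpoly L θ).map f.toRingHom) g ∧
      ∑ τ ∈ T, max 0 (-u.v (τ θ)) = -((Module.finrank (IntermediateField.adjoin L {θ}) M : ℚ) * g) := by
  let _ : Algebra L Λ := f.toRingHom.toAlgebra
  have _ : IsScalarTower K L Λ := IsScalarTower.of_algebraMap_eq (fun x => (f.commutes x).symm)
  have _ : CharZero L := charZero_of_injective_algebraMap (algebraMap K L).injective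
  have hmap : algebraMap L Λ = f.toRingHom := rfl
  have hint : IsIntegral L θ := IsIntegral.of_finite L θ
  have hmon : (minpoly L θ).Monic := minpoly.monic hint
  -- roots are nonzero
  have hroot : ∀ r ∈ (minpoly L θ).aroots Λ, r ≠ 0 := by
    intro r hr h0
    rw [mem_aroots] at hr
    have h2 := hr.2
    rw [h0, aeval_def, eval₂_at_zero] at h2
    have h3 : (minpoly L θ).coeff 0 ≠ 0 := minpoly.coeff_zero_ne_zero hint hθ
    exact h3 ((map_eq_zero (algebraMap L Λ)).mp h2)
  -- the factorisation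
  have hfac : (minpoly L θ).map f.toRingHom =
      C (1 : Λ) * (((minpoly L θ).aroots Λ).map (fun r => X - C r)).prod := by
    rw [map_one, one_mul]
    have hs : Splits ((minpoly L θ).map (algebraMap L Λ)) := IsAlgClosed.splits _
    have := hs.eq_prod_roots_of_monic (hmon.map _)
    rw [hmap] at this
    rw [aroots_def, hmap]
    exact this
  have hGN := gauss_prod u (1 : Λ) one_ne_zero ((minpoly L θ).aroots Λ)
  rw [← hfac, u.one, zero_add] at hGN
  refine ⟨_, hGN, ?_⟩
  -- the sum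
  have hsum := sum_emb (L := L) (M := M) (Λ := Λ) θ (fun r => max 0 (-u.v r))
  have hmin : (((minpoly L θ).aroots Λ).map (fun r => max 0 (-u.v r))).sum =
      -(((minpoly L θ).aroots Λ).map (fun r => if r = 0 then 0 else min 0 (u.v r))).sum := by
    rw [← Multiset.sum_map_neg', Multiset.map_map]
    congr 1
    refine Multiset.map_congr rfl ?_
    intro r hr
    rw [Function.comp_apply, if_neg (hroot r hr)]
    have h1 := max_neg_neg (0 : ℚ) (u.v r)
    rw [neg_zero] at h1
    exact h1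
  rw [← mul_neg, ← hmin, ← hsum]
  refine Finset.sum_bij' (i := fun (τ : M →ₐ[K] Λ) (hτ : τ ∈ T) =>
      ({ toRingHom := τ.toRingHom, commutes' := fun x => ((hT τ).mp hτ x) } : M →ₐ[L] Λ))
    (j := fun (σ : M →ₐ[L] Λ) _ => σ.restrictScalars K) ?_ ?_ ?_ ?_ ?_
  · intro τ hτ
    exact Finset.mem_univ _
  · intro σ _
    rw [hT]
    intro x
    exact σ.commutes x
  · intro τ hτ
    rfl
  · intro σ _
    rfl
  · intro τ hτ
    rfl

/-- H1: the sum of `max 0 (-u)` over the embeddings depends only on the valuations of the elements of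
`L` (L4 and L6: it is minus the Gauss norm of the minimal polynomial, times a degree) -/
theorem sum_max_eq {K M Λ : Type} [Field K] [CharZero K] [Field M] [Algebra K M] [Field Λ]
    [IsAlgClosed Λ] [Algebra K Λ] (L : IntermediateField K M) [FiniteDimensional L M]
    (f f' : L →ₐ[K] Λ) (T T' : Finset (M →ₐ[K] Λ)) (hT : ∀ τ, τ ∈ T ↔ ∀ x : L, τ x = f x)
    (hT' : ∀ τ, τ ∈ T' ↔ ∀ x : L, τ x = f' x) (u u' : QV Λ)
    (h : ∀ x : L, x ≠ 0 → u.v (f x) = u'.v (f' x)) (θ : M) (hθ : θ ≠ 0) :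
    ∑ τ ∈ T, max 0 (-u.v (τ θ)) = ∑ τ ∈ T', max 0 (-u'.v (τ θ)) := by
  obtain ⟨g, hg, hs⟩ := key L f T hT u θ hθ
  obtain ⟨g', hg', hs'⟩ := key L f' T' hT' u' θ hθ
  rw [hs, hs']
  have hc : ∀ (φ : L →ₐ[K] Λ) j, ((minpoly L θ).map φ.toRingHom).coeff j = φ ((minpoly L θ).coeff j) := by
    intro φ j
    rw [coeff_map]
    rfl
  have : g = g' := by
    refine gn_unique u u' _ _ ?_ ?_ g g' hg hg'
    · intro j
      rw [hc, hc, ne_eq, ne_eq, map_eq_zero, map_eq_zero]
    · intro j hj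
      rw [hc] at hj ⊢
      rw [hc]
      exact h _ (fun h0 => hj (by rw [h0, map_zero]))
  rw [this]

end

end Pool.Agent.VM.H1p

namespace Pool.Agent.VM

export H1p (sum_max_eq)

end Pool.Agent.VM
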