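import Pool.Agent.Lib_helper15.VM.DefsK
import Pool.Agent.Lib_helper15.VM.B0
import Pool.Agent.Lib_helper15.VM.F1
import Pool.Agent.Lib_helper15.VM.F3

/-!
# MP_5582d1_ag: H2, the valuation on the conjugate
-/

set_option autoImplicit false

namespace Pool.Agent.VM.H2p

open scoped Classical
open Polynomial Pool.Agent.VM

attribute [-instance] Subtype.instDecidableEq

noncomputable section

/-- the conjugate of a normalised valuation -/
theorem at_conj {k F : Type} [Field k] [CharZero k] [Field F] [Algebra k F] {e : Pt E2 F}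
    (ι : F ≃ₐ[k] F) (h1 : ι (xc e) = xc e) (h2 : ι (yc e) = - yc e) (a : Pt E2 k) (u : QV F)
    (hu : At e a u) : At e (-a) (u.comap (ι : F →+* F)) where
  triv := by
    intro d hd
    have : (ι : F →+* F) (algebraMap k F d) = algebraMap k F d := ι.commutes d
    change u.v ((ι : F →+* F) (algebraMap k F d)) = 0
    rw [this]
    exact hu.triv d hd
  ctr := by
    intro ha
    have ha' : a ≠ 0 := fun h => ha (by rw [h, neg_zero])
    have h := hu.ctr ha'
    rw [ptf_xc_neg, ptf_yc_neg]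
    constructor
    · change 0 < u.v (ι (xc e - algebraMap k F (xc a)))
      rw [map_sub, h1, ι.commutes]
      exact h.1
    · change 0 < u.v (ι (yc e - algebraMap k F (-yc a)))
      rw [map_sub, h2, ι.commutes, map_neg]
      have : -yc e - -algebraMap k F (yc a) = -(yc e - algebraMap k F (yc a)) := by ring
      rw [this, u.neg]
      exact h.2
  ctr0 := by
    intro ha
    have ha' : a = 0 := neg_eq_zero.1 ha
    change u.v (ι (xc e)) < 0
    rw [h1]
    exact hu.ctr0 ha'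
  int := by
    intro H hH
    exact hu.int (ι H) (by simpa using hH)
  unif := by
    obtain ⟨H, hH, h⟩ := hu.unif
    refine ⟨ι.symm H, by simpa using hH, ?_⟩
    change u.v (ι (ι.symm H)) = 1
    rw [ι.apply_symm_apply]
    exact h

/-- H2: `U a` on the conjugate is `U (-a)`: if `τ eM = e` and `τ' eM = -e` then
`(U a)(τ' x) = (U (-a))(τ x)` for `x ∈ K(eM)` (B0, F1c, F3) -/
theorem conj_val {Λ : Type} [Field Λ] [CharZero Λ] {K M : Type} [Field K] [Field M] [Algebra K M]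
    [Algebra K Λ] (Kb : Subfield Λ) (hKb : ∀ x : Λ, x ∈ Kb ↔ IsAlgebraic K x) (e : Pt E2 Λ)
    (he : Transcendental Kb (xc e)) (eM : Pt E2 M) (τ τ' : M →ₐ[K] Λ) (h1 : mp τ eM = e)
    (h2 : mp τ' eM = -e) (a : Pt E2 Kb) (u u' : QV Λ) (hu : AtPt Kb e a u)
    (hu' : AtPt Kb e (-a) u') (x : M) (hx : x ∈ IntermediateField.adjoin K (cs eM)) (h0 : x ≠ 0) :
    u.v (τ' x) = u'.v (τ x) := by
  obtain ⟨F, _, _, φ, e', hφ, -, hx', hy', hg, htr, hAt⟩ := B0p.bridge Kb e he
  obtain ⟨ι, hι1, hι2, -, -, -⟩ := F1p.conj_exists (k := Kb) htr hg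
  -- the coordinates
  have mx : ∀ (σ : M →ₐ[K] Λ), σ (xc eM) = xc (mp σ eM) := by
    intro σ
    rcases ptf_cases eM with rfl | ⟨x, y, h, rfl⟩
    · rw [map_zero]; exact map_zero σ
    · rfl
  have my : ∀ (σ : M →ₐ[K] Λ), σ (yc eM) = yc (mp σ eM) := by
    intro σ
    rcases ptf_cases eM with rfl | ⟨x, y, h, rfl⟩
    · rw [map_zero]; exact map_zero σ
    · rfl
  have key : ∃ y : F, τ x = φ y ∧ τ' x = φ (ι y) := by
    refine IntermediateField.adjoin_induction K (s := cs eM)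
      (p := fun x _ => ∃ y : F, τ x = φ y ∧ τ' x = φ (ι y)) ?_ ?_ ?_ ?_ ?_ hx
    · intro z hz
      rcases hz with rfl | rfl
      · exact ⟨xc e', by rw [mx, h1, hx'], by rw [mx, h2, hι1, hx', ptf_xc_neg]⟩
      · exact ⟨yc e', by rw [my, h1, hy'], by rw [my, h2, hι2, map_neg, hy', ptf_yc_neg]⟩
    · intro c
      have hc : algebraMap K Λ c ∈ Kb := (hKb _).2 (isAlgebraic_algebraMap c)
      refine ⟨algebraMap Kb F ⟨_, hc⟩, ?_, ?_⟩
      · rw [hφ, τ.commutes]
      · rw [ι.commutes, hφ, τ'.commutes]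
    · rintro z w - - ⟨y, hy1, hy2⟩ ⟨y', hy1', hy2'⟩
      exact ⟨y + y', by rw [map_add, map_add, hy1, hy1'], by rw [map_add, map_add, map_add, hy2, hy2']⟩
    · rintro z - ⟨y, hy1, hy2⟩
      exact ⟨y⁻¹, by rw [map_inv₀, map_inv₀, hy1], by rw [map_inv₀, map_inv₀, map_inv₀, hy2]⟩
    · rintro z w - - ⟨y, hy1, hy2⟩ ⟨y', hy1', hy2'⟩
      exact ⟨y * y', by rw [map_mul, map_mul, hy1, hy1'], by rw [map_mul, map_mul, map_mul, hy2, hy2']⟩
  obtain ⟨y, hy1, hy2⟩ := key
  have hy0 : y ≠ 0 := by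
    rintro rfl
    rw [map_zero] at hy1
    exact h0 ((map_eq_zero_iff τ τ.injective).1 hy1)
  have hA := at_conj ι hι1 hι2 a _ ((hAt a u).1 hu)
  have hB := (hAt (-a) u').1 hu'
  have h := F3p.at_unique htr hg (-a) _ _ hA hB y hy0
  rw [hy1, hy2]
  exact h

end

end Pool.Agent.VM.H2p

namespace Pool.Agent.VM

export H2p (conj_val)

end Pool.Agent.VM
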