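import Pool.Agent.Lib_helper67.VM.PtF
import Pool.Agent.Lib_helper15.VM.DefsK

/-! MP_5582d1_ag, part III-H, block H4 (R), (R0): regrouping over the fibres of `pr`. -/

set_option autoImplicit false

namespace Pool.Agent.VM.H4Rp

open scoped Classical
open Polynomial

attribute [-instance] Subtype.instDecidableEq

noncomputable section

private theorem H4R_eqn {F : Type} [Field F] [Algebra ℤ F] {x y : F} :
    (E2.baseChange F).toAffine.Equation x y ↔ y ^ 2 = x ^ 3 + 1 := by
  rw [WeierstrassCurve.Affine.equation_iff]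
  simp [SW, WeierstrassCurve.baseChange]

private theorem H4R_ns {F : Type} [Field F] [CharZero F] [Algebra ℤ F] {x y : F}
    (h : y ^ 2 = x ^ 3 + 1) : (E2.baseChange F).toAffine.Nonsingular x y := by
  rw [WeierstrassCurve.Affine.nonsingular_iff]
  refine ⟨H4R_eqn.2 h, ?_⟩
  by_cases hx : x = 0
  · right
    have hy : y ≠ 0 := by
      rintro rfl
      rw [hx] at h
      norm_num at h
    simp only [SW, WeierstrassCurve.baseChange, WeierstrassCurve.map, map_zero]
    intro h1
    have h2 : (2 : F) * y = 0 := by linear_combination h1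
    rcases mul_eq_zero.1 h2 with h3 | h3
    · exact two_ne_zero h3
    · exact hy h3
  · left
    simp only [SW, WeierstrassCurve.baseChange, WeierstrassCurve.map, map_zero]
    intro h1
    have h2 : (3 : F) * x ^ 2 = 0 := by linear_combination -h1
    rcases mul_eq_zero.1 h2 with h3 | h3
    · exact three_ne_zero h3
    · exact hx (pow_eq_zero_iff two_ne_zero |>.1 h3)

/-- (R0) every point of the line lifts -/
theorem pr_surj {k : Type} [Field k] [CharZero k] [IsAlgClosed k] (x : Option k) :
    ∃ a : Pt E2 k, pr a = x := by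
  rcases x with _ | x
  · exact ⟨0, by rw [pr, if_pos rfl]⟩
  · obtain ⟨y, hy⟩ := IsAlgClosed.exists_pow_nat_eq (x ^ 3 + 1) (n := 2) two_pos
    refine ⟨.some x y (H4R_ns hy), ?_⟩
    rw [pr, if_neg (by intro h; cases h)]
    rfl

/-- (R0) -/
theorem pr_sec {k : Type} [Field k] [CharZero k] [IsAlgClosed k] :
    ∃ c : Option k → Pt E2 k, ∀ x, pr (c x) = x :=
  ⟨fun x => (pr_surj x).choose, fun x => (pr_surj x).choose_spec⟩

/-- the fibres of `pr` -/
theorem pr_eq_iff {k : Type} [Field k] (a b : Pt E2 k) : pr a = pr b ↔ a = b ∨ a = -b := by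
  by_cases ha : a = 0
  · by_cases hb : b = 0
    · rw [ha, hb]; simp
    · rw [pr, if_pos ha, pr, if_neg hb]
      constructor
      · intro h; cases h
      · rintro (h | h)
        · exact absurd (h ▸ ha) hb
        · exact absurd (neg_eq_zero.1 (h ▸ ha)) hb
  · by_cases hb : b = 0
    · rw [pr, if_neg ha, pr, if_pos hb]
      constructor
      · intro h; cases h
      · rintro (h | h)
        · exact absurd (h.trans hb) ha
        · exact absurd (h.trans (neg_eq_zero.2 hb)) ha
    · rw [pr, if_neg ha, pr, if_neg hb, ← ptf_xc_eq_iff ha hb]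
      exact ⟨fun h => Option.some.inj h, fun h => congrArg some h⟩

/-- ramification -/
theorem ri_eq {k : Type} [Field k] [CharZero k] (a : Pt E2 k) :
    ri a = if a = -a then 2 else 1 := by
  have h : (a = 0 ∨ yc a = 0) ↔ a = -a := by
    by_cases ha : a = 0
    · rw [ha]; simp
    · have h1 := ptf_dbl_ne ha
      rw [eq_neg_iff_add_eq_zero]
      constructor
      · rintro (h | h)
        · exact absurd h ha
        · by_contra h2
          exact h1.1 h2 (by rw [h, mul_zero])
      · intro h
        right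
        by_contra h2
        exact h1.2 (mul_ne_zero two_ne_zero h2) h
  rw [ri]
  by_cases h2 : a = -a
  · rw [if_pos h2, if_pos (h.2 h2)]
  · rw [if_neg h2, if_neg (fun h3 => h2 (h.1 h3))]

/-- (R) regrouping -/
theorem regroup {k : Type} [Field k] [CharZero k] (g : Pt E2 k → ℚ) (hg : {a | g a ≠ 0}.Finite)
    (c : Option k → Pt E2 k) (hc : ∀ x, pr (c x) = x) :
    ∑ᶠ a, g a = ∑ᶠ x, (1 / ri (c x)) * (g (c x) + g (-c x)) := by
  set S : Finset (Pt E2 k) := hg.toFinset ∪ hg.toFinset.image (fun a => -a) with hS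
  have hSneg : ∀ a ∈ S, -a ∈ S := by
    intro a ha
    rw [hS, Finset.mem_union, Finset.mem_image] at ha ⊢
    rcases ha with h | ⟨b, hb, rfl⟩
    · exact Or.inr ⟨a, h, rfl⟩
    · left; rw [neg_neg]; exact hb
  have hSg : ∀ a, a ∉ S → g a = 0 := by
    intro a ha
    by_contra h
    exact ha (Finset.mem_union_left _ (hg.mem_toFinset.2 h))
  have hL : ∑ᶠ a, g a = ∑ a ∈ S, g a := by
    apply finsum_eq_sum_of_support_subset
    intro a ha
    by_contra h
    exact ha (hSg a h)
  have hR : ∑ᶠ x, (1 / ri (c x)) * (g (c x) + g (-c x)) =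
      ∑ x ∈ S.image pr, (1 / ri (c x)) * (g (c x) + g (-c x)) := by
    apply finsum_eq_sum_of_support_subset
    intro x hx
    by_contra h
    apply hx
    have h1 : c x ∉ S := fun h2 => h (Finset.mem_coe.2 (Finset.mem_image.2 ⟨c x, h2, hc x⟩))
    have h2 : -c x ∉ S := fun h3 => h1 (by have := hSneg _ h3; rwa [neg_neg] at this)
    show (1 / ri (c x)) * (g (c x) + g (-c x)) = 0
    rw [hSg _ h1, hSg _ h2, add_zero, mul_zero]
  rw [hL, hR, ← Finset.sum_fiberwise_of_maps_to (s := S) (t := S.image pr) (g := pr)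
    (fun a ha => Finset.mem_image_of_mem pr ha)]
  refine Finset.sum_congr rfl ?_
  intro x hx
  obtain ⟨a, haS, hax⟩ := Finset.mem_image.1 hx
  have hca : c x = a ∨ c x = -a := by
    rw [← pr_eq_iff, hc x, hax]
  have hcS : c x ∈ S := by
    rcases hca with h | h
    · rw [h]; exact haS
    · rw [h]; exact hSneg a haS
  have hfib : S.filter (fun a => pr a = x) = {c x, -c x} := by
    ext b
    rw [Finset.mem_filter, Finset.mem_insert, Finset.mem_singleton, ← pr_eq_iff, hc x]
    refine ⟨fun h => h.2, fun h => ⟨?_, h⟩⟩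
    rw [← hc x, pr_eq_iff] at h
    rcases h with h | h
    · rw [h]; exact hcS
    · rw [h]; exact hSneg _ hcS
  rw [hfib, ri_eq]
  by_cases h : c x = -c x
  · rw [if_pos h, ← h, Finset.pair_eq_singleton, Finset.sum_singleton]
    ring
  · rw [if_neg h, Finset.sum_pair h]
    ring

end

end Pool.Agent.VM.H4Rp

namespace Pool.Agent.VM

export H4Rp (regroup)

end Pool.Agent.VM
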