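import Pool.Agent.Lib_helper15.VM.DefsL

/-!
# MP_5582d1_ag, part III-A, block L5 (helper76): the primitive relation
-/

set_option autoImplicit false

namespace Pool.Agent.VM.L5p

open scoped Classical
open Polynomial

noncomputable section

/-- `F = K(t)` is the field of fractions of `K[X]` -/
theorem isFrac {K F : Type} [Field K] [Field F] [Algebra K F] (t : F) (ht : Transcendental K t)
    (h : ∀ z : F, ∃ r s : K[X], z = aeval t r / aeval t s) :
    letI := (aeval t : K[X] →ₐ[K] F).toRingHom.toAlgebra
    IsFractionRing K[X] F := by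
  let := (aeval t : K[X] →ₐ[K] F).toRingHom.toAlgebra
  have inj : Function.Injective (algebraMap K[X] F) := transcendental_iff_injective.mp ht
  have : FaithfulSMul K[X] F := (faithfulSMul_iff_algebraMap_injective _ _).mpr inj
  exact IsFractionRing.of_field K[X] F h

/-- clearing the denominators of a monic polynomial -/
theorem prim_clear {R F : Type} [CommRing R] [IsDomain R] [IsGCDMonoid R] [Field F] [Algebra R F]
    [IsFractionRing R F] (p : F[X]) (hp : p.Monic) :
    ∃ B : R[X], B.IsPrimitive ∧ B.map (algebraMap R F) = C (algebraMap R F B.leadingCoeff) * p := by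
  let : NormalizedGCDMonoid R := Nonempty.some inferInstance
  have inj : Function.Injective (algebraMap R F) := IsFractionRing.injective R F
  obtain ⟨b, hb, hb2⟩ := IsLocalization.integerNormalization_spec (nonZeroDivisors R) p
  set q := IsLocalization.integerNormalization (nonZeroDivisors R) p with hq
  have h1 : q = C q.content * q.primPart := q.eq_C_content_mul_primPart
  have hq0 : q ≠ 0 := by
    rw [hq, Ne, IsFractionRing.integerNormalization_eq_zero_iff]
    exact hp.ne_zero
  have h2 : C (algebraMap R F q.content) * q.primPart.map (algebraMap R F)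
      = C (algebraMap R F b) * p := by
    rw [← map_C, ← Polynomial.map_mul, ← h1, hb2, Algebra.smul_def,
      Polynomial.algebraMap_apply]
  have hc : algebraMap R F q.content ≠ 0 := by
    rw [Ne, map_eq_zero_iff _ inj, content_eq_zero_iff]
    exact hq0
  have h3 : q.primPart.map (algebraMap R F)
      = C ((algebraMap R F q.content)⁻¹ * algebraMap R F b) * p := by
    rw [C_mul, mul_assoc, ← h2, ← mul_assoc, ← C_mul, inv_mul_cancel₀ hc, C_1, one_mul]
  refine ⟨q.primPart, q.isPrimitive_primPart, ?_⟩
  have h4 : algebraMap R F q.primPart.leadingCoeff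
      = (algebraMap R F q.content)⁻¹ * algebraMap R F b := by
    rw [← leadingCoeff_map_of_injective inj, h3, leadingCoeff_mul, hp.leadingCoeff, mul_one,
      leadingCoeff_C]
  rw [h4, h3]

theorem coeff_swap {R : Type} [CommSemiring R] (p : R[X][X]) (i j : ℕ) :
    ((Bivariate.swap p).coeff i).coeff j = (p.coeff j).coeff i := by
  induction p using Polynomial.induction_on' with
  | add p q hp hq => simp only [map_add, coeff_add, hp, hq]
  | monomial n a =>
    induction a using Polynomial.induction_on' with
    | add a b ha hb => simp only [map_add, coeff_add, ha, hb]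
    | monomial m r =>
      rw [Bivariate.swap_monomial_monomial, coeff_monomial, coeff_monomial]
      by_cases h1 : m = i <;> by_cases h2 : n = j <;> simp [h1, h2, coeff_monomial]

/-- the degree in the inner variable -/
def dS {R : Type} [CommSemiring R] (B : R[X][X]) : ℕ := B.support.sup (fun j => (B.coeff j).natDegree)

theorem le_dS {R : Type} [CommSemiring R] (B : R[X][X]) (j : ℕ) : (B.coeff j).natDegree ≤ dS B := by
  by_cases h : j ∈ B.support
  · exact Finset.le_sup (f := fun j => (B.coeff j).natDegree) h
  · rw [notMem_support_iff.mp h, natDegree_zero]; exact Nat.zero_le _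

theorem exists_dS {R : Type} [CommSemiring R] (B : R[X][X]) (hB : B ≠ 0) :
    ∃ j, B.coeff j ≠ 0 ∧ (B.coeff j).natDegree = dS B := by
  obtain ⟨j, hj, h⟩ := Finset.exists_mem_eq_sup B.support (nonempty_support_iff.mpr hB)
    (fun j => (B.coeff j).natDegree)
  exact ⟨j, mem_support_iff.mp hj, h.symm⟩

theorem natDegree_swap {R : Type} [CommSemiring R] (B : R[X][X]) (hB : B ≠ 0) :
    (Bivariate.swap B).natDegree = dS B := by
  apply le_antisymm
  · rw [natDegree_le_iff_coeff_eq_zero]
    intro N hN
    ext j
    rw [coeff_swap, coeff_zero]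
    exact coeff_eq_zero_of_natDegree_lt (lt_of_le_of_lt (le_dS B j) hN)
  · obtain ⟨j, h0, hj⟩ := exists_dS B hB
    apply le_natDegree_of_ne_zero
    intro h
    have h2 := congrArg (fun p => coeff p j) h
    simp only [coeff_zero] at h2
    rw [coeff_swap, ← hj, coeff_natDegree, leadingCoeff_eq_zero] at h2
    exact h0 h2

theorem map_aeval {K A : Type} [Field K] [CommRing A] [Algebra K A] (x y : A) (p : K[X][X]) :
    (p.map (aeval x : K[X] →ₐ[K] A).toRingHom).eval y = aevalAeval x y p := by
  induction p using Polynomial.induction_on' with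
  | add p q hp hq => simp only [Polynomial.map_add, eval_add, map_add, hp, hq]
  | monomial n a => simp

theorem prim_aeval {K : Type} [Field K] (B : K[X][X]) (hB : B.IsPrimitive) (k : Type) [Field k]
    [Algebra K k] (c : k) : ∃ j, aeval c (B.coeff j) ≠ 0 := by
  by_contra hcon
  push Not at hcon
  by_cases hc : IsIntegral K c
  · have h1 : C (minpoly K c) ∣ B := by
      rw [C_dvd_iff_dvd_coeff]
      intro j
      exact minpoly.dvd K c (hcon j)
    exact minpoly.not_isUnit K c (hB _ h1)
  · have ht : Transcendental K c := fun h => hc h.isIntegral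
    apply hB.ne_zero
    ext j : 1
    rw [coeff_zero]
    exact (transcendental_iff.mp ht) _ (hcon j)

/-- the degree of `M` only depends on the subfield -/
theorem finrank_eq {F E M : Type} [Field F] [Field E] [Field M] [Algebra F M] [Algebra E M]
    (N : IntermediateField F M) (N' : IntermediateField E M)
    (h : ∀ x, x ∈ N ↔ x ∈ N') : Module.finrank N M = Module.finrank N' M := by
  have h1 : N.toSubfield = N'.toSubfield := by
    ext x
    exact h x
  have h2 : ∀ A B : Subfield M, A = B → Module.finrank A M = Module.finrank B M := by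
    rintro A _ rfl
    rfl
  exact h2 _ _ h1

theorem rel_exists {K L M : Type} [Field K] [Field L] [Field M] [Algebra K L] [Algebra L M]
    [Algebra K M] [IsScalarTower K L M] [FiniteDimensional L M] (S : L) (hS : Transcendental K S)
    (hL : IntermediateField.adjoin K {S} = ⊤) (θ : M) (hθ : Transcendental K θ) :
    ∃ (B : K[X][X]) (m : ℕ), B ≠ 0 ∧
      B.map (aeval S : K[X] →ₐ[K] L).toRingHom =
        C (aeval S B.leadingCoeff) * minpoly L θ ∧
      (∀ (k : Type) [Field k] [Algebra K k] (c : k), ∃ j, aeval c (B.coeff j) ≠ 0) ∧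
      (∀ j, (B.coeff j).natDegree ≤ m) ∧ (∃ j, B.coeff j ≠ 0 ∧ (B.coeff j).natDegree = m) ∧
      m * Module.finrank (IntermediateField.adjoin L {θ}) M = dg K {θ} := by
  have hL' : ∀ z : L, ∃ r s : K[X], z = aeval S r / aeval S s := fun z =>
    (IntermediateField.mem_adjoin_simple_iff K z).mp (hL ▸ IntermediateField.mem_top)
  have hint : IsIntegral L θ := Algebra.IsIntegral.isIntegral θ
  -- the primitive relation
  obtain ⟨B, hBp, hB, hirr⟩ : ∃ B : K[X][X], B.IsPrimitive ∧
      B.map (aeval S : K[X] →ₐ[K] L).toRingHom = C (aeval S B.leadingCoeff) * minpoly L θ ∧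
      Irreducible B := by
    let iL : Algebra K[X] L := (aeval S : K[X] →ₐ[K] L).toRingHom.toAlgebra
    have fL : IsFractionRing K[X] L := isFrac S hS hL'
    obtain ⟨B, hBp, hB⟩ := prim_clear (R := K[X]) (minpoly L θ) (minpoly.monic hint)
    refine ⟨B, hBp, hB, ?_⟩
    rw [hBp.irreducible_iff_irreducible_map_fraction_map (K := L), hB]
    have h1 : algebraMap K[X] L B.leadingCoeff ≠ 0 := by
      rw [Ne, map_eq_zero_iff _ (IsFractionRing.injective K[X] L), leadingCoeff_eq_zero]
      exact hBp.ne_zero
    have h2 : Associated (C (algebraMap K[X] L B.leadingCoeff) * minpoly L θ) (minpoly L θ) := by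
      apply associated_unit_mul_left
      rw [isUnit_C]
      exact h1.isUnit
    exact h2.symm.irreducible (minpoly.irreducible hint)
  have hB0 : B ≠ 0 := hBp.ne_zero
  refine ⟨B, dS B, hB0, hB, fun k _ _ c => prim_aeval B hBp k c, le_dS B, exists_dS B hB0, ?_⟩
  -- the swapped polynomial
  set s : M := algebraMap L M S with hs
  set A : K[X][X] := Bivariate.swap B with hA
  have hAirr : Irreducible A := (MulEquiv.irreducible_iff Bivariate.swap).mpr hirr
  have hBz : aevalAeval s θ B = 0 := by
    rw [← map_aeval]
    have h1 : (aeval s : K[X] →ₐ[K] M).toRingHom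
        = (algebraMap L M).comp (aeval S : K[X] →ₐ[K] L).toRingHom := by
      ext x
      · simp [← IsScalarTower.algebraMap_apply]
      · simp [hs]
    rw [h1, ← Polynomial.map_map, hB, Polynomial.map_mul, eval_mul, eval_map_algebraMap,
      eval_map_algebraMap, minpoly.aeval, mul_zero]
  have hAz : aevalAeval θ s A = 0 := by
    rw [hA, Bivariate.aevalAeval_swap]; exact hBz
  have hdA : A.natDegree = dS B := natDegree_swap B hB0
  -- `dS B ≠ 0`
  have hm : dS B ≠ 0 := by
    intro h0
    rw [h0, natDegree_eq_zero] at hdA
    obtain ⟨x, hx⟩ := hdA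
    have h2 : x ≠ 0 := by
      rintro rfl
      rw [C_0] at hx
      exact hAirr.ne_zero hx.symm
    rw [← hx, aevalAeval_C] at hAz
    exact h2 ((transcendental_iff.mp hθ) _ hAz)
  have hAp : A.IsPrimitive := hAirr.isPrimitive (by rw [hdA]; exact hm)
  -- the minimal polynomial of `S` over `K(θ)`
  set T := IntermediateField.adjoin K {θ} with hT
  set t : T := ⟨θ, IntermediateField.mem_adjoin_simple_self K θ⟩ with ht
  have ht1 : ∀ p : K[X], algebraMap T M (aeval t p) = aeval θ p := by
    intro p
    rw [← aeval_algebraMap_apply]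
    rfl
  have htr : Transcendental K t := by
    rw [transcendental_iff]
    intro p hp
    apply (transcendental_iff.mp hθ)
    rw [← ht1, hp, map_zero]
  have hdeg : (minpoly T s).natDegree = dS B ∧ IsIntegral T s := by
    let iT : Algebra K[X] T := (aeval t : K[X] →ₐ[K] T).toRingHom.toAlgebra
    have fT : IsFractionRing K[X] T := by
      apply isFrac t htr
      rintro ⟨z, hz⟩
      obtain ⟨r, q, hrq⟩ := (IntermediateField.mem_adjoin_simple_iff K z).mp hz
      refine ⟨r, q, ?_⟩
      apply (algebraMap T M).injective
      rw [map_div₀, ht1, ht1]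
      exact hrq
    have inj : Function.Injective (algebraMap K[X] T) := IsFractionRing.injective K[X] T
    have h1 : Irreducible (A.map (algebraMap K[X] T)) :=
      (hAp.irreducible_iff_irreducible_map_fraction_map (K := T)).mp hAirr
    have h2 : aeval s (A.map (algebraMap K[X] T)) = 0 := by
      rw [← eval_map_algebraMap, Polynomial.map_map]
      have h3 : (algebraMap T M).comp (algebraMap K[X] T)
          = (aeval θ : K[X] →ₐ[K] M).toRingHom := by
        exact RingHom.ext ht1
      rw [h3, map_aeval]; exact hAz
    have h4 : minpoly T s = _ := minpoly.eq_of_irreducible h1 h2 |>.symm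
    refine ⟨?_, ?_⟩
    · rw [← hdA, ← natDegree_map_eq_of_injective inj, h4, natDegree_mul_C]
      exact inv_ne_zero (leadingCoeff_ne_zero.mpr h1.ne_zero)
    · exact (isAlgebraic_iff_isIntegral.mp ⟨_, h1.ne_zero, h2⟩)
  obtain ⟨hdeg, hsint⟩ := hdeg
  have hfin : Module.finrank T (IntermediateField.adjoin T {s}) = dS B := by
    rw [IntermediateField.adjoin.finrank hsint, hdeg]
  have hmul := Module.finrank_mul_finrank T (IntermediateField.adjoin T {s}) M
  rw [hfin] at hmul
  have hdg : dg K {θ} = Module.finrank T M := rfl
  rw [hdg, ← hmul]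
  congr 1
  apply finrank_eq
  intro x
  have e1 : x ∈ IntermediateField.adjoin T {s} ↔ x ∈ IntermediateField.adjoin K {θ, s} := by
    rw [← IntermediateField.adjoin_simple_adjoin_simple]
    exact Iff.rfl
  rw [e1]
  clear e1
  constructor
  · intro hx
    have hs' : s ∈ IntermediateField.adjoin K {θ, s} :=
      IntermediateField.subset_adjoin _ _ (by simp)
    have h2 : ∀ p : K[X], algebraMap L M (aeval S p) ∈ IntermediateField.adjoin K {θ, s} := by
      intro p
      rw [← aeval_algebraMap_apply, aeval_eq_sum_range]
      exact sum_mem fun i _ => IntermediateField.smul_mem _ (pow_mem hs' i)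
    induction hx using IntermediateField.adjoin_induction with
    | mem x hx =>
      rw [Set.mem_singleton_iff.mp hx]
      exact IntermediateField.subset_adjoin _ _ (by simp)
    | algebraMap l =>
      obtain ⟨r, q, rfl⟩ := hL' l
      rw [map_div₀]
      exact div_mem (h2 r) (h2 q)
    | add x y _ _ hx hy => exact add_mem hx hy
    | inv x _ hx => exact inv_mem hx
    | mul x y _ _ hx hy => exact mul_mem hx hy
  · intro hx
    have h1 : IntermediateField.adjoin K {θ, s}
        ≤ (IntermediateField.adjoin L {θ}).restrictScalars K := by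
      rw [IntermediateField.adjoin_le_iff]
      rintro y (rfl | rfl)
      · exact IntermediateField.mem_adjoin_simple_self L _
      · exact (IntermediateField.adjoin L {θ}).algebraMap_mem S
    exact h1 hx

end

end Pool.Agent.VM.L5p

namespace Pool.Agent.VM

export L5p (rel_exists)

end Pool.Agent.VM
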