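import Pool.Agent.Lib_helper15.VM.DefsL
import Pool.Agent.Lib_helper15.VM.L2
import Pool.Agent.Lib_helper15.VM.L4
import Pool.Agent.Lib_helper15.VM.L5
import Pool.Agent.Lib_helper15.VM.L6

/-! MP_5582d1_ag, part III-A, block L8: height = degree. -/

set_option autoImplicit false

namespace Pool.Agent.VM.L8p

open scoped Classical
open Polynomial Pool.Agent.VM

noncomputable section

private theorem gn_unique {F : Type} [Field F] {u : QV F} {f : F[X]} {g g' : ℚ}
    (h : IsGN u f g) (h' : IsGN u f g') : g = g' := by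
  obtain ⟨h1, j, hj, hj'⟩ := h
  obtain ⟨h2, i, hi, hi'⟩ := h'
  apply le_antisymm
  · rw [← hi']; exact h1 i hi
  · rw [← hj']; exact h2 j hj

section
variable {K L M Λ k : Type} [Field K] [CharZero K] [Field L] [Field M] [Field Λ] [Field k]
  [IsAlgClosed Λ] [IsAlgClosed k] [Algebra K L] [Algebra L M] [Algebra K M] [IsScalarTower K L M]
  [FiniteDimensional L M] [Algebra L Λ] [Algebra K Λ] [IsScalarTower K L Λ] [Algebra K k]
  [Algebra k Λ] [IsScalarTower K k Λ] [Algebra.IsAlgebraic K k]

omit [CharZero K] [IsAlgClosed Λ] [Algebra.IsAlgebraic K k] in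
/-- algebraic elements of `Λ` come from `k` -/
private theorem exists_const {x : Λ} (hx : IsAlgebraic K x) : ∃ d : k, algebraMap k Λ d = x := by
  have h1 : IsAlgebraic k x := hx.tower_top (L := k)
  have h2 : IsIntegral k x := h1.isIntegral
  have h3 := IsAlgClosed.degree_eq_one_of_irreducible k (minpoly.irreducible h2)
  exact minpoly.mem_range_of_degree_eq_one k x h3

omit [CharZero K] [IsAlgClosed Λ] [IsAlgClosed k] [FiniteDimensional L M] [Field M] [Algebra L M]
  [Algebra K M] [IsScalarTower K L M] in
private theorem S_tr (S : L) (hS : Transcendental K S) : Transcendental k (algebraMap L Λ S) := by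
  have h1 : Transcendental K (algebraMap L Λ S) := by
    rwa [transcendental_algebraMap_iff (FaithfulSMul.algebraMap_injective L Λ)]
  intro h
  exact h1 (h.restrictScalars K)

omit [CharZero K] [IsAlgClosed Λ] [Algebra.IsAlgebraic K k] in
/-- the algebraic case -/
private theorem HT0_alg (S : L) (hS : Transcendental K S)
    (U : Option k → QV Λ) (hU : ∀ x, Pl (algebraMap L Λ S) x (U x)) (θ : M) (hθ : θ ≠ 0)
    (hal : IsAlgebraic K θ) :
    ∑ᶠ x, ∑ σ : M →ₐ[L] Λ, max 0 (-(U x).v (σ θ)) = (dg K {θ} : ℚ) := by
  have h1 : ∀ x, ∑ σ : M →ₐ[L] Λ, max 0 (-(U x).v (σ θ)) = 0 := by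
    intro x
    apply Finset.sum_eq_zero
    intro σ _
    have h2 : IsAlgebraic K (σ θ) := by
      obtain ⟨p, hp, hp'⟩ := hal
      refine ⟨p, hp, ?_⟩
      have h3 := aeval_algHom_apply (σ.restrictScalars K) θ p
      rw [hp', map_zero] at h3
      exact h3
    obtain ⟨d, hd⟩ := exists_const (k := k) h2
    have hd0 : d ≠ 0 := by
      rintro rfl
      rw [map_zero] at hd
      exact hθ ((map_eq_zero σ.toRingHom).1 hd.symm)
    rw [← hd, (hU x).triv d hd0]
    simp
  have h2 : dg K {θ} = 0 := by
    unfold dg
    apply Module.finrank_of_infinite_dimensional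
    intro hfin
    have h3 : Algebra.IsAlgebraic K (IntermediateField.adjoin K {θ}) := by
      apply IntermediateField.isAlgebraic_adjoin
      intro x hx
      rw [Set.mem_singleton_iff.1 hx]
      exact hal.isIntegral
    have h4 : Algebra.IsAlgebraic (IntermediateField.adjoin K {θ}) M :=
      Algebra.IsAlgebraic.of_finite _ _
    have h5 : Algebra.IsAlgebraic K M := Algebra.IsAlgebraic.trans K (IntermediateField.adjoin K {θ}) M
    have h6 : IsAlgebraic K (algebraMap L M S) := h5.isAlgebraic _
    rw [isAlgebraic_algebraMap_iff (FaithfulSMul.algebraMap_injective L M)] at h6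
    exact hS h6
  rw [finsum_congr h1, finsum_zero, h2]
  simp

theorem HT0 (S : L) (hS : Transcendental K S) (hL : IntermediateField.adjoin K {S} = ⊤)
    (U : Option k → QV Λ) (hU : ∀ x, Pl (algebraMap L Λ S) x (U x)) (θ : M) (hθ : θ ≠ 0) :
    ∑ᶠ x, ∑ σ : M →ₐ[L] Λ, max 0 (-(U x).v (σ θ)) = (dg K {θ} : ℚ) := by
  by_cases hal : IsAlgebraic K θ
  · exact HT0_alg S hS U hU θ hθ hal
  have : CharZero L := charZero_of_injective_algebraMap (FaithfulSMul.algebraMap_injective K L)
  obtain ⟨B, m, hB0, hBm, hprim, hdeg, ⟨j₁, hj₁, hj₁'⟩, hm⟩ := rel_exists S hS hL θ hal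
  have hSk : Transcendental k (algebraMap L Λ S) := S_tr S hS
  -- the polynomial over `Λ`
  set SΛ : Λ := algebraMap L Λ S with hSΛ
  set b : K[X] := B.leadingCoeff with hb
  have hb0 : b ≠ 0 := leadingCoeff_ne_zero.2 hB0
  set bk : k[X] := b.map (algebraMap K k) with hbk
  have hbk0 : bk ≠ 0 := (Polynomial.map_ne_zero_iff (algebraMap K k).injective).2 hb0
  have hev : ∀ p : K[X], aeval SΛ (p.map (algebraMap K k)) = aeval SΛ p := fun p => by
    rw [aeval_map_algebraMap]
  set bΛ : Λ := aeval SΛ bk with hbΛ
  have hbΛ0 : bΛ ≠ 0 := by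
    intro h
    exact hbk0 (by
      by_contra hne
      exact hSk ⟨bk, hne, h⟩)
  set f : Λ[X] := C bΛ * (((minpoly L θ).aroots Λ).map (fun r => X - C r)).prod with hf
  have hintθ : IsIntegral L θ := IsIntegral.of_finite L θ
  have hsplit : ((minpoly L θ).map (algebraMap L Λ)) =
      (((minpoly L θ).aroots Λ).map (fun r => X - C r)).prod := by
    have h1 := (IsAlgClosed.splits ((minpoly L θ).map (algebraMap L Λ))).eq_prod_roots_of_monic
      ((minpoly.monic hintθ).map _)
    exact h1
  have hcoef : ∀ j, f.coeff j = aeval SΛ ((B.coeff j).map (algebraMap K k)) := by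
    intro j
    have h1 := congrArg (fun g : L[X] => (g.map (algebraMap L Λ)).coeff j) hBm
    simp only [coeff_map, Polynomial.map_mul, map_C] at h1
    rw [hf, ← hsplit, hev]
    have h2 : bΛ = algebraMap L Λ (aeval S b) := by
      rw [hbΛ, hev, hSΛ, aeval_algebraMap_apply]
    rw [h2, ← h1]
    rw [hSΛ, aeval_algebraMap_apply]
    rfl
  have hcoef0 : ∀ j, f.coeff j ≠ 0 ↔ B.coeff j ≠ 0 := by
    intro j
    rw [hcoef, not_iff_not]
    constructor
    · intro h
      by_contra hne
      exact hSk ⟨_, (Polynomial.map_ne_zero_iff (algebraMap K k).injective).2 hne, h⟩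
    · intro h
      rw [h, Polynomial.map_zero, map_zero]
  have hroot0 : ∀ r ∈ (minpoly L θ).aroots Λ, r ≠ 0 := by
    rintro r hr rfl
    rw [mem_aroots] at hr
    have h1 := hr.2
    rw [← coeff_zero_eq_aeval_zero'] at h1
    have h2 : (minpoly L θ).coeff 0 = 0 :=
      (map_eq_zero_iff _ (FaithfulSMul.algebraMap_injective L Λ)).1 h1
    exact minpoly.coeff_zero_ne_zero hintθ hθ h2
  -- the sum over the roots
  have hgp : ∀ x, IsGN (U x) f ((U x).v bΛ -
      (((minpoly L θ).aroots Λ).map (fun r => max 0 (-(U x).v r))).sum) := by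
    intro x
    have h1 := gauss_prod (U x) bΛ hbΛ0 ((minpoly L θ).aroots Λ)
    have h2 : (((minpoly L θ).aroots Λ).map (fun r => if r = 0 then 0 else min 0 ((U x).v r))).sum =
        -(((minpoly L θ).aroots Λ).map (fun r => max 0 (-(U x).v r))).sum := by
      rw [← Multiset.sum_map_neg', Multiset.map_map]
      congr 1
      apply Multiset.map_congr rfl
      intro r hr
      rw [if_neg (hroot0 r hr), Function.comp_apply, max_def, min_def]
      split_ifs <;> linarith
    rw [h2] at h1
    rw [sub_eq_add_neg]
    exact h1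
  have hfin : ∀ c : k, (((minpoly L θ).aroots Λ).map (fun r => max 0 (-(U (some c)).v r))).sum =
      (bk.rootMultiplicity c : ℚ) := by
    intro c
    have h1 : IsGN (U (some c)) f 0 := by
      constructor
      · intro j hj
        rw [hcoef, pl_poly_fin hSk (hU (some c)) _ ((Polynomial.map_ne_zero_iff
          (algebraMap K k).injective).2 ((hcoef0 j).1 hj))]
        positivity
      · obtain ⟨j, hj⟩ := hprim k c
        have hjB : B.coeff j ≠ 0 := by
          intro h
          rw [h, map_zero] at hj
          exact hj rfl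
        refine ⟨j, (hcoef0 j).2 hjB, ?_⟩
        rw [hcoef, pl_poly_fin hSk (hU (some c)) _ ((Polynomial.map_ne_zero_iff
          (algebraMap K k).injective).2 hjB)]
        have h2 : ((B.coeff j).map (algebraMap K k)).rootMultiplicity c = 0 := by
          apply rootMultiplicity_eq_zero
          intro h3
          apply hj
          rw [IsRoot.def, eval_map_algebraMap] at h3
          exact h3
        rw [h2]
        simp
    have h2 := gn_unique (hgp (some c)) h1
    rw [pl_poly_fin hSk (hU (some c)) _ hbk0] at h2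
    linarith
  have hinf : (((minpoly L θ).aroots Λ).map (fun r => max 0 (-(U none).v r))).sum =
      (m : ℚ) - (bk.natDegree : ℚ) := by
    have h1 : IsGN (U none) f (-(m : ℚ)) := by
      constructor
      · intro j hj
        rw [hcoef, pl_poly_inf hSk (hU none) _ ((Polynomial.map_ne_zero_iff
          (algebraMap K k).injective).2 ((hcoef0 j).1 hj)), natDegree_map]
        have : ((B.coeff j).natDegree : ℚ) ≤ m := by exact_mod_cast hdeg j
        linarith
      · refine ⟨j₁, (hcoef0 j₁).2 hj₁, ?_⟩
        rw [hcoef, pl_poly_inf hSk (hU none) _ ((Polynomial.map_ne_zero_iff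
          (algebraMap K k).injective).2 hj₁), natDegree_map, hj₁']
    have h2 := gn_unique (hgp none) h1
    rw [pl_poly_inf hSk (hU none) _ hbk0] at h2
    linarith
  have hsum : ∀ x, ∑ σ : M →ₐ[L] Λ, max 0 (-(U x).v (σ θ)) =
      (Module.finrank (IntermediateField.adjoin L {θ}) M : ℚ) *
        (((minpoly L θ).aroots Λ).map (fun r => max 0 (-(U x).v r))).sum :=
    fun x => sum_emb θ (fun r => max 0 (-(U x).v r))
  set n : ℚ := (Module.finrank (IntermediateField.adjoin L {θ}) M : ℚ) with hn
  set g : Option k → ℚ := fun x => (((minpoly L θ).aroots Λ).map (fun r => max 0 (-(U x).v r))).sum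
    with hg
  have hg1 : ∀ c, g (some c) = (bk.rootMultiplicity c : ℚ) := hfin
  have hg2 : g none = (m : ℚ) - (bk.natDegree : ℚ) := hinf
  have hsupp : Function.support g ⊆
      ((insert none (bk.roots.toFinset.image some) : Finset (Option k)) : Set (Option k)) := by
    intro x hx
    rcases x with _ | c
    · simp
    · rw [Function.mem_support, hg1] at hx
      simp only [Finset.coe_insert, Finset.coe_image, Set.mem_insert_iff, reduceCtorEq, false_or,
        Set.mem_image, Finset.mem_coe, Multiset.mem_toFinset, Option.some.injEq, exists_eq_right]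
      rw [← Multiset.count_pos, count_roots]
      have h1 : bk.rootMultiplicity c ≠ 0 := by exact_mod_cast hx
      exact Nat.pos_of_ne_zero h1
  have htot : ∑ᶠ x, g x = (m : ℚ) := by
    rw [finsum_eq_sum_of_support_subset g hsupp, Finset.sum_insert (by simp), hg2,
      Finset.sum_image (by intro a _ b _ h; exact Option.some.inj h)]
    have h1 : ∑ c ∈ bk.roots.toFinset, g (some c) = (bk.natDegree : ℚ) := by
      rw [Finset.sum_congr rfl (fun c _ => hg1 c)]
      rw [← Nat.cast_sum]
      congr 1
      have h2 : ∀ c, bk.rootMultiplicity c = bk.roots.count c := fun c => (count_roots bk).symm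
      rw [Finset.sum_congr rfl (fun c _ => h2 c), Multiset.toFinset_sum_count_eq]
      exact (IsAlgClosed.splits bk).natDegree_eq_card_roots.symm
    rw [h1]
    ring
  have hfs : (Function.support g).Finite := (Finset.finite_toSet _).subset hsupp
  have hmf : n * ∑ᶠ x, g x = ∑ᶠ x, n * g x := mul_finsum g n
  rw [finsum_congr hsum]
  refine hmf.symm.trans ?_
  rw [htot, hn, ← hm]
  push_cast
  ring

end

end

end Pool.Agent.VM.L8p

namespace Pool.Agent.VM

export L8p (HT0)

end Pool.Agent.VM
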