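import Pool.Agent.Lib_helper85.VM.Defs2
import Pool.Agent.Lib_helper67.VM.PtF
import Pool.Agent.Lib_helper15.VM.DefsK
import Pool.Agent.Lib_helper15.VM.F1

/-!
# MP_5582d1_ag: the two sheets of a curve over the line
-/

set_option autoImplicit false

namespace Pool.Agent.VM

open scoped Classical
open Polynomial

attribute [-instance] Subtype.instDecidableEq

namespace TSp

lemma xc_mp {R P F K : Type*} [CommRing R] [CommRing P] [Field F] [Field K] [Algebra R P] [Algebra R F]
    [Algebra R K] [Algebra P F] [Algebra P K] [IsScalarTower R P F] [IsScalarTower R P K]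
    {W : WeierstrassCurve R} (f : F →ₐ[P] K) (Q : Pt W F) : xc (mp f Q) = f (xc Q) := by
  rcases Q with _ | ⟨x, y, h⟩
  · exact (map_zero f).symm
  · rfl

lemma yc_mp {R P F K : Type*} [CommRing R] [CommRing P] [Field F] [Field K] [Algebra R P] [Algebra R F]
    [Algebra R K] [Algebra P F] [Algebra P K] [IsScalarTower R P F] [IsScalarTower R P K]
    {W : WeierstrassCurve R} (f : F →ₐ[P] K) (Q : Pt W F) : yc (mp f Q) = f (yc Q) := by
  rcases Q with _ | ⟨x, y, h⟩
  · exact (map_zero f).symm
  · rfl

lemma mp_ne_zero {R P F K : Type*} [CommRing R] [CommRing P] [Field F] [Field K] [Algebra R P] [Algebra R F]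
    [Algebra R K] [Algebra P F] [Algebra P K] [IsScalarTower R P F] [IsScalarTower R P K]
    {W : WeierstrassCurve R} (f : F →ₐ[P] K) {Q : Pt W F} (h : Q ≠ 0) : mp f Q ≠ 0 := by
  rcases Q with _ | ⟨x, y, h1⟩
  · exact absurd rfl h
  · exact WeierstrassCurve.Affine.Point.some_ne_zero _

lemma pt_ext {R F : Type*} [CommRing R] [Field F] [Algebra R F] {W : WeierstrassCurve R}
    {P Q : Pt W F} (hP : P ≠ 0) (hQ : Q ≠ 0) (hx : xc P = xc Q) (hy : yc P = yc Q) : P = Q := by
  rcases P with _ | ⟨x, y, h⟩
  · exact absurd rfl hP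
  rcases Q with _ | ⟨x', y', h'⟩
  · exact absurd rfl hQ
  change x = x' at hx
  change y = y' at hy
  subst hx; subst hy; rfl

lemma e2_sq {F : Type*} [Field F] {P : Pt E2 F} (hP : P ≠ 0) : yc P ^ 2 = xc P ^ 3 + 1 := by
  have := ptf_sq hP
  simpa using this

end TSp

open TSp

/-- finiteness over a smaller field -/
theorem fd_gen {K M : Type} [Field K] [Field M] [Algebra K M] (L0 : IntermediateField K M) (y : M)
    (s : Set M) (hs : ∀ x ∈ s, x ∈ L0 ∨ x = y) (hint : IsIntegral L0 y)
    (hfin : FiniteDimensional (IntermediateField.adjoin K s) M) : FiniteDimensional L0 M := by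
  have f1 : FiniteDimensional L0 (IntermediateField.adjoin L0 {y}) :=
    IntermediateField.adjoin.finiteDimensional hint
  have hle : IntermediateField.adjoin K s ≤ (IntermediateField.adjoin L0 {y}).restrictScalars K := by
    rw [IntermediateField.adjoin_le_iff]
    intro x hx
    rcases hs x hx with hx | hx
    · exact IntermediateField.algebraMap_mem (IntermediateField.adjoin L0 {y}) (⟨x, hx⟩ : L0)
    · have h1 : y ∈ IntermediateField.adjoin L0 {y} := IntermediateField.mem_adjoin_simple_self L0 y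
      rw [hx]
      exact h1
  let : Algebra (IntermediateField.adjoin K s) (IntermediateField.adjoin L0 {y}) :=
    (IntermediateField.inclusion hle).toRingHom.toAlgebra
  have : IsScalarTower (IntermediateField.adjoin K s) (IntermediateField.adjoin L0 {y}) M :=
    IsScalarTower.of_algebraMap_eq (fun x => rfl)
  have f2 : FiniteDimensional (IntermediateField.adjoin L0 {y}) M :=
    FiniteDimensional.right (IntermediateField.adjoin K s) _ M
  exact FiniteDimensional.trans L0 (IntermediateField.adjoin L0 {y}) M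

/-- `M` is finite over `K(xc eM)` -/
theorem fd_x {K M : Type} [Field K] [Field M] [Algebra K M] (eM : Pt E2 M) (h0 : eM ≠ 0)
    (hfin : FiniteDimensional (IntermediateField.adjoin K (cs eM)) M) :
    FiniteDimensional (IntermediateField.adjoin K {xc eM}) M := by
  refine fd_gen _ (yc eM) (cs eM) ?_ ?_ hfin
  · rintro x (rfl | hx)
    · exact Or.inl (IntermediateField.mem_adjoin_simple_self K _)
    · exact Or.inr hx
  · refine IsIntegral.of_pow (n := 2) (by norm_num) ?_
    rw [e2_sq h0]
    have h1 : IsIntegral (IntermediateField.adjoin K {xc eM}) (xc eM) :=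
      isIntegral_algebraMap (x := (⟨xc eM, IntermediateField.mem_adjoin_simple_self K _⟩ :
        IntermediateField.adjoin K {xc eM}))
    exact (h1.pow 3).add isIntegral_one

/-- the two sheets -/
theorem two_sheets {Λ : Type} [Field Λ] [CharZero Λ] [IsAlgClosed Λ] {K M : Type} [Field K]
    [Field M] [Algebra K M] [Algebra K Λ] (e : Pt E2 Λ) (he : Transcendental K (xc e))
    (eM : Pt E2 M) (T : Finset (M →ₐ[K] Λ)) (hT : ∀ τ, τ ∈ T ↔ mp τ eM = e)
    (τ₀ : M →ₐ[K] Λ) (h0 : τ₀ ∈ T)
    [Algebra (IntermediateField.adjoin K {xc eM}) Λ]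
    [IsScalarTower K (IntermediateField.adjoin K {xc eM}) Λ]
    (halg : ∀ x : IntermediateField.adjoin K {xc eM},
      algebraMap (IntermediateField.adjoin K {xc eM}) Λ x = τ₀ x)
    [FiniteDimensional (IntermediateField.adjoin K {xc eM}) M] :
    ∃ T' : Finset (M →ₐ[K] Λ), (∀ τ, τ ∈ T' ↔ mp τ eM = -e) ∧ T'.Nonempty ∧ Disjoint T T' ∧
      ∀ F : (M →ₐ[K] Λ) → ℚ,
        ∑ σ : M →ₐ[IntermediateField.adjoin K {xc eM}] Λ, F (σ.restrictScalars K) =
          ∑ τ ∈ T, F τ + ∑ τ ∈ T', F τ := by
  have e0 : e ≠ 0 := by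
    rintro rfl
    exact he isAlgebraic_zero
  have hτe := (hT τ₀).1 h0
  have eM0 : eM ≠ 0 := by
    rintro rfl
    rw [map_zero] at hτe
    exact e0 hτe.symm
  have hx0 : τ₀ (xc eM) = xc e := by rw [← xc_mp, hτe]
  have hy0 : τ₀ (yc eM) = yc e := by rw [← yc_mp, hτe]
  have sqe := e2_sq e0
  have sqM := e2_sq eM0
  have hye : yc e ≠ 0 := by
    intro h
    apply he
    refine ⟨X ^ 3 + 1, ?_, ?_⟩
    · intro h1
      have := congrArg (fun p => coeff p 3) h1
      simp [coeff_one] at this
    · simp [← sqe, h]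
  have hne : -e ≠ e := by
    intro h
    have := congrArg yc h
    rw [ptf_yc_neg] at this
    apply hye
    have h2 : (2 : Λ) * yc e = 0 := by linear_combination -this
    exact (mul_eq_zero.mp h2).resolve_left two_ne_zero
  -- the elements over `L₀`
  have hσx : ∀ σ : M →ₐ[IntermediateField.adjoin K {xc eM}] Λ, σ (xc eM) = xc e := by
    intro σ
    have h1 := σ.commutes (⟨xc eM, IntermediateField.mem_adjoin_simple_self K _⟩ :
      IntermediateField.adjoin K {xc eM})
    rw [halg] at h1
    exact h1.trans hx0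
  have hσ : ∀ σ : M →ₐ[IntermediateField.adjoin K {xc eM}] Λ,
      mp (σ.restrictScalars K) eM = e ∨ mp (σ.restrictScalars K) eM = -e := by
    intro σ
    refine (ptf_xc_eq_iff (mp_ne_zero _ eM0) e0).1 ?_
    rw [xc_mp]
    exact hσx σ
  have hext : ∀ τ : M →ₐ[K] Λ, τ (xc eM) = xc e →
      ∃ σ : M →ₐ[IntermediateField.adjoin K {xc eM}] Λ, σ.restrictScalars K = τ := by
    intro τ hτ
    have h1 : τ.comp (IntermediateField.adjoin K {xc eM}).val =
        τ₀.comp (IntermediateField.adjoin K {xc eM}).val := by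
      refine IntermediateField.adjoin_algHom_ext K ?_
      intro x hx
      rw [Set.mem_singleton_iff] at hx
      subst hx
      exact hτ.trans hx0.symm
    refine ⟨{ τ.toRingHom with commutes' := ?_ }, ?_⟩
    · intro x
      rw [halg]
      exact DFunLike.congr_fun h1 x
    · ext x; rfl
  have hinj : Function.Injective
      (fun σ : M →ₐ[IntermediateField.adjoin K {xc eM}] Λ => σ.restrictScalars K) := by
    intro σ σ' h
    ext x
    exact DFunLike.congr_fun h x
  set S : Finset (M →ₐ[K] Λ) := (Finset.univ : Finset (M →ₐ[IntermediateField.adjoin K {xc eM}] Λ)).image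
    (fun σ => σ.restrictScalars K) with hS
  have memS : ∀ τ, τ ∈ S ↔ τ (xc eM) = xc e := by
    intro τ
    rw [hS, Finset.mem_image]
    constructor
    · rintro ⟨σ, -, rfl⟩
      exact hσx σ
    · intro h
      obtain ⟨σ, hσ⟩ := hext τ h
      exact ⟨σ, Finset.mem_univ _, hσ⟩
  have hmpx : ∀ τ : M →ₐ[K] Λ, (mp τ eM = e ∨ mp τ eM = -e) ↔ τ (xc eM) = xc e := by
    intro τ
    rw [← ptf_xc_eq_iff (mp_ne_zero _ eM0) e0, xc_mp]
  refine ⟨S.filter (fun τ => mp τ eM = -e), ?_, ?_, ?_, ?_⟩
  · intro τ
    rw [Finset.mem_filter, memS, and_iff_right_iff_imp]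
    intro h
    exact (hmpx τ).1 (Or.inr h)
  · -- nonempty
    have hint : IsIntegral (IntermediateField.adjoin K {xc eM}) (yc eM) :=
      Algebra.IsIntegral.isIntegral _
    have : CharZero K := (algebraMap K Λ).charZero
    have htrM : Transcendental K (xc eM) := by
      intro h
      apply he
      rw [← hx0]
      exact h.algHom τ₀
    have hnot : yc eM ∉ IntermediateField.adjoin K {xc eM} := yc_notMem htrM
    have h2 : 2 ≤ (minpoly (IntermediateField.adjoin K {xc eM}) (yc eM)).natDegree := by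
      rw [minpoly.two_le_natDegree_iff hint]
      rintro ⟨z, hz⟩
      apply hnot
      rw [← hz]
      exact z.2
    set g : IntermediateField.adjoin K {xc eM} :=
      ⟨xc eM, IntermediateField.mem_adjoin_simple_self K _⟩ with hg
    have hgM : algebraMap (IntermediateField.adjoin K {xc eM}) M g = xc eM := rfl
    have hq : minpoly (IntermediateField.adjoin K {xc eM}) (yc eM) =
        X ^ 2 - C (g ^ 3 + 1) := by
      symm
      have hdeg : (X ^ 2 - C (g ^ 3 + 1) :
          (IntermediateField.adjoin K {xc eM})[X]).natDegree = 2 := natDegree_X_pow_sub_C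
      refine eq_of_monic_of_dvd_of_natDegree_le (minpoly.monic hint)
        (monic_X_pow_sub_C _ (by norm_num)) ?_ (by rw [hdeg]; exact h2)
      refine minpoly.dvd _ _ ?_
      simp only [map_sub, map_pow, aeval_X, aeval_C, map_add, map_one, hgM]
      rw [sqM]; ring
    have hroot : - yc e ∈ (minpoly (IntermediateField.adjoin K {xc eM}) (yc eM)).rootSet Λ := by
      rw [mem_rootSet]
      refine ⟨minpoly.ne_zero hint, ?_⟩
      rw [hq]
      simp only [map_sub, map_pow, aeval_X, aeval_C, map_add, map_one, halg]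
      rw [hg]
      show (- yc e) ^ 2 - ((τ₀ (xc eM)) ^ 3 + 1) = 0
      rw [hx0, neg_sq, sqe]; ring
    rw [← Algebra.IsAlgebraic.range_eval_eq_rootSet_minpoly (K := M) Λ (yc eM)] at hroot
    obtain ⟨σ, hσy⟩ := hroot
    refine ⟨σ.restrictScalars K, ?_⟩
    rw [Finset.mem_filter, memS]
    refine ⟨hσx σ, ?_⟩
    refine pt_ext (mp_ne_zero _ eM0) (neg_ne_zero.2 e0) ?_ ?_
    · rw [xc_mp, ptf_xc_neg]; exact hσx σ
    · rw [yc_mp, ptf_yc_neg]; exact hσy
  · rw [Finset.disjoint_left]
    intro τ h1 h2
    rw [Finset.mem_filter] at h2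
    rw [hT] at h1
    exact hne (h2.2.symm.trans h1)
  · intro F
    have h1 : ∑ σ : M →ₐ[IntermediateField.adjoin K {xc eM}] Λ, F (σ.restrictScalars K) =
        ∑ τ ∈ S, F τ := by
      rw [hS, Finset.sum_image]
      intro a _ b _ h
      exact hinj h
    rw [h1, ← Finset.sum_filter_add_sum_filter_not S (fun τ => mp τ eM = e)]
    congr 1
    · apply Finset.sum_congr _ (fun _ _ => rfl)
      ext τ
      rw [Finset.mem_filter, memS, hT, and_iff_right_iff_imp]
      intro h
      exact (hmpx τ).1 (Or.inl h)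
    · apply Finset.sum_congr _ (fun _ _ => rfl)
      ext τ
      rw [Finset.mem_filter, Finset.mem_filter, memS]
      constructor
      · rintro ⟨h1, h2⟩
        exact ⟨h1, ((hmpx τ).2 h1).resolve_left h2⟩
      · rintro ⟨h1, h2⟩
        refine ⟨h1, ?_⟩
        intro h3
        exact hne (h2.symm.trans h3)

end Pool.Agent.VM
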