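import Pool.Agent.Lib_helper15.VM.DefsK
import Pool.Agent.Lib_helper15.VM.H0
import Pool.Agent.Lib_helper15.VM.H1
import Pool.Agent.Lib_helper15.VM.H2
import Pool.Agent.Lib_helper15.VM.H3
import Pool.Agent.Lib_helper15.VM.H4R
import Pool.Agent.Lib_helper15.VM.L8
import Pool.Agent.Lib_helper15.VM.TS

/-!
# MP_5582d1_ag, block H4: height = degree at the curve level
-/

set_option autoImplicit false

namespace Pool.Agent.VM.H4p

open scoped Classical
open Polynomial Pool.Agent.VM

attribute [-instance] Subtype.instDecidableEq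

noncomputable section

private theorem ri_pos {k : Type} [Field k] (a : Pt E2 k) : 0 < ri a := by
  unfold ri
  split_ifs <;> norm_num

private theorem xc_mp {K M Λ : Type} [Field K] [Field M] [Field Λ] [Algebra K M] [Algebra K Λ]
    (τ : M →ₐ[K] Λ) (P : Pt E2 M) : xc (mp (W := E2) τ P) = τ (xc P) := by
  rcases P with _ | ⟨x, y, h⟩
  · exact (map_zero τ).symm
  · rfl

private theorem yc_mp {K M Λ : Type} [Field K] [Field M] [Field Λ] [Algebra K M] [Algebra K Λ]
    (τ : M →ₐ[K] Λ) (P : Pt E2 M) : yc (mp (W := E2) τ P) = τ (yc P) := by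
  rcases P with _ | ⟨x, y, h⟩
  · exact (map_zero τ).symm
  · rfl

/-- two homomorphisms which agree on the point agree on the field generated by it -/
private theorem agree {K M Λ : Type} [Field K] [Field M] [Field Λ] [Algebra K M] [Algebra K Λ]
    (eM : Pt E2 M) (τ τ' : M →ₐ[K] Λ) :
    mp (W := E2) τ eM = mp τ' eM ↔
      ∀ x : IntermediateField.adjoin K (cs eM), τ x = τ' x := by
  constructor
  · intro h x
    have h1 : τ (xc eM) = τ' (xc eM) := by rw [← xc_mp, ← xc_mp, h]
    have h2 : τ (yc eM) = τ' (yc eM) := by rw [← yc_mp, ← yc_mp, h]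
    have h3 : IntermediateField.adjoin K (cs eM) ≤ (AlgHom.equalizer τ τ').toIntermediateField
        (fun x hx => by
          have hx' : τ x = τ' x := hx
          show τ x⁻¹ = τ' x⁻¹
          rw [map_inv₀, map_inv₀, hx']) := by
      rw [IntermediateField.adjoin_le_iff]
      rintro z (rfl | rfl)
      · exact h1
      · exact h2
    exact h3 x.2
  · intro h
    have h1 := h ⟨xc eM, IntermediateField.subset_adjoin K _ (Or.inl rfl)⟩
    have h2 := h ⟨yc eM, IntermediateField.subset_adjoin K _ (Or.inr rfl)⟩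
    rcases eM with _ | ⟨x, y, hxy⟩
    · exact (map_zero _).trans (map_zero _).symm
    · show WeierstrassCurve.Affine.Point.some _ _ _ = WeierstrassCurve.Affine.Point.some _ _ _
      have h1' : τ x = τ' x := h1
      have h2' : τ y = τ' y := h2
      rw [WeierstrassCurve.Affine.Point.some.injEq]
      exact ⟨h1', h2'⟩

section HT

variable {Λ : Type} [Field Λ] [CharZero Λ] [IsAlgClosed Λ] {K M : Type} [Field K] [Field M] [Algebra K M]
  [Algebra K Λ] (Kb : Subfield Λ) (hKb : ∀ x : Λ, x ∈ Kb ↔ IsAlgebraic K x) (e : Pt E2 Λ)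
  (he : Transcendental K (xc e)) (U : Pt E2 Kb → QV Λ) (hU : ∀ a, AtPt Kb e a (U a))
  (eM : Pt E2 M) (hfin : FiniteDimensional (IntermediateField.adjoin K (cs eM)) M)
  (T : Finset (M →ₐ[K] Λ)) (hT : ∀ τ, τ ∈ T ↔ mp τ eM = e) (hT0 : T.Nonempty)

include hKb he hU hfin hT hT0

theorem HT' (θ : M) (h0 : θ ≠ 0) :
    ∑ᶠ a, ∑ τ ∈ T, max 0 (-(U a).v (τ θ)) = (dg K {θ} : ℚ) := by
  have hT1 := hT0
  obtain ⟨τ0, hτ0⟩ := hT1
  haveI : CharZero K := (algebraMap K Λ).charZero
  -- the field `Kb`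
  letI algKb : Algebra K Kb :=
    ((algebraMap K Λ).codRestrict Kb fun x => (hKb _).2 (isAlgebraic_algebraMap x)).toAlgebra
  haveI : IsScalarTower K Kb Λ := IsScalarTower.of_algebraMap_eq fun x => rfl
  haveI : Algebra.IsAlgebraic K Kb := ⟨fun x => by
    have h1 : IsAlgebraic K (algebraMap Kb Λ x) := (hKb _).1 x.2
    exact (isAlgebraic_algebraMap_iff (algebraMap Kb Λ).injective).1 h1⟩
  haveI : IsAlgClosed Kb := by
    refine IsAlgClosed.of_exists_root _ fun p hp hirr => ?_
    obtain ⟨x, hx⟩ := IsAlgClosed.exists_aeval_eq_zero Λ p (degree_pos_of_irreducible hirr).ne'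
    have h1 : IsAlgebraic Kb x := ⟨p, hirr.ne_zero, hx⟩
    have h2 : IsAlgebraic K x := h1.restrictScalars K
    refine ⟨⟨x, (hKb x).2 h2⟩, ?_⟩
    apply (algebraMap Kb Λ).injective
    rw [map_zero, ← hx]
    exact (aeval_algebraMap_apply_eq_algebraMap_eval (A := Λ) (⟨x, (hKb x).2 h2⟩ : Kb) p).symm
  have he' : Transcendental Kb (xc e) := fun h => he (h.restrictScalars K)
  -- the field `K(S)`
  set L0 := IntermediateField.adjoin K {xc eM} with hL0
  letI algL0 : Algebra L0 Λ := (τ0.comp L0.val).toRingHom.toAlgebra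
  haveI : IsScalarTower K L0 Λ := IsScalarTower.of_algebraMap_eq fun x =>
    ((τ0.comp L0.val).commutes x).symm
  have eM0 : eM ≠ 0 := by
    rintro rfl
    apply he
    have h1 := (hT τ0).1 hτ0
    rw [map_zero] at h1
    rw [← h1]
    exact isAlgebraic_zero
  haveI hfin0 : FiniteDimensional L0 M := fd_x eM eM0 hfin
  obtain ⟨T', hT', hT'0, hdis, hsplit⟩ := two_sheets e he eM T hT τ0 hτ0 (fun x => rfl)
  obtain ⟨τ1, hτ1⟩ := hT'0
  set S : L0 := ⟨xc eM, IntermediateField.mem_adjoin_simple_self K _⟩ with hSdef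
  have hSe : algebraMap L0 Λ S = xc e := by
    show τ0 (xc eM) = xc e
    rw [← xc_mp, (hT τ0).1 hτ0]
  have hS : Transcendental K S := by
    intro h
    apply he
    rw [← hSe]
    exact h.algebraMap
  have hL : IntermediateField.adjoin K {S} = ⊤ := by
    apply IntermediateField.lift_injective L0
    rw [IntermediateField.lift_adjoin_simple, IntermediateField.lift_top]
  -- the places
  obtain ⟨c, hc⟩ := H4Rp.pr_sec (k := Kb)
  have hr : ∀ a : Pt E2 Kb, 0 < 1 / ri a := fun a => one_div_pos.2 (ri_pos a)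
  have hV : ∀ x, Pl (k := Kb) (algebraMap L0 Λ S) x
      ((U (c x)).scale (1 / ri (c x)) (hr _)) := by
    intro x
    have h1 := atpt_pl Kb e he' (c x) (U (c x)) (hU _) (hr _)
    rw [hc] at h1
    rw [hSe]
    exact h1
  have hHT := HT0 (K := K) (L := L0) (M := M) (Λ := Λ) (k := Kb) S hS hL
    (fun x => (U (c x)).scale (1 / ri (c x)) (hr _)) hV θ h0
  rw [← hHT, H4Rp.regroup _ ?_ c hc]
  · refine finsum_congr fun x => ?_
    have hmax : ∀ τ : M →ₐ[K] Λ, max 0 (-((U (c x)).scale (1 / ri (c x)) (hr _)).v (τ θ)) =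
        1 / ri (c x) * max 0 (-(U (c x)).v (τ θ)) := by
      intro τ
      show max 0 (-(1 / ri (c x) * (U (c x)).v (τ θ))) = _
      rw [mul_max_of_nonneg _ _ (hr (c x)).le, mul_zero, mul_neg]
    have h1 := hsplit fun τ => max 0 (-((U (c x)).scale (1 / ri (c x)) (hr _)).v (τ θ))
    have h2 : ∑ σ : M →ₐ[L0] Λ, max 0 (-((U (c x)).scale (1 / ri (c x)) (hr _)).v (σ θ)) =
        ∑ σ : M →ₐ[L0] Λ, (fun τ : M →ₐ[K] Λ =>
          max 0 (-((U (c x)).scale (1 / ri (c x)) (hr _)).v (τ θ))) (σ.restrictScalars K) := rfl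
    rw [h2, h1]
    simp only [hmax]
    rw [← Finset.mul_sum, ← Finset.mul_sum, ← mul_add]
    congr 2
    -- `T'` and the opposite point
    have h3 := sum_max_eq (IntermediateField.adjoin K (cs eM))
      (τ1.comp (IntermediateField.adjoin K (cs eM)).val)
      (τ0.comp (IntermediateField.adjoin K (cs eM)).val) T' T
      (fun τ => by
        rw [hT', ← (hT' τ1).1 hτ1]
        exact agree eM τ τ1)
      (fun τ => by
        rw [hT, ← (hT τ0).1 hτ0]
        exact agree eM τ τ0) (U (c x)) (U (-c x))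
      (fun z hz => conj_val Kb hKb e he' eM τ0 τ1 ((hT τ0).1 hτ0) ((hT' τ1).1 hτ1) (c x)
        (U (c x)) (U (-c x)) (hU _) (hU _) z z.2 (fun hz' => hz (Subtype.ext hz'))) θ h0
    exact h3.symm
  · refine (HTF' Kb hKb e he U hU eM hfin T hT hT0 θ h0).subset ?_
    intro a ha
    by_contra h1
    apply ha
    refine Finset.sum_eq_zero fun τ hτ => ?_
    have h2 : (U a).v (τ θ) = 0 := by
      by_contra h3
      exact h1 ⟨τ, hτ, h3⟩
    rw [h2]
    simp

end HT

end

end Pool.Agent.VM.H4p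

namespace Pool.Agent.VM

export H4p (HT')

end Pool.Agent.VM
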