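import Pool.Agent.Lib_helper15.VM.DefsL

set_option autoImplicit false

namespace Pool.Agent.VM.L9p

open scoped Classical
open Polynomial Pool.Agent.VM

noncomputable section

/-- L9: a transcendental element with finite extension -/
theorem exists_S {K M : Type} [Field K] [Field M] [Algebra K M]
    (hfg : (⊤ : IntermediateField K M).FG) (htr : Algebra.trdeg K M = 1) :
    ∃ S : M, Transcendental K S ∧ FiniteDimensional (IntermediateField.adjoin K {S}) M := by
  obtain ⟨s, hs⟩ := exists_isTranscendenceBasis K M
  have h1 := hs.cardinalMk_eq_trdeg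
  rw [htr, Cardinal.eq_one_iff_unique] at h1
  obtain ⟨hsub, ⟨S, hS⟩⟩ := h1
  have hsS : s = {S} := by
    ext x
    constructor
    · intro hx
      exact congrArg Subtype.val (hsub.elim ⟨x, hx⟩ ⟨S, hS⟩)
    · rintro rfl
      exact hS
  have halg := hs.isAlgebraic_field
  rw [Subtype.range_coe, hsS] at halg
  refine ⟨S, hs.1.transcendental ⟨S, hS⟩, ?_⟩
  have he : Algebra.EssFiniteType K M := IntermediateField.fg_top_iff.mp hfg
  have he' : Algebra.EssFiniteType (IntermediateField.adjoin K {S}) M :=
    Algebra.EssFiniteType.of_comp K _ M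
  exact Algebra.finite_of_essFiniteType_of_isAlgebraic

/-- L9: `dg` is `0` on algebraic sets -/
theorem dg_alg {K M : Type} [Field K] [Field M] [Algebra K M] (htr : Algebra.trdeg K M = 1)
    (s : Set M) (hs : ∀ x ∈ s, IsAlgebraic K x) : dg K s = 0 := by
  unfold dg
  by_contra hne
  have hfin : Module.Finite (IntermediateField.adjoin K s) M :=
    Module.finite_of_finrank_pos (Nat.pos_of_ne_zero hne)
  have h1 : Algebra.IsAlgebraic K (IntermediateField.adjoin K s) :=
    IntermediateField.isAlgebraic_adjoin fun x hx => (hs x hx).isIntegral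
  have h2 : Algebra.IsAlgebraic (IntermediateField.adjoin K s) M := inferInstance
  have h3 : Algebra.IsAlgebraic K M :=
    Algebra.IsAlgebraic.trans K (IntermediateField.adjoin K s) M
  rw [_root_.trdeg_eq_zero] at htr
  exact zero_ne_one htr

private theorem notMem_adjoin {K M : Type} [Field K] [Field M] [Algebra K M] {x y : M}
    (hx : Transcendental K x) (a b : K)
    (h : y ^ 2 = x ^ 3 + algebraMap K M a * x ^ 2 + algebraMap K M b) :
    y ∉ IntermediateField.adjoin K {x} := by
  intro hy
  rw [IntermediateField.mem_adjoin_simple_iff] at hy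
  obtain ⟨r, s, hrs⟩ := hy
  have hinj : Function.Injective (aeval x : K[X] →ₐ[K] M) := transcendental_iff_injective.mp hx
  have hs0 : aeval x s ≠ 0 := by
    intro h0
    rw [h0, div_zero] at hrs
    rw [hrs] at h
    have h2 : aeval x (X ^ 3 + C a * X ^ 2 + C b) = 0 := by
      simp only [map_add, map_mul, map_pow, aeval_X, aeval_C]
      rw [← h]
      ring
    have h3 := hinj (h2.trans (map_zero _).symm)
    have h4 : (X ^ 3 + C a * X ^ 2 + C b : K[X]).natDegree = 3 := by compute_degree!
    rw [h3] at h4
    simp at h4
  have hs : s ≠ 0 := by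
    rintro rfl
    exact hs0 (map_zero _)
  have key : r ^ 2 = s ^ 2 * (X ^ 3 + C a * X ^ 2 + C b) := by
    apply hinj
    simp only [map_add, map_mul, map_pow, aeval_X, aeval_C]
    rw [← h, hrs]
    field_simp
  have h4 : (X ^ 3 + C a * X ^ 2 + C b : K[X]).natDegree = 3 := by compute_degree!
  have h5 : (X ^ 3 + C a * X ^ 2 + C b : K[X]) ≠ 0 := by
    intro h0
    rw [h0] at h4
    simp at h4
  have h6 := congrArg natDegree key
  rw [natDegree_pow, natDegree_mul (pow_ne_zero 2 hs) h5, natDegree_pow, h4] at h6
  omega

private theorem two_mul_finrank {K M : Type} [Field K] [Field M] [Algebra K M] {x y : M}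
    (hx : Transcendental K x) (a b : K)
    (h : y ^ 2 = x ^ 3 + algebraMap K M a * x ^ 2 + algebraMap K M b) :
    Module.finrank (IntermediateField.adjoin K {x}) M =
      2 * Module.finrank (IntermediateField.adjoin K {x, y}) M := by
  have hy := notMem_adjoin hx a b h
  set F := IntermediateField.adjoin K {x} with hF
  have hxF : x ∈ F := IntermediateField.mem_adjoin_simple_self K x
  have hc : x ^ 3 + algebraMap K M a * x ^ 2 + algebraMap K M b ∈ F :=
    add_mem (add_mem (pow_mem hxF 3) (mul_mem (algebraMap_mem F a) (pow_mem hxF 2)))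
      (algebraMap_mem F b)
  set c : F := ⟨_, hc⟩ with hcdef
  have hroot : aeval y (X ^ 2 - C c : F[X]) = 0 := by
    simp only [map_sub, map_pow, aeval_X, aeval_C]
    rw [h]
    exact sub_self _
  have hmon : (X ^ 2 - C c : F[X]).Monic := monic_X_pow_sub_C c two_ne_zero
  have hint : IsIntegral F y := ⟨_, hmon, hroot⟩
  have hdeg : (minpoly F y).natDegree = 2 := by
    have h1 : (minpoly F y).natDegree ≤ 2 := by
      have h2 := natDegree_le_of_dvd (minpoly.dvd F y hroot) hmon.ne_zero
      rwa [natDegree_X_pow_sub_C] at h2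
    have h2 := minpoly.natDegree_pos hint
    have h3 : (minpoly F y).natDegree ≠ 1 := by
      rw [Ne, minpoly.natDegree_eq_one_iff]
      rintro ⟨z, hz⟩
      exact hy (hz ▸ z.2)
    omega
  have hfr : Module.finrank F (IntermediateField.adjoin F {y}) = 2 := by
    rw [IntermediateField.adjoin.finrank hint, hdeg]
  have heq : (IntermediateField.adjoin F {y}).restrictScalars K =
      IntermediateField.adjoin K {x, y} := by
    rw [hF, IntermediateField.adjoin_adjoin_left]
    congr 1
  rw [← Module.finrank_mul_finrank F (IntermediateField.adjoin F {y}) M, hfr, ← heq]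
  rfl

/-- L9: `[M : K(x)] = 2 [M : K(x, y)]` -/
theorem dg_xc {R : Type} [CommRing R] (a b : R) {K M : Type} [Field K] [CharZero K] [Field M]
    [Algebra K M] [Algebra R K] [Algebra R M] [IsScalarTower R K M]
    (hΔ : algebraMap R K (SW a b).Δ ≠ 0) (htr : Algebra.trdeg K M = 1) (P : Pt (SW a b) M) :
    dg K {xc P} = 2 * dg K (cs P) := by
  cases P with
  | zero =>
    have h1 : IsAlgebraic K (0 : M) := isAlgebraic_zero
    rw [dg_alg htr {xc (.zero : Pt (SW a b) M)} (by rintro x rfl; exact h1),
      dg_alg htr (cs (.zero : Pt (SW a b) M)) (by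
        rintro x (rfl | rfl)
        · exact h1
        · exact h1)]
  | some x y hP =>
    have heq : y ^ 2 = x ^ 3 + algebraMap K M (algebraMap R K a) * x ^ 2 +
        algebraMap K M (algebraMap R K b) := by
      have h1 := hP.1
      rw [WeierstrassCurve.Affine.equation_iff] at h1
      rw [← IsScalarTower.algebraMap_apply, ← IsScalarTower.algebraMap_apply]
      simpa [SW, WeierstrassCurve.baseChange] using h1
    by_cases hx : Transcendental K x
    · exact two_mul_finrank hx _ _ heq
    · have hxa : IsAlgebraic K x := not_not.mp hx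
      have hya : IsAlgebraic K y := by
        refine IsAlgebraic.of_pow two_pos ?_
        rw [heq]
        exact ((hxa.pow 3).add ((isAlgebraic_algebraMap _).mul (hxa.pow 2))).add
          (isAlgebraic_algebraMap _)
      rw [dg_alg htr {xc (.some x y hP : Pt (SW a b) M)} (by rintro z rfl; exact hxa),
        dg_alg htr (cs (.some x y hP : Pt (SW a b) M)) (by
          rintro z (rfl | rfl)
          · exact hxa
          · exact hya)]

end

end Pool.Agent.VM.L9p

namespace Pool.Agent.VM

export L9p (exists_S dg_alg dg_xc)

end Pool.Agent.VM
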