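import Pool.Agent.Lib_helper67.VM.PtF
import Pool.Agent.Lib_helper15.VM.DefsK
import Pool.Agent.Lib_helper15.VM.H3
import Pool.Agent.Lib_helper15.VM.H4
import Pool.Agent.Lib_helper15.VM.L9

/-! MP_5582d1_ag, part III-H, block H5. Cites HTF', HT', dg_alg, dg_xc. -/

set_option autoImplicit false

namespace Pool.Agent.VM.H5p

open scoped Classical
open Polynomial Pool.Agent.VM

attribute [-instance] Subtype.instDecidableEq

noncomputable section

private theorem xc_mp {R P F K : Type*} [CommRing R] [CommRing P] [Field F] [Field K] [Algebra R P]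
    [Algebra R F] [Algebra R K] [Algebra P F] [Algebra P K] [IsScalarTower R P F]
    [IsScalarTower R P K] {W : WeierstrassCurve R} (f : F →ₐ[P] K) (Q : Pt W F) :
    xc (mp f Q) = f (xc Q) := by
  rcases Q with _ | ⟨x, y, h⟩
  · exact (map_zero f).symm
  · rfl

private theorem trdeg_one {K M : Type} [Field K] [Field M] [Algebra K M] (eM : Pt E2 M)
    (he : Transcendental K (xc eM))
    (hfin : FiniteDimensional (IntermediateField.adjoin K (cs eM)) M) : Algebra.trdeg K M = 1 := by
  set x : Unit → M := fun _ => xc eM with hx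
  have hind : AlgebraicIndependent K x := by
    rw [algebraicIndependent_unique_type_iff]
    exact he
  set R₀ := Algebra.adjoin K (Set.range x) with hR₀
  have hm : xc eM ∈ R₀ := Algebra.subset_adjoin ⟨(), rfl⟩
  have hy : IsAlgebraic R₀ (yc eM) := by
    by_cases h0 : eM = 0
    · rw [h0]
      exact isAlgebraic_zero
    · have h2 := ptf_sq h0
      have h1 : yc eM ^ 2 = algebraMap R₀ M ((⟨xc eM, hm⟩ : R₀) ^ 3 + 1) := by
        rw [map_add, map_pow, map_one]
        show _ = xc eM ^ 3 + 1
        simpa using h2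
      have h3 : IsAlgebraic R₀ (yc eM ^ 2) := by
        rw [h1]
        exact isAlgebraic_algebraMap _
      exact IsAlgebraic.of_pow two_pos h3
  have key : ∀ z ∈ IntermediateField.adjoin K (cs eM), IsAlgebraic R₀ (z : M) := by
    intro z hz
    induction hz using IntermediateField.adjoin_induction with
    | mem y hy' =>
      rcases hy' with rfl | hy'
      · exact isAlgebraic_algebraMap (⟨xc eM, hm⟩ : R₀)
      · rw [Set.mem_singleton_iff.1 hy']
        exact hy
    | algebraMap c => exact isAlgebraic_algebraMap (algebraMap K R₀ c)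
    | add y z _ _ h1 h2 => exact h1.add h2
    | inv y _ h1 => exact h1.inv
    | mul y z _ _ h1 h2 => exact h1.mul h2
  set L := IntermediateField.adjoin K (cs eM) with hL
  have hR₀L : ∀ z : R₀, (z : M) ∈ L := by
    have h1 : R₀ ≤ L.toSubalgebra := by
      rw [hR₀, Algebra.adjoin_le_iff]
      rintro _ ⟨_, rfl⟩
      exact IntermediateField.subset_adjoin _ _ (Or.inl rfl)
    exact fun z => h1 z.2
  let _ : Algebra R₀ L := (Subring.inclusion (R := M) (S := R₀.toSubring) (T := L.toSubring)
    (fun z hz => hR₀L ⟨z, hz⟩)).toAlgebra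
  have ht : IsScalarTower R₀ L M := IsScalarTower.of_algebraMap_eq fun _ => rfl
  have h1 : Algebra.IsAlgebraic R₀ L := by
    refine ⟨fun z => ?_⟩
    exact (isAlgebraic_algebraMap_iff (FaithfulSMul.algebraMap_injective L M)).1 (key z z.2)
  have h2 : Algebra.IsAlgebraic L M := Algebra.IsAlgebraic.of_finite L M
  have halg : Algebra.IsAlgebraic R₀ M := Algebra.IsAlgebraic.trans R₀ L M
  have hb : IsTranscendenceBasis K x := hind.isTranscendenceBasis_iff_isAlgebraic.2 halg
  have h3 := hb.cardinalMk_eq_trdeg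
  rw [← h3]
  simp

section HT

variable {Λ : Type} [Field Λ] [CharZero Λ] [IsAlgClosed Λ] {K M : Type} [Field K] [Field M] [Algebra K M]
  [Algebra K Λ] (Kb : Subfield Λ) (hKb : ∀ x : Λ, x ∈ Kb ↔ IsAlgebraic K x) (e : Pt E2 Λ)
  (he : Transcendental K (xc e)) (U : Pt E2 Kb → QV Λ) (hU : ∀ a, AtPt Kb e a (U a))
  (eM : Pt E2 M) (hfin : FiniteDimensional (IntermediateField.adjoin K (cs eM)) M)
  (T : Finset (M →ₐ[K] Λ)) (hT : ∀ τ, τ ∈ T ↔ mp τ eM = e) (hT0 : T.Nonempty)

include hKb he hU hfin hT hT0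

/-- H5 = HTP (StubsB): HT for `θ = xc P` (if it is `0` or algebraic: both sides `0`), `dg_xc` (L9),
`trdeg K M = 1` -/
theorem HTP' {R : Type} [CommRing R] (a b : R) [Algebra R K] [Algebra R M] [IsScalarTower R K M]
    [Algebra R Λ] [IsScalarTower R K Λ] (hΔ : algebraMap R K (SW a b).Δ ≠ 0) (P : Pt (SW a b) M) :
    {s | ∃ τ ∈ T, lam (U s) (mp τ P) ≠ 0}.Finite ∧
    ∑ᶠ s, ∑ τ ∈ T, lam (U s) (mp τ P) = (dg K (cs P) : ℚ) := by
  have hK0 : CharZero K := (algebraMap K Λ).charZero
  obtain ⟨τ₀, hτ₀⟩ := hT0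
  have hτe : mp τ₀ eM = e := (hT τ₀).1 hτ₀
  have hx0 : τ₀ (xc eM) = xc e := by rw [← hτe, xc_mp]
  have heM : Transcendental K (xc eM) := by
    rintro ⟨p, hp, hp'⟩
    apply he
    refine ⟨p, hp, ?_⟩
    rw [← hx0, aeval_algHom_apply, hp', map_zero]
  have htr : Algebra.trdeg K M = 1 := trdeg_one eM heM hfin
  by_cases h0 : xc P = 0
  · have h1 : ∀ s, ∀ τ ∈ T, lam (U s) (mp τ P) = 0 := by
      intro s τ _
      unfold lam
      rw [xc_mp, h0, map_zero, if_pos rfl]
    have h2 : dg K (cs P) = 0 := by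
      apply dg_alg htr
      intro x hx
      rcases hx with rfl | hx
      · rw [h0]
        exact isAlgebraic_zero
      · rw [Set.mem_singleton_iff.1 hx]
        by_cases hP : P = 0
        · rw [hP]
          exact isAlgebraic_zero
        · have h3 := ptf_sq hP
          rw [h0] at h3
          have h4 : yc P ^ 2 = algebraMap K M (algebraMap R K b) := by
            rw [← IsScalarTower.algebraMap_apply]
            simpa using h3
          have h5 : IsAlgebraic K (yc P ^ 2) := by
            rw [h4]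
            exact isAlgebraic_algebraMap _
          exact IsAlgebraic.of_pow two_pos h5
    constructor
    · convert Set.finite_empty
      ext s
      simp only [Set.mem_ofPred_eq, Set.mem_empty_iff_false, iff_false, not_exists, not_and, not_not]
      exact h1 s
    · rw [h2, Nat.cast_zero, ← finsum_zero (α := Pt E2 Kb) (M := ℚ)]
      apply finsum_congr
      intro s
      exact Finset.sum_eq_zero (h1 s)
  · have h1 : ∀ s, ∀ τ ∈ T, lam (U s) (mp τ P) = max 0 (-(U s).v (τ (xc P))) / 2 := by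
      intro s τ _
      unfold lam
      rw [xc_mp, if_neg]
      exact fun h => h0 ((map_eq_zero τ).1 h)
    have hF := HTF' Kb hKb e he U hU eM hfin T hT ⟨τ₀, hτ₀⟩ (xc P) h0
    have hH := HT' Kb hKb e he U hU eM hfin T hT ⟨τ₀, hτ₀⟩ (xc P) h0
    constructor
    · refine hF.subset ?_
      rintro s ⟨τ, hτ, h2⟩
      refine ⟨τ, hτ, fun h3 => h2 ?_⟩
      rw [h1 s τ hτ, h3]
      simp
    · have h2 : ∀ s, ∑ τ ∈ T, lam (U s) (mp τ P) =
          (1 / 2) * ∑ τ ∈ T, max 0 (-(U s).v (τ (xc P))) := by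
        intro s
        rw [Finset.sum_congr rfl (h1 s), Finset.mul_sum]
        exact Finset.sum_congr rfl fun τ _ => by ring
      rw [finsum_congr h2]
      have h3 : (1 / 2 : ℚ) * ∑ᶠ s, ∑ τ ∈ T, max 0 (-(U s).v (τ (xc P))) =
          ∑ᶠ s, (1 / 2 : ℚ) * ∑ τ ∈ T, max 0 (-(U s).v (τ (xc P))) := mul_finsum _ _
      rw [← h3, hH, dg_xc a b hΔ htr P]
      push_cast
      ring

end HT

end

end Pool.Agent.VM.H5p

namespace Pool.Agent.VM

export H5p (HTP')

end Pool.Agent.VM
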