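import Pool.Agent.Lib_helper85.VM.Defs2
import Pool.Agent.Lib_helper15.VM.DefsK

/-!
# MP_5582d1_ag: block KB1
-/

set_option autoImplicit false

namespace Pool.Agent.VM

open scoped Classical

attribute [-instance] Subtype.instDecidableEq

section KB

variable {Λ : Type} [Field Λ] (w : QV Λ) (Kb : Subfield Λ) (κb : Subfield w.κ)
  (hκb : ∀ y, y ∈ κb ↔ ∃ x ∈ Kb, x ∈ w.ring ∧ w.res x = y)

theorem KB1_mem (x : (w.comap Kb.subtype).ring) : ((x : Kb) : Λ) ∈ w.ring := by
  rcases x.2 with h | h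
  · exact Or.inl (by rw [h]; rfl)
  · exact Or.inr h

/-- the inclusion of the integral elements of `Kb` -/
def KB1_g : (w.comap Kb.subtype).ring →+* w.ring where
  toFun x := ⟨((x : Kb) : Λ), KB1_mem w Kb x⟩
  map_one' := rfl
  map_mul' _ _ := rfl
  map_zero' := rfl
  map_add' _ _ := rfl

include hκb in
theorem KB1_cod (x : (w.comap Kb.subtype).ring) :
    (IsLocalRing.residue w.ring).comp (KB1_g w Kb) x ∈ κb := by
  rw [hκb]
  exact ⟨((x : Kb) : Λ), (x : Kb).2, KB1_mem w Kb x, w.res_of_mem (KB1_mem w Kb x)⟩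

/-- the reduction of the integral elements of `Kb` -/
noncomputable def KB1_f : (w.comap Kb.subtype).ring →+* κb :=
  ((IsLocalRing.residue w.ring).comp (KB1_g w Kb)).codRestrict κb (KB1_cod w Kb κb hκb)

theorem KB1_f_apply (x : (w.comap Kb.subtype).ring) :
    ((KB1_f w Kb κb hκb x : κb) : w.κ) = w.res ((x : Kb) : Λ) := by
  rw [w.res_of_mem (KB1_mem w Kb x)]
  rfl

theorem KB1_surj : Function.Surjective (KB1_f w Kb κb hκb) := by
  rintro ⟨y, hy⟩
  obtain ⟨x, hx, hxw, rfl⟩ := (hκb y).1 hy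
  refine ⟨⟨⟨x, hx⟩, ?_⟩, ?_⟩
  · rcases hxw with h | h
    · exact Or.inl (Subtype.ext h)
    · exact Or.inr h
  · apply Subtype.ext
    rw [KB1_f_apply]

include hκb in
/-- KB1: the residue field of `Kb` is algebraically closed -/
theorem KB1' [IsAlgClosed Kb] : IsAlgClosed κb := by
  apply IsAlgClosed.of_exists_root
  intro p hp hpi
  obtain ⟨q, hq, hqd, hqm⟩ := Polynomial.lifts_and_degree_eq_and_monic
    (Polynomial.lifts_iff_coeff_lifts _ |>.2 fun n => by
      obtain ⟨x, hx⟩ := KB1_surj w Kb κb hκb (p.coeff n)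
      exact ⟨x, hx⟩) hp
  obtain ⟨x, hx⟩ := IsAlgClosed.exists_root (q.map (algebraMap _ Kb)) (by
    rw [hqm.degree_map, hqd]
    exact (Polynomial.degree_pos_of_irreducible hpi).ne')
  have hint : IsIntegral (w.comap Kb.subtype).ring x := ⟨q, hqm, by
    rw [← Polynomial.eval_map]; exact hx⟩
  obtain ⟨y, hy⟩ := IsIntegrallyClosed.isIntegral_iff.1 hint
  refine ⟨KB1_f w Kb κb hκb y, ?_⟩
  rw [← hq, Polynomial.eval_map, Polynomial.eval₂_hom]
  have h2 : algebraMap _ Kb (q.eval y) = 0 := by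
    rw [← Polynomial.eval₂_hom, ← Polynomial.eval_map]
    rw [hy]; exact hx
  have h3 : q.eval y = 0 := by
    apply FaithfulSMul.algebraMap_injective (w.comap Kb.subtype).ring Kb
    rw [h2, map_zero]
  rw [h3, map_zero]

end KB

section KK

variable {Λ : Type} [Field Λ] [CharZero Λ] [IsAlgClosed Λ] (w : QV Λ) (hw : ∀ n : ℕ, n ≠ 0 → w.v (n : Λ) = 0)
  (Kb : Subfield Λ) [IsAlgClosed Kb] (κb : Subfield w.κ)
  (hκb : ∀ y, y ∈ κb ↔ ∃ x ∈ Kb, x ∈ w.ring ∧ w.res x = y)

include hw hκb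

/-- KB1: the residue field of `Kb` is algebraically closed -/
theorem KB1 : IsAlgClosed κb := KB1' w Kb κb hκb

end KK

end Pool.Agent.VM
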