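import Pool.Agent.Lib_helper15.VM.DefsK

/-! MP_5582d1_ag, part III-C, block K0: normal form in `Kb(e)`. -/

set_option autoImplicit false

namespace Pool.Agent.VM.K0p

open scoped Classical
open Polynomial

attribute [-instance] Subtype.instDecidableEq

noncomputable section

private theorem k0_mem {Λ : Type} [Field Λ] (Kb : Subfield Λ) (S x : Λ) :
    x ∈ fs Kb S ↔ ∃ r s : Kb[X], x = aeval S r / aeval S s := by
  rw [← IntermediateField.mem_adjoin_simple_iff]
  have h : (Set.range (algebraMap Kb Λ)) = (Kb : Set Λ) := Subtype.range_coe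
  change x ∈ Subfield.closure ((Kb : Set Λ) ∪ {S}) ↔
    x ∈ Subfield.closure (Set.range (algebraMap Kb Λ) ∪ {S})
  rw [h]

private theorem k0_curve {Λ : Type} [Field Λ] (Kb : Subfield Λ) (e : Pt E2 Λ)
    (he : Transcendental Kb (xc e)) : yc e ^ 2 = xc e ^ 3 + 1 := by
  cases e with
  | zero =>
    exfalso
    exact he isAlgebraic_zero
  | some x y h =>
    have h1 := (WeierstrassCurve.Affine.equation_iff _ _).1 h.1
    simp [E2, SW, xc, yc, WeierstrassCurve.toAffine] at h1 ⊢
    linear_combination h1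

/-- K0: `Kb(e) = Kb(S) + Kb(S) Y`; `Y ∉ Kb(S)` -/
theorem fe_nf {Λ : Type} [Field Λ] [CharZero Λ] (Kb : Subfield Λ) (e : Pt E2 Λ)
    (he : Transcendental Kb (xc e)) : (∀ H ∈ fe Kb e, ∃ A ∈ fs Kb (xc e), ∃ B ∈ fs Kb (xc e),
      H = A + B * yc e) ∧ yc e ∉ fs Kb (xc e) := by
  have hc := k0_curve Kb e he
  have hxs : xc e ∈ fs Kb (xc e) := Subfield.subset_closure (Or.inr rfl)
  have hf : xc e ^ 3 + 1 ∈ fs Kb (xc e) := add_mem (pow_mem hxs 3) (one_mem _)
  constructor
  · let E : Subfield Λ :=
      { carrier := {H | ∃ A ∈ fs Kb (xc e), ∃ B ∈ fs Kb (xc e), H = A + B * yc e}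
        mul_mem' := by
          rintro _ _ ⟨A, hA, B, hB, rfl⟩ ⟨A', hA', B', hB', rfl⟩
          refine ⟨A * A' + B * B' * (xc e ^ 3 + 1), add_mem (mul_mem hA hA')
            (mul_mem (mul_mem hB hB') hf), A * B' + B * A',
            add_mem (mul_mem hA hB') (mul_mem hB hA'), ?_⟩
          linear_combination (B * B') * hc
        one_mem' := ⟨1, one_mem _, 0, zero_mem _, by ring⟩
        add_mem' := by
          rintro _ _ ⟨A, hA, B, hB, rfl⟩ ⟨A', hA', B', hB', rfl⟩
          exact ⟨A + A', add_mem hA hA', B + B', add_mem hB hB', by ring⟩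
        zero_mem' := ⟨0, zero_mem _, 0, zero_mem _, by ring⟩
        neg_mem' := by
          rintro _ ⟨A, hA, B, hB, rfl⟩
          exact ⟨-A, neg_mem hA, -B, neg_mem hB, by ring⟩
        inv_mem' := by
          rintro _ ⟨A, hA, B, hB, rfl⟩
          by_cases h0 : A - B * yc e = 0
          · have e1 : A + B * yc e = 2 * A := by linear_combination -h0
            rw [e1]
            have h2 : (2 : Λ) ∈ fs Kb (xc e) := by
              have := add_mem (one_mem (fs Kb (xc e))) (one_mem (fs Kb (xc e)))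
              rwa [one_add_one_eq_two] at this
            exact ⟨(2 * A)⁻¹, inv_mem (mul_mem h2 hA), 0, zero_mem _, by ring⟩
          · by_cases h1 : A + B * yc e = 0
            · rw [h1, inv_zero]
              exact ⟨0, zero_mem _, 0, zero_mem _, by ring⟩
            · have hN : A ^ 2 - B ^ 2 * (xc e ^ 3 + 1) ∈ fs Kb (xc e) :=
                sub_mem (pow_mem hA 2) (mul_mem (pow_mem hB 2) hf)
              have e1 : (A + B * yc e) * (A - B * yc e) = A ^ 2 - B ^ 2 * (xc e ^ 3 + 1) := by
                linear_combination -B ^ 2 * hc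
              have hN0 : A ^ 2 - B ^ 2 * (xc e ^ 3 + 1) ≠ 0 := by
                rw [← e1]; exact mul_ne_zero h1 h0
              refine ⟨A * (A ^ 2 - B ^ 2 * (xc e ^ 3 + 1))⁻¹, mul_mem hA (inv_mem hN),
                -(B * (A ^ 2 - B ^ 2 * (xc e ^ 3 + 1))⁻¹),
                neg_mem (mul_mem hB (inv_mem hN)), ?_⟩
              rw [inv_eq_iff_eq_inv, ← one_div, eq_div_iff]
              · field_simp
                rw [← e1]
                ring
              · have e2 : A * (A ^ 2 - B ^ 2 * (xc e ^ 3 + 1))⁻¹ +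
                    -(B * (A ^ 2 - B ^ 2 * (xc e ^ 3 + 1))⁻¹) * yc e =
                    (A - B * yc e) * (A ^ 2 - B ^ 2 * (xc e ^ 3 + 1))⁻¹ := by ring
                rw [e2]
                exact mul_ne_zero h0 (inv_ne_zero hN0) }
    intro H hH
    have hle : fe Kb e ≤ E := by
      rw [fe, Subfield.closure_le]
      rintro x (hx | hx)
      · exact ⟨x, Subfield.subset_closure (Or.inl hx), 0, zero_mem _, by ring⟩
      · rcases hx with rfl | rfl
        · exact ⟨xc e, hxs, 0, zero_mem _, by ring⟩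
        · exact ⟨0, zero_mem _, 1, one_mem _, by ring⟩
    exact hle hH
  · intro hy
    obtain ⟨r, s, hrs⟩ := (k0_mem Kb _ _).1 hy
    have hinj : Function.Injective (aeval (R := Kb) (xc e)) :=
      (transcendental_iff_injective).1 he
    by_cases hs0 : aeval (xc e) s = 0
    · rw [hs0, div_zero] at hrs
      rw [hrs] at hc
      have h2 : aeval (xc e) (X ^ 3 + 1 : Kb[X]) = 0 := by
        rw [map_add, map_pow, aeval_X, map_one, ← hc]
        norm_num
      have h3 : (X ^ 3 + 1 : Kb[X]) = 0 := hinj (by rw [h2, map_zero])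
      have h4 : (X ^ 3 + C (1 : Kb) : Kb[X]).natDegree = 3 := natDegree_X_pow_add_C
      rw [map_one, h3] at h4
      simp at h4
    · rw [hrs, div_pow, div_eq_iff (pow_ne_zero 2 hs0)] at hc
      have h2 : aeval (xc e) (r ^ 2) = aeval (xc e) ((X ^ 3 + C (1 : Kb)) * s ^ 2) := by
        rw [map_pow, map_mul, map_add, map_pow, aeval_X, map_pow, aeval_C, map_one, hc]
      have h3 := hinj h2
      have hs : s ≠ 0 := by
        rintro rfl
        exact hs0 (map_zero _)
      have h4 : (X ^ 3 + C (1 : Kb) : Kb[X]).natDegree = 3 := natDegree_X_pow_add_C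
      have h5 : (X ^ 3 + C (1 : Kb) : Kb[X]) ≠ 0 := by
        intro h0
        rw [h0] at h4
        simp at h4
      have h6 := congrArg natDegree h3
      rw [natDegree_pow, natDegree_mul h5 (pow_ne_zero 2 hs), h4, natDegree_pow] at h6
      omega

end

end Pool.Agent.VM.K0p

namespace Pool.Agent.VM

export K0p (fe_nf)

end Pool.Agent.VM
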