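import Pool.Agent.Lib_helper15.VM.DefsK

/-!
# MP_5582d1_ag, block K2: residues on the line (helper39)
-/

set_option autoImplicit false

namespace Pool.Agent.VM.K2p

open scoped Classical
open Polynomial
open Pool.Agent.VM

attribute [-instance] Subtype.instDecidableEq

noncomputable section

private lemma K2_fs_iff {Λ : Type} [Field Λ] (Kb : Subfield Λ) (S A : Λ) :
    A ∈ fs Kb S ↔ A ∈ IntermediateField.adjoin Kb {S} := by
  have h : Set.range (algebraMap Kb Λ) = (Kb : Set Λ) := by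
    ext x; constructor
    · rintro ⟨y, rfl⟩; exact y.2
    · intro hx; exact ⟨⟨x, hx⟩, rfl⟩
  have h2 : (IntermediateField.adjoin Kb {S}).toSubfield = fs Kb S := by
    rw [IntermediateField.adjoin_toSubfield, h]; rfl
  rw [← h2]; rfl

/-- write `A = p(S)/q(S)` without common roots -/
private lemma K2_red {Λ : Type} [Field Λ] (Kb : Subfield Λ) (S A : Λ) (hS : Transcendental Kb S) :
    ∀ (n : ℕ) (p q : Kb[X]), q.natDegree = n → q ≠ 0 → aeval S p = A * aeval S q →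
      ∃ p q : Kb[X], q ≠ 0 ∧ aeval S p = A * aeval S q ∧ ∀ x : Kb, q.IsRoot x → ¬ p.IsRoot x := by
  intro n
  induction n using Nat.strong_induction_on with
  | _ n ih =>
    intro p q hn hq h
    by_cases hc : ∀ x : Kb, q.IsRoot x → ¬ p.IsRoot x
    · exact ⟨p, q, hq, h, hc⟩
    push Not at hc
    obtain ⟨x, hx1, hx2⟩ := hc
    obtain ⟨q', hq'⟩ := dvd_iff_isRoot.mpr hx1
    obtain ⟨p', hp'⟩ := dvd_iff_isRoot.mpr hx2
    have hq'0 : q' ≠ 0 := by
      rintro rfl; rw [mul_zero] at hq'; exact hq hq'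
    have hdeg : q'.natDegree < n := by
      rw [← hn, hq', natDegree_mul (X_sub_C_ne_zero x) hq'0, natDegree_X_sub_C]; omega
    refine ih _ hdeg p' q' rfl hq'0 ?_
    have hSx : aeval S (X - C x) ≠ 0 := fun h0 =>
      X_sub_C_ne_zero x (transcendental_iff.mp hS _ h0)
    rw [hp', hq', map_mul, map_mul] at h
    have : aeval S (X - C x) * aeval S p' = aeval S (X - C x) * (A * aeval S q') := by
      rw [h]; ring
    exact mul_left_cancel₀ hSx this

section

variable {Λ : Type} [Field Λ] (w : QV Λ)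

private lemma K2_unit_ring {a : Λ} (ha : a ≠ 0) (h : w.v a = 0) : a ∈ w.ring :=
  (w.mem_ring_of ha).mpr h.ge

private lemma K2_res_ne {a : Λ} (ha : a ≠ 0) (h : w.v a = 0) : w.res a ≠ 0 := by
  intro h0
  rcases (w.res_eq_zero_iff (K2_unit_ring w ha h)).mp h0 with h1 | h1
  · exact ha h1
  · rw [h] at h1; exact lt_irrefl _ h1

private lemma K2_v_of_res {a : Λ} (ha : a ∈ w.ring) (h : w.res a ≠ 0) : a ≠ 0 ∧ w.v a = 0 := by
  have h0 : a ≠ 0 := by rintro rfl; exact h w.res_zero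
  refine ⟨h0, ?_⟩
  have h1 := (w.mem_ring_of h0).mp ha
  by_contra h2
  exact h ((w.res_eq_zero_iff ha).mpr (Or.inr (lt_of_le_of_ne h1 (Ne.symm h2))))

private lemma K2_res_inv {a : Λ} (ha : a ≠ 0) (h : w.v a = 0) : w.res a⁻¹ = (w.res a)⁻¹ := by
  have h1 : w.v a⁻¹ = 0 := by rw [w.inv ha, h, neg_zero]
  have h2 := w.res_mul (K2_unit_ring w ha h) (K2_unit_ring w (inv_ne_zero ha) h1)
  rw [mul_inv_cancel₀ ha, w.res_one] at h2
  exact (eq_inv_of_mul_eq_one_right h2.symm)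

end

section KK

variable {Λ : Type} [Field Λ] [CharZero Λ] [IsAlgClosed Λ] (w : QV Λ) (hw : ∀ n : ℕ, n ≠ 0 → w.v (n : Λ) = 0)
  (Kb : Subfield Λ) [IsAlgClosed Kb] (κb : Subfield w.κ)
  (hκb : ∀ y, y ∈ κb ↔ ∃ x ∈ Kb, x ∈ w.ring ∧ w.res x = y)
  (hval : ∀ H : Λ, H ≠ 0 → ∃ c ∈ Kb, c ≠ 0 ∧ w.v c = w.v H)

include hw hκb

/-- K2a: a factor `S - x` -/
theorem lc_factor (S : Λ) (hS : S ∈ w.ring) (htr : Transcendental κb (w.res S)) (ν : QV w.κ)
    (hν : ∀ d ∈ κb, d ≠ 0 → ν.v d = 0) (y : w.κ) (hy : y ∈ κb) (hpos : 0 < ν.v (w.res S - y))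
    (x : Λ) (hx : x ∈ Kb) (c : Λ) (hc : c ∈ Kb) (hc0 : c ≠ 0) (hcv : w.v c = w.v (S - x)) :
    S - x ≠ 0 ∧ w.res ((S - x) / c) ∈ fs κb (w.res S) ∧
      ν.v (w.res ((S - x) / c)) =
        if x ∈ w.ring ∧ w.res x = y then ν.v (w.res S - y) else 0 := by
  have hnk : ∀ z ∈ κb, w.res S ≠ z := by
    intro z hz h
    refine htr ?_
    rw [h]; exact isAlgebraic_algebraMap (⟨z, hz⟩ : κb)
  have hSres : w.res S ≠ 0 := hnk 0 (zero_mem _)
  obtain ⟨hS0, hSv⟩ := K2_v_of_res w hS hSres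
  by_cases hxr : x ∈ w.ring
  · have hrx : w.res x ∈ κb := (hκb _).mpr ⟨x, hx, hxr, rfl⟩
    have h1 : w.res (S - x) = w.res S - w.res x := w.res_sub hS hxr
    have h2 : w.res (S - x) ≠ 0 := by rw [h1, sub_ne_zero]; exact hnk _ hrx
    have hmem : S - x ∈ w.ring := w.ring.sub_mem hS hxr
    obtain ⟨h3, h4⟩ := K2_v_of_res w hmem h2
    rw [h4] at hcv
    have hcr := K2_res_ne w hc0 hcv
    have hrc : w.res c ∈ κb := (hκb _).mpr ⟨c, hc, K2_unit_ring w hc0 hcv, rfl⟩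
    have hci : w.v c⁻¹ = 0 := by rw [w.inv hc0, hcv, neg_zero]
    have h5 : w.res ((S - x) / c) = (w.res S - w.res x) * (w.res c)⁻¹ := by
      rw [div_eq_mul_inv, w.res_mul hmem (K2_unit_ring w (inv_ne_zero hc0) hci), h1,
        K2_res_inv w hc0 hcv]
    refine ⟨h3, ?_, ?_⟩
    · rw [h5]
      refine mul_mem (sub_mem ?_ ?_) (inv_mem ?_)
      · exact Subfield.subset_closure (Or.inr rfl)
      · exact Subfield.subset_closure (Or.inl hrx)
      · exact Subfield.subset_closure (Or.inl hrc)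
    · have h6 : ν.v (w.res ((S - x) / c)) = ν.v (w.res S - w.res x) := by
        rw [h5, ν.mul (by rw [← h1]; exact h2) (inv_ne_zero hcr), ν.inv hcr, hν _ hrc hcr]; ring
      rw [h6]
      by_cases hxy : w.res x = y
      · rw [if_pos ⟨hxr, hxy⟩, hxy]
      · rw [if_neg (fun h => hxy h.2)]
        have h7 : y - w.res x ≠ 0 := sub_ne_zero.mpr (Ne.symm hxy)
        have h8 : ν.v (y - w.res x) = 0 := hν _ (sub_mem hy hrx) h7
        have h9 : w.res S - y ≠ 0 := sub_ne_zero.mpr (hnk _ hy)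
        have := (ν.add_eq_of_lt h7 h9 (by rw [h8]; exact hpos)).2
        rw [← h8, ← this]; congr 1; ring
  · have hx0 : x ≠ 0 := by rintro rfl; exact hxr w.ring.zero_mem
    have hxv : w.v x < 0 := by
      by_contra h; exact hxr ((w.mem_ring_of hx0).mpr (not_lt.mp h))
    have hnx : -x ≠ 0 := neg_ne_zero.mpr hx0
    have h1 := w.add_eq_of_lt hnx hS0 (by rw [w.neg, hSv]; exact hxv)
    have h2 : -x + S = S - x := by ring
    rw [h2, w.neg] at h1
    obtain ⟨h3, h4⟩ := h1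
    rw [h4] at hcv
    have hSc : w.res (S / c) = 0 := by
      have hd : S / c ≠ 0 := div_ne_zero hS0 hc0
      have hv : w.v (S / c) = - w.v x := by rw [w.div hS0 hc0, hSv, hcv]; ring
      have hm : S / c ∈ w.ring := (w.mem_ring_of hd).mpr (by rw [hv]; linarith)
      exact (w.res_eq_zero_iff hm).mpr (Or.inr (by rw [hv]; linarith))
    have hd : S / c ≠ 0 := div_ne_zero hS0 hc0
    have hv : w.v (S / c) = - w.v x := by rw [w.div hS0 hc0, hSv, hcv]; ring
    have hm : S / c ∈ w.ring := (w.mem_ring_of hd).mpr (by rw [hv]; linarith)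
    have hd2 : x / c ≠ 0 := div_ne_zero hx0 hc0
    have hv2 : w.v (x / c) = 0 := by rw [w.div hx0 hc0, hcv]; ring
    have hm2 : x / c ∈ w.ring := K2_unit_ring w hd2 hv2
    have h5 : w.res ((S - x) / c) = - w.res (x / c) := by
      rw [sub_div, w.res_sub hm hm2, hSc, zero_sub]
    have h6 : w.res (x / c) ∈ κb := (hκb _).mpr ⟨x / c, div_mem hx hc, hm2, rfl⟩
    refine ⟨h3, ?_, ?_⟩
    · rw [h5]; exact neg_mem (Subfield.subset_closure (Or.inl h6))
    · rw [if_neg (fun h => hxr h.1), h5, ν.neg]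
      exact hν _ h6 (K2_res_ne w hd2 hv2)

/-- the good elements -/
private def K2_Good (w : QV Λ) (Kb : Subfield Λ) (κb : Subfield w.κ) (S : Λ) (ν : QV w.κ)
    (t : Prop) (H : Λ) : Prop :=
  H ≠ 0 ∧ ∃ c ∈ Kb, c ≠ 0 ∧ w.v c = w.v H ∧ w.res (H / c) ≠ 0 ∧ w.res (H / c) ∈ fs κb (w.res S) ∧
    0 ≤ ν.v (w.res (H / c)) ∧ (t → ν.v (w.res (H / c)) = 0)

omit [CharZero Λ] [IsAlgClosed Λ] [IsAlgClosed Kb] hw hκb in
private lemma K2_good_mul (S : Λ) (ν : QV w.κ) {t : Prop} {H H' : Λ}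
    (h : K2_Good w Kb κb S ν t H) (h' : K2_Good w Kb κb S ν t H') :
    K2_Good w Kb κb S ν t (H * H') := by
  obtain ⟨h0, c, hc, hc0, hcv, hr, hf, hn, ht⟩ := h
  obtain ⟨h0', c', hc', hc0', hcv', hr', hf', hn', ht'⟩ := h'
  have e : H * H' / (c * c') = (H / c) * (H' / c') := by field_simp
  have m1 : H / c ∈ w.ring := K2_unit_ring w (div_ne_zero h0 hc0) (by rw [w.div h0 hc0, hcv]; ring)
  have m2 : H' / c' ∈ w.ring :=
    K2_unit_ring w (div_ne_zero h0' hc0') (by rw [w.div h0' hc0', hcv']; ring)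
  refine ⟨mul_ne_zero h0 h0', c * c', mul_mem hc hc', mul_ne_zero hc0 hc0', ?_, ?_⟩
  · rw [w.mul hc0 hc0', w.mul h0 h0', hcv, hcv']
  rw [e, w.res_mul m1 m2]
  refine ⟨mul_ne_zero hr hr', mul_mem hf hf', ?_, ?_⟩
  · rw [ν.mul hr hr']; linarith
  · intro h; rw [ν.mul hr hr', ht h, ht' h]; ring

/-- polynomials in `S` are good -/
private lemma K2_good_poly (S : Λ) (hS : S ∈ w.ring) (htr : Transcendental κb (w.res S))
    (ν : QV w.κ)
    (hν : ∀ d ∈ κb, d ≠ 0 → ν.v d = 0) (y : w.κ) (hy : y ∈ κb) (hpos : 0 < ν.v (w.res S - y))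
    (t : Prop) (p : Kb[X]) (hp : p ≠ 0)
    (ht : t → ∀ x : Kb, p.IsRoot x → ¬ ((x : Λ) ∈ w.ring ∧ w.res (x : Λ) = y)) :
    K2_Good w Kb κb S ν t (aeval S p) := by
  have hconst : ∀ a : Kb, a ≠ 0 → K2_Good w Kb κb S ν t (a : Λ) := by
    intro a ha
    have ha' : (a : Λ) ≠ 0 := fun h => ha (Subtype.ext h)
    refine ⟨ha', a, a.2, ha', rfl, ?_, ?_, ?_, ?_⟩ <;> rw [div_self ha', w.res_one]
    · exact one_ne_zero
    · exact one_mem _
    · rw [ν.one]
    · intro _; exact ν.one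
  have hlin : ∀ x : Kb, (t → ¬ ((x : Λ) ∈ w.ring ∧ w.res (x : Λ) = y)) →
      K2_Good w Kb κb S ν t (S - x) := by
    intro x hx
    -- a constant with the value of `S - x`
    obtain ⟨c, hc, hc0, hcv⟩ : ∃ c ∈ Kb, c ≠ 0 ∧ w.v c = w.v (S - x) := by
      have hnk : ∀ z ∈ κb, w.res S ≠ z := by
        intro z hz h
        refine htr ?_
        rw [h]; exact isAlgebraic_algebraMap (⟨z, hz⟩ : κb)
      obtain ⟨hS0, hSv⟩ := K2_v_of_res w hS (hnk 0 (zero_mem _))
      by_cases hxr : (x : Λ) ∈ w.ring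
      · have hrx : w.res (x : Λ) ∈ κb := (hκb _).mpr ⟨x, x.2, hxr, rfl⟩
        have h2 : w.res (S - x) ≠ 0 := by
          rw [w.res_sub hS hxr, sub_ne_zero]; exact hnk _ hrx
        refine ⟨1, one_mem _, one_ne_zero, ?_⟩
        rw [(K2_v_of_res w (w.ring.sub_mem hS hxr) h2).2, w.one]
      · have hx0 : (x : Λ) ≠ 0 := by intro h; rw [h] at hxr; exact hxr w.ring.zero_mem
        have hxv : w.v (x : Λ) < 0 := by
          by_contra h; exact hxr ((w.mem_ring_of hx0).mpr (not_lt.mp h))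
        have h1 := (w.add_eq_of_lt (neg_ne_zero.mpr hx0) hS0 (by rw [w.neg, hSv]; exact hxv)).2
        rw [show -(x : Λ) + S = S - x by ring, w.neg] at h1
        exact ⟨x, x.2, hx0, h1.symm⟩
    obtain ⟨h1, h2, h3⟩ := lc_factor w hw Kb κb hκb S hS htr ν hν y hy hpos x x.2 c hc hc0 hcv
    refine ⟨h1, c, hc, hc0, hcv, ?_, h2, ?_, ?_⟩
    · exact K2_res_ne w (div_ne_zero h1 hc0) (by rw [w.div h1 hc0, hcv]; ring)
    · rw [h3]; split_ifs
      · exact hpos.le
      · exact le_rfl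
    · intro h; rw [h3, if_neg (hx h)]
  have hprod : ∀ s : Multiset Kb, (t → ∀ x ∈ s, ¬ ((x : Λ) ∈ w.ring ∧ w.res (x : Λ) = y)) →
      K2_Good w Kb κb S ν t (aeval S (s.map (fun a => X - C a)).prod) := by
    intro s
    induction s using Multiset.induction_on with
    | empty =>
      intro _
      simpa using hconst 1 one_ne_zero
    | cons a s ih =>
      intro h
      rw [Multiset.map_cons, Multiset.prod_cons, map_mul]
      refine K2_good_mul w Kb κb S ν ?_ (ih fun ht x hx => h ht x (Multiset.mem_cons_of_mem hx))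
      have : aeval S (X - C a) = S - (a : Λ) := by
        rw [map_sub, aeval_X, aeval_C]; rfl
      rw [this]
      exact hlin a fun ht => h ht a (Multiset.mem_cons_self _ _)
  have hsp := (IsAlgClosed.splits p).eq_prod_roots
  rw [hsp, map_mul, aeval_C]
  refine K2_good_mul w Kb κb S ν ?_ (hprod _ fun h x hx => ht h x ?_)
  · exact hconst p.leadingCoeff (leadingCoeff_ne_zero.mpr hp)
  · exact (mem_roots hp).mp hx

/-- K2b: for `A ∈ Kb(S)`: the residue is in `κb(S̄)`, and it is regular at `y` if `A` is regular on the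
disc of `y`. Proof: `A = a₀ ∏ (S - x_i)^(n_i)` (`Kb` algebraically closed), K2a. -/
theorem lc_line (S : Λ) (hS : S ∈ w.ring) (htr : Transcendental κb (w.res S)) (ν : QV w.κ)
    (hν : ∀ d ∈ κb, d ≠ 0 → ν.v d = 0) (y : w.κ) (hy : y ∈ κb) (hpos : 0 < ν.v (w.res S - y))
    (A : Λ) (hA : A ∈ fs Kb S) (hA0 : A ≠ 0) (c : Λ) (hc : c ∈ Kb) (hc0 : c ≠ 0) (hcv : w.v c = w.v A) :
    w.res (A / c) ∈ fs κb (w.res S) ∧
      ((∀ x ∈ Kb, x ∈ w.ring → w.res x = y → ∃ u : QV Λ, (∀ d ∈ Kb, d ≠ 0 → u.v d = 0) ∧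
        0 < u.v (S - x) ∧ 0 ≤ u.v A) → 0 ≤ ν.v (w.res (A / c))) := by
  -- `S` is transcendental over `Kb`
  have hStr : Transcendental Kb S := by
    rw [transcendental_iff]
    intro p hp
    by_contra hp0
    exact (K2_good_poly w hw Kb κb hκb S hS htr ν hν y hy hpos False p hp0
      (fun h => h.elim)).1 hp
  obtain ⟨p, q, hq, hpq, hroot⟩ : ∃ p q : Kb[X], q ≠ 0 ∧ aeval S p = A * aeval S q ∧
      ∀ x : Kb, q.IsRoot x → ¬ p.IsRoot x := by
    have h1 := (K2_fs_iff Kb S A).mp hA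
    obtain ⟨r, s, h2⟩ := (IntermediateField.mem_adjoin_simple_iff Kb A).mp h1
    have hs : aeval S s ≠ 0 := by
      intro h; rw [h, div_zero] at h2; exact hA0 h2
    refine K2_red Kb S A hStr s.natDegree r s rfl ?_ ?_
    · rintro rfl; exact hs (map_zero _)
    · rw [h2]; field_simp
  have hqS : aeval S q ≠ 0 := fun h => hq (transcendental_iff.mp hStr q h)
  have hpS : aeval S p ≠ 0 := by rw [hpq]; exact mul_ne_zero hA0 hqS
  have hp : p ≠ 0 := by rintro rfl; exact hpS (map_zero _)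
  set t : Prop := ∀ x ∈ Kb, x ∈ w.ring → w.res x = y → ∃ u : QV Λ, (∀ d ∈ Kb, d ≠ 0 → u.v d = 0) ∧
        0 < u.v (S - x) ∧ 0 ≤ u.v A with ht
  -- no root of `q` in the disc
  have hnr : t → ∀ x : Kb, q.IsRoot x → ¬ ((x : Λ) ∈ w.ring ∧ w.res (x : Λ) = y) := by
    rintro h x hx ⟨hx1, hx2⟩
    obtain ⟨u, hu1, hu2, hu3⟩ := h x x.2 hx1 hx2
    have hpx := hroot x hx
    have hKr : ∀ d ∈ Kb, d ∈ u.ring := by
      intro d hd
      by_cases hd0 : d = 0
      · rw [hd0]; exact u.ring.zero_mem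
      · exact (u.mem_ring_of hd0).mpr (hu1 d hd hd0).ge
    have hSx0 : S - (x : Λ) ≠ 0 := by
      intro h0
      have : aeval S (X - C x) = 0 := by rw [map_sub, aeval_X, aeval_C]; exact h0
      exact X_sub_C_ne_zero x (transcendental_iff.mp hStr _ this)
    have hSr : S ∈ u.ring := by
      have : S = (S - x) + x := by ring
      rw [this]
      exact u.ring.add_mem _ _ ((u.mem_ring_of hSx0).mpr hu2.le) (hKr x x.2)
    have hpol : ∀ g : Kb[X], aeval S g ∈ u.ring := by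
      intro g
      rw [aeval_eq_sum_range]
      refine u.ring.toSubring.sum_mem fun i _ => ?_
      rw [Algebra.smul_def]
      exact u.ring.mul_mem _ _ (hKr _ (g.coeff i).2) (pow_mem hSr i)
    have hval : ∀ g : Kb[X], g.IsRoot x → aeval S g ≠ 0 → 0 < u.v (aeval S g) := by
      intro g hg hg0
      obtain ⟨g', hg'⟩ := dvd_iff_isRoot.mpr hg
      have e : aeval S g = (S - x) * aeval S g' := by
        rw [hg', map_mul, map_sub, aeval_X, aeval_C]; rfl
      have hg'0 : aeval S g' ≠ 0 := by intro h0; rw [e, h0, mul_zero] at hg0; exact hg0 rfl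
      rw [e, u.mul hSx0 hg'0]
      have := (u.mem_ring_of hg'0).mp (hpol g')
      linarith
    have hqv := hval q hx hqS
    have hpv : u.v (aeval S p) = 0 := by
      have hc0 : p.eval x ≠ 0 := hpx
      have hc1 : ((p.eval x : Kb) : Λ) ≠ 0 := fun h => hc0 (Subtype.ext h)
      by_cases hg : aeval S (p - C (p.eval x)) = 0
      · rw [map_sub, aeval_C, sub_eq_zero] at hg
        rw [hg]; exact hu1 _ (p.eval x).2 hc1
      · have h1 := hval (p - C (p.eval x)) (by simp) hg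
        have e : aeval S p = ((p.eval x : Kb) : Λ) + aeval S (p - C (p.eval x)) := by
          rw [map_sub, aeval_C]
          change aeval S p = ((p.eval x : Kb) : Λ) + (aeval S p - ((p.eval x : Kb) : Λ))
          ring
        have h2 := (u.add_eq_of_lt hc1 hg (by rw [hu1 _ (p.eval x).2 hc1]; exact h1)).2
        rw [e, h2]; exact hu1 _ (p.eval x).2 hc1
    rw [hpq, u.mul hA0 hqS] at hpv
    linarith
  obtain ⟨-, c1, h11, h12, h13, h14, h15, h16, -⟩ :=
    K2_good_poly w hw Kb κb hκb S hS htr ν hν y hy hpos False p hp (fun h => h.elim)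
  obtain ⟨-, c2, h21, h22, h23, h24, h25, h26, h27⟩ :=
    K2_good_poly w hw Kb κb hκb S hS htr ν hν y hy hpos t q hq hnr
  have hA1 : A = aeval S p / aeval S q := by rw [hpq]; field_simp
  have hvA : w.v A = w.v (aeval S p) - w.v (aeval S q) := by rw [hA1, w.div hpS hqS]
  have v1 : w.v (aeval S p / c1) = 0 := by rw [w.div hpS h12, h13]; ring
  have v2 : w.v (aeval S q / c2) = 0 := by rw [w.div hqS h22, h23]; ring
  have n1 : aeval S p / c1 ≠ 0 := div_ne_zero hpS h12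
  have n2 : aeval S q / c2 ≠ 0 := div_ne_zero hqS h22
  have n3 : c1 / (c2 * c) ≠ 0 := div_ne_zero h12 (mul_ne_zero h22 hc0)
  have v3 : w.v (c1 / (c2 * c)) = 0 := by
    rw [w.div h12 (mul_ne_zero h22 hc0), w.mul h22 hc0, h13, h23, hcv, hvA]; ring
  have v2' : w.v (aeval S q / c2)⁻¹ = 0 := by rw [w.inv n2, v2, neg_zero]
  have e : A / c = (aeval S p / c1) * (aeval S q / c2)⁻¹ * (c1 / (c2 * c)) := by
    rw [hA1]; field_simp
  have m1 := K2_unit_ring w n1 v1
  have m2 := K2_unit_ring w (inv_ne_zero n2) v2'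
  have m3 := K2_unit_ring w n3 v3
  have hr3 : w.res (c1 / (c2 * c)) ∈ κb :=
    (hκb _).mpr ⟨_, div_mem h11 (mul_mem h21 hc), m3, rfl⟩
  have hr3' := K2_res_ne w n3 v3
  have hres : w.res (A / c) = w.res (aeval S p / c1) * (w.res (aeval S q / c2))⁻¹ *
      w.res (c1 / (c2 * c)) := by
    rw [e, w.res_mul (w.ring.mul_mem _ _ m1 m2) m3, w.res_mul m1 m2, K2_res_inv w n2 v2]
  refine ⟨?_, ?_⟩
  · rw [hres]
    exact mul_mem (mul_mem h15 (inv_mem h25)) (Subfield.subset_closure (Or.inl hr3))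
  · intro h
    rw [hres, ν.mul (mul_ne_zero h14 (inv_ne_zero h24)) hr3', ν.mul h14 (inv_ne_zero h24),
      ν.inv h24, h27 h, hν _ hr3 hr3']
    linarith

end KK

end

end Pool.Agent.VM.K2p

namespace Pool.Agent.VM

export K2p (lc_factor lc_line)

end Pool.Agent.VM
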