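import Pool.Agent.Lib_helper15.VM.DefsK
import Pool.Agent.Lib_helper15.VM.K0

/-!
# MP_5582d1_ag, block K3: Gauss norm on the curve
-/

set_option autoImplicit false

namespace Pool.Agent.VM.K3p

open Pool.Agent.VM
open scoped Classical
open Polynomial

attribute [-instance] Subtype.instDecidableEq

noncomputable section

private theorem res_sum {K ι : Type} [Field K] (w : QV K) (s : Finset ι) (f : ι → K)
    (hf : ∀ i ∈ s, f i ∈ w.ring) :
    (∑ i ∈ s, f i) ∈ w.ring ∧ w.res (∑ i ∈ s, f i) = ∑ i ∈ s, w.res (f i) := by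
  induction s using Finset.induction_on with
  | empty => exact ⟨by simpa using w.ring.zero_mem, by simpa using w.res_zero⟩
  | insert a s ha ih =>
    obtain ⟨h1, h2⟩ := ih fun i hi => hf i (Finset.mem_insert_of_mem hi)
    have h3 := hf a (Finset.mem_insert_self _ _)
    rw [Finset.sum_insert ha, Finset.sum_insert ha]
    exact ⟨w.ring.add_mem _ _ h3 h1, by rw [w.res_add h3 h1, h2]⟩

private theorem pow_mem {K : Type} [Field K] (w : QV K) {a : K} (ha : a ∈ w.ring) (n : ℕ) :
    a ^ n ∈ w.ring ∧ w.res (a ^ n) = w.res a ^ n := by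
  induction n with
  | zero => exact ⟨by simpa using w.ring.one_mem, by simpa using w.res_one⟩
  | succ n ih =>
    rw [pow_succ, pow_succ]
    exact ⟨w.ring.mul_mem _ _ ih.1 ha, by rw [w.res_mul ih.1 ha, ih.2]⟩

section
variable {Λ : Type} [Field Λ] (w : QV Λ) (Kb : Subfield Λ) (κb : Subfield w.κ)
  (hκb : ∀ y, y ∈ κb ↔ ∃ x ∈ Kb, x ∈ w.ring ∧ w.res x = y)

/-- residues of units have value 0 -/
private theorem unit_of_res {a : Λ} (ha : a ∈ w.ring) (h : w.res a ≠ 0) : a ≠ 0 ∧ w.v a = 0 := by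
  have h0 : a ≠ 0 := by
    rintro rfl
    exact h w.res_zero
  refine ⟨h0, ?_⟩
  have h1 := (w.mem_ring_of h0).1 ha
  by_contra hne
  exact h ((w.res_eq_zero_iff ha).2 (Or.inr (lt_of_le_of_ne h1 (Ne.symm hne))))

private theorem res_div {a b : Λ} (ha : a ∈ w.ring) (hb : b ∈ w.ring) (h : w.res b ≠ 0) :
    a / b ∈ w.ring ∧ w.res (a / b) = w.res a / w.res b := by
  obtain ⟨b0, bv⟩ := unit_of_res w hb h
  have h1 : b⁻¹ ∈ w.ring := (w.mem_ring_of (inv_ne_zero b0)).2 (by rw [w.inv b0, bv, neg_zero])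
  have h2 : a / b ∈ w.ring := by
    rw [div_eq_mul_inv]
    exact w.ring.mul_mem _ _ ha h1
  refine ⟨h2, ?_⟩
  rw [eq_div_iff h, ← w.res_mul h2 hb, div_mul_cancel₀ _ b0]

include hκb in
/-- polynomials -/
private theorem poly {S : Λ} (hS : S ∈ w.ring) (htr : Transcendental κb (w.res S)) (p : Kb[X])
    (hp : p ≠ 0) : ∃ c ∈ Kb, c ≠ 0 ∧ aeval S p / c ∈ w.ring ∧ w.res (aeval S p / c) ≠ 0 ∧
      w.res (aeval S p / c) ∈ fs κb (w.res S) := by
  obtain ⟨j, hj, hmin⟩ := Finset.exists_min_image p.support (fun i => w.v (p.coeff i : Λ))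
    (Polynomial.support_nonempty.2 hp)
  have hj0 : (p.coeff j : Λ) ≠ 0 := by
    intro h
    exact (Polynomial.mem_support_iff.1 hj) (Subtype.ext h)
  have hcoef : ∀ i, (p.coeff i : Λ) / (p.coeff j : Λ) ∈ w.ring := by
    intro i
    by_cases h0 : (p.coeff i : Λ) = 0
    · rw [h0, zero_div]
      exact w.ring.zero_mem
    · rw [w.mem_ring_of (div_ne_zero h0 hj0), w.div h0 hj0]
      have h1 : i ∈ p.support := by
        rw [Polynomial.mem_support_iff]
        intro h
        exact h0 (by rw [h]; rfl)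
      linarith [hmin i h1]
  have hres : ∀ i, w.res ((p.coeff i : Λ) / (p.coeff j : Λ)) ∈ κb := fun i =>
    (hκb _).2 ⟨_, Kb.div_mem (p.coeff i).2 (p.coeff j).2, hcoef i, rfl⟩
  have hsum : aeval S p / (p.coeff j : Λ) =
      ∑ i ∈ p.support, (p.coeff i : Λ) / (p.coeff j : Λ) * S ^ i := by
    rw [Polynomial.aeval_eq_sum_range' (n := p.natDegree + 1) (Nat.lt_succ_self _), Finset.sum_div]
    symm
    have hsub : p.support ⊆ Finset.range (p.natDegree + 1) := fun i hi =>
      Finset.mem_range.2 (Nat.lt_succ_of_le (Polynomial.le_natDegree_of_mem_supp i hi))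
    rw [← Finset.sum_subset hsub]
    · refine Finset.sum_congr rfl fun i _ => ?_
      rw [Algebra.smul_def]
      show _ = (p.coeff i : Λ) * S ^ i / _
      ring
    · intro i _ hi
      rw [Polynomial.notMem_support_iff.1 hi, zero_smul, zero_div]
  have hmem : ∀ i ∈ p.support, (p.coeff i : Λ) / (p.coeff j : Λ) * S ^ i ∈ w.ring := fun i _ =>
    w.ring.mul_mem _ _ (hcoef i) (pow_mem w hS i).1
  obtain ⟨m1, m2⟩ := res_sum w p.support _ hmem
  let q : κb[X] := ∑ i ∈ p.support, monomial i ⟨_, hres i⟩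
  have hq : aeval (w.res S) q = w.res (aeval S p / (p.coeff j : Λ)) := by
    rw [hsum, m2]
    simp only [q]
    rw [map_sum]
    refine Finset.sum_congr rfl fun i _ => ?_
    rw [Polynomial.aeval_monomial, w.res_mul (hcoef i) (pow_mem w hS i).1, (pow_mem w hS i).2]
    rfl
  have hq0 : q ≠ 0 := by
    intro h
    have h1 : q.coeff j = ⟨_, hres j⟩ := by
      simp only [q]
      rw [Polynomial.finsetSum_coeff, Finset.sum_eq_single j]
      · rw [Polynomial.coeff_monomial, if_pos rfl]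
      · intro i _ hi
        rw [Polynomial.coeff_monomial, if_neg hi]
      · intro h'
        exact absurd hj h'
    rw [h, Polynomial.coeff_zero] at h1
    have h2 := congrArg Subtype.val h1
    have h3 : w.res ((p.coeff j : Λ) / (p.coeff j : Λ)) = 0 := h2.symm
    rw [div_self hj0, w.res_one] at h3
    exact one_ne_zero h3
  refine ⟨p.coeff j, (p.coeff j).2, hj0, by rw [hsum]; exact m1, ?_, ?_⟩
  · rw [← hq]
    intro h
    exact hq0 ((transcendental_iff.1 htr) q h)
  · rw [← hq, Polynomial.aeval_eq_sum_range]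
    have hSm : w.res S ∈ fs κb (w.res S) :=
      Subfield.subset_closure (Set.mem_union_right _ (Set.mem_singleton _))
    refine Subfield.sum_mem _ fun i _ => ?_
    rw [Algebra.smul_def]
    exact Subfield.mul_mem _ (Subfield.subset_closure (Set.mem_union_left _ (q.coeff i).2))
      (Subfield.pow_mem _ hSm _)

/-- elements of `Kb(S)` -/
private theorem fs_div {S A : Λ} (hA : A ∈ fs Kb S) : ∃ p q : Kb[X], A = aeval S p / aeval S q := by
  unfold fs at hA
  rw [Subfield.mem_closure_iff] at hA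
  obtain ⟨x, hx, y, hy, rfl⟩ := hA
  have h1 : Subring.closure ((Kb : Set Λ) ∪ {S}) ≤ (aeval (R := Kb) S).toRingHom.range := by
    rw [Subring.closure_le]
    rintro z (hz | hz)
    · exact ⟨C ⟨z, hz⟩, by
        show aeval S (C (⟨z, hz⟩ : Kb)) = z
        rw [aeval_C]
        rfl⟩
    · exact ⟨X, by
        show aeval S (X : Kb[X]) = z
        rw [aeval_X, Set.mem_singleton_iff.1 hz]⟩
  obtain ⟨p, hp⟩ := h1 hx
  obtain ⟨q, hq⟩ := h1 hy
  exact ⟨p, q, by rw [← hp, ← hq]; rfl⟩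

include hκb in
/-- the residue of an element of `Kb(S)` divided by a constant of the same value -/
private theorem line {S : Λ} (hS : S ∈ w.ring) (htr : Transcendental κb (w.res S)) {A : Λ}
    (hA : A ∈ fs Kb S) (hA0 : A ≠ 0) {c : Λ} (hc : c ∈ Kb) (hc0 : c ≠ 0) (hcv : w.v c = w.v A) :
    w.res (A / c) ∈ fs κb (w.res S) := by
  obtain ⟨p, q, rfl⟩ := fs_div Kb hA
  have hq : q ≠ 0 := by
    rintro rfl
    apply hA0
    rw [map_zero, div_zero]
  have hp : p ≠ 0 := by
    rintro rfl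
    apply hA0
    rw [map_zero, zero_div]
  obtain ⟨a, ha, a0, a1, a2, a3⟩ := poly w Kb κb hκb hS htr p hp
  obtain ⟨b, hb, b0, b1, b2, b3⟩ := poly w Kb κb hκb hS htr q hq
  obtain ⟨a4, a5⟩ := unit_of_res w a1 a2
  obtain ⟨b4, b5⟩ := unit_of_res w b1 b2
  obtain ⟨d1, d2⟩ := res_div w a1 b1 b2
  obtain ⟨e1, e2⟩ : a / b / c ∈ w.ring ∧ w.v (a / b / c) = 0 := by
    have h1 : aeval S p ≠ 0 := fun h => a4 (by rw [h, zero_div])
    have h2 : aeval S q ≠ 0 := fun h => b4 (by rw [h, zero_div])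
    have h3 : w.v (a / b / c) = 0 := by
      rw [w.div (div_ne_zero a0 b0) hc0, w.div a0 b0, hcv, w.div h1 h2]
      rw [w.div h1 a0] at a5
      rw [w.div h2 b0] at b5
      linarith
    exact ⟨(w.mem_ring_of (div_ne_zero (div_ne_zero a0 b0) hc0)).2 h3.ge, h3⟩
  have e : aeval S p / aeval S q / c = (aeval S p / a) / (aeval S q / b) * (a / b / c) := by
    have h2 : aeval S q ≠ 0 := fun h => b4 (by rw [h, zero_div])
    field_simp
  rw [e, w.res_mul d1 e1, d2]
  refine Subfield.mul_mem _ (Subfield.div_mem _ a3 b3) (Subfield.subset_closure (Or.inl ?_))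
  exact (hκb _).2 ⟨_, Kb.div_mem (Kb.div_mem ha hb) hc, e1, rfl⟩

end

section KK

variable {Λ : Type} [Field Λ] [CharZero Λ] [IsAlgClosed Λ] (w : QV Λ) (hw : ∀ n : ℕ, n ≠ 0 → w.v (n : Λ) = 0)
  (Kb : Subfield Λ) [IsAlgClosed Kb] (κb : Subfield w.κ)
  (hκb : ∀ y, y ∈ κb ↔ ∃ x ∈ Kb, x ∈ w.ring ∧ w.res x = y)
  (hval : ∀ H : Λ, H ≠ 0 → ∃ c ∈ Kb, c ≠ 0 ∧ w.v c = w.v H)

include hw hκb hval

theorem gauss_curve (red : Pt E2 Λ →+ Pt E2 w.κ) (hred : IsRed w red) (e : Pt E2 Λ)
    (he : xc e ∈ w.ring) (htr : Transcendental κb (xc (red e))) (A B : Λ) (hA : A ∈ fs Kb (xc e))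
    (hB : B ∈ fs Kb (xc e)) (hA0 : A ≠ 0) (hB0 : B ≠ 0) :
    w.v (A + B * yc e) = min (w.v A) (w.v B) := by
  have hcz : CharZero w.κ := by
    refine charZero_of_inj_zero fun n hn => ?_
    by_contra h0
    have h1 : (n : Λ) ∈ w.ring := by
      rw [w.mem_ring_of (Nat.cast_ne_zero.2 h0), hw n h0]
    have h2 : w.res (n : Λ) = (n : w.κ) := by
      rw [w.res_of_mem h1]
      have e1 : (⟨(n : Λ), h1⟩ : w.ring) = ((n : ℕ) : w.ring) := rfl
      rw [e1, map_natCast]
    rw [← h2, w.res_eq_zero_iff h1, hw n h0] at hn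
    rcases hn with h | h
    · exact h0 (Nat.cast_eq_zero.1 h)
    · exact lt_irrefl _ h
  -- the point
  have hP0 : e ≠ 0 := by
    rintro rfl
    rw [map_zero] at htr
    exact htr (isAlgebraic_zero)
  obtain ⟨hr0, hrx, hry⟩ := hred.fin e hP0 he
  -- the equation
  have heq : ∀ {F : Type} [Field F] (P : Pt E2 F), P ≠ 0 → yc P ^ 2 = xc P ^ 3 + 1 := by
    intro F _ P hP
    match P, hP with
    | .zero, hP => exact absurd rfl hP
    | .some x y hxy, _ =>
      have h1 := hxy.1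
      rw [WeierstrassCurve.Affine.equation_iff] at h1
      show y ^ 2 = x ^ 3 + 1
      simpa [E2, SW] using h1
  have e1 := heq e hP0
  have e2 := heq (red e) hr0
  have hY : yc e ∈ w.ring := by
    by_cases h0 : yc e = 0
    · rw [h0]; exact w.ring.zero_mem
    · rw [w.mem_ring_of h0]
      have h1 : xc e ^ 3 + 1 ∈ w.ring := w.ring.add_mem _ _ (pow_mem w he 3).1 w.ring.one_mem
      rw [← e1, w.mem_ring_of (pow_ne_zero 2 h0), w.pow h0] at h1
      push_cast at h1
      linarith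
  have hyn : yc (red e) ∉ fs κb (xc (red e)) := (fe_nf κb (red e) htr).2
  have hY0 : w.res (yc e) ≠ 0 := by
    rw [← hry]
    intro h
    exact hyn (by rw [h]; exact Subfield.zero_mem _)
  obtain ⟨hYn, hYv⟩ := unit_of_res w hY hY0
  rw [hrx] at htr hyn
  rw [hry] at hyn
  -- values
  have hle : A + B * yc e ≠ 0 → min (w.v A) (w.v B) ≤ w.v (A + B * yc e) := by
    intro hne
    have := w.add hA0 (mul_ne_zero hB0 hYn) hne
    rwa [w.mul hB0 hYn, hYv, add_zero] at this
  rcases lt_trichotomy (w.v A) (w.v B) with hlt | heq' | hgt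
  · have h1 : w.v A < w.v (B * yc e) := by rw [w.mul hB0 hYn, hYv, add_zero]; exact hlt
    rw [(w.add_eq_of_lt hA0 (mul_ne_zero hB0 hYn) h1).2, min_eq_left hlt.le]
  · obtain ⟨c, hc, hc0, hcv⟩ := hval A hA0
    have hcv' : w.v c = w.v B := hcv.trans heq'
    have a1 := line w Kb κb hκb he htr hA hA0 hc hc0 hcv
    have b1 := line w Kb κb hκb he htr hB hB0 hc hc0 hcv'
    have a2 : A / c ∈ w.ring := (w.mem_ring_of (div_ne_zero hA0 hc0)).2 (by
      rw [w.div hA0 hc0, hcv, sub_self])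
    have b2 : B / c ∈ w.ring := (w.mem_ring_of (div_ne_zero hB0 hc0)).2 (by
      rw [w.div hB0 hc0, hcv', sub_self])
    have b3 : w.res (B / c) ≠ 0 := by
      intro h
      rcases (w.res_eq_zero_iff b2).1 h with h | h
      · exact div_ne_zero hB0 hc0 h
      · rw [w.div hB0 hc0, hcv', sub_self] at h
        exact lt_irrefl _ h
    have m1 : A / c + B / c * yc e ∈ w.ring :=
      w.ring.add_mem _ _ a2 (w.ring.mul_mem _ _ b2 hY)
    have r1 : w.res (A / c + B / c * yc e) = w.res (A / c) + w.res (B / c) * w.res (yc e) := by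
      rw [w.res_add a2 (w.ring.mul_mem _ _ b2 hY), w.res_mul b2 hY]
    have r2 : w.res (A / c + B / c * yc e) ≠ 0 := by
      rw [r1]
      intro h
      apply hyn
      have h1 : w.res (yc e) = -w.res (A / c) / w.res (B / c) := by
        rw [eq_div_iff b3]
        linear_combination h
      rw [h1]
      exact Subfield.div_mem _ (Subfield.neg_mem _ a1) b1
    obtain ⟨n1, n2⟩ := unit_of_res w m1 r2
    have e3 : A / c + B / c * yc e = (A + B * yc e) / c := by ring
    rw [e3] at n1 n2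
    have n3 : A + B * yc e ≠ 0 := fun h => n1 (by rw [h, zero_div])
    rw [w.div n3 hc0] at n2
    rw [min_eq_left heq'.le]
    linarith
  · have h1 : w.v (B * yc e) < w.v A := by rw [w.mul hB0 hYn, hYv, add_zero]; exact hgt
    rw [add_comm, (w.add_eq_of_lt (mul_ne_zero hB0 hYn) hA0 h1).2, min_eq_right hgt.le,
      w.mul hB0 hYn, hYv, add_zero]

end KK

end

end Pool.Agent.VM.K3p

namespace Pool.Agent.VM

export K3p (gauss_curve)

end Pool.Agent.VM
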