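import Pool.Agent.Lib_helper15.VM.DefsK
import Pool.Agent.Lib_helper15.VM.B0
import Pool.Agent.Lib_helper15.VM.F1
import Pool.Agent.Lib_helper15.VM.F3
import Pool.Agent.Lib_helper15.VM.K0
import Pool.Agent.Lib_helper15.VM.K2
import Pool.Agent.Lib_helper15.VM.K3

/-! MP_5582d1_ag, part III-C, block K4: regularity of the reduction. -/

set_option autoImplicit false

namespace Pool.Agent.VM.K4p

open scoped Classical
open Polynomial

attribute [-instance] Subtype.instDecidableEq

noncomputable section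

private theorem K4_eqn {F : Type} [Field F] [Algebra ℤ F] {x y : F} :
    (E2.baseChange F).toAffine.Equation x y ↔ y ^ 2 = x ^ 3 + 1 := by
  rw [WeierstrassCurve.Affine.equation_iff]
  simp [SW, WeierstrassCurve.baseChange]

private theorem K4_ns {F : Type} [Field F] [CharZero F] [Algebra ℤ F] {x y : F}
    (h : y ^ 2 = x ^ 3 + 1) : (E2.baseChange F).toAffine.Nonsingular x y := by
  rw [WeierstrassCurve.Affine.nonsingular_iff]
  refine ⟨K4_eqn.2 h, ?_⟩
  by_cases hx : x = 0
  · right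
    have hy : y ≠ 0 := by
      rintro rfl
      rw [hx] at h
      norm_num at h
    simp only [SW, WeierstrassCurve.baseChange, WeierstrassCurve.map, map_zero]
    intro h1
    have h2 : (2 : F) * y = 0 := by linear_combination h1
    rcases mul_eq_zero.1 h2 with h3 | h3
    · exact two_ne_zero h3
    · exact hy h3
  · left
    simp only [SW, WeierstrassCurve.baseChange, WeierstrassCurve.map, map_zero]
    intro h1
    have h2 : (3 : F) * x ^ 2 = 0 := by linear_combination -h1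
    rcases mul_eq_zero.1 h2 with h3 | h3
    · exact three_ne_zero h3
    · exact hx (pow_eq_zero_iff two_ne_zero |>.1 h3)

private theorem K4_ext {F : Type} [Field F] [Algebra ℤ F] {P Q : Pt E2 F} (hP : P ≠ 0) (hQ : Q ≠ 0)
    (h1 : xc P = xc Q) (h2 : yc P = yc Q) : P = Q := by
  rcases P with _ | ⟨x, y, h⟩
  · exact absurd rfl hP
  rcases Q with _ | ⟨x', y', h'⟩
  · exact absurd rfl hQ
  have e1 : x = x' := h1
  have e2 : y = y' := h2
  subst e1
  subst e2
  rfl

private theorem K4_sq {F : Type} [Field F] [Algebra ℤ F] {P : Pt E2 F} (hP : P ≠ 0) :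
    yc P ^ 2 = xc P ^ 3 + 1 := by
  rcases P with _ | ⟨x, y, h⟩
  · exact absurd rfl hP
  · exact K4_eqn.1 h.1

private theorem K4_xneg {F : Type} [Field F] [Algebra ℤ F] (P : Pt E2 F) : xc (-P) = xc P := by
  rcases P with _ | ⟨x, y, h⟩
  · rfl
  · rfl

private theorem K4_yneg {F : Type} [Field F] [Algebra ℤ F] (P : Pt E2 F) : yc (-P) = -yc P := by
  rcases P with _ | ⟨x, y, h⟩
  · show (0 : F) = -0
    rw [neg_zero]
  · show (E2.baseChange F).toAffine.negY x y = -y
    simp [WeierstrassCurve.Affine.negY, SW, WeierstrassCurve.baseChange]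

/-- points with the same `x` coordinate -/
private theorem K4_pm {F : Type} [Field F] [Algebra ℤ F] {P Q : Pt E2 F} (hP : P ≠ 0) (hQ : Q ≠ 0)
    (h1 : xc P = xc Q) : P = Q ∨ P = -Q := by
  have h2 : yc P ^ 2 = yc Q ^ 2 := by rw [K4_sq hP, K4_sq hQ, h1]
  rcases sq_eq_sq_iff_eq_or_eq_neg.1 h2 with h3 | h3
  · exact Or.inl (K4_ext hP hQ h1 h3)
  · exact Or.inr (K4_ext hP (neg_ne_zero.2 hQ) (h1.trans (K4_xneg Q).symm)
      (h3.trans (K4_yneg Q).symm))

private theorem K4_xinc {Λ : Type} [Field Λ] (Kb : Subfield Λ) (P : Pt E2 Kb) :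
    xc (inc Kb P) = ((xc P : Kb) : Λ) := by
  rcases P with _ | ⟨x, y, h⟩
  · rfl
  · rfl

private theorem K4_yinc {Λ : Type} [Field Λ] (Kb : Subfield Λ) (P : Pt E2 Kb) :
    yc (inc Kb P) = ((yc P : Kb) : Λ) := by
  rcases P with _ | ⟨x, y, h⟩
  · rfl
  · rfl

private theorem K4_inc0 {Λ : Type} [Field Λ] (Kb : Subfield Λ) {P : Pt E2 Kb} (hP : P ≠ 0) :
    inc Kb P ≠ 0 := by
  rcases P with _ | ⟨x, y, h⟩
  · exact absurd rfl hP
  · intro h0
    cases h0

/-- a term with positive value does not change a unit -/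
private theorem K4_unit {F : Type} [Field F] {u : QV F} {a b : F} (hb : b ≠ 0) (h0 : u.v b = 0)
    (h : 0 < u.v (a - b)) : a ≠ 0 ∧ u.v a = 0 := by
  by_cases h1 : a - b = 0
  · have h2 : a = b := sub_eq_zero.1 h1
    rw [h2]
    exact ⟨hb, h0⟩
  · have h2 := u.add_eq_of_lt hb h1 (by rw [h0]; exact h)
    have h3 : b + (a - b) = a := by ring
    rw [h3, h0] at h2
    exact h2

/-- the values of the conjugate -/
private theorem K4_conj {Λ : Type} [Field Λ] [CharZero Λ] (Kb : Subfield Λ) (e : Pt E2 Λ)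
    (he : Transcendental Kb (xc e)) (a : Pt E2 Kb) (u u' : QV Λ) (hu : AtPt Kb e a u)
    (hu' : AtPt Kb e (-a) u') (A B : Λ) (hA : A ∈ fs Kb (xc e)) (hB : B ∈ fs Kb (xc e))
    (h0 : A + B * yc e ≠ 0) : u'.v (A + B * yc e) = u.v (A - B * yc e) := by
  obtain ⟨F, iF, iA, φ, e', h1, h2, h3, h4, h5, h6, h7⟩ := bridge Kb e he
  obtain ⟨ι, j1, j2, j3, j4, j5⟩ := conj_exists (k := Kb) (F := F) (e := e') h6 h5
  have hsub : fs Kb (xc e) ≤ (IntermediateField.adjoin Kb {xc e'}).toSubfield.map φ := by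
    unfold fs
    rw [Subfield.closure_le]
    intro x hx
    rcases hx with hx | hx
    · exact ⟨algebraMap Kb F ⟨x, hx⟩, IntermediateField.algebraMap_mem _ _, h1 ⟨x, hx⟩⟩
    · rw [Set.mem_singleton_iff] at hx
      subst hx
      exact ⟨xc e', IntermediateField.mem_adjoin_simple_self _ _, h3⟩
  obtain ⟨A', hA', rfl⟩ := hsub hA
  obtain ⟨B', hB', rfl⟩ := hsub hB
  have hA1 : ι A' = A' := j4 A' hA'
  have hB1 : ι B' = B' := j4 B' hB'
  have e1 : φ A' + φ B' * yc e = φ (A' + B' * yc e') := by rw [map_add, map_mul, h4]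
  have e2 : φ A' - φ B' * yc e = φ (ι (A' + B' * yc e')) := by
    rw [map_add, map_mul, hA1, hB1, j2, map_add, map_mul, map_neg, h4]
    ring
  rw [e1] at h0 ⊢
  rw [e2]
  have h0' : A' + B' * yc e' ≠ 0 := by
    intro h
    rw [h, map_zero] at h0
    exact h0 rfl
  have k1 : At e' (-a) (u'.comap φ) := (h7 (-a) u').1 hu'
  have k0 : At e' a (u.comap φ) := (h7 a u).1 hu
  have kd : ∀ d : Kb, ι (algebraMap Kb F d) = algebraMap Kb F d := fun d => ι.commutes d
  have k2 : At e' (-a) ((u.comap φ).comap ι.toRingEquiv.toRingHom) := by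
    refine ⟨⟨?_, ?_, ?_⟩, ?_, ?_⟩
    · intro d hd
      show (u.comap φ).v (ι (algebraMap Kb F d)) = 0
      rw [kd]
      exact k0.triv d hd
    · intro ha
      have ha' : a ≠ 0 := fun h => ha (by rw [h, neg_zero])
      have hc := k0.ctr ha'
      constructor
      · show 0 < (u.comap φ).v (ι (xc e' - algebraMap Kb F (xc (-a))))
        rw [map_sub, kd, j1, K4_xneg]
        exact hc.1
      · show 0 < (u.comap φ).v (ι (yc e' - algebraMap Kb F (yc (-a))))
        rw [map_sub, kd, j2, K4_yneg, map_neg]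
        have e3 : -yc e' - -(algebraMap Kb F (yc a)) = -(yc e' - algebraMap Kb F (yc a)) := by ring
        rw [e3, QV.neg]
        exact hc.2
    · intro ha
      have ha' : a = 0 := neg_eq_zero.1 ha
      show (u.comap φ).v (ι (xc e')) < 0
      rw [j1]
      exact k0.ctr0 ha'
    · intro G hG
      exact k0.int (ι G) ((map_ne_zero ι).2 hG)
    · obtain ⟨G, hG, hG1⟩ := k0.unif
      refine ⟨ι G, (map_ne_zero ι).2 hG, ?_⟩
      show (u.comap φ).v (ι (ι G)) = 1
      rw [j3]
      exact hG1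
  exact at_unique (k := Kb) (F := F) (e := e') h6 h5 (-a) _ _ k1 k2 _ h0'

section KK

variable {Λ : Type} [Field Λ] [CharZero Λ] [IsAlgClosed Λ] (w : QV Λ) (hw : ∀ n : ℕ, n ≠ 0 → w.v (n : Λ) = 0)
  (Kb : Subfield Λ) [IsAlgClosed Kb] (κb : Subfield w.κ)
  (hκb : ∀ y, y ∈ κb ↔ ∃ x ∈ Kb, x ∈ w.ring ∧ w.res x = y)
  (hval : ∀ H : Λ, H ≠ 0 → ∃ c ∈ Kb, c ≠ 0 ∧ w.v c = w.v H)

include hw hκb

private theorem K4_trans (S : Λ) (hS : S ∈ w.ring) (htr : Transcendental κb (w.res S)) :
    Transcendental Kb S := by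
  intro hal
  have h1 : S ∈ Kb := by
    have hint : IsIntegral Kb S := hal.isIntegral
    have hdeg := IsAlgClosed.degree_eq_one_of_irreducible Kb (minpoly.irreducible hint)
    obtain ⟨z, hz⟩ := minpoly.mem_range_of_degree_eq_one Kb S hdeg
    rw [← hz]
    exact z.2
  have h2 : w.res S ∈ κb := (hκb _).2 ⟨S, h1, hS, rfl⟩
  exact htr (isAlgebraic_algebraMap (⟨w.res S, h2⟩ : κb))

include hval

/-- K4: regular on the discs of `β` and `-β` implies regular at `β` -/
theorem reg_good (red : Pt E2 Λ →+ Pt E2 w.κ) (hred : IsRed w red) (e : Pt E2 Λ)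
    (he : xc e ∈ w.ring) (htr : Transcendental κb (xc (red e)))
    (U : Pt E2 Kb → QV Λ) (hU : ∀ a, AtPt Kb e a (U a)) (β : Pt E2 κb) (hβ : β ≠ 0) (hβ2 : yc β ≠ 0)
    (ν : QV w.κ) (hν : AtPt κb (red e) β ν) (H : Λ) (hH : H ∈ fe Kb e) (h0 : H ≠ 0)
    (hreg : ∀ a, (red (inc Kb a) = inc κb β ∨ red (inc Kb a) = -inc κb β) → 0 ≤ (U a).v H)
    (c : Λ) (hc : c ∈ Kb) (hc0 : c ≠ 0) (hcH : w.v c = w.v H) :
    0 ≤ ν.v (w.res (H / c)) := by
  have hre0 : red e ≠ 0 := by
    intro h
    rw [h] at htr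
    exact htr (isAlgebraic_zero)
  have he0 : e ≠ 0 := by
    intro h
    rw [h, map_zero] at hre0
    exact hre0 rfl
  have hrede := hred.fin e he0 he
  obtain ⟨S, hS⟩ : ∃ S, S = xc e := ⟨_, rfl⟩
  obtain ⟨Y, hY⟩ : ∃ Y, Y = yc e := ⟨_, rfl⟩
  have hSr : S ∈ w.ring := by rw [hS]; exact he
  have hrS : w.res S = xc (red e) := by rw [hS]; exact hrede.2.1.symm
  have hrY : w.res Y = yc (red e) := by rw [hY]; exact hrede.2.2.symm
  have htrS : Transcendental κb (w.res S) := by rw [hrS]; exact htr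
  have hTr : Transcendental Kb S := K4_trans w hw Kb κb hκb S hSr htrS
  have hsqe : Y ^ 2 = S ^ 3 + 1 := by rw [hY, hS]; exact K4_sq he0
  have hYr : Y ∈ w.ring := by
    have h1 : Y ^ 2 ∈ w.ring := by
      rw [hsqe]
      exact w.ring.add_mem _ _ (pow_mem hSr 3) w.ring.one_mem
    by_cases h2 : Y = 0
    · rw [h2]
      exact w.ring.zero_mem
    · rw [w.mem_ring_of h2]
      rw [w.mem_ring_of (pow_ne_zero 2 h2), w.pow h2] at h1
      push_cast at h1
      linarith
  have hsqr : (yc (red e)) ^ 2 = (xc (red e)) ^ 3 + 1 := K4_sq hre0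
  have hyr0 : yc (red e) ≠ 0 := by
    intro h
    have h1 : (xc (red e)) ^ 3 + 1 = 0 := by rw [← hsqr, h]; ring
    apply htr
    refine ⟨X ^ 3 + 1, ?_, ?_⟩
    · intro h2
      have h3 := congrArg (fun p : κb[X] => p.coeff 3) h2
      simp [coeff_one] at h3
    · rw [map_add, map_pow, aeval_X, map_one]
      exact h1
  have hY0 : Y ≠ 0 := by
    intro h
    rw [h, w.res_zero] at hrY
    exact hyr0 hrY.symm
  have hwY : w.v Y = 0 := by
    have h1 : ¬ (Y = 0 ∨ 0 < w.v Y) := by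
      rw [← w.res_eq_zero_iff hYr, hrY]
      exact hyr0
    have h2 : 0 ≤ w.v Y := (w.mem_ring_of hY0).1 hYr
    by_contra h3
    exact h1 (Or.inr (lt_of_le_of_ne h2 (Ne.symm h3)))
  obtain ⟨A, hA, B, hB, hHAB⟩ := (fe_nf Kb e (by rw [← hS]; exact hTr)).1 H hH
  rw [← hY] at hHAB
  rw [← hS] at hA hB
  have hiβ : inc κb β ≠ 0 := K4_inc0 κb hβ
  have hyβ : yc (inc κb β) ≠ 0 := by
    rw [K4_yinc]
    intro h
    exact hβ2 (Subtype.ext h)
  -- the points of the two discs
  have hdp : ∀ a : Pt E2 Kb, (red (inc Kb a) = inc κb β ∨ red (inc Kb a) = -inc κb β) →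
      a ≠ 0 ∧ yc a ≠ 0 ∧ (red (inc Kb (-a)) = inc κb β ∨ red (inc Kb (-a)) = -inc κb β) := by
    intro a ha
    have hr0 : red (inc Kb a) ≠ 0 := by
      rcases ha with h | h
      · rw [h]
        exact hiβ
      · rw [h]
        exact neg_ne_zero.2 hiβ
    have hi0 : inc Kb a ≠ 0 := by
      intro h
      rw [h, map_zero] at hr0
      exact hr0 rfl
    have ha0 : a ≠ 0 := by
      intro h
      rw [h, map_zero] at hi0
      exact hi0 rfl
    refine ⟨ha0, ?_, ?_⟩
    · intro hy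
      have hxr : xc (inc Kb a) ∈ w.ring := by
        by_contra hx
        exact hr0 (hred.inf _ hx)
      have h1 := (hred.fin _ hi0 hxr).2.2
      rw [K4_yinc, hy] at h1
      have h2 : w.res ((0 : Kb) : Λ) = 0 := w.res_zero
      rw [h2] at h1
      rcases ha with h | h
      · exact hyβ ((congrArg yc h).symm.trans h1)
      · exact hyβ (neg_eq_zero.1 ((K4_yneg (inc κb β)).symm.trans ((congrArg yc h).symm.trans h1)))
    · rw [map_neg, map_neg]
      rcases ha with h | h
      · right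
        exact congrArg (fun P => -P) h
      · left
        exact neg_eq_iff_eq_neg.2 h
  have hdisc : ∀ a : Pt E2 Kb, (red (inc Kb a) = inc κb β ∨ red (inc Kb a) = -inc κb β) →
      A ∈ (U a).ring ∧ B ∈ (U a).ring := by
    intro a ha
    obtain ⟨ha0, hya, hna⟩ := hdp a ha
    have g1 : H ∈ (U a).ring := Or.inr (hreg a ha)
    have g2 : A - B * Y ∈ (U a).ring := by
      right
      have h1 := K4_conj Kb e (by rw [← hS]; exact hTr) a (U a) (U (-a)) (hU a) (hU (-a)) A B
        (by rw [← hS]; exact hA) (by rw [← hS]; exact hB) (by rw [← hY, ← hHAB]; exact h0)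
      rw [← hY, ← hHAB] at h1
      rw [← h1]
      exact hreg (-a) hna
    have h2K : (2 : Λ) ∈ Kb := by
      have h := Kb.add_mem Kb.one_mem Kb.one_mem
      have e1 : (1 : Λ) + 1 = 2 := by norm_num
      rwa [e1] at h
    have g3 : (2 : Λ)⁻¹ ∈ (U a).ring := by
      right
      rw [(U a).inv two_ne_zero, (hU a).triv 2 h2K two_ne_zero, neg_zero]
    have hyc0 : ((yc a : Kb) : Λ) ≠ 0 := fun h => hya (Subtype.ext h)
    have g4 : Y ≠ 0 ∧ (U a).v Y = 0 := by
      have h1 := ((hU a).ctr ha0).2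
      rw [← hY, K4_yinc] at h1
      exact K4_unit hyc0 ((hU a).triv _ (yc a).2 hyc0) h1
    have g5 : Y⁻¹ ∈ (U a).ring := by
      right
      rw [(U a).inv g4.1, g4.2, neg_zero]
    constructor
    · have h1 := (U a).ring.mul_mem _ _ g3 ((U a).ring.add_mem _ _ g1 g2)
      have h2 : (2 : Λ)⁻¹ * (H + (A - B * Y)) = A := by
        rw [hHAB]
        field_simp
        ring
      rwa [h2] at h1
    · have h1 := (U a).ring.mul_mem _ _ g5 ((U a).ring.mul_mem _ _ g3 ((U a).ring.add_mem _ _ g1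
        ((U a).ring.neg_mem _ g2)))
      have h2 : Y⁻¹ * ((2 : Λ)⁻¹ * (H + -(A - B * Y))) = B := by
        rw [hHAB]
        field_simp
        ring
      rwa [h2] at h1
  -- the two coefficients
  have hline : ∀ A ∈ fs Kb S, (∀ a : Pt E2 Kb,
      (red (inc Kb a) = inc κb β ∨ red (inc Kb a) = -inc κb β) → A ∈ (U a).ring) →
      (A ≠ 0 → w.v c ≤ w.v A) → A / c ∈ w.ring ∧ w.res (A / c) ∈ ν.ring := by
    intro A hA hAr hAc
    by_cases hA0 : A = 0
    · rw [hA0, zero_div, w.res_zero]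
      exact ⟨w.ring.zero_mem, ν.ring.zero_mem⟩
    have hAc0 : A / c ≠ 0 := div_ne_zero hA0 hc0
    have hvA : w.v (A / c) = w.v A - w.v c := w.div hA0 hc0
    have hAcr : A / c ∈ w.ring := by
      right
      rw [hvA]
      linarith [hAc hA0]
    refine ⟨hAcr, ?_⟩
    by_cases hlt : w.v c < w.v A
    · have h1 : w.res (A / c) = 0 := by
        rw [w.res_eq_zero_iff hAcr]
        right
        rw [hvA]
        linarith
      rw [h1]
      exact ν.ring.zero_mem
    · have hcv : w.v c = w.v A := le_antisymm (hAc hA0) (not_lt.1 hlt)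
      have hctr := hν.ctr hβ
      right
      refine (lc_line w hw Kb κb hκb S hSr htrS ν hν.triv ((xc β : κb) : w.κ) (xc β).2
        (by rw [hrS, ← K4_xinc κb β]; exact hctr.1) A hA hA0 c hc hc0 hcv).2 ?_
      intro x hx hxr hxy
      obtain ⟨Z, hZ⟩ := IsAlgClosed.exists_pow_nat_eq ((⟨x, hx⟩ : Kb) ^ 3 + 1) (n := 2) two_pos
      obtain ⟨a, ha⟩ : ∃ a : Pt E2 Kb, a = .some (⟨x, hx⟩ : Kb) Z (K4_ns hZ) := ⟨_, rfl⟩
      have hax : xc (inc Kb a) = x := by
        rw [ha]
        rfl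
      have ha0 : a ≠ 0 := by
        rw [ha]
        intro h
        cases h
      have hfin := hred.fin (inc Kb a) (K4_inc0 Kb ha0) (by rw [hax]; exact hxr)
      have hdi := K4_pm hfin.1 hiβ
        ((hfin.2.1.trans ((congrArg w.res hax).trans hxy)).trans (K4_xinc κb β).symm)
      refine ⟨U a, (hU a).triv, ?_, ?_⟩
      · have h1 := ((hU a).ctr ha0).1
        rw [← hS, hax] at h1
        exact h1
      · rcases hAr a hdi with h1 | h1
        · exact absurd h1 hA0
        · exact h1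
  -- the Gauss norm
  have hAB : (A ≠ 0 → w.v c ≤ w.v A) ∧ (B ≠ 0 → w.v c ≤ w.v B) := by
    by_cases hA0 : A = 0
    · refine ⟨fun h => absurd hA0 h, fun hB0 => ?_⟩
      have h1 : H = B * Y := by rw [hHAB, hA0, zero_add]
      rw [hcH, h1, w.mul hB0 hY0, hwY, add_zero]
    · by_cases hB0 : B = 0
      · refine ⟨fun _ => ?_, fun h => absurd hB0 h⟩
        have h1 : H = A := by rw [hHAB, hB0, zero_mul, add_zero]
        rw [hcH, h1]
      · have h1 := gauss_curve w hw Kb κb hκb hval red hred e he htr A B (by rw [← hS]; exact hA)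
          (by rw [← hS]; exact hB) hA0 hB0
        rw [← hY, ← hHAB] at h1
        rw [hcH, h1]
        exact ⟨fun _ => min_le_left _ _, fun _ => min_le_right _ _⟩
  have kA := hline A hA (fun a ha => (hdisc a ha).1) hAB.1
  have kB := hline B hB (fun a ha => (hdisc a ha).2) hAB.2
  have hνY : w.res Y ∈ ν.ring := by
    right
    have h1 := (hν.ctr hβ).2
    rw [hrY]
    exact (K4_unit hyβ (hν.triv _ (by rw [K4_yinc]; exact (yc β).2) hyβ) h1).2.ge
  have hsum : w.res (H / c) = w.res (A / c) + w.res (B / c) * w.res Y := by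
    have h1 : H / c = A / c + B / c * Y := by
      rw [hHAB]
      ring
    rw [h1, w.res_add kA.1 (w.ring.mul_mem _ _ kB.1 hYr), w.res_mul kB.1 hYr]
  have hmem : w.res (H / c) ∈ ν.ring := by
    rw [hsum]
    exact ν.ring.add_mem _ _ kA.2 (ν.ring.mul_mem _ _ kB.2 hνY)
  have hvH : w.v (H / c) = 0 := by
    rw [w.div h0 hc0, hcH, sub_self]
  have hHr : H / c ∈ w.ring := Or.inr hvH.ge
  have hne : w.res (H / c) ≠ 0 := by
    intro h
    rw [w.res_eq_zero_iff hHr, hvH] at h
    rcases h with h | h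
    · exact div_ne_zero h0 hc0 h
    · exact lt_irrefl _ h
  exact (ν.mem_ring_of hne).1 hmem

end KK

end

end Pool.Agent.VM.K4p

namespace Pool.Agent.VM

export K4p (reg_good)

end Pool.Agent.VM
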