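import Pool.Agent.Lib_helper15.VM.DefsK
import Pool.Agent.Lib_helper15.VM.C1
import Pool.Agent.Lib_helper15.VM.H0
import Pool.Agent.Lib_helper15.VM.K4

/-! Block K5: the order of the reduction, good points -/

set_option autoImplicit false

namespace Pool.Agent.VM.K5p

open scoped Classical
open Polynomial Pool.Agent.VM

attribute [-instance] Subtype.instDecidableEq

noncomputable section

/-! ### points -/

section pts
variable {F : Type} [Field F]

private theorem cases' (p : Pt E2 F) : p = 0 ∨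
    ∃ (x y : F) (h : (E2.baseChange F).toAffine.Nonsingular x y), p = .some x y h := by
  rcases p with _ | ⟨x, y, h⟩
  · exact Or.inl rfl
  · exact Or.inr ⟨x, y, h, rfl⟩

private theorem sq' {p : Pt E2 F} (hp : p ≠ 0) : yc p ^ 2 = xc p ^ 3 + 1 := by
  rcases cases' p with h | ⟨x, y, h, rfl⟩
  · exact absurd h hp
  · have h1 := h.1
    rw [WeierstrassCurve.Affine.equation_iff] at h1
    simp [E2, SW, WeierstrassCurve.baseChange, WeierstrassCurve.map] at h1
    show y ^ 2 = x ^ 3 + 1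
    exact h1

private theorem xc_neg' (p : Pt E2 F) : xc (-p) = xc p := by
  rcases cases' p with rfl | ⟨x, y, h, rfl⟩
  · rfl
  · rfl

private theorem yc_neg' (p : Pt E2 F) : yc (-p) = -yc p := by
  rcases cases' p with rfl | ⟨x, y, h, rfl⟩
  · show (0 : F) = -0
    rw [neg_zero]
  · show (E2.baseChange F).toAffine.negY x y = -y
    rw [WeierstrassCurve.Affine.negY]
    simp [E2, SW, WeierstrassCurve.baseChange, WeierstrassCurve.map]

private theorem xc_eq' {p q : Pt E2 F} (hp : p ≠ 0) (hq : q ≠ 0) (h : xc p = xc q) :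
    p = q ∨ p = -q := by
  rcases cases' p with h' | ⟨x, y, h', rfl⟩
  · exact absurd h' hp
  rcases cases' q with h'' | ⟨x', y', h'', rfl⟩
  · exact absurd h'' hq
  exact WeierstrassCurve.Affine.Point.X_eq_iff.1 h

end pts

private theorem xc_inc {Λ : Type} [Field Λ] (Kb : Subfield Λ) (a : Pt E2 Kb) :
    xc (inc Kb a) = ((xc a : Kb) : Λ) := by
  rcases a with _ | ⟨x, y, h⟩ <;> rfl

private theorem yc_inc {Λ : Type} [Field Λ] (Kb : Subfield Λ) (a : Pt E2 Kb) :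
    yc (inc Kb a) = ((yc a : Kb) : Λ) := by
  rcases a with _ | ⟨x, y, h⟩ <;> rfl

private theorem tr_xc_ne {Λ : Type} [Field Λ] (Kb : Subfield Λ) {S : Λ} (h : Transcendental Kb S)
    {x : Λ} (hx : x ∈ Kb) : S - x ≠ 0 := by
  intro h0
  rw [sub_eq_zero] at h0
  subst h0
  exact h (isAlgebraic_algebraMap (⟨S, hx⟩ : Kb))

private theorem tr_yc_ne {Λ : Type} [Field Λ] (Kb : Subfield Λ) {e : Pt E2 Λ}
    (h : Transcendental Kb (xc e)) {y : Λ} (hy : y ∈ Kb) : yc e - y ≠ 0 := by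
  intro h0
  rw [sub_eq_zero] at h0
  have he : e ≠ 0 := by
    rintro rfl
    exact h (by
      have : (xc (0 : Pt E2 Λ)) = algebraMap Kb Λ 0 := by rw [map_zero]; rfl
      rw [this]; exact isAlgebraic_algebraMap _)
  have h1 := sq' he
  have h2 : IsAlgebraic Kb (xc e ^ 3) := by
    have : xc e ^ 3 = algebraMap Kb Λ (⟨y, hy⟩ ^ 2 - 1) := by
      rw [map_sub, map_pow, map_one]
      show xc e ^ 3 = y ^ 2 - 1
      rw [← h0, h1]; ring
    rw [this]; exact isAlgebraic_algebraMap _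
  exact h (IsAlgebraic.of_pow (by norm_num) h2)

private theorem e_ne {Λ : Type} [Field Λ] (Kb : Subfield Λ) {e : Pt E2 Λ}
    (h : Transcendental Kb (xc e)) : e ≠ 0 := by
  rintro rfl
  exact h (by
    have : (xc (0 : Pt E2 Λ)) = algebraMap Kb Λ 0 := by rw [map_zero]; rfl
    rw [this]; exact isAlgebraic_algebraMap _)

/-! ### values of differences -/

section vals
variable {Λ : Type} [Field Λ] (Kb : Subfield Λ) (u : QV Λ) (hu : ∀ c ∈ Kb, c ≠ 0 → u.v c = 0)
include hu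

private theorem v_sub_eq {s x x' : Λ} (hx : x ∈ Kb) (hx' : x' ∈ Kb) (h0 : s - x ≠ 0)
    (hpos : 0 < u.v (s - x)) (hne : x ≠ x') : s - x' ≠ 0 ∧ u.v (s - x') = 0 := by
  have hc : x - x' ≠ 0 := sub_ne_zero.2 hne
  have hv : u.v (x - x') = 0 := hu _ (Kb.sub_mem hx hx') hc
  have := u.add_eq_of_lt hc h0 (by rw [hv]; exact hpos)
  have he : x - x' + (s - x) = s - x' := by ring
  rw [he, hv] at this
  exact this

private theorem v_sub_nonneg {s x x' : Λ} (hx : x ∈ Kb) (hx' : x' ∈ Kb) (h0 : s - x ≠ 0)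
    (hpos : 0 < u.v (s - x)) : 0 ≤ u.v (s - x') := by
  by_cases h : x = x'
  · rw [← h]; exact hpos.le
  · exact (v_sub_eq Kb u hu hx hx' h0 hpos h).2.ge

end vals

private theorem v_prod {Λ ι : Type} [Field Λ] (u : QV Λ) (s : Finset ι) (f : ι → Λ)
    (hf : ∀ i ∈ s, f i ≠ 0) : u.v (∏ i ∈ s, f i) = ∑ i ∈ s, u.v (f i) := by
  induction s using Finset.induction_on with
  | empty => simp [u.one]
  | insert a s ha ih =>
    rw [Finset.prod_insert ha, Finset.sum_insert ha, u.mul (hf a (Finset.mem_insert_self _ _))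
      (Finset.prod_ne_zero_iff.2 fun i hi => hf i (Finset.mem_insert_of_mem hi)),
      ih fun i hi => hf i (Finset.mem_insert_of_mem hi)]

private theorem v_zpow {Λ : Type} [Field Λ] (u : QV Λ) {x : Λ} (hx : x ≠ 0) (k : ℤ) :
    u.v (x ^ k) = k * u.v x := by
  cases k with
  | ofNat n => simp [u.pow hx]
  | negSucc n =>
    rw [zpow_negSucc, u.inv (pow_ne_zero _ hx), u.pow hx, Int.cast_negSucc]
    ring

/-! ### leading coefficients -/

section lc
variable {Λ : Type} [Field Λ] (w : QV Λ) (Kb : Subfield Λ) (κb : Subfield w.κ)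
  (hκb : ∀ y, y ∈ κb ↔ ∃ x ∈ Kb, x ∈ w.ring ∧ w.res x = y)
  (hval : ∀ H : Λ, H ≠ 0 → ∃ c ∈ Kb, c ≠ 0 ∧ w.v c = w.v H)
  (ν : QV w.κ) (hν : ∀ d ∈ κb, d ≠ 0 → ν.v d = 0)

private theorem unit_res {x : Λ} (h0 : x ≠ 0) (hv : w.v x = 0) : x ∈ w.ring ∧ w.res x ≠ 0 := by
  have h1 : x ∈ w.ring := (w.mem_ring_of h0).2 hv.ge
  refine ⟨h1, fun h => ?_⟩
  rcases (w.res_eq_zero_iff h1).1 h with h | h
  · exact h0 h
  · linarith

/-- the order of the reduction of `H` is `n` -/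
private def LC (H : Λ) (n : ℚ) : Prop :=
  ∀ c ∈ Kb, c ≠ 0 → w.v c = w.v H → ν.v (w.res (H / c)) = n

include hκb hν in
private theorem unit_nu {x : Λ} (hx : x ∈ Kb) (h0 : x ≠ 0) (hv : w.v x = 0) :
    ν.v (w.res x) = 0 :=
  hν _ ((hκb _).2 ⟨x, hx, (unit_res w h0 hv).1, rfl⟩) (unit_res w h0 hv).2

private theorem v_div0 {H c : Λ} (h0 : H ≠ 0) (hc0 : c ≠ 0) (h : w.v c = w.v H) :
    H / c ≠ 0 ∧ w.v (H / c) = 0 :=
  ⟨div_ne_zero h0 hc0, by rw [w.div h0 hc0, h, sub_self]⟩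

private theorem nu_mul {x y : Λ} (hx : x ≠ 0) (hvx : w.v x = 0) (hy : y ≠ 0) (hvy : w.v y = 0) :
    ν.v (w.res (x * y)) = ν.v (w.res x) + ν.v (w.res y) := by
  rw [w.res_mul (unit_res w hx hvx).1 (unit_res w hy hvy).1,
    ν.mul (unit_res w hx hvx).2 (unit_res w hy hvy).2]

include hκb hν in
private theorem lc_of {H c₀ : Λ} (h0 : H ≠ 0) (hc : c₀ ∈ Kb) (hc0 : c₀ ≠ 0)
    (h : w.v c₀ = w.v H) : LC w Kb ν H (ν.v (w.res (H / c₀))) := by
  intro c hcK hc' hcv
  have h1 := v_div0 w h0 hc0 h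
  have h2 : w.v (c₀ / c) = 0 := by rw [w.div hc0 hc', h, hcv, sub_self]
  have h3 : c₀ / c ≠ 0 := div_ne_zero hc0 hc'
  have h4 : H / c = H / c₀ * (c₀ / c) := by field_simp
  rw [h4, nu_mul w ν h1.1 h1.2 h3 h2, unit_nu w Kb κb hκb ν hν (Kb.div_mem hc hcK) h3 h2,
    add_zero]

include hval in
private theorem lc_unique {H : Λ} (h0 : H ≠ 0) {n n' : ℚ} (h : LC w Kb ν H n)
    (h' : LC w Kb ν H n') : n = n' := by
  obtain ⟨c, hc, hc0, hcv⟩ := hval H h0
  rw [← h c hc hc0 hcv, ← h' c hc hc0 hcv]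

include hκb hν hval in
private theorem lc_mul {H H' : Λ} {n n' : ℚ} (h0 : H ≠ 0) (h0' : H' ≠ 0) (h : LC w Kb ν H n)
    (h' : LC w Kb ν H' n') : LC w Kb ν (H * H') (n + n') := by
  obtain ⟨c₁, hc₁, hc₁0, hv₁⟩ := hval H h0
  obtain ⟨c₂, hc₂, hc₂0, hv₂⟩ := hval H' h0'
  have h1 := v_div0 w h0 hc₁0 hv₁
  have h2 := v_div0 w h0' hc₂0 hv₂
  have h3 := lc_of w Kb κb hκb ν hν (mul_ne_zero h0 h0') (Kb.mul_mem hc₁ hc₂)
    (mul_ne_zero hc₁0 hc₂0) (by rw [w.mul hc₁0 hc₂0, w.mul h0 h0', hv₁, hv₂])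
  have h4 : H * H' / (c₁ * c₂) = H / c₁ * (H' / c₂) := by field_simp
  rw [h4, nu_mul w ν h1.1 h1.2 h2.1 h2.2, h c₁ hc₁ hc₁0 hv₁, h' c₂ hc₂ hc₂0 hv₂] at h3
  exact h3

include hκb hν in
private theorem lc_one : LC w Kb ν 1 0 := by
  have := lc_of w Kb κb hκb ν hν (H := 1) one_ne_zero Kb.one_mem one_ne_zero rfl
  rwa [div_one, unit_nu w Kb κb hκb ν hν Kb.one_mem one_ne_zero w.one] at this

private theorem lc_inv {H : Λ} {n : ℚ} (h0 : H ≠ 0) (h : LC w Kb ν H n) :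
    LC w Kb ν H⁻¹ (-n) := by
  intro c hc hc0 hcv
  have h1 : w.v c⁻¹ = w.v H := by rw [w.inv hc0, hcv, w.inv h0, neg_neg]
  have h2 := h c⁻¹ (Kb.inv_mem hc) (inv_ne_zero hc0) h1
  have h3 := v_div0 w h0 (inv_ne_zero hc0) h1
  have h4 : H⁻¹ / c ≠ 0 ∧ w.v (H⁻¹ / c) = 0 := v_div0 w (inv_ne_zero h0) hc0 hcv
  have h5 : H / c⁻¹ * (H⁻¹ / c) = 1 := by field_simp
  have h6 := nu_mul w ν h3.1 h3.2 h4.1 h4.2
  rw [h5, w.res_one, ν.one, h2] at h6
  linarith

include hκb hν hval in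
private theorem lc_pow {H : Λ} {n : ℚ} (h0 : H ≠ 0) (h : LC w Kb ν H n) (k : ℕ) :
    LC w Kb ν (H ^ k) (k * n) := by
  induction k with
  | zero => simpa using lc_one w Kb κb hκb ν hν
  | succ k ih =>
    have := lc_mul w Kb κb hκb hval ν hν (pow_ne_zero k h0) h0 ih h
    rw [pow_succ]
    convert this using 1
    push_cast; ring

include hκb hν hval in
private theorem lc_zpow {H : Λ} {n : ℚ} (h0 : H ≠ 0) (h : LC w Kb ν H n) (k : ℤ) :
    LC w Kb ν (H ^ k) (k * n) := by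
  cases k with
  | ofNat m => simpa using lc_pow w Kb κb hκb hval ν hν h0 h m
  | negSucc m =>
    have := lc_inv w Kb ν (pow_ne_zero (m + 1) h0) (lc_pow w Kb κb hκb hval ν hν h0 h (m + 1))
    rw [zpow_negSucc]
    convert this using 1
    rw [Int.cast_negSucc]; push_cast; ring

include hκb hν hval in
private theorem lc_prod {ι : Type} (s : Finset ι) (f : ι → Λ) (n : ι → ℚ)
    (hf : ∀ i ∈ s, f i ≠ 0) (h : ∀ i ∈ s, LC w Kb ν (f i) (n i)) :
    LC w Kb ν (∏ i ∈ s, f i) (∑ i ∈ s, n i) := by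
  induction s using Finset.induction_on with
  | empty => simpa using lc_one w Kb κb hκb ν hν
  | insert a s ha ih =>
    rw [Finset.prod_insert ha, Finset.sum_insert ha]
    exact lc_mul w Kb κb hκb hval ν hν (hf a (Finset.mem_insert_self _ _))
      (Finset.prod_ne_zero_iff.2 fun i hi => hf i (Finset.mem_insert_of_mem hi))
      (h a (Finset.mem_insert_self _ _)) (ih (fun i hi => hf i (Finset.mem_insert_of_mem hi))
        fun i hi => h i (Finset.mem_insert_of_mem hi))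

include hκb hν in
/-- a difference with nonzero residue -/
private theorem lc_sub {s x : Λ} (hs : s ∈ w.ring) (hx : x ∈ w.ring)
    (hne : w.res s - w.res x ≠ 0) :
    s - x ≠ 0 ∧ LC w Kb ν (s - x) (ν.v (w.res s - w.res x)) := by
  have hr : w.res (s - x) = w.res s - w.res x := w.res_sub hs hx
  have h0 : s - x ≠ 0 := by
    intro h
    rw [h, w.res_zero] at hr
    exact hne hr.symm
  have hm : s - x ∈ w.ring := sub_mem hs hx
  have hv : w.v (s - x) = 0 := by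
    by_contra hv
    have h1 := (w.mem_ring_of h0).1 hm
    have h2 : w.res (s - x) = 0 := (w.res_eq_zero_iff hm).2 (Or.inr (lt_of_le_of_ne h1 (Ne.symm hv)))
    exact hne (by rw [← hr, h2])
  refine ⟨h0, ?_⟩
  have := lc_of w Kb κb hκb ν hν h0 Kb.one_mem one_ne_zero (by rw [w.one, hv])
  rwa [div_one, hr] at this

end lc

/-! ### the main statement -/

section KK

variable {Λ : Type} [Field Λ] [CharZero Λ] [IsAlgClosed Λ] (w : QV Λ) (hw : ∀ n : ℕ, n ≠ 0 → w.v (n : Λ) = 0)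
  (Kb : Subfield Λ) [IsAlgClosed Kb] (κb : Subfield w.κ)
  (hκb : ∀ y, y ∈ κb ↔ ∃ x ∈ Kb, x ∈ w.ring ∧ w.res x = y)
  (hval : ∀ H : Λ, H ≠ 0 → ∃ c ∈ Kb, c ≠ 0 ∧ w.v c = w.v H)

include hw in
private theorem charZero_κ : CharZero w.κ := by
  refine charZero_of_inj_zero fun n hn => ?_
  by_contra h
  have h0 : (n : Λ) ≠ 0 := Nat.cast_ne_zero.2 h
  have h1 := unit_res w h0 (hw n h)
  apply h1.2
  rw [w.res_of_mem h1.1]
  have : (⟨(n : Λ), h1.1⟩ : w.ring) = (n : w.ring) := rfl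
  rw [this, map_natCast, hn]

private theorem disc_facts (red : Pt E2 Λ →+ Pt E2 w.κ) (hred : IsRed w red) (β : Pt E2 κb)
    (hβ2 : yc β ≠ 0) (a : Pt E2 Kb) (ha : red (inc Kb a) = inc κb β) :
    a ≠ 0 ∧ ((xc a : Kb) : Λ) ∈ w.ring ∧ w.res ((xc a : Kb) : Λ) = ((xc β : κb) : w.κ) ∧
      ((yc a : Kb) : Λ) ∈ w.ring ∧ w.res ((yc a : Kb) : Λ) = ((yc β : κb) : w.κ) ∧ yc a ≠ 0 := by
  have hβ' : ((yc β : κb) : w.κ) ≠ 0 := fun h => hβ2 (Subtype.ext h)
  have key : red (inc Kb a) ≠ 0 := by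
    intro h
    rw [ha] at h
    apply hβ'
    have h3 : yc (inc κb β) = ((yc β : κb) : w.κ) := yc_inc κb β
    rw [← h3]
    exact congrArg yc h
  have hne : inc Kb a ≠ 0 := by
    intro h
    apply key
    rw [h, map_zero]
  have ha0 : a ≠ 0 := by
    rintro rfl
    exact hne (map_zero _)
  have hring : xc (inc Kb a) ∈ w.ring := by
    by_contra h
    exact key (hred.inf _ h)
  obtain ⟨_, h1, h2⟩ := hred.fin _ hne hring
  rw [ha] at h1 h2
  replace h1 : ((xc β : κb) : w.κ) = w.res ((xc a : Kb) : Λ) :=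
    (xc_inc κb β).symm.trans (h1.trans (by rw [xc_inc]))
  replace h2 : ((yc β : κb) : w.κ) = w.res ((yc a : Kb) : Λ) :=
    (yc_inc κb β).symm.trans (h2.trans (by rw [yc_inc]))
  rw [xc_inc] at hring
  have hy : ((yc a : Kb) : Λ) ∈ w.ring := by
    by_contra h
    apply hβ'
    rw [h2, QV.res, dif_neg h]
  refine ⟨ha0, hring, h1.symm, hy, h2.symm, fun h => hβ' ?_⟩
  rw [h2, h]
  show w.res 0 = 0
  exact w.res_zero

private theorem disc_facts_neg (red : Pt E2 Λ →+ Pt E2 w.κ) (hred : IsRed w red) (β : Pt E2 κb)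
    (hβ2 : yc β ≠ 0) (a : Pt E2 Kb) (ha : red (inc Kb a) = -inc κb β) :
    a ≠ 0 ∧ ((xc a : Kb) : Λ) ∈ w.ring ∧ w.res ((xc a : Kb) : Λ) = ((xc β : κb) : w.κ) ∧
      ((yc a : Kb) : Λ) ∈ w.ring ∧ w.res ((yc a : Kb) : Λ) = -((yc β : κb) : w.κ) ∧ yc a ≠ 0 := by
  have h1 : yc (-β) ≠ 0 := by rw [yc_neg']; exact neg_ne_zero.2 hβ2
  have h2 := disc_facts w Kb κb red hred (-β) h1 a (by rw [ha, map_neg])
  rw [xc_neg', yc_neg'] at h2
  exact h2

private theorem tr_up (red : Pt E2 Λ →+ Pt E2 w.κ) (hred : IsRed w red) (e : Pt E2 Λ)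
    (he : xc e ∈ w.ring) (htr : Transcendental κb (xc (red e)))
    (hκb : ∀ y, y ∈ κb ↔ ∃ x ∈ Kb, x ∈ w.ring ∧ w.res x = y) :
    Transcendental Kb (xc e) ∧ xc (red e) = w.res (xc e) ∧ yc (red e) = w.res (yc e) ∧
      yc e ∈ w.ring := by
  have hre : red e ≠ 0 := e_ne κb htr
  have he0 : e ≠ 0 := by rintro rfl; exact hre (map_zero _)
  obtain ⟨_, h1, h2⟩ := hred.fin e he0 he
  refine ⟨fun halg => ?_, h1, h2, ?_⟩
  · have h3 : xc e ∈ Kb := by
      obtain ⟨c, hc⟩ := minpoly.mem_range_of_degree_eq_one Kb (xc e)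
        (IsAlgClosed.degree_eq_one_of_irreducible Kb (minpoly.irreducible halg.isIntegral))
      rw [← hc]
      exact c.2
    have h4 : w.res (xc e) ∈ κb := (hκb _).2 ⟨xc e, h3, he, rfl⟩
    rw [← h1] at h4
    exact htr (isAlgebraic_algebraMap (⟨_, h4⟩ : κb))
  · have h3 : yc e ^ 2 ∈ w.ring := by
      rw [sq' he0]
      exact add_mem (pow_mem he 3) w.ring.one_mem
    rcases eq_or_ne (yc e) 0 with h | h
    · rw [h]; exact w.ring.zero_mem
    · rw [w.mem_ring_of h]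
      have h4 := (w.mem_ring_of (pow_ne_zero 2 h)).1 h3
      rw [w.pow h] at h4
      push_cast at h4
      linarith

include hw hκb hval

/-- (1): no zeros and poles on the disc of `β` -/
private theorem good_nonneg (red : Pt E2 Λ →+ Pt E2 w.κ) (hred : IsRed w red) (e : Pt E2 Λ)
    (he : xc e ∈ w.ring) (htr : Transcendental κb (xc (red e)))
    (U : Pt E2 Kb → QV Λ) (hU : ∀ a, AtPt Kb e a (U a)) (β : Pt E2 κb) (hβ : β ≠ 0) (hβ2 : yc β ≠ 0)
    (ν : QV w.κ) (hν : AtPt κb (red e) β ν) (H : Λ) (hH : H ∈ fe Kb e) (h0 : H ≠ 0)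
    (hD : ∀ a, red (inc Kb a) = inc κb β → (U a).v H = 0) (n : ℚ) (hn : LC w Kb ν H n) :
    0 ≤ n := by
  have := charZero_κ w hw
  obtain ⟨heT, hrx, hry, hyr⟩ := tr_up w Kb κb red hred e he htr hκb
  have hfin := C1F' Kb e heT U hU H hH h0
  have hKfe : ∀ x ∈ Kb, x ∈ fe Kb e := fun x hx => Subfield.subset_closure (Or.inl hx)
  have hyfe : yc e ∈ fe Kb e := Subfield.subset_closure (Or.inr (Or.inr rfl))
  -- the poles in the disc of `-β`
  have hPf : {a | red (inc Kb a) = -inc κb β ∧ (U a).v H < 0}.Finite :=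
    hfin.subset fun a ha => by
      simp only [Set.mem_ofPred_eq] at ha ⊢
      exact ne_of_lt ha.2
  set P := hPf.toFinset with hPdef
  have hP : ∀ a, a ∈ P ↔ red (inc Kb a) = -inc κb β ∧ (U a).v H < 0 := by
    intro a
    rw [hPdef, Set.Finite.mem_toFinset]; rfl
  choose k hk using fun a => (hU a).int H hH h0
  set g : Pt E2 Kb → Λ := fun a => (yc e - ((yc a : Kb) : Λ)) ^ (-(k a)) with hg
  have hY : ∀ a : Pt E2 Kb, yc e - ((yc a : Kb) : Λ) ≠ 0 := fun a =>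
    tr_yc_ne Kb heT (yc a).2
  have hg0 : ∀ a, g a ≠ 0 := fun a => zpow_ne_zero _ (hY a)
  have hYfe : ∀ a : Pt E2 Kb, yc e - ((yc a : Kb) : Λ) ∈ fe Kb e := fun a =>
    (fe Kb e).sub_mem hyfe (hKfe _ (yc a).2)
  have hGfe : ∏ a ∈ P, g a ∈ fe Kb e :=
    (fe Kb e).prod_mem fun a _ => (fe Kb e).zpow_mem (hYfe a) _
  have hG0 : ∏ a ∈ P, g a ≠ 0 := Finset.prod_ne_zero_iff.2 fun a _ => hg0 a
  -- the order of the reduction of `G` is zero
  have hνy : ∀ y : w.κ, y ∈ κb → yc (red e) - y ≠ 0 := fun y hy => tr_yc_ne κb htr hy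
  have hctr := hν.ctr hβ
  have hyβ : yc (inc κb β) = ((yc β : κb) : w.κ) := yc_inc κb β
  have hνpos : 0 < ν.v (yc (red e) - ((yc β : κb) : w.κ)) := by
    have := hctr.2
    rwa [hyβ] at this
  have h2β : ((yc β : κb) : w.κ) ≠ -((yc β : κb) : w.κ) := by
    intro h
    have h1 : (2 : w.κ) * ((yc β : κb) : w.κ) = 0 := by linear_combination h
    rcases mul_eq_zero.1 h1 with h2 | h2
    · exact two_ne_zero h2
    · exact hβ2 (Subtype.ext h2)
  have hν0 : ν.v (yc (red e) - -((yc β : κb) : w.κ)) = 0 :=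
    (v_sub_eq κb ν hν.triv (yc β).2 (κb.neg_mem (yc β).2) (hνy _ (yc β).2) hνpos h2β).2
  have hGlc : LC w Kb ν (∏ a ∈ P, g a) 0 := by
    have h1 : ∀ a ∈ P, LC w Kb ν (g a) (((-(k a) : ℤ) : ℚ) * 0) := by
      intro a ha
      obtain ⟨_, _, _, hya, hya', _⟩ := disc_facts_neg w Kb κb red hred β hβ2 a ((hP a).1 ha).1
      have hne : w.res (yc e) - w.res ((yc a : Kb) : Λ) ≠ 0 := by
        rw [hya', ← hry]
        exact hνy _ (κb.neg_mem (yc β).2)
      have h2 := (lc_sub w Kb κb hκb ν hν.triv hyr hya hne).2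
      rw [hya', ← hry, hν0] at h2
      exact lc_zpow w Kb κb hκb hval ν hν.triv (hY a) h2 _
    have h3 := lc_prod w Kb κb hκb hval ν hν.triv P g _ (fun a _ => hg0 a) h1
    simpa using h3
  -- `H * G` is regular on both discs
  have hreg : ∀ a, (red (inc Kb a) = inc κb β ∨ red (inc Kb a) = -inc κb β) →
      0 ≤ (U a).v (H * ∏ a ∈ P, g a) := by
    intro a ha
    rw [(U a).mul h0 hG0, v_prod (U a) P g fun b _ => hg0 b]
    have hvg : ∀ b, (U a).v (g b) = -(k b : ℚ) * (U a).v (yc e - ((yc b : Kb) : Λ)) := by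
      intro b
      rw [hg]
      show (U a).v ((yc e - ((yc b : Kb) : Λ)) ^ (-(k b))) = _
      rw [v_zpow _ (hY b)]
      push_cast
      ring
    have hkneg : ∀ b ∈ P, 0 ≤ -(k b : ℚ) := by
      intro b hb
      have := ((hP b).1 hb).2
      rw [hk b] at this
      linarith
    have ha0 : a ≠ 0 := by
      rcases ha with ha | ha
      · exact (disc_facts w Kb κb red hred β hβ2 a ha).1
      · exact (disc_facts_neg w Kb κb red hred β hβ2 a ha).1
    have hpos : 0 < (U a).v (yc e - ((yc a : Kb) : Λ)) := by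
      have := ((hU a).ctr ha0).2
      rwa [yc_inc] at this
    have hterm : ∀ b ∈ P, 0 ≤ (U a).v (g b) := by
      intro b hb
      rw [hvg b]
      exact mul_nonneg (hkneg b hb)
        (v_sub_nonneg Kb (U a) (hU a).triv (yc a).2 (yc b).2 (hY a) hpos)
    rcases ha with ha | ha
    · rw [hD a ha, zero_add]
      exact Finset.sum_nonneg hterm
    · by_cases haP : a ∈ P
      · rw [← Finset.add_sum_erase P _ haP]
        have h1 : 0 ≤ ∑ b ∈ P.erase a, (U a).v (g b) :=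
          Finset.sum_nonneg fun b hb => hterm b (Finset.mem_of_mem_erase hb)
        obtain ⟨m, hm⟩ := (hU a).int _ (hYfe a) (hY a)
        have hm1 : (1 : ℚ) ≤ (U a).v (yc e - ((yc a : Kb) : Λ)) := by
          rw [hm] at hpos ⊢
          have h2 : 0 < m := by exact_mod_cast hpos
          exact_mod_cast h2
        have h3 : -(k a : ℚ) ≤ (U a).v (g a) := by
          rw [hvg a]
          have := hkneg a haP
          nlinarith
        rw [hk a]
        linarith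
      · have h4 : 0 ≤ (U a).v H := by
          by_contra h
          exact haP ((hP a).2 ⟨ha, not_le.1 h⟩)
        have := Finset.sum_nonneg hterm
        linarith
  have hHG0 : H * ∏ a ∈ P, g a ≠ 0 := mul_ne_zero h0 hG0
  obtain ⟨c, hc, hc0, hcv⟩ := hval _ hHG0
  have h5 := reg_good w hw Kb κb hκb hval red hred e he htr U hU β hβ hβ2 ν hν
    (H * ∏ a ∈ P, g a) ((fe Kb e).mul_mem hH hGfe) hHG0 hreg c hc hc0 hcv
  have h6 := lc_mul w Kb κb hκb hval ν hν.triv h0 hG0 hn hGlc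
  rw [h6 c hc hc0 hcv] at h5
  linarith

theorem KK_good (red : Pt E2 Λ →+ Pt E2 w.κ) (hred : IsRed w red) (e : Pt E2 Λ)
    (he : xc e ∈ w.ring) (htr : Transcendental κb (xc (red e)))
    (U : Pt E2 Kb → QV Λ) (hU : ∀ a, AtPt Kb e a (U a)) (β : Pt E2 κb) (hβ : β ≠ 0) (hβ2 : yc β ≠ 0)
    (ν : QV w.κ) (hν : AtPt κb (red e) β ν) (H : Λ) (hH : H ∈ fe Kb e) (h0 : H ≠ 0) (c : Λ)
    (hc : c ∈ Kb) (hc0 : c ≠ 0) (hcH : w.v c = w.v H) :
    ν.v (w.res (H / c)) =
      ∑ᶠ a : Pt E2 Kb, if red (inc Kb a) = inc κb β then (U a).v H else 0 := by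
  have := charZero_κ w hw
  obtain ⟨heT, hrx, hry, hyr⟩ := tr_up w Kb κb red hred e he htr hκb
  have hfin := C1F' Kb e heT U hU H hH h0
  have hKfe : ∀ x ∈ Kb, x ∈ fe Kb e := fun x hx => Subfield.subset_closure (Or.inl hx)
  have hxfe : xc e ∈ fe Kb e := Subfield.subset_closure (Or.inr (Or.inl rfl))
  have hPf : {a | red (inc Kb a) = inc κb β ∧ (U a).v H ≠ 0}.Finite :=
    hfin.subset fun a ha => ha.2
  set P := hPf.toFinset with hPdef
  have hP : ∀ a, a ∈ P ↔ red (inc Kb a) = inc κb β ∧ (U a).v H ≠ 0 := by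
    intro a
    rw [hPdef, Set.Finite.mem_toFinset]; rfl
  choose k hk using fun a => (hU a).int H hH h0
  set g : Pt E2 Kb → Λ := fun a => (xc e - ((xc a : Kb) : Λ)) ^ (k a) with hg
  have hX : ∀ a : Pt E2 Kb, xc e - ((xc a : Kb) : Λ) ≠ 0 := fun a =>
    tr_xc_ne Kb heT (xc a).2
  have hg0 : ∀ a, g a ≠ 0 := fun a => zpow_ne_zero _ (hX a)
  have hXfe : ∀ a : Pt E2 Kb, xc e - ((xc a : Kb) : Λ) ∈ fe Kb e := fun a =>
    (fe Kb e).sub_mem hxfe (hKfe _ (xc a).2)
  have hGfe : ∏ a ∈ P, g a ∈ fe Kb e :=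
    (fe Kb e).prod_mem fun a _ => (fe Kb e).zpow_mem (hXfe a) _
  have hG0 : ∏ a ∈ P, g a ≠ 0 := Finset.prod_ne_zero_iff.2 fun a _ => hg0 a
  -- the order of the reduction of `S - xc a`
  have hri : ri β = 1 := by
    unfold ri
    rw [if_neg]
    rintro (h | h)
    · exact hβ h
    · exact hβ2 h
  have hν1 : ν.v (xc (red e) - ((xc β : κb) : w.κ)) = 1 := by
    have hr : 0 < 1 / ri β := by rw [hri]; norm_num
    have h1 := (atpt_pl κb (red e) htr β ν hν hr).fin (xc β) (by unfold pr; rw [if_neg hβ])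
    have h2 : (1 / ri β) * ν.v (xc (red e) - ((xc β : κb) : w.κ)) = 1 := h1
    rwa [hri, div_one, one_mul] at h2
  have hGlc : LC w Kb ν (∏ a ∈ P, g a) (∑ a ∈ P, (k a : ℚ)) := by
    refine lc_prod w Kb κb hκb hval ν hν.triv P g _ (fun a _ => hg0 a) fun a ha => ?_
    obtain ⟨_, hxa, hxa', _⟩ := disc_facts w Kb κb red hred β hβ2 a ((hP a).1 ha).1
    have hne : w.res (xc e) - w.res ((xc a : Kb) : Λ) ≠ 0 := by
      rw [hxa', ← hrx]
      exact tr_xc_ne κb htr (xc β).2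
    have h2 := (lc_sub w Kb κb hκb ν hν.triv he hxa hne).2
    rw [hxa', ← hrx, hν1] at h2
    have := lc_zpow w Kb κb hκb hval ν hν.triv (hX a) h2 (k a)
    rwa [mul_one] at this
  -- the values of `G` on the disc
  have hGv : ∀ a, red (inc Kb a) = inc κb β → (U a).v (∏ b ∈ P, g b) = (U a).v H := by
    intro a ha
    obtain ⟨ha0, hxa, hxa', hya, hya', hya0⟩ := disc_facts w Kb κb red hred β hβ2 a ha
    have hvg : ∀ b, (U a).v (g b) = (k b : ℚ) * (U a).v (xc e - ((xc b : Kb) : Λ)) := by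
      intro b
      rw [hg]
      show (U a).v ((xc e - ((xc b : Kb) : Λ)) ^ (k b)) = _
      rw [v_zpow _ (hX b)]
    have hpos : 0 < (U a).v (xc e - ((xc a : Kb) : Λ)) := by
      have := ((hU a).ctr ha0).1
      rwa [xc_inc] at this
    have hone : (U a).v (xc e - ((xc a : Kb) : Λ)) = 1 := by
      have hri : ri a = 1 := by
        unfold ri
        rw [if_neg]
        rintro (h | h)
        · exact ha0 h
        · exact hya0 h
      have hr : 0 < 1 / ri a := by rw [hri]; norm_num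
      have h1 := (atpt_pl Kb e heT a (U a) (hU a) hr).fin (xc a) (by unfold pr; rw [if_neg ha0])
      have h2 : (1 / ri a) * (U a).v (xc e - ((xc a : Kb) : Λ)) = 1 := h1
      rwa [hri, div_one, one_mul] at h2
    rw [v_prod (U a) P g fun b _ => hg0 b]
    have hzero : ∀ b ∈ P, b ≠ a → (U a).v (g b) = 0 := by
      intro b hb hba
      obtain ⟨hb0, hxb, hxb', hyb, hyb', hyb0⟩ :=
        disc_facts w Kb κb red hred β hβ2 b ((hP b).1 hb).1
      have hne : ((xc a : Kb) : Λ) ≠ ((xc b : Kb) : Λ) := by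
        intro h
        rcases xc_eq' ha0 hb0 (Subtype.ext h) with h1 | h1
        · exact hba h1.symm
        · rw [h1, yc_neg'] at hya'
          have h3 : w.res (-((yc b : Kb) : Λ)) = ((yc β : κb) : w.κ) := hya'
          rw [w.res_neg hyb, hyb'] at h3
          have h4 : (2 : w.κ) * ((yc β : κb) : w.κ) = 0 := by linear_combination -h3
          rcases mul_eq_zero.1 h4 with h2 | h2
          · exact two_ne_zero h2
          · exact hβ2 (Subtype.ext h2)
      rw [hvg b, (v_sub_eq Kb (U a) (hU a).triv (xc a).2 (xc b).2 (hX a) hpos hne).2, mul_zero]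
    by_cases haP : a ∈ P
    · rw [Finset.sum_eq_single_of_mem a haP hzero, hvg a, hone, mul_one, hk a]
    · rw [Finset.sum_eq_zero fun b hb => hzero b hb (by rintro rfl; exact haP hb)]
      by_contra h
      exact haP ((hP a).2 ⟨ha, fun h' => h h'.symm⟩)
  -- the quotient
  set Q := H * (∏ b ∈ P, g b)⁻¹ with hQ
  have hQ0 : Q ≠ 0 := mul_ne_zero h0 (inv_ne_zero hG0)
  have hQfe : Q ∈ fe Kb e := (fe Kb e).mul_mem hH ((fe Kb e).inv_mem hGfe)
  have hQD : ∀ a, red (inc Kb a) = inc κb β → (U a).v Q = 0 := by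
    intro a ha
    rw [hQ, (U a).mul h0 (inv_ne_zero hG0), (U a).inv hG0, hGv a ha]
    ring
  obtain ⟨d, hd, hd0, hdv⟩ := hval Q hQ0
  have hQlc := lc_of w Kb κb hκb ν hν.triv hQ0 hd hd0 hdv
  set n := ν.v (w.res (Q / d)) with hn
  have h1 := good_nonneg w hw Kb κb hκb hval red hred e he htr U hU β hβ hβ2 ν hν Q hQfe hQ0 hQD n
    hQlc
  have h2 := good_nonneg w hw Kb κb hκb hval red hred e he htr U hU β hβ hβ2 ν hν Q⁻¹
    ((fe Kb e).inv_mem hQfe) (inv_ne_zero hQ0)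
    (fun a ha => by rw [(U a).inv hQ0, hQD a ha, neg_zero]) (-n) (lc_inv w Kb ν hQ0 hQlc)
  have hn0 : n = 0 := by linarith
  rw [hn0] at hQlc
  have h3 := lc_mul w Kb κb hκb hval ν hν.triv hQ0 hG0 hQlc hGlc
  have h4 : Q * ∏ b ∈ P, g b = H := by
    rw [hQ, inv_mul_cancel_right₀ hG0]
  rw [h4, zero_add] at h3
  rw [h3 c hc hc0 hcH]
  rw [finsum_eq_sum_of_support_subset (s := P)]
  · refine Finset.sum_congr rfl fun a ha => ?_
    rw [if_pos ((hP a).1 ha).1, hk a]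
  · intro a ha
    rw [Function.mem_support] at ha
    rw [Finset.mem_coe, hP]
    by_cases h : red (inc Kb a) = inc κb β
    · rw [if_pos h] at ha
      exact ⟨h, ha⟩
    · rw [if_neg h] at ha
      exact absurd rfl ha

end KK

end

end Pool.Agent.VM.K5p

namespace Pool.Agent.VM

export K5p (KK_good)

end Pool.Agent.VM
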