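import Pool.Agent.Lib_helper15.VM.DefsK

/-! MP_5582d1_ag, part III-C, block K6: reduction is surjective on points. -/

set_option autoImplicit false

namespace Pool.Agent.VM.K6p

open scoped Classical
open Polynomial

attribute [-instance] Subtype.instDecidableEq

noncomputable section

private theorem K6_eqn {F : Type} [Field F] [Algebra ℤ F] {x y : F} :
    (E2.baseChange F).toAffine.Equation x y ↔ y ^ 2 = x ^ 3 + 1 := by
  rw [WeierstrassCurve.Affine.equation_iff]
  simp [SW, WeierstrassCurve.baseChange]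

private theorem K6_ns {F : Type} [Field F] [CharZero F] [Algebra ℤ F] {x y : F}
    (h : y ^ 2 = x ^ 3 + 1) : (E2.baseChange F).toAffine.Nonsingular x y := by
  rw [WeierstrassCurve.Affine.nonsingular_iff]
  refine ⟨K6_eqn.2 h, ?_⟩
  by_cases hx : x = 0
  · right
    have hy : y ≠ 0 := by
      rintro rfl
      rw [hx] at h
      norm_num at h
    simp only [SW, WeierstrassCurve.baseChange, WeierstrassCurve.map, map_zero]
    intro h1
    have h2 : (2 : F) * y = 0 := by linear_combination h1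
    rcases mul_eq_zero.1 h2 with h3 | h3
    · exact two_ne_zero h3
    · exact hy h3
  · left
    simp only [SW, WeierstrassCurve.baseChange, WeierstrassCurve.map, map_zero]
    intro h1
    have h2 : (3 : F) * x ^ 2 = 0 := by linear_combination -h1
    rcases mul_eq_zero.1 h2 with h3 | h3
    · exact three_ne_zero h3
    · exact hx (pow_eq_zero_iff two_ne_zero |>.1 h3)

private theorem K6_ext {F : Type} [Field F] [Algebra ℤ F] {P Q : Pt E2 F} (hP : P ≠ 0) (hQ : Q ≠ 0)
    (h1 : xc P = xc Q) (h2 : yc P = yc Q) : P = Q := by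
  rcases P with _ | ⟨x, y, h⟩
  · exact absurd rfl hP
  rcases Q with _ | ⟨x', y', h'⟩
  · exact absurd rfl hQ
  have e1 : x = x' := h1
  have e2 : y = y' := h2
  subst e1
  subst e2
  rfl

section KK

variable {Λ : Type} [Field Λ] [CharZero Λ] [IsAlgClosed Λ] (w : QV Λ) (hw : ∀ n : ℕ, n ≠ 0 → w.v (n : Λ) = 0)
  (Kb : Subfield Λ) [IsAlgClosed Kb] (κb : Subfield w.κ)
  (hκb : ∀ y, y ∈ κb ↔ ∃ x ∈ Kb, x ∈ w.ring ∧ w.res x = y)

include hw hκb

/-- K6: reduction is surjective on points -/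
theorem red_surj (red : Pt E2 Λ →+ Pt E2 w.κ) (hred : IsRed w red) (β : Pt E2 κb) :
    ∃ a : Pt E2 Kb, red (inc Kb a) = inc κb β := by
  rcases β with _ | ⟨x, y, h⟩
  · refine ⟨0, ?_⟩
    rw [map_zero, map_zero]
    exact (map_zero (inc κb)).symm
  · have hxy : y ^ 2 = x ^ 3 + 1 := K6_eqn.1 h.1
    have hxy' : (y : w.κ) ^ 2 = (x : w.κ) ^ 3 + 1 := by
      have := congrArg (Subtype.val) hxy
      push_cast at this
      exact this
    obtain ⟨X, hX, hXr, hXx⟩ := (hκb x).1 x.2
    obtain ⟨Y, hY⟩ := IsAlgClosed.exists_pow_nat_eq ((⟨X, hX⟩ : Kb) ^ 3 + 1) (n := 2) two_pos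
    have hY' : (Y : Λ) ^ 2 = X ^ 3 + 1 := by
      have := congrArg (Subtype.val) hY
      push_cast at this
      exact this
    have hYr : (Y : Λ) ∈ w.ring := by
      have h1 : (Y : Λ) ^ 2 ∈ w.ring := by
        rw [hY']
        exact w.ring.add_mem _ _ (pow_mem hXr 3) w.ring.one_mem
      by_cases h0 : (Y : Λ) = 0
      · rw [h0]
        exact w.ring.zero_mem
      · rw [w.mem_ring_of h0]
        rw [w.mem_ring_of (pow_ne_zero 2 h0), w.pow h0] at h1
        push_cast at h1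
        linarith
    have hX3 : w.res (X ^ 3) = w.res X ^ 3 := by
      rw [pow_succ, pow_two, w.res_mul (w.ring.mul_mem _ _ hXr hXr) hXr, w.res_mul hXr hXr]
      ring
    have hY2 : w.res ((Y : Λ) ^ 2) = w.res (Y : Λ) ^ 2 := by
      rw [pow_two, w.res_mul hYr hYr]
      ring
    have hres : w.res (Y : Λ) ^ 2 = (y : w.κ) ^ 2 := by
      rw [← hY2, hY', w.res_add (pow_mem hXr 3) w.ring.one_mem, w.res_one, hX3, hXx, hxy']
    have key : ∃ Z : Kb, Z ^ 2 = (⟨X, hX⟩ : Kb) ^ 3 + 1 ∧ w.res (Z : Λ) = y := by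
      rcases sq_eq_sq_iff_eq_or_eq_neg.1 hres with h1 | h1
      · exact ⟨Y, hY, h1⟩
      · refine ⟨-Y, by rw [neg_sq, hY], ?_⟩
        have e : ((-Y : Kb) : Λ) = -(Y : Λ) := rfl
        rw [e, w.res_neg hYr, h1, neg_neg]
    obtain ⟨Z, hZ, hZy⟩ := key
    refine ⟨.some (⟨X, hX⟩ : Kb) Z (K6_ns hZ), ?_⟩
    have hne : inc Kb (.some (⟨X, hX⟩ : Kb) Z (K6_ns hZ) : Pt E2 Kb) ≠ 0 := by
      intro h0
      cases h0
    have h1 := hred.fin _ hne hXr
    have hne' : inc κb (.some x y h : Pt E2 κb) ≠ 0 := by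
      intro h0
      cases h0
    refine K6_ext h1.1 hne' ?_ ?_
    · rw [h1.2.1]
      exact hXx
    · rw [h1.2.2]
      exact hZy

end KK

end

end Pool.Agent.VM.K6p

namespace Pool.Agent.VM

export K6p (red_surj)

end Pool.Agent.VM
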