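import Pool.Agent.Lib_helper67.VM.PtF
import Pool.Agent.Lib_helper58.VM.RED
import Pool.Agent.Lib_helper15.VM.DefsK

/-!
# MP_5582d1_ag, block K7: translation
-/

set_option autoImplicit false

namespace Pool.Agent.VM.K7p

open scoped Classical
open Polynomial

attribute [-instance] Subtype.instDecidableEq

noncomputable section

section inc
variable {Λ : Type} [Field Λ]

private lemma xc_inc (S : Subfield Λ) (P : Pt E2 S) : xc (inc S P) = ((xc P : S) : Λ) := by
  rcases ptf_cases P with rfl | ⟨x, y, h, rfl⟩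
  · rw [map_zero]; rfl
  · rfl

private lemma yc_inc (S : Subfield Λ) (P : Pt E2 S) : yc (inc S P) = ((yc P : S) : Λ) := by
  rcases ptf_cases P with rfl | ⟨x, y, h, rfl⟩
  · rw [map_zero]; rfl
  · rfl

private lemma inc_ne {S : Subfield Λ} {P : Pt E2 S} (hP : P ≠ 0) : inc S P ≠ 0 := by
  intro h
  apply hP
  have : Function.Injective (inc S) := WeierstrassCurve.Affine.Point.map_injective _
  exact this (by rw [h, map_zero])

private lemma exists_inc [CharZero Λ] (S : Subfield Λ) (P : Pt E2 Λ) (hx : xc P ∈ S)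
    (hy : yc P ∈ S) : ∃ P' : Pt E2 S, inc S P' = P := by
  rcases ptf_cases P with rfl | ⟨x, y, h, rfl⟩
  · exact ⟨0, map_zero _⟩
  · have hx' : x ∈ S := hx
    have hy' : y ∈ S := hy
    have hns : ((E2).baseChange S).toAffine.Nonsingular (⟨x, hx'⟩ : S) ⟨y, hy'⟩ := by
      have h0 := h
      rw [WeierstrassCurve.Affine.nonsingular_iff, WeierstrassCurve.Affine.equation_iff, ptf_a₁,
        ptf_a₂, ptf_a₃, ptf_a₄, ptf_a₆] at h0 ⊢
      simp only [map_zero, map_one] at h0 ⊢
      obtain ⟨h1, h2⟩ := h0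
      refine ⟨?_, ?_⟩
      · apply Subtype.ext
        push_cast
        exact h1
      · rcases h2 with h2 | h2
        · left
          intro h3; apply h2
          have := congrArg (Subtype.val) h3
          push_cast at this
          exact this
        · right
          intro h3; apply h2
          have := congrArg (Subtype.val) h3
          push_cast at this
          exact this
    exact ⟨.some _ _ hns, rfl⟩

/-- the points with coordinates in a subfield form a subgroup -/
private lemma add_mem_sub [CharZero Λ] (S : Subfield Λ) {P Q : Pt E2 Λ} (hPx : xc P ∈ S)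
    (hPy : yc P ∈ S) (hQx : xc Q ∈ S) (hQy : yc Q ∈ S) : xc (P + Q) ∈ S ∧ yc (P + Q) ∈ S := by
  obtain ⟨P', rfl⟩ := exists_inc S P hPx hPy
  obtain ⟨Q', rfl⟩ := exists_inc S Q hQx hQy
  rw [← map_add, xc_inc, yc_inc]
  exact ⟨(xc (P' + Q')).2, (yc (P' + Q')).2⟩

private lemma inc_mem (Kb S : Subfield Λ) (h : Kb ≤ S) (c : Pt E2 Kb) :
    xc (inc Kb c) ∈ S ∧ yc (inc Kb c) ∈ S := by
  rw [xc_inc, yc_inc]
  exact ⟨h (xc c).2, h (yc c).2⟩

/-- the subfield of algebraic elements -/
private def al (Kb : Subfield Λ) : Subfield Λ := (algebraicClosure Kb Λ).toSubfield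

private lemma mem_al (Kb : Subfield Λ) (x : Λ) : x ∈ al Kb ↔ IsAlgebraic Kb x := by
  show x ∈ (algebraicClosure Kb Λ).toSubfield ↔ _
  rw [IntermediateField.mem_toSubfield]
  exact mem_algebraicClosure_iff

private lemma le_al (Kb : Subfield Λ) : Kb ≤ al Kb := fun x hx => by
  rw [mem_al]
  exact isAlgebraic_algebraMap (⟨x, hx⟩ : Kb)

private lemma yc_al (Kb : Subfield Λ) {P : Pt E2 Λ} (h : IsAlgebraic Kb (xc P)) :
    IsAlgebraic Kb (yc P) := by
  rcases eq_or_ne P 0 with rfl | hP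
  · rw [ptf_yc_zero]; exact isAlgebraic_zero
  · have h1 := ptf_sq hP
    have h2 : yc P ^ 2 ∈ al Kb := by
      rw [h1, map_zero, zero_mul, add_zero, map_one]
      exact add_mem (pow_mem ((mem_al Kb _).2 h) 3) (one_mem _)
    rw [mem_al] at h2
    exact IsAlgebraic.of_pow (by norm_num) h2

private lemma xc_al (Kb : Subfield Λ) {P : Pt E2 Λ} (h : IsAlgebraic Kb (yc P)) :
    IsAlgebraic Kb (xc P) := by
  rcases eq_or_ne P 0 with rfl | hP
  · rw [ptf_xc_zero]; exact isAlgebraic_zero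
  · have h1 := ptf_sq hP
    have h2 : xc P ^ 3 ∈ al Kb := by
      have h3 : xc P ^ 3 = yc P ^ 2 - 1 := by
        rw [map_zero, zero_mul, add_zero, map_one] at h1; linear_combination -h1
      rw [h3]
      exact sub_mem (pow_mem ((mem_al Kb _).2 h) 2) (one_mem _)
    rw [mem_al] at h2
    exact IsAlgebraic.of_pow (by norm_num) h2

/-- the translated point is still generic -/
private lemma tr_add [CharZero Λ] (Kb : Subfield Λ) (e : Pt E2 Λ) (he : Transcendental Kb (xc e))
    (c : Pt E2 Kb) : Transcendental Kb (xc (e + inc Kb c)) := by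
  intro h
  apply he
  have hx : xc (e + inc Kb c) ∈ al Kb := (mem_al Kb _).2 h
  have hy : yc (e + inc Kb c) ∈ al Kb := (mem_al Kb _).2 (yc_al Kb h)
  have hc := inc_mem Kb (al Kb) (le_al Kb) (-c)
  have h1 := (add_mem_sub (al Kb) hx hy hc.1 hc.2).1
  rw [map_neg, add_neg_cancel_right] at h1
  exact (mem_al Kb _).1 h1

private lemma fe_le [CharZero Λ] (Kb : Subfield Λ) (e : Pt E2 Λ) (c : Pt E2 Kb) :
    fe Kb (e + inc Kb c) ≤ fe Kb e := by
  have hK : Kb ≤ fe Kb e := fun x hx => Subfield.subset_closure (Or.inl hx)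
  have hx : xc e ∈ fe Kb e := Subfield.subset_closure (Or.inr (Or.inl rfl))
  have hy : yc e ∈ fe Kb e := Subfield.subset_closure (Or.inr (Or.inr rfl))
  have hc := inc_mem Kb (fe Kb e) hK c
  have h1 := add_mem_sub (fe Kb e) hx hy hc.1 hc.2
  refine Subfield.closure_le.2 ?_
  rintro z (hz | hz)
  · exact hK hz
  · rcases hz with rfl | hz
    · exact h1.1
    · rw [Set.mem_singleton_iff] at hz
      rw [hz]; exact h1.2

private lemma fe_eq [CharZero Λ] (Kb : Subfield Λ) (e : Pt E2 Λ) (c : Pt E2 Kb) :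
    fe Kb (e + inc Kb c) = fe Kb e := by
  refine le_antisymm (fe_le Kb e c) ?_
  have := fe_le Kb (e + inc Kb c) (-c)
  rwa [map_neg, add_neg_cancel_right] at this

end inc

/-- K7b: the translated point is still generic -/
theorem tr_translate {Λ : Type} [Field Λ] [CharZero Λ] (Kb : Subfield Λ) [IsAlgClosed Kb]
    (e : Pt E2 Λ) (he : Transcendental Kb (xc e)) (c : Pt E2 Kb) :
    Transcendental Kb (xc (e + inc Kb c)) ∧ fe Kb (e + inc Kb c) = fe Kb e :=
  ⟨tr_add Kb e he c, fe_eq Kb e c⟩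

section red
variable {Λ : Type} [Field Λ] [CharZero Λ] (Kb : Subfield Λ) (u : QV Λ)

private lemma v_int (ht : ∀ c ∈ Kb, c ≠ 0 → u.v c = 0) (n : ℤ) (hn : n ≠ 0) : u.v (n : Λ) = 0 :=
  ht _ (intCast_mem Kb n) (Int.cast_ne_zero.2 hn)

private lemma int_ring (ht : ∀ c ∈ Kb, c ≠ 0 → u.v c = 0) (n : ℤ) :
    (n : Λ) ∈ u.ring ∧ u.res (n : Λ) = (n : u.κ) := by
  have h1 : (n : Λ) ∈ u.ring := intCast_mem u.ring n
  refine ⟨h1, ?_⟩
  rw [u.res_of_mem h1]
  have h2 : (⟨(n : Λ), h1⟩ : u.ring) = ((n : ℤ) : u.ring) := by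
    apply Subtype.ext; push_cast; rfl
  rw [h2, map_intCast]

private lemma int_ne (ht : ∀ c ∈ Kb, c ≠ 0 → u.v c = 0) (n : ℤ) (hn : n ≠ 0) :
    (n : u.κ) ≠ 0 := by
  have h := int_ring Kb u ht n
  rw [← h.2]
  intro h0
  rw [u.res_eq_zero_iff h.1] at h0
  rcases h0 with h0 | h0
  · exact Int.cast_ne_zero.2 hn h0
  · rw [v_int Kb u ht n hn] at h0; exact lt_irrefl _ h0

private lemma exists_red (ht : ∀ c ∈ Kb, c ≠ 0 → u.v c = 0) :
    ∃ red : Pt E2 Λ →+ Pt E2 u.κ, IsRed u red := by
  have hΔ : algebraMap ℤ u.κ (SW 0 1 : WeierstrassCurve ℤ).Δ ≠ 0 := by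
    have h1 : (SW 0 1 : WeierstrassCurve ℤ).Δ = -432 := by
      simp only [SW, WeierstrassCurve.Δ, WeierstrassCurve.b₂, WeierstrassCurve.b₄,
        WeierstrassCurve.b₆, WeierstrassCurve.b₈]
      norm_num
    rw [h1]
    exact int_ne Kb u ht (-432) (by norm_num)
  have h2 : (2 : u.κ) ≠ 0 := by
    have := int_ne Kb u ht 2 (by norm_num)
    exact_mod_cast this
  obtain ⟨red, h3, h4⟩ := RED (0 : ℤ) 1 u (F := Λ)
    (fun r => by simpa using int_ring Kb u ht r) h2 hΔ
  exact ⟨red, ⟨h3, h4⟩⟩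

end red

/-- K7: translation. Proof: `fe Kb (e + c) = fe Kb e` gives `int` and `unif`; the centre: reduction for
`u` (RED: a homomorphism on `Pt E2 Λ`), residue classes of elements of `Kb` are different. -/
theorem atpt_translate {Λ : Type} [Field Λ] [CharZero Λ] (Kb : Subfield Λ) (e : Pt E2 Λ)
    (he : Transcendental Kb (xc e)) (a c : Pt E2 Kb) (u : QV Λ) (hu : AtPt Kb e a u) :
    AtPt Kb (e + inc Kb c) (a + c) u := by
  have ht := hu.triv
  obtain ⟨red, hred⟩ := exists_red Kb u ht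
  have hKr : ∀ x ∈ Kb, x ∈ u.ring := fun x hx => by
    rw [QV.mem_ring]
    by_cases h : x = 0
    · exact Or.inl h
    · exact Or.inr (ht x hx h).ge
  have hme : ∀ b : Pt E2 Kb, xc (inc Kb b) ∈ Kb ∧ yc (inc Kb b) ∈ Kb := inc_mem Kb Kb le_rfl
  have hsq : ∀ P : Pt E2 Λ, P ≠ 0 → xc P ∈ u.ring → yc P ∈ u.ring := fun P hP hx => by
    apply RED_sq
    rw [ptf_sq hP, map_zero, zero_mul, add_zero, map_one]
    exact add_mem (pow_mem hx 3) (one_mem _)
  have he0 : e ≠ 0 := by
    rintro rfl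
    exact he (by rw [ptf_xc_zero]; exact isAlgebraic_zero)
  -- `e` and `a` have the same reduction
  have hea : red e = red (inc Kb a) := by
    by_cases ha : a = 0
    · rw [ha, map_zero, map_zero]
      apply hred.inf
      rw [QV.mem_ring, not_or, not_le]
      exact ⟨fun h => he (by rw [h]; exact isAlgebraic_zero), hu.ctr0 ha⟩
    · obtain ⟨h1, h2⟩ := hu.ctr ha
      have hxr : xc e ∈ u.ring := by
        have h3 : xc e - xc (inc Kb a) ∈ u.ring := by rw [QV.mem_ring]; exact Or.inr h1.le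
        have h4 := add_mem h3 (hKr _ (hme a).1)
        rwa [sub_add_cancel] at h4
      have hyr := hsq e he0 hxr
      obtain ⟨r1, r2, r3⟩ := hred.fin e he0 hxr
      obtain ⟨s1, s2, s3⟩ := hred.fin (inc Kb a) (inc_ne ha) (hKr _ (hme a).1)
      have hx : xc (red e) = xc (red (inc Kb a)) := by
        rw [r2, s2, ← sub_eq_zero, ← u.res_sub hxr (hKr _ (hme a).1), u.res_eq_zero_iff
          (sub_mem hxr (hKr _ (hme a).1))]
        exact Or.inr h1
      have hy : yc (red e) = yc (red (inc Kb a)) := by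
        rw [r3, s3, ← sub_eq_zero, ← u.res_sub hyr (hKr _ (hme a).2), u.res_eq_zero_iff
          (sub_mem hyr (hKr _ (hme a).2))]
        exact Or.inr h2
      rcases ptf_cases (red e) with h | ⟨x, y, h, h'⟩
      · exact absurd h r1
      rcases ptf_cases (red (inc Kb a)) with k | ⟨x', y', k, k'⟩
      · exact absurd k s1
      rw [h', k'] at hx hy ⊢
      simp only [ptf_xc_some, ptf_yc_some] at hx hy
      subst hx; subst hy; rfl
  have hsum : red (e + inc Kb c) = red (inc Kb (a + c)) := by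
    rw [map_add, map_add, map_add, hea]
  have hP0 : e + inc Kb c ≠ 0 := by
    intro h
    have := tr_add Kb e he c
    rw [h, ptf_xc_zero] at this
    exact this isAlgebraic_zero
  have htr := tr_add Kb e he c
  refine ⟨ht, fun hb => ?_, fun hb => ?_, ?_, ?_⟩
  · obtain ⟨s1, s2, s3⟩ := hred.fin (inc Kb (a + c)) (inc_ne hb) (hKr _ (hme (a + c)).1)
    have hxr : xc (e + inc Kb c) ∈ u.ring := by
      by_contra hcon
      exact s1 (hsum ▸ hred.inf _ hcon)
    have hyr := hsq _ hP0 hxr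
    obtain ⟨r1, r2, r3⟩ := hred.fin _ hP0 hxr
    constructor
    · have h1 : u.res (xc (e + inc Kb c) - xc (inc Kb (a + c))) = 0 := by
        rw [u.res_sub hxr (hKr _ (hme _).1), ← r2, ← s2, hsum, sub_self]
      rw [u.res_eq_zero_iff (sub_mem hxr (hKr _ (hme _).1))] at h1
      refine h1.resolve_left (fun h => htr ?_)
      rw [sub_eq_zero] at h
      rw [h]
      exact isAlgebraic_algebraMap (⟨_, (hme (a + c)).1⟩ : Kb)
    · have h1 : u.res (yc (e + inc Kb c) - yc (inc Kb (a + c))) = 0 := by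
        rw [u.res_sub hyr (hKr _ (hme _).2), ← r3, ← s3, hsum, sub_self]
      rw [u.res_eq_zero_iff (sub_mem hyr (hKr _ (hme _).2))] at h1
      refine h1.resolve_left (fun h => htr (xc_al Kb ?_))
      rw [sub_eq_zero] at h
      rw [h]
      exact isAlgebraic_algebraMap (⟨_, (hme (a + c)).2⟩ : Kb)
  · have hr0 : red (e + inc Kb c) = 0 := by rw [hsum, hb, map_zero, map_zero]
    by_contra hcon
    have hxr : xc (e + inc Kb c) ∈ u.ring := by
      rw [QV.mem_ring]; exact Or.inr (not_lt.1 hcon)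
    exact (hred.fin _ hP0 hxr).1 hr0
  · rw [fe_eq]; exact hu.int
  · rw [fe_eq]; exact hu.unif

end

end Pool.Agent.VM.K7p

namespace Pool.Agent.VM

export K7p (atpt_translate tr_translate)

end Pool.Agent.VM
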