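import Pool.Agent.Lib_helper15.VM.DefsK
import Pool.Agent.Lib_helper15.VM.K1
import Pool.Agent.Lib_helper15.VM.K5
import Pool.Agent.Lib_helper15.VM.K6
import Pool.Agent.Lib_helper15.VM.K7

/-! helper73, VM block K8: (K) in general from (K) at points which are not of order 2. -/

set_option autoImplicit false

namespace Pool.Agent.VM

open scoped Classical
open Polynomial

attribute [-instance] Subtype.instDecidableEq

theorem K8_nonsing {F : Type} [Field F] [CharZero F] (x y : F) (h : y ^ 2 = x ^ 3 + 1) (hy : y ≠ 0) :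
    (E2.baseChange F).toAffine.Nonsingular x y := by
  rw [WeierstrassCurve.Affine.nonsingular_iff']
  refine ⟨?_, Or.inr ?_⟩
  · rw [WeierstrassCurve.Affine.equation_iff]
    simp only [WeierstrassCurve.baseChange, WeierstrassCurve.map, E2, SW, map_zero, map_one, zero_mul, add_zero]
    exact h
  · simp only [WeierstrassCurve.baseChange, WeierstrassCurve.map, E2, SW, map_zero, map_one, zero_mul, add_zero]
    exact mul_ne_zero two_ne_zero hy

/-- there is a point of `E₂` which is not of order two -/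
theorem K8_point (F : Type) [Field F] [CharZero F] : ∃ δ : Pt E2 F, δ ≠ 0 ∧ yc δ ≠ 0 := by
  refine ⟨.some 0 1 (K8_nonsing 0 1 (by norm_num) one_ne_zero),
    WeierstrassCurve.Affine.Point.some_ne_zero _, ?_⟩
  exact one_ne_zero

theorem K8_charZero {Λ : Type} [Field Λ] [CharZero Λ] (w : QV Λ)
    (hw : ∀ n : ℕ, n ≠ 0 → w.v (n : Λ) = 0) : CharZero w.κ := by
  refine charZero_of_inj_zero ?_
  intro n hn
  by_contra h0
  have hmem : (n : Λ) ∈ w.ring := Or.inr (hw n h0).ge
  have h1 : w.res (n : Λ) = 0 := by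
    rw [w.res_of_mem hmem, ← hn]
    have : (⟨(n : Λ), hmem⟩ : w.ring) = (n : w.ring) := by
      ext; simp
    rw [this, map_natCast]
  rcases (w.res_eq_zero_iff hmem).mp h1 with h2 | h2
  · exact h0 (by exact_mod_cast h2)
  · rw [hw n h0] at h2; exact lt_irrefl _ h2

namespace K8p

section KK

variable {Λ : Type} [Field Λ] [CharZero Λ] [IsAlgClosed Λ] (w : QV Λ) (hw : ∀ n : ℕ, n ≠ 0 → w.v (n : Λ) = 0)
  (Kb : Subfield Λ) [IsAlgClosed Kb] (κb : Subfield w.κ)
  (hκb : ∀ y, y ∈ κb ↔ ∃ x ∈ Kb, x ∈ w.ring ∧ w.res x = y)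
  (hval : ∀ H : Λ, H ≠ 0 → ∃ c ∈ Kb, c ≠ 0 ∧ w.v c = w.v H)

include hw hκb hval

/-- K8 = KK (StubsB): choose `c : Pt E2 Kb` with `β + red c` not `0` and not of order 2 (K6, `κb` infinite
and algebraically closed), `e' = e + c`, `U' a = U (a - c)`: K7, K7b, K5. -/
theorem KK' (red : Pt E2 Λ →+ Pt E2 w.κ) (hred : IsRed w red) (e : Pt E2 Λ)
    (he : xc e ∈ w.ring) (htr : Transcendental κb (xc (red e)))
    (U : Pt E2 Kb → QV Λ) (hU : ∀ a, AtPt Kb e a (U a)) (β : Pt E2 κb) (ν : QV w.κ)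
    (hν : AtPt κb (red e) β ν) (H : Λ) (hH : H ∈ fe Kb e) (h0 : H ≠ 0) (c : Λ) (hc : c ∈ Kb) (hc0 : c ≠ 0)
    (hcH : w.v c = w.v H) :
    ν.v (w.res (H / c)) =
      ∑ᶠ a : Pt E2 Kb, if red (inc Kb a) = inc κb β then (U a).v H else 0 := by
  have hcz : CharZero w.κ := K8_charZero w hw
  have hac : IsAlgClosed κb := KB1 w hw Kb κb hκb
  have hczb : CharZero κb := ⟨fun m n h => by
      have h1 := congrArg (fun t : κb => (t : w.κ)) h
      simpa using h1⟩
  obtain ⟨δ, hδ, hδ2⟩ := K8_point κb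
  obtain ⟨c0, hc0'⟩ := red_surj w hw Kb κb hκb red hred (δ - β)
  have hee : e ≠ 0 := by
    rintro rfl
    apply htr
    rw [map_zero]
    exact isAlgebraic_zero
  have htrK : Transcendental Kb (xc e) := by
    intro halg
    have hmem : xc e ∈ Kb := by
      have h1 := IsAlgClosed.degree_eq_one_of_irreducible Kb (minpoly.irreducible halg.isIntegral)
      obtain ⟨t, ht⟩ := minpoly.mem_range_of_degree_eq_one Kb (xc e) h1
      rw [← ht]
      exact t.2
    apply htr
    have h1 := (hred.fin e hee he).2.1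
    rw [h1]
    have h2 : w.res (xc e) ∈ κb := (hκb _).mpr ⟨xc e, hmem, he, rfl⟩
    exact isAlgebraic_algebraMap (⟨_, h2⟩ : κb)
  obtain ⟨γ, hγ⟩ : ∃ γ : Pt E2 w.κ, γ = inc κb (δ - β) := ⟨_, rfl⟩
  have hre : red (e + inc Kb c0) = red e + γ := by rw [map_add, hc0', hγ]
  obtain ⟨t1, t2⟩ := tr_translate Kb e htrK c0
  have s1 : Transcendental κb (xc (red e + γ)) := by
    have h1 := (tr_translate κb (red e) htr (δ - β)).1
    subst hγ
    exact h1
  have he' : xc (e + inc Kb c0) ∈ w.ring := by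
    by_contra hcon
    have h1 := hred.inf _ hcon
    rw [hre] at h1
    rw [h1] at s1
    exact s1 isAlgebraic_zero
  have htr' : Transcendental κb (xc (red (e + inc Kb c0))) := by rw [hre]; exact s1
  have hU' : ∀ a, AtPt Kb (e + inc Kb c0) a (U (a - c0)) := by
    intro a
    have h1 := atpt_translate Kb e htrK (a - c0) c0 (U (a - c0)) (hU _)
    rwa [sub_add_cancel] at h1
  have hν' : AtPt κb (red (e + inc Kb c0)) δ ν := by
    have h1 := atpt_translate κb (red e) htr β (δ - β) ν hν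
    rw [add_sub_cancel] at h1
    rw [hre]
    subst hγ
    exact h1
  have key := KK_good w hw Kb κb hκb hval red hred (e + inc Kb c0) he' htr' (fun a => U (a - c0)) hU' δ hδ hδ2
    ν hν' H (by rw [t2]; exact hH) h0 c hc hc0 hcH
  rw [key, ← finsum_comp_equiv (Equiv.addRight c0)]
  apply finsum_congr
  intro a
  simp only [Equiv.coe_addRight, add_sub_cancel_right]
  have h1 : (red (inc Kb (a + c0)) = inc κb δ) ↔ (red (inc Kb a) = inc κb β) := by
    obtain ⟨δ', hδ'⟩ : ∃ δ' : Pt E2 w.κ, δ' = inc κb δ := ⟨_, rfl⟩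
    obtain ⟨β', hβ'⟩ : ∃ β' : Pt E2 w.κ, β' = inc κb β := ⟨_, rfl⟩
    have hg : red (inc Kb c0) = δ' - β' := by
      rw [hc0']
      subst hδ' hβ'
      exact map_sub (inc κb) δ β
    rw [map_add, map_add, hg]
    rw [← hδ', ← hβ']
    constructor
    · intro h
      have h2 : red (inc Kb a) = δ' - (δ' - β') := eq_sub_of_add_eq h
      rw [h2]; abel
    · intro h
      rw [h]; abel
  simp only [h1]

end KK

end K8p

end Pool.Agent.VM

namespace Pool.Agent.VM

export K8p (KK')

end Pool.Agent.VM
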