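import Pool.Agent.Lib_helper15.VM.L10
import Pool.Agent.Lib_helper15.VM.C1
import Pool.Agent.Lib_helper15.VM.H5
import Pool.Agent.Lib_helper15.VM.K8

/-!
# MP_5582d1_ag, part III (helper15): the statements of `StubsA.HQ` and `StubsB`
-/

set_option autoImplicit false

namespace Pool.Agent.VM

open scoped Classical

attribute [-instance] Subtype.instDecidableEq

/-- HQ: the degree is a quadratic function -/
theorem HQ {R : Type} [CommRing R] (a b : R) {K M : Type} [Field K] [CharZero K] [Field M] [Algebra K M]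
    [Algebra R K] [Algebra R M] [IsScalarTower R K M] (hΔ : algebraMap R K (SW a b).Δ ≠ 0)
    (hfg : (⊤ : IntermediateField K M).FG) (htr : Algebra.trdeg K M = 1) (P Q : Pt (SW a b) M) :
    dg K (cs (P + Q)) + dg K (cs (P - Q)) = 2 * dg K (cs P) + 2 * dg K (cs Q) :=
  HQ' a b hΔ hfg htr P Q

section III1

variable {Λ : Type} [Field Λ] [CharZero Λ] [IsAlgClosed Λ] (Kb : Subfield Λ) [IsAlgClosed Kb] (e : Pt E2 Λ)

/-- C1E: existence of the valuations -/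
theorem C1E (he : Transcendental Kb (xc e)) (hal : ∀ x : Λ, IsAlgebraic (fe Kb e) x) (a : Pt E2 Kb) :
    ∃ u : QV Λ, AtPt Kb e a u := C1E' Kb e he hal a

/-- C1U: uniqueness on `Kb(e)` -/
theorem C1U (he : Transcendental Kb (xc e)) (a : Pt E2 Kb) (u u' : QV Λ) (hu : AtPt Kb e a u)
    (hu' : AtPt Kb e a u') (H : Λ) (hH : H ∈ fe Kb e) (h0 : H ≠ 0) : u.v H = u'.v H :=
  C1U' Kb e he a u u' hu hu' H hH h0

/-- C1F: finiteness -/
theorem C1F (he : Transcendental Kb (xc e)) (U : Pt E2 Kb → QV Λ) (hU : ∀ a, AtPt Kb e a (U a))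
    (H : Λ) (hH : H ∈ fe Kb e) (h0 : H ≠ 0) : {a | (U a).v H ≠ 0}.Finite := C1F' Kb e he U hU H hH h0

/-- C1S: sum formula -/
theorem C1S (he : Transcendental Kb (xc e)) (U : Pt E2 Kb → QV Λ) (hU : ∀ a, AtPt Kb e a (U a))
    (H : Λ) (hH : H ∈ fe Kb e) (h0 : H ≠ 0) : ∑ᶠ a, (U a).v H = 0 := C1S' Kb e he U hU H hH h0

/-- C1P: every valuation is one of the `U a` -/
theorem C1P (he : Transcendental Kb (xc e)) (U : Pt E2 Kb → QV Λ) (hU : ∀ a, AtPt Kb e a (U a))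
    (u : QV Λ) (hu : ∀ c ∈ Kb, c ≠ 0 → u.v c = 0) (hne : ∃ H ∈ fe Kb e, H ≠ 0 ∧ u.v H ≠ 0) :
    ∃ a, ∃ r : ℚ, 0 < r ∧ ∀ H ∈ fe Kb e, H ≠ 0 → u.v H = r * (U a).v H :=
  C1P' Kb e he U hU u hu hne

end III1

section HT

variable {Λ : Type} [Field Λ] [CharZero Λ] [IsAlgClosed Λ] {K M : Type} [Field K] [Field M] [Algebra K M]
  [Algebra K Λ] (Kb : Subfield Λ) (hKb : ∀ x : Λ, x ∈ Kb ↔ IsAlgebraic K x) (e : Pt E2 Λ)
  (he : Transcendental K (xc e)) (U : Pt E2 Kb → QV Λ) (hU : ∀ a, AtPt Kb e a (U a))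
  (eM : Pt E2 M) (hfin : FiniteDimensional (IntermediateField.adjoin K (cs eM)) M)
  (T : Finset (M →ₐ[K] Λ)) (hT : ∀ τ, τ ∈ T ↔ mp τ eM = e) (hT0 : T.Nonempty)

include hKb he hU hfin hT hT0

/-- HTF: finiteness -/
theorem HTF (θ : M) (h0 : θ ≠ 0) : {a | ∃ τ ∈ T, (U a).v (τ θ) ≠ 0}.Finite :=
  HTF' Kb hKb e he U hU eM hfin T hT hT0 θ h0

/-- HT: the degree is the sum of the local contributions -/
theorem HT (θ : M) (h0 : θ ≠ 0) :
    ∑ᶠ a, ∑ τ ∈ T, max 0 (-(U a).v (τ θ)) = (dg K {θ} : ℚ) :=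
  HT' Kb hKb e he U hU eM hfin T hT hT0 θ h0

/-- HTP: the same for points -/
theorem HTP {R : Type} [CommRing R] (a b : R) [Algebra R K] [Algebra R M] [IsScalarTower R K M]
    [Algebra R Λ] [IsScalarTower R K Λ] (hΔ : algebraMap R K (SW a b).Δ ≠ 0) (P : Pt (SW a b) M) :
    {s | ∃ τ ∈ T, lam (U s) (mp τ P) ≠ 0}.Finite ∧
    ∑ᶠ s, ∑ τ ∈ T, lam (U s) (mp τ P) = (dg K (cs P) : ℚ) :=
  HTP' Kb hKb e he U hU eM hfin T hT hT0 a b hΔ P

end HT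

section KK

variable {Λ : Type} [Field Λ] [CharZero Λ] [IsAlgClosed Λ] (w : QV Λ) (hw : ∀ n : ℕ, n ≠ 0 → w.v (n : Λ) = 0)
  (Kb : Subfield Λ) [IsAlgClosed Kb] (κb : Subfield w.κ)
  (hκb : ∀ y, y ∈ κb ↔ ∃ x ∈ Kb, x ∈ w.ring ∧ w.res x = y)
  (hval : ∀ H : Λ, H ≠ 0 → ∃ c ∈ Kb, c ≠ 0 ∧ w.v c = w.v H)

include hw hκb hval

/-- KK: the order of the reduction is the sum over the residue disc -/
theorem KK (red : Pt E2 Λ →+ Pt E2 w.κ) (hred : IsRed w red) (e : Pt E2 Λ)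
    (he : xc e ∈ w.ring) (htr : Transcendental κb (xc (red e)))
    (U : Pt E2 Kb → QV Λ) (hU : ∀ a, AtPt Kb e a (U a)) (β : Pt E2 κb) (ν : QV w.κ)
    (hν : AtPt κb (red e) β ν) (H : Λ) (hH : H ∈ fe Kb e) (h0 : H ≠ 0) (c : Λ) (hc : c ∈ Kb) (hc0 : c ≠ 0)
    (hcH : w.v c = w.v H) :
    ν.v (w.res (H / c)) = ∑ᶠ a : Pt E2 Kb, if red (inc Kb a) = inc κb β then (U a).v H else 0 :=
  KK' w hw Kb κb hκb hval red hred e he htr U hU β ν hν H hH h0 c hc hc0 hcH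

end KK

end Pool.Agent.VM
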