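import Pool.Agent.Lib_helper15.VM.DefsL
import Pool.Agent.Lib_helper15.VM.L3

/-! MP_5582d1_ag, block L7: the product formula for `M`. -/

set_option autoImplicit false

namespace Pool.Agent.VM.L7p

open Pool.Agent.VM
open scoped Classical
open Polynomial

noncomputable section

private lemma l7_sum {F : Type} [Field F] (u : QV F) (c : ℚ) (s : Finset ℕ) (f : ℕ → F)
    (h : ∀ i ∈ s, f i = 0 ∨ c < u.v (f i)) : ∑ i ∈ s, f i = 0 ∨ c < u.v (∑ i ∈ s, f i) := by
  induction s using Finset.induction_on with
  | empty => left; simp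
  | insert a s ha ih =>
    rw [Finset.sum_insert ha]
    have h1 := h a (Finset.mem_insert_self a s)
    have h2 := ih fun i hi => h i (Finset.mem_insert_of_mem hi)
    rcases h1 with h1 | h1
    · rw [h1, zero_add]; exact h2
    · rcases h2 with h2 | h2
      · rw [h2, add_zero]; exact Or.inr h1
      · by_cases h3 : f a + ∑ i ∈ s, f i = 0
        · exact Or.inl h3
        · right
          by_cases ha0 : f a = 0
          · rw [ha0, zero_add]; exact h2
          by_cases hs0 : ∑ i ∈ s, f i = 0
          · rw [hs0, add_zero]; exact h1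
          exact lt_of_lt_of_le (lt_min h1 h2) (u.add ha0 hs0 h3)

private lemma l7_prod {F ι : Type} [Field F] (u : QV F) (s : Finset ι) (f : ι → F)
    (h : ∀ i ∈ s, f i ≠ 0) : u.v (∏ i ∈ s, f i) = ∑ i ∈ s, u.v (f i) := by
  induction s using Finset.induction_on with
  | empty => simp [u.one]
  | insert a s ha ih =>
    rw [Finset.prod_insert ha, Finset.sum_insert ha, u.mul (h a (Finset.mem_insert_self a s))
      (Finset.prod_ne_zero_iff.2 fun i hi => h i (Finset.mem_insert_of_mem hi)),
      ih fun i hi => h i (Finset.mem_insert_of_mem hi)]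

/-- a root of a monic polynomial with integral coefficients is integral -/
private lemma l7_root {L F : Type} [Field L] [Field F] [Algebra L F] (u : QV F) (p : L[X])
    (hp : p.Monic) (hc : ∀ i, p.coeff i = 0 ∨ 0 ≤ u.v (algebraMap L F (p.coeff i))) (r : F)
    (hr0 : r ≠ 0) (hr : aeval r p = 0) : 0 ≤ u.v r := by
  by_contra hneg
  push Not at hneg
  rw [aeval_eq_sum_range, Finset.sum_range_succ] at hr
  have h1 : p.coeff p.natDegree = 1 := hp
  rw [h1, one_smul] at hr
  have h2 : ∑ i ∈ Finset.range p.natDegree, p.coeff i • r ^ i = -(r ^ p.natDegree) :=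
    eq_neg_of_add_eq_zero_left hr
  have h3 := l7_sum u (p.natDegree * u.v r) (Finset.range p.natDegree)
    (fun i => p.coeff i • r ^ i) (by
      intro i hi
      rw [Finset.mem_range] at hi
      rcases eq_or_ne (p.coeff i) 0 with h0 | h0
      · left; simp [h0]
      · right
        have h4 := (hc i).resolve_left h0
        show _ < u.v (p.coeff i • r ^ i)
        rw [Algebra.smul_def, u.mul ((_root_.map_ne_zero _).2 h0) (pow_ne_zero _ hr0), u.pow hr0]
        have h5 : (i : ℚ) < p.natDegree := by exact_mod_cast hi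
        nlinarith)
  rw [show (∑ i ∈ Finset.range p.natDegree, (fun i => p.coeff i • r ^ i) i) =
    ∑ i ∈ Finset.range p.natDegree, p.coeff i • r ^ i from rfl, h2, u.neg, u.pow hr0] at h3
  rcases h3 with h3 | h3
  · exact (pow_ne_zero p.natDegree hr0) (neg_eq_zero.1 h3)
  · exact lt_irrefl _ h3

section
variable {K L M Λ k : Type} [Field K] [CharZero K] [Field L] [Field M] [Field Λ] [Field k]
  [IsAlgClosed Λ] [IsAlgClosed k] [Algebra K L] [Algebra L M] [Algebra K M] [IsScalarTower K L M]
  [FiniteDimensional L M] [Algebra L Λ] [Algebra K Λ] [IsScalarTower K L Λ] [Algebra K k]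
  [Algebra k Λ] [IsScalarTower K k Λ] [Algebra.IsAlgebraic K k]

omit [CharZero K] [IsAlgClosed Λ] [IsAlgClosed k] [Algebra.IsAlgebraic K k] in
private lemma l7_mem (S : L) (hL : IntermediateField.adjoin K {S} = ⊤) (y : L) :
    algebraMap L Λ y ∈ IntermediateField.adjoin k {algebraMap L Λ S} := by
  have hy : y ∈ IntermediateField.adjoin K {S} := by rw [hL]; exact IntermediateField.mem_top
  induction hy using IntermediateField.adjoin_induction with
  | mem x hx =>
    rw [Set.mem_singleton_iff.1 hx]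
    exact IntermediateField.mem_adjoin_simple_self _ _
  | algebraMap x =>
    rw [← IsScalarTower.algebraMap_apply K L Λ, IsScalarTower.algebraMap_apply K k Λ]
    exact IntermediateField.algebraMap_mem _ _
  | add x y _ _ hx hy => rw [map_add]; exact add_mem hx hy
  | inv x _ hx => rw [map_inv₀]; exact inv_mem hx
  | mul x y _ _ hx hy => rw [map_mul]; exact mul_mem hx hy

omit [CharZero K] [IsAlgClosed Λ] [IsAlgClosed k] in
private lemma l7_tr (S : L) (hS : Transcendental K S) : Transcendental k (algebraMap L Λ S) := by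
  intro h
  have h1 : IsAlgebraic K (algebraMap L Λ S) := h.restrictScalars K
  exact hS ((isAlgebraic_algebraMap_iff (algebraMap L Λ).injective).1 h1)

omit [CharZero K] [IsAlgClosed Λ] in
private lemma l7_neg (S : L) (hS : Transcendental K S) (hL : IntermediateField.adjoin K {S} = ⊤)
    (U : Option k → QV Λ) (hU : ∀ x, Pl (algebraMap L Λ S) x (U x)) (θ : M) (hθ : θ ≠ 0) :
    {x | ∃ σ : M →ₐ[L] Λ, (U x).v (σ θ) < 0}.Finite := by
  have hint : IsIntegral L θ := IsIntegral.of_finite L θ
  have h1 : ∀ i : ℕ, {x | (minpoly L θ).coeff i ≠ 0 ∧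
      (U x).v (algebraMap L Λ ((minpoly L θ).coeff i)) ≠ 0}.Finite := by
    intro i
    rcases eq_or_ne ((minpoly L θ).coeff i) 0 with h0 | h0
    · simp [h0]
    · refine (pl_pf (l7_tr (K := K) (k := k) S hS) U hU (algebraMap L Λ ((minpoly L θ).coeff i))
        (l7_mem S hL _) ((_root_.map_ne_zero _).2 h0)).1.subset ?_
      intro x hx
      exact hx.2
  refine ((Finset.range ((minpoly L θ).natDegree + 1)).finite_toSet.biUnion
    fun i _ => h1 i).subset ?_
  rintro x ⟨σ, hσ⟩
  by_contra hcon
  have h2 := l7_root (U x) (minpoly L θ) (minpoly.monic hint) (by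
    intro i
    by_contra h3
    push Not at h3
    apply hcon
    rw [Set.mem_iUnion₂]
    refine ⟨i, ?_, h3.1, h3.2.ne⟩
    rw [Finset.coe_range, Set.mem_Iio]
    exact Nat.lt_succ_of_le (le_natDegree_of_ne_zero h3.1)) (σ θ) ((_root_.map_ne_zero _).2 hθ) (by
    rw [aeval_algHom_apply, minpoly.aeval, map_zero])
  exact absurd hσ (not_lt.2 h2)

/-- L7: product formula for `M` -/
theorem pfM (S : L) (hS : Transcendental K S) (hL : IntermediateField.adjoin K {S} = ⊤)
    (U : Option k → QV Λ) (hU : ∀ x, Pl (algebraMap L Λ S) x (U x)) (θ : M) (hθ : θ ≠ 0) :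
    {x | ∃ σ : M →ₐ[L] Λ, (U x).v (σ θ) ≠ 0}.Finite ∧
      ∑ᶠ x, ∑ σ : M →ₐ[L] Λ, (U x).v (σ θ) = 0 := by
  have : CharZero L := charZero_of_injective_algebraMap (algebraMap K L).injective
  constructor
  · refine ((l7_neg (K := K) S hS hL U hU θ hθ).union
      (l7_neg (K := K) S hS hL U hU θ⁻¹ (inv_ne_zero hθ))).subset ?_
    rintro x ⟨σ, hσ⟩
    rcases lt_or_gt_of_ne hσ with h | h
    · exact Or.inl ⟨σ, h⟩
    · refine Or.inr ⟨σ, ?_⟩
      rw [map_inv₀, (U x).inv ((_root_.map_ne_zero _).2 hθ)]
      linarith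
  · have h1 : ∀ x, ∑ σ : M →ₐ[L] Λ, (U x).v (σ θ) =
        (U x).v (algebraMap L Λ (Algebra.norm L θ)) := by
      intro x
      rw [Algebra.norm_eq_prod_embeddings L Λ θ]
      exact (l7_prod (U x) Finset.univ (fun σ : M →ₐ[L] Λ => σ θ)
        fun σ _ => (_root_.map_ne_zero _).2 hθ).symm
    rw [finsum_congr h1]
    refine (pl_pf (l7_tr (K := K) (k := k) S hS) U hU (algebraMap L Λ (Algebra.norm L θ))
      (l7_mem S hL _) ((_root_.map_ne_zero _).2 ?_)).2
    exact Algebra.norm_ne_zero_iff.2 hθ

end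

end

end Pool.Agent.VM.L7p

namespace Pool.Agent.VM

export L7p (pfM)

end Pool.Agent.VM
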