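import Pool.Agent.Lib_helper78.VM.LP
import Pool.Agent.Lib_helper15.VM.DefsL
import Pool.Agent.Lib_helper15.VM.L1
import Pool.Agent.Lib_helper15.VM.L7
import Pool.Agent.Lib_helper15.VM.L8
import Pool.Agent.Lib_helper15.VM.L9

/-!
# MP_5582d1_ag, block L10: the degree is a quadratic function (helper81)
-/

set_option autoImplicit false

namespace Pool.Agent.VM.L10p

open scoped Classical
open Polynomial Pool.Agent.VM

noncomputable section

section pts
variable {R : Type*} [CommRing R] {W : WeierstrassCurve R}

theorem L10_xc_mp {P F K : Type*} [CommRing P] [Field F] [Field K] [Algebra R P] [Algebra R F]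
    [Algebra R K] [Algebra P F] [Algebra P K] [IsScalarTower R P F] [IsScalarTower R P K]
    (f : F →ₐ[P] K) (Q : Pt W F) : xc (mp f Q) = f (xc Q) := by
  rcases Q with _ | ⟨x, y, h⟩
  · exact (map_zero f).symm
  · rfl

theorem L10_yc_mp {P F K : Type*} [CommRing P] [Field F] [Field K] [Algebra R P] [Algebra R F]
    [Algebra R K] [Algebra P F] [Algebra P K] [IsScalarTower R P F] [IsScalarTower R P K]
    (f : F →ₐ[P] K) (Q : Pt W F) : yc (mp f Q) = f (yc Q) := by
  rcases Q with _ | ⟨x, y, h⟩
  · exact (map_zero f).symm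
  · rfl

theorem L10_mp_inj {P F K : Type*} [CommRing P] [Field F] [Field K] [Algebra R P] [Algebra R F]
    [Algebra R K] [Algebra P F] [Algebra P K] [IsScalarTower R P F] [IsScalarTower R P K]
    (f : F →ₐ[P] K) : Function.Injective (mp (W := W) f) :=
  WeierstrassCurve.Affine.Point.map_injective f

theorem L10_xc_neg {F : Type*} [Field F] [Algebra R F] (Q : Pt W F) : xc (-Q) = xc Q := by
  rcases Q with _ | ⟨x, y, h⟩
  · rfl
  · rfl

theorem L10_eq_or {F : Type*} [Field F] [Algebra R F] (P Q : Pt W F) (hP : P ≠ 0) (hQ : Q ≠ 0)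
    (h : xc P = xc Q) : P = Q ∨ P = -Q := by
  rcases P with _ | ⟨x, y, h1⟩
  · exact absurd rfl hP
  rcases Q with _ | ⟨x', y', h2⟩
  · exact absurd rfl hQ
  have hx : x = x' := h
  subst hx
  rcases WeierstrassCurve.Affine.Y_eq_of_X_eq h1.left h2.left rfl with h3 | h3
  · left
    subst h3
    rfl
  · right
    rw [WeierstrassCurve.Affine.Point.neg_some]
    subst h3
    rfl

end pts

/-- the curve equation of `SW` -/
theorem L10_eqn {R : Type*} [CommRing R] (a b : R) {F : Type*} [Field F] [Algebra R F]
    (P : Pt (SW a b) F) (hP : P ≠ 0) :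
    yc P ^ 2 = xc P ^ 3 + algebraMap R F a * xc P ^ 2 + algebraMap R F b := by
  rcases P with _ | ⟨x, y, h⟩
  · exact absurd rfl hP
  have h1 := (WeierstrassCurve.Affine.equation_iff _ _).1 h.left
  have h2 : y ^ 2 + algebraMap R F 0 * x * y + algebraMap R F 0 * y =
      x ^ 3 + algebraMap R F a * x ^ 2 + algebraMap R F 0 * x + algebraMap R F b := h1
  have h3 : y ^ 2 = x ^ 3 + algebraMap R F a * x ^ 2 + algebraMap R F b := by
    rw [map_zero] at h2
    linear_combination h2
  exact h3

/-- `2 P = 0` if and only if the second coordinate is zero -/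
theorem L10_two {R : Type*} [CommRing R] (a b : R) {F : Type*} [Field F] [Algebra R F]
    (P : Pt (SW a b) F) : (P + P = 0 → yc P = 0) ∨ (2 : F) = 0 := by
  by_cases h2 : (2 : F) = 0
  · exact Or.inr h2
  left
  intro h
  rcases P with _ | ⟨x, y, h1⟩
  · rfl
  have h3 : (WeierstrassCurve.Affine.Point.some x y h1 : Pt (SW a b) F) =
      -WeierstrassCurve.Affine.Point.some x y h1 := eq_neg_of_add_eq_zero_left h
  rw [WeierstrassCurve.Affine.Point.neg_some] at h3
  have h4 := (WeierstrassCurve.Affine.Point.some.injEq _ _ _ _ _ _).mp h3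
  have h5 : y = -y - algebraMap R F 0 * x - algebraMap R F 0 := h4.2
  rw [map_zero] at h5
  have h6 : (2 : F) * y = 0 := by linear_combination h5
  exact (mul_eq_zero.1 h6).resolve_left h2

section
variable {R : Type} [CommRing R] (a b : R) {K L M Λ k : Type} [Field K] [CharZero K] [Field L]
  [Field M] [Field Λ] [Field k]
  [IsAlgClosed Λ] [IsAlgClosed k] [Algebra K L] [Algebra L M] [Algebra K M] [IsScalarTower K L M]
  [FiniteDimensional L M] [Algebra L Λ] [Algebra K Λ] [IsScalarTower K L Λ] [Algebra K k]
  [Algebra k Λ] [IsScalarTower K k Λ] [Algebra.IsAlgebraic K k]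
  [Algebra R K] [Algebra R L] [Algebra R M] [Algebra R Λ] [IsScalarTower R K L]
  [IsScalarTower R K M] [IsScalarTower R K Λ] [IsScalarTower R L M] [IsScalarTower R L Λ]

/-- the local contribution -/
def hx (U : Option k → QV Λ) (P : Pt (SW a b) M) (x : Option k) : ℚ :=
  ∑ σ : M →ₐ[L] Λ, lam (U x) (mp σ P)

theorem hx_fin (S : L) (hS : Transcendental K S) (hL : IntermediateField.adjoin K {S} = ⊤)
    (U : Option k → QV Λ) (hU : ∀ x, Pl (algebraMap L Λ S) x (U x)) (P : Pt (SW a b) M) :
    (Function.support (hx (L := L) a b U P)).Finite := by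
  by_cases h0 : xc P = 0
  · have : hx (L := L) a b U P = 0 := by
      funext x
      rw [hx, Pi.zero_apply]
      refine Finset.sum_eq_zero fun σ _ => ?_
      rw [lam, L10_xc_mp, h0, map_zero, if_pos rfl]
    rw [this, Function.support_zero]
    exact Set.finite_empty
  · refine (pfM S hS hL U hU (xc P) h0).1.subset fun x hx' => ?_
    by_contra hc
    apply hx'
    rw [hx]
    refine Finset.sum_eq_zero fun σ _ => ?_
    have h1 : (U x).v (σ (xc P)) = 0 := by
      by_contra h2
      exact hc ⟨σ, h2⟩
    rw [lam, L10_xc_mp, h1]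
    split_ifs <;> simp

/-- the height is the degree -/
theorem hx_dg (hΔ : algebraMap R K (SW a b).Δ ≠ 0) (htr : Algebra.trdeg K M = 1)
    (S : L) (hS : Transcendental K S) (hL : IntermediateField.adjoin K {S} = ⊤)
    (U : Option k → QV Λ) (hU : ∀ x, Pl (algebraMap L Λ S) x (U x)) (P : Pt (SW a b) M) :
    ∑ᶠ x, hx (L := L) a b U P x = (dg K (cs P) : ℚ) := by
  by_cases h0 : xc P = 0
  · have h1 : ∀ x, hx (L := L) a b U P x = 0 := by
      intro x
      rw [hx]
      refine Finset.sum_eq_zero fun σ _ => ?_
      rw [lam, L10_xc_mp, h0, map_zero, if_pos rfl]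
    have h2 : dg K {xc P} = 0 := dg_alg htr _ fun x hx => by
      rw [Set.mem_singleton_iff.1 hx, h0]
      exact isAlgebraic_zero
    have h3 := dg_xc a b hΔ htr P
    have h4 : dg K (cs P) = 0 := by omega
    rw [h4]
    simp [h1]
  · have h1 : ∀ x, hx (L := L) a b U P x =
        (1 / 2 : ℚ) * ∑ σ : M →ₐ[L] Λ, max 0 (-(U x).v (σ (xc P))) := by
      intro x
      rw [hx, Finset.mul_sum]
      refine Finset.sum_congr rfl fun σ _ => ?_
      rw [lam, L10_xc_mp, if_neg ((_root_.map_ne_zero σ).2 h0)]
      ring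
    have h2 := HT0 S hS hL U hU (xc P) h0
    have h3 := dg_xc a b hΔ htr P
    rw [finsum_congr h1, ← mul_finsum, h2, h3]
    push_cast
    ring

/-- parallelogram law for the sum of local heights -/
theorem hx_par (hΔ : algebraMap R K (SW a b).Δ ≠ 0) (htr : Algebra.trdeg K M = 1)
    (S : L) (hS : Transcendental K S) (hL : IntermediateField.adjoin K {S} = ⊤)
    (U : Option k → QV Λ) (hU : ∀ x, Pl (algebraMap L Λ S) x (U x)) (P Q : Pt (SW a b) M) :
    ∑ᶠ x, hx (L := L) a b U (P + Q) x + ∑ᶠ x, hx (L := L) a b U (P - Q) x =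
      2 * ∑ᶠ x, hx (L := L) a b U P x + 2 * ∑ᶠ x, hx (L := L) a b U Q x := by
  have hKL : CharZero Λ := charZero_of_injective_algebraMap (algebraMap K Λ).injective
  have hKM : CharZero M := charZero_of_injective_algebraMap (algebraMap K M).injective
  have h2 : (2 : Λ) ≠ 0 := two_ne_zero
  have hu : ∀ x, ∀ r : R, algebraMap R Λ r ≠ 0 → (U x).v (algebraMap R Λ r) = 0 := by
    intro x r hr
    rw [IsScalarTower.algebraMap_apply R K Λ, IsScalarTower.algebraMap_apply K k Λ] at hr ⊢
    exact (hU x).triv _ fun h => hr (by rw [h, map_zero])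
  have hΔ' : algebraMap R Λ (SW a b).Δ ≠ 0 := by
    rw [IsScalarTower.algebraMap_apply R K Λ]
    exact (_root_.map_ne_zero _).2 hΔ
  have hz : ∀ x, hx (L := L) a b U (0 : Pt (SW a b) M) x = 0 := by
    intro x
    rw [hx]
    refine Finset.sum_eq_zero fun σ _ => ?_
    rw [map_zero]
    exact if_pos rfl
  have hneg : ∀ P : Pt (SW a b) M, ∀ x, hx (L := L) a b U (-P) x = hx (L := L) a b U P x := by
    intro P x
    rw [hx, hx]
    refine Finset.sum_congr rfl fun σ _ => ?_
    rw [map_neg, lam, lam, L10_xc_neg]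
  have hdbl : ∀ P : Pt (SW a b) M, ∑ᶠ x, hx (L := L) a b U (P + P) x =
      4 * ∑ᶠ x, hx (L := L) a b U P x := by
    intro P
    by_cases hP : P + P = 0
    · have h3 : yc P = 0 := ((L10_two a b P).resolve_right two_ne_zero) hP
      have h4 : dg K {xc P} = 0 := dg_alg htr _ fun x hx => by
        rw [Set.mem_singleton_iff.1 hx]
        by_cases hP0 : P = 0
        · rw [hP0]
          exact isAlgebraic_zero
        · have h5 := L10_eqn a b P hP0
          rw [h3] at h5
          refine ⟨X ^ 3 + C (algebraMap R K a) * X ^ 2 + C (algebraMap R K b), ?_, ?_⟩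
          · intro h6
            have h7 := congrArg (fun p => p.coeff 3) h6
            simp [coeff_X, coeff_C] at h7
          · simp only [map_add, map_mul, map_pow, aeval_X, aeval_C]
            rw [← IsScalarTower.algebraMap_apply R K M, ← IsScalarTower.algebraMap_apply R K M,
              ← h5]
            ring
      have h5 := dg_xc a b hΔ htr P
      have h6 : dg K (cs P) = 0 := by omega
      rw [hx_dg a b hΔ htr S hS hL U hU P, h6, hP, finsum_congr hz]
      simp
    · have hy : yc P ≠ 0 := by
        intro hy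
        apply hP
        rcases P with _ | ⟨x, y, h1⟩
        · exact absurd rfl hP
        · have hy' : y = 0 := hy
          refine WeierstrassCurve.Affine.Point.add_self_of_Y_eq ?_
          show y = -y - algebraMap R M 0 * x - algebraMap R M 0
          rw [map_zero, hy']
          ring
      have h3 := pfM S hS hL U hU (yc P) hy
      have h4 : ∀ x, hx (L := L) a b U (P + P) x =
          4 * hx (L := L) a b U P x + ∑ σ : M →ₐ[L] Λ, (U x).v (σ (yc P)) := by
        intro x
        rw [hx, hx, Finset.mul_sum, ← Finset.sum_add_distrib]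
        refine Finset.sum_congr rfl fun σ _ => ?_
        have h5 : mp σ P + mp σ P ≠ 0 := by
          rw [← map_add]
          intro h
          exact hP (L10_mp_inj σ (h.trans (map_zero _).symm))
        rw [map_add, LP2 a b (U x) (hu x) h2 hΔ' (mp σ P) h5, L10_yc_mp]
      rw [finsum_congr h4, finsum_add_distrib, ← mul_finsum, h3.2, add_zero]
      · refine (hx_fin a b S hS hL U hU P).subset fun x hx' => ?_
        intro h
        apply hx'
        simp only
        rw [h, mul_zero]
      · refine h3.1.subset fun x hx' => ?_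
        by_contra hc
        apply hx'
        refine Finset.sum_eq_zero fun σ _ => ?_
        by_contra h5
        exact hc ⟨σ, h5⟩
  by_cases hP : P = 0
  · subst hP
    rw [zero_add, zero_sub, finsum_congr (hneg Q), finsum_congr hz]
    simp only [finsum_zero]
    ring
  by_cases hQ : Q = 0
  · subst hQ
    rw [add_zero, sub_zero, finsum_congr hz]
    simp only [finsum_zero]
    ring
  by_cases h1 : P = Q
  · subst h1
    rw [sub_self, hdbl, finsum_congr hz]
    simp only [finsum_zero]
    ring
  by_cases h3 : P = -Q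
  · have h4 : Q = -P := by rw [h3, neg_neg]
    subst h4
    rw [add_neg_cancel, sub_neg_eq_add, hdbl, finsum_congr hz, finsum_congr (hneg P)]
    simp only [finsum_zero]
    ring
  have hne : xc P - xc Q ≠ 0 := by
    intro h
    rcases L10_eq_or P Q hP hQ (sub_eq_zero.1 h) with h4 | h4
    · exact h1 h4
    · exact h3 h4
  have hpf := pfM S hS hL U hU _ hne
  have hfa : (Function.support fun x => ∑ σ : M →ₐ[L] Λ, (U x).v (σ (xc P - xc Q))).Finite := by
    refine hpf.1.subset fun x hx' => ?_
    by_contra hc
    apply hx'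
    refine Finset.sum_eq_zero fun σ _ => ?_
    by_contra h5
    exact hc ⟨σ, h5⟩
  have hf : ∀ (c : ℚ) (P : Pt (SW a b) M),
      (Function.support fun x => c * hx (L := L) a b U P x).Finite := fun c P =>
    (hx_fin a b S hS hL U hU P).subset fun x hx' h => hx' (by
      simp only
      rw [h, mul_zero])
  have hmain : ∀ x, hx (L := L) a b U (P + Q) x + hx (L := L) a b U (P - Q) x =
      2 * hx (L := L) a b U P x + 2 * hx (L := L) a b U Q x +
        ∑ σ : M →ₐ[L] Λ, (U x).v (σ (xc P - xc Q)) := by
    intro x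
    rw [hx, hx, hx, hx, Finset.mul_sum, Finset.mul_sum, ← Finset.sum_add_distrib,
      ← Finset.sum_add_distrib, ← Finset.sum_add_distrib]
    refine Finset.sum_congr rfl fun σ _ => ?_
    have h5 : mp σ P ≠ 0 := fun h => hP (L10_mp_inj σ (h.trans (map_zero _).symm))
    have h6 : mp σ Q ≠ 0 := fun h => hQ (L10_mp_inj σ (h.trans (map_zero _).symm))
    have h7 : mp σ P ≠ mp σ Q := fun h => h1 (L10_mp_inj σ h)
    have h8 : mp σ P ≠ -mp σ Q := fun h => h3 (L10_mp_inj σ (h.trans (map_neg _ _).symm))
    rw [map_add, map_sub, LP a b (U x) (hu x) h2 hΔ' (mp σ P) (mp σ Q) h5 h6 h7 h8, L10_xc_mp,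
      L10_xc_mp, map_sub]
  have e1 : ∑ᶠ x, hx (L := L) a b U (P + Q) x + ∑ᶠ x, hx (L := L) a b U (P - Q) x =
      ∑ᶠ x, (hx (L := L) a b U (P + Q) x + hx (L := L) a b U (P - Q) x) :=
    (finsum_add_distrib (hx_fin a b S hS hL U hU _) (hx_fin a b S hS hL U hU _)).symm
  rw [e1, finsum_congr hmain, finsum_add_distrib, finsum_add_distrib, ← mul_finsum, ← mul_finsum,
    hpf.2, add_zero]
  · exact hf 2 P
  · exact hf 2 Q
  · exact ((hf 2 P).union (hf 2 Q)).subset (Function.support_add _ _)
  · exact hfa

end

/-- L10: HQ -/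
theorem HQ' {R : Type} [CommRing R] (a b : R) {K M : Type} [Field K] [CharZero K] [Field M]
    [Algebra K M] [Algebra R K] [Algebra R M] [IsScalarTower R K M]
    (hΔ : algebraMap R K (SW a b).Δ ≠ 0)
    (hfg : (⊤ : IntermediateField K M).FG) (htr : Algebra.trdeg K M = 1) (P Q : Pt (SW a b) M) :
    dg K (cs (P + Q)) + dg K (cs (P - Q)) = 2 * dg K (cs P) + 2 * dg K (cs Q) := by
  obtain ⟨S, hS, hfin⟩ := exists_S hfg htr
  set L : IntermediateField K M := IntermediateField.adjoin K {S} with hLdef
  have hfin' : FiniteDimensional L M := hfin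
  set Λ := AlgebraicClosure M with hΛ
  set k : IntermediateField K Λ := algebraicClosure K Λ with hk
  have hkc : IsAlgClosed k := IsAlgClosure.isAlgClosed K
  have ht1 : IsScalarTower R L M := IsScalarTower.of_algebraMap_eq fun r => rfl
  have ht2 : IsScalarTower R L Λ := IsScalarTower.of_algebraMap_eq fun r => by
    rw [IsScalarTower.algebraMap_apply R M Λ, IsScalarTower.algebraMap_apply L M Λ,
      IsScalarTower.algebraMap_apply R L M]
  set S' : L := ⟨S, IntermediateField.mem_adjoin_simple_self K S⟩ with hS'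
  have hSL : Transcendental K S' := by
    intro h
    exact hS (h.algebraMap (A := M))
  have hL : IntermediateField.adjoin K {S'} = ⊤ := by
    apply IntermediateField.map_injective L.val
    rw [IntermediateField.adjoin_map, Set.image_singleton, ← AlgHom.fieldRange_eq_map,
      IntermediateField.fieldRange_val]
    rfl
  have hSΛ : Transcendental K (algebraMap L Λ S') := by
    rw [transcendental_algebraMap_iff (algebraMap L Λ).injective]
    exact hSL
  have hSk : Transcendental k (algebraMap L Λ S') := by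
    intro h
    exact hSΛ (h.restrictScalars K)
  have halg : Algebra.IsAlgebraic (IntermediateField.adjoin k {algebraMap L Λ S'}) Λ := by
    have h1 : ∀ y : L, algebraMap L Λ y ∈ IntermediateField.adjoin k {algebraMap L Λ S'} := by
      intro y
      have h2 : y ∈ IntermediateField.adjoin K {S'} := by
        rw [hL]
        exact IntermediateField.mem_top
      have h3 : (IntermediateField.adjoin K {S'}).map (IsScalarTower.toAlgHom K L Λ) ≤
          (IntermediateField.adjoin k {algebraMap L Λ S'}).restrictScalars K := by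
        rw [IntermediateField.adjoin_map, Set.image_singleton, IntermediateField.adjoin_le_iff]
        intro z hz
        rw [Set.mem_singleton_iff.1 hz]
        exact IntermediateField.mem_adjoin_simple_self k _
      exact h3 ⟨y, h2, rfl⟩
    have h4 : Algebra.IsAlgebraic L Λ := Algebra.IsAlgebraic.trans L M Λ
    let f : L →+* IntermediateField.adjoin k {algebraMap L Λ S'} :=
      (algebraMap L Λ).codRestrict _ h1
    refine ⟨fun y => ?_⟩
    obtain ⟨p, hp0, hp⟩ := h4.isAlgebraic y
    refine ⟨p.map f, (Polynomial.map_ne_zero_iff f.injective).2 hp0, ?_⟩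
    rw [aeval_def, eval₂_map]
    exact hp
  choose U hU using fun x => pl_exists (k := k) (algebraMap L Λ S') hSk halg x
  have h := hx_par (L := L) (k := k) (Λ := Λ) a b hΔ htr S' hSL hL U hU P Q
  rw [hx_dg a b hΔ htr S' hSL hL U hU, hx_dg a b hΔ htr S' hSL hL U hU,
    hx_dg a b hΔ htr S' hSL hL U hU, hx_dg a b hΔ htr S' hSL hL U hU] at h
  exact_mod_cast h

end

end Pool.Agent.VM.L10p

namespace Pool.Agent.VM

export L10p (HQ')

end Pool.Agent.VM
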